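import Mathlib
import Pool.Agent.TH117.BL.Defs

/-!
# The Tate conjecture for abelian varieties over finite fields: the exact reach of the theorems of
Tate and Markman: definitions

The abelian varieties over the field with `q = p ^ a` elements are the `Z : RedAV p ν` (reductions of
abelian varieties of CM type; Honda, Tate), with Frobenius eigenvalues `eig Z w`, `w : Emb Z`.
-/

set_option autoImplicit false

namespace Pool.Agent.K4H21.TF

open NumberField Pool.Agent.H204R3.CM Pool.Agent.W547.KB Pool.Agent.W495.TA Pool.Agent.TH117.BL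

noncomputable section

variable {p : ℕ} [Fact p.Prime] {ν : PadicAlgCl p ≃+* ℂ}

/-- The complex number `α` has, at all `p`-adic places, the valuations which the formula of Shimura and
Taniyama gives for the conjugate `φ (ϖ)` of the Frobenius endomorphism `ϖ`, over the field with `p ^ a`
elements, of the reduction of the abelian variety with complex multiplication `A`. -/
def HasSlopes (p : ℕ) [Fact p.Prime] (ν : PadicAlgCl p ≃+* ℂ) (A : CMPair) (φ : A.E →+* ℂ) (a : ℕ)
    (α : ℂ) : Prop :=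
  ∀ τ : ℂ ≃+* ℂ,
    ‖ν.symm (τ α)‖ ^ Nat.card {φ' : A.E →+* ℂ // SamePlace p ν ((τ : ℂ →+* ℂ).comp φ) φ'} =
      ‖(p : PadicAlgCl p) ^ a‖ ^
        Nat.card {φ' : A.E →+* ℂ // SamePlace p ν ((τ : ℂ →+* ℂ).comp φ) φ' ∧ φ' ∈ A.Φ}

open Classical in
/-- The element `[w]` of the free abelian group on the eigenvalues. -/
def ind {W : Type} (w : W) : W → ℤ := fun w' => if w' = w then 1 else 0

open Classical in
/-- The generators of the group of relations.

* `[w] + [w']` if the product of the two eigenvalues is `q` up to a root of unity;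
* `[w]` if the eigenvalue is a square root of `q` up to a root of unity;
* the sum of the `[θ φ]` over the embeddings `φ` of the field of a CM type `A` with `φ δ = z`, if
  `δ = √-d` is an element of this field with multiplicities at most three on the tangent space of `A`
  and the eigenvalues `θ φ` belong to the reduction of `A`. -/
inductive IsGenerator (Z : RedAV p ν) : (Emb Z → ℤ) → Prop
  | pair (w w' : Emb Z) (n : ℕ) (hn : 0 < n)
      (h : (eig Z w * eig Z w') ^ n = ((p : ℂ) ^ Z.a) ^ n) : IsGenerator Z (ind w + ind w')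
  | super (w : Emb Z) (n : ℕ) (hn : 0 < n)
      (h : (eig Z w) ^ (2 * n) = ((p : ℂ) ^ Z.a) ^ n) : IsGenerator Z (ind w)
  | weil (A : CMPair) (δ : A.E) (d : ℚ) (hd : 0 < d) (hδ : δ * δ = -(d : A.E))
      (hm : ∀ u : ℂ, {φ ∈ A.Φ | φ δ = u}.encard ≤ 3) (θ : (A.E →+* ℂ) → Emb Z)
      (hθ : ∀ φ, HasSlopes p ν A φ Z.a (eig Z (θ φ))) (z : ℂ) :
      IsGenerator Z (∑ φ : A.E →+* ℂ, if φ δ = z then ind (θ φ) else 0)

/-- The group which is generated by the trivial relations and by the sums which belong to the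
imaginary quadratic fields. -/
def Gen (Z : RedAV p ν) : AddSubgroup (Emb Z → ℤ) := AddSubgroup.closure {e | IsGenerator Z e}

/-- A multiplicative relation between the Frobenius eigenvalues and `q`, up to roots of unity: the sum
of the exponents is even, and the product of the eigenvalues is the power of `q` with half of this
sum as exponent, up to a root of unity. -/
def IsRelation (Z : RedAV p ν) (e : Emb Z → ℤ) : Prop :=
  ∃ (m : ℤ) (n : ℕ), 0 < n ∧ ∑ w, e w = 2 * m ∧
    (∏ w, eig Z w ^ e w) ^ n = (((p : ℂ) ^ Z.a) ^ m) ^ n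

/-- The factors of `Y` are (over an algebraic closure) isogenous to powers of factors of `Z`. -/
def IsPowersOf (Z Y : RedAV p ν) : Prop :=
  ∀ i : Y.X.I, ∃ (k : Z.X.I) (ι : (Z.X.factor k).E →+* (Y.X.factor i).E) (s t : ℕ), 0 < s ∧ 0 < t ∧
    Y.a * s = Z.a * t ∧ (Y.π i) ^ s = ι ((Z.π k) ^ t)

/-- The slope function of an embedding of the field of a CM type. -/
def slf (p : ℕ) [Fact p.Prime] (ν : PadicAlgCl p ≃+* ℂ) (A : CMPair) (φ : A.E →+* ℂ) :
    (ℂ ≃+* ℂ) → ℚ :=
  fun τ => (Nat.card {φ' : A.E →+* ℂ // SamePlace p ν ((τ : ℂ →+* ℂ).comp φ) φ' ∧ φ' ∈ A.Φ} : ℚ) /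
    (Nat.card {φ' : A.E →+* ℂ // SamePlace p ν ((τ : ℂ →+* ℂ).comp φ) φ'} : ℚ)

/-- Systems of integers modulo `N`, attached to the slope functions, which vanish on the generators. -/
structure Wgt (p : ℕ) [Fact p.Prime] (ν : PadicAlgCl p ≃+* ℂ) (N : ℕ)
    (y : ((ℂ ≃+* ℂ) → ℚ) → ℤ) : Prop where
  pos : 0 < N
  pair : ∀ (A A' : CMPair) (φ : A.E →+* ℂ) (φ' : A'.E →+* ℂ),
    (∀ τ, slf p ν A φ τ + slf p ν A' φ' τ = 1) → (N : ℤ) ∣ y (slf p ν A φ) + y (slf p ν A' φ')
  weil : ∀ (A : CMPair) (δ : A.E) (d : ℚ) (z : ℂ), 0 < d → δ * δ = -(d : A.E) →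
    (∀ u : ℂ, {φ ∈ A.Φ | φ δ = u}.encard ≤ 3) →
      (N : ℤ) ∣ ∑ φ ∈ Finset.univ.filter (fun φ : A.E →+* ℂ => φ δ = z), y (slf p ν A φ)

end

end Pool.Agent.K4H21.TF
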