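import Mathlib
import Pool.Agent.K4H21.TF.Defs
import Pool.Agent.TH117.BL.Main
import Pool.Agent.K4H21.DB.Defs

/-!
# The parts of the proof
-/

set_option autoImplicit false

namespace Pool.Agent.K4H21.TF

open NumberField Pool.Agent.H204R3.CM Pool.Agent.W547.KB Pool.Agent.W547.LD Module
  Pool.Agent.W495.TA Pool.Agent.W495.TB Pool.Agent.W495.TC Pool.Agent.TH117.BL
open scoped TensorProduct

noncomputable section

instance finite_wtC {K : Type} [Field K] [CharZero K] [IsAlgClosed K] (X : CMAV) :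
    Finite (Wt X K) := by
  have : ∀ i, Finite ((X.factor i).E →+* K) := fun i => by
    have e : ((X.factor i).E →+* K) ≃ ((X.factor i).E →ₐ[ℚ] K) :=
      RingHom.equivRatAlgHom _ _
    exact Finite.of_equiv _ e.symm
  exact inferInstanceAs (Finite (Σ i, (X.factor i).E →+* K))

/-- Piece A: the slope function in terms of a Galois CM field. -/
def S_slf : Prop :=
  ∀ (p : ℕ) [Fact p.Prime] (ν : PadicAlgCl p ≃+* ℂ) (L : Type) [Field L] [NumberField L]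
    [IsCMField L] [IsGalois ℚ L] (j : L →+* ℂ) (A : CMPair) (φ : A.E →+* L) (τ : ℂ ≃+* ℂ)
    (σ : L ≃ₐ[ℚ] L) (_ : ∀ x, τ (j x) = j (σ x)),
    2 * (Nat.card (Dec p ν j) : ℚ) * slf p ν A (j.comp φ) τ =
      (Nat.card (Dec p ν j) : ℚ) + ((tf p ν j (hs A j φ) σ : ℤ) : ℚ)

/-- Piece B: characters. -/
def S_chr : Prop :=
  ∀ (p : ℕ) [Fact p.Prime] (ν : PadicAlgCl p ≃+* ℂ) (Z : RedAV p ν) (e : Emb Z → ℤ) (_ : e ∉ Gen Z),
    ∃ (N : ℕ) (y : ((ℂ ≃+* ℂ) → ℚ) → ℤ), Wgt p ν N y ∧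
      ¬ (N : ℤ) ∣ ∑ w, e w * y (slf p ν (Z.X.factor w.1) w.2)

/-- Piece D: the weights of Weil classes. -/
def S_wt : Prop :=
  ∀ (p : ℕ) [Fact p.Prime] (ν : PadicAlgCl p ≃+* ℂ) (N : ℕ) (y : ((ℂ ≃+* ℂ) → ℚ) → ℤ)
    (_ : Wgt p ν N y) (X : CMAV) (n : ℕ) (_ : n = 4 ∨ n = 6) (f : X.H1 [⋀^Fin n]→ₗ[ℚ] ℚ)
    (_ : IsSplitWeilClass X n f) [Fintype (Wt X ℂ)] (c : (Fin n → Wt X ℂ) → ℂ)
    (_ : ∀ v : Fin n → X.H1, ((f v : ℚ) : ℂ) = ∑ I, c I * ∏ k, ev (v k) (I k))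
    (I : Fin n → Wt X ℂ) (_ : c I ≠ 0),
    (N : ℤ) ∣ ∑ k, y (slf p ν (X.factor (I k).1) (I k).2)

/-- Piece C: all classes in `Alg` are fixed by the operator. -/
def S_fix : Prop :=
  S_wt → ∀ (p : ℕ) [Fact p.Prime] (ν : PadicAlgCl p ≃+* ℂ) (N : ℕ) (y : ((ℂ ≃+* ℂ) → ℚ) → ℤ)
    (_ : Wgt p ν N y) (Ω : Type) [Field Ω] [IsAlgClosed Ω] [CharZero Ω]
    (K : Type) [Field K] [CharZero K] [IsAlgClosed K] [Algebra.IsAlgebraic ℚ K] (j : K →+* ℂ)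
    (jO : K →+* Ω) (ζ : Ω) (_ : ζ ^ N = 1) (Y : RedAV p ν) (κ : Type) [Finite κ]
    (f : (TM Ω Y) [⋀^κ]→ₗ[Ω] Ω) (_ : Alg Ω Y κ f) (O : TM Ω Y →ₗ[Ω] TM Ω Y)
    (_ : ∀ (w : Wt Y.X K) (v : TM Ω Y), co jO w (O v) =
      ζ ^ (y (slf p ν (Y.X.factor w.1) (j.comp w.2))) * co jO w v) (v : κ → TM Ω Y),
    f (fun k => O (v k)) = f v

/-- Piece A2: relations between the eigenvalues. -/
def S_rel : Prop :=
  ∀ (p : ℕ) [Fact p.Prime] (ν : PadicAlgCl p ≃+* ℂ) (L : Type) [Field L] [NumberField L]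
    [IsCMField L] [IsGalois ℚ L] (j : L →+* ℂ) (Z : RedAV p ν) (_ : Big Z.X j)
    [Fintype (Wt Z.X L)] (e : Emb Z → ℤ),
    IsRelation Z e ↔ Even (∑ w, e w) ∧
      ∀ σ, ∑ w : Wt Z.X L, e (toEmb j Z w) * tw p ν j Z.X w σ = 0

/-- Piece E: the negative direction. -/
def S_neg : Prop :=
  S_chr → S_fix → S_wt → S_rel →
  ∀ (p : ℕ) [Fact p.Prime] (ν : PadicAlgCl p ≃+* ℂ) (Z : RedAV p ν) (e : Emb Z → ℤ)
    (_ : IsRelation Z e) (_ : e ∉ Gen Z) (Ω : Type) [Field Ω] [IsAlgClosed Ω] [CharZero Ω],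
    ∃ (Y : RedAV p ν) (s m : ℕ) (f : (TM Ω Y) [⋀^Fin (2 * m)]→ₗ[Ω] Ω), IsPowersOf Z Y ∧ 0 < s ∧
      IsTateClass Ω Y s m f ∧ ¬ Alg Ω Y (Fin (2 * m)) f

/-- The functions which belong to one imaginary quadratic field and one CM type, with multiplicities at
most three. -/
inductive IsW (p : ℕ) [Fact p.Prime] (ν : PadicAlgCl p ≃+* ℂ) {L : Type} [Field L] [NumberField L]
    [IsCMField L] [IsGalois ℚ L] (j : L →+* ℂ) : (((L ≃ₐ[ℚ] L) → ℤ) → ℤ) → Prop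
  | mk (N : Subgroup (L ≃ₐ[ℚ] L)) (hN : IsImag N) (S : Set (L ≃ₐ[ℚ] L)) (hS : IsHalf S)
      (hst : stab S ≤ N) (h1 : Nat.card {k : Orb N (fun _ : Unit => S) // 1 ∈ k.2.1} ≤ 3)
      (h2 : Nat.card {k : Orb N (fun _ : Unit => S) // 1 ∉ k.2.1} ≤ 3) :
      IsW p ν j (dcnt fun k : Orb N (fun _ : Unit => S) => tf p ν j k.2.1)

/-- Piece F: the generators in terms of functions on the Galois group. -/
def S_posA : Prop :=
  S_slf →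
  ∀ (p : ℕ) [Fact p.Prime] (ν : PadicAlgCl p ≃+* ℂ) (Z : RedAV p ν) (e : Emb Z → ℤ) (_ : e ∈ Gen Z),
    ∃ X : CMAV, ∀ (L : Type) [Field L] [NumberField L] [IsCMField L] [IsGalois ℚ L] (j : L →+* ℂ),
      Big X j → Big Z.X j → ∀ [Fintype (Wt Z.X L)],
      DD (tw p ν j Z.X) (fun w => e (toEmb j Z w)) ∈
        AddSubgroup.closure {d : ((L ≃ₐ[ℚ] L) → ℤ) → ℤ | IsW p ν j d}

/-- Piece G: families of functions. -/
def S_posB : Prop :=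
  ∀ (p : ℕ) [Fact p.Prime] (ν : PadicAlgCl p ≃+* ℂ) (Ω : Type) [Field Ω] [IsAlgClosed Ω] [CharZero Ω]
    (L : Type) [Field L] [NumberField L] [IsCMField L] [IsGalois ℚ L] (j : L →+* ℂ)
    (jO : L →+* Ω) (_ : BigA (kp p) j) (κ : Type) [Fintype κ] (S : κ → Set (L ≃ₐ[ℚ] L))
    (_ : ∀ k, IsHalf (S k)) (_ : Even (Fintype.card κ)) (_ : ∀ σ, ∑ k, tf p ν j (S k) σ = 0)
    (_ : dcnt (fun k => tf p ν j (S k)) ∈
        AddSubgroup.closure {d : ((L ≃ₐ[ℚ] L) → ℤ) → ℤ | IsW p ν j d}),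
    AlgM p ν j jO κ fun k => tf p ν j (S k)

end

end Pool.Agent.K4H21.TF
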