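import Mathlib
import Pool.Agent.K4H21.TF.Stms
import Pool.Agent.H977R3.CM.Aut

/-!
# The generators in terms of functions on the Galois group
-/

set_option autoImplicit false
set_option linter.unusedSectionVars false
set_option linter.unusedVariables false

namespace Pool.Agent.K4H21.TF

open NumberField Pool.Agent.H204R3.CM Pool.Agent.W547.KB Pool.Agent.W547.LD Module
  Pool.Agent.W495.TA Pool.Agent.W495.TB Pool.Agent.W495.TC Pool.Agent.TH117.BL
  Pool.Agent.TH117.F5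
open scoped TensorProduct

noncomputable section

namespace PosA

section small

variable {p : ℕ} [Fact p.Prime] {ν : PadicAlgCl p ≃+* ℂ} {L : Type} [Field L] [NumberField L]
  [IsCMField L] [IsGalois ℚ L] {j : L →+* ℂ}

/-- The function of an eigenvalue with given slopes. -/
theorem tw_eq (hslf : S_slf) {Z : RedAV p ν} (hZ : Big Z.X j) (A : CMPair) (φ : A.E →+* L)
    (w : Wt Z.X L) (h : HasSlopes p ν A (j.comp φ) Z.a (eig Z (toEmb j Z w))) :
    tw p ν j Z.X w = tf p ν j (hs A j φ) := by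
  funext σ
  obtain ⟨τ, hτ⟩ := Pool.Agent.H977R3.CM.exists_aut j (σ : L ≃+* L)
  have h1 := h τ
  have h2 := hslf p ν L j A φ τ σ hτ
  have h3 := norm_pow_two_card hZ w σ
  have h4 : τ (eig Z (toEmb j Z w)) = j (σ (w.2 (Z.π w.1))) := hτ _
  rw [h4] at h1
  unfold slf at h2
  have hfin : Finite {φ' : A.E →+* ℂ // SamePlace p ν ((τ : ℂ →+* ℂ).comp (j.comp φ)) φ'} :=
    Subtype.finite
  have hm0 : 0 < Nat.card {φ' : A.E →+* ℂ // SamePlace p ν ((τ : ℂ →+* ℂ).comp (j.comp φ)) φ'} :=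
    Nat.card_pos_iff.2 ⟨⟨⟨_, 1, fun x => (ν.apply_symm_apply _).symm⟩⟩, hfin⟩
  generalize Nat.card {φ' : A.E →+* ℂ // SamePlace p ν ((τ : ℂ →+* ℂ).comp (j.comp φ)) φ'} = m
    at h1 h2 hm0
  generalize Nat.card {φ' : A.E →+* ℂ // SamePlace p ν ((τ : ℂ →+* ℂ).comp (j.comp φ)) φ' ∧
    φ' ∈ A.Φ} = n at h1 h2
  generalize Nat.card (Dec p ν j) = D at h2 h3
  generalize tf p ν j (hs A j φ) σ = t at h2 ⊢
  generalize tw p ν j Z.X w σ = t' at h3 ⊢
  generalize ‖ν.symm (j (σ (w.2 (Z.π w.1))))‖ = x at h1 h3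
  rw [norm_pow, ← pow_mul] at h1
  have h6 : (x ^ (2 * (D : ℤ))) ^ (m : ℤ) =
      ‖(p : PadicAlgCl p)‖ ^ (((Z.a * n : ℕ) : ℤ) * (2 * (D : ℤ))) := by
    have e1 : (2 * (D : ℤ)) = ((2 * D : ℕ) : ℤ) := by push_cast; rfl
    have e2 : (x ^ (2 * (D : ℤ))) ^ (m : ℤ) = (x ^ m) ^ (2 * D) := by
      rw [e1, zpow_natCast, zpow_natCast, ← pow_mul, ← pow_mul, mul_comm]
    rw [e2, h1, ← pow_mul, ← zpow_natCast]
    congr 1
  rw [h3, ← zpow_mul] at h6
  have h7 := zpow_inj h6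
  have h8 : 2 * (D : ℤ) * n = m * (D + t) := by
    have hm1 : (m : ℚ) ≠ 0 := by exact_mod_cast hm0.ne'
    have h9 : 2 * (D : ℚ) * n = m * (D + t) := by
      rw [← h2]
      field_simp
    exact_mod_cast h9
  push_cast at h7
  have ha : (Z.a : ℤ) ≠ 0 := by exact_mod_cast Z.pos.ne'
  have hm1 : (m : ℤ) ≠ 0 := by exact_mod_cast hm0.ne'
  have h10 : (Z.a : ℤ) * m * ((D + t') - (D + t)) = 0 := by
    have h11 : (Z.a : ℤ) * (m * (D + t)) = Z.a * (2 * D * n) := by rw [h8]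
    linarith
  have h12 := (mul_eq_zero.1 h10).resolve_left (mul_ne_zero ha hm1)
  linarith

theorem DD_rel {Z : RedAV p ν} (hZ : Big Z.X j) [Fintype (Wt Z.X L)] (e : Emb Z → ℕ)
    (he : ∑ v, e v ≤ 2) (h : IsRel Z e) :
    DD (tw p ν j Z.X) (fun v => ((e (toEmb j Z v) : ℕ) : ℤ)) = 0 := by
  refine DD_small (tw p ν j Z.X) (fun v => e (toEmb j Z v)) ?_ ((isRel_iff hZ e).1 h)
  have h1 := Equiv.sum_comp (Equiv.ofBijective _ (toEmb_bijective (j := j) hZ)) e
  refine le_trans (le_of_eq ?_) he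
  rw [← h1]
  rfl

theorem DD_pair {Z : RedAV p ν} (hZ : Big Z.X j) [Fintype (Wt Z.X L)] (w w' : Emb Z) (n : ℕ)
    (hn : 0 < n) (h : (eig Z w * eig Z w') ^ n = ((p : ℂ) ^ Z.a) ^ n) :
    DD (tw p ν j Z.X) (fun v => (ind w + ind w') (toEmb j Z v)) = 0 := by
  classical
  let e : Emb Z → ℕ := fun v => (if v = w then 1 else 0) + (if v = w' then 1 else 0)
  have e2 : ∑ v, e v = 2 := by
    simp only [e, Finset.sum_add_distrib, Finset.sum_ite_eq', Finset.mem_univ, if_true]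
  have h1 : IsRel Z e := by
    refine ⟨n, hn, ?_⟩
    have e1 : ∏ v, eig Z v ^ e v = eig Z w * eig Z w' := by
      simp only [e, pow_add, Finset.prod_mul_distrib, pow_ite, pow_one, pow_zero,
        Finset.prod_ite_eq', Finset.mem_univ, if_true]
    rw [e1, e2, pow_mul', h, ← pow_mul]
  have h2 := DD_rel hZ e (by rw [e2]) h1
  rw [← h2]
  congr 1
  funext v
  generalize toEmb j Z v = v'
  change ind w v' + ind w' v' = (((if v' = w then 1 else 0) + (if v' = w' then 1 else 0) : ℕ) : ℤ)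
  unfold ind
  by_cases c1 : v' = w <;> by_cases c2 : v' = w' <;> simp [c1, c2]

theorem DD_super {Z : RedAV p ν} (hZ : Big Z.X j) [Fintype (Wt Z.X L)] (w : Emb Z) (n : ℕ)
    (hn : 0 < n) (h : (eig Z w) ^ (2 * n) = ((p : ℂ) ^ Z.a) ^ n) :
    DD (tw p ν j Z.X) (fun v => (ind w) (toEmb j Z v)) = 0 := by
  classical
  let e : Emb Z → ℕ := fun v => (if v = w then 1 else 0)
  have e2 : ∑ v, e v = 1 := by
    simp only [e, Finset.sum_ite_eq', Finset.mem_univ, if_true]
  have h1 : IsRel Z e := by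
    refine ⟨n, hn, ?_⟩
    have e1 : ∏ v, eig Z v ^ e v = eig Z w := by
      simp only [e, pow_ite, pow_one, pow_zero, Finset.prod_ite_eq', Finset.mem_univ, if_true]
    rw [e1, e2, h, mul_one]
  have h2 := DD_rel hZ e (by rw [e2]; norm_num) h1
  rw [← h2]
  congr 1
  funext v
  generalize toEmb j Z v = v'
  change ind w v' = (((if v' = w then 1 else 0) : ℕ) : ℤ)
  unfold ind
  by_cases c1 : v' = w <;> simp [c1]

theorem tf_compl (S : Set (L ≃ₐ[ℚ] L)) : tf p ν j Sᶜ = -tf p ν j S := by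
  classical
  funext σ
  unfold tf
  rw [Pi.neg_apply, ← Finset.sum_neg_distrib]
  refine Finset.sum_congr rfl fun d _ => ?_
  by_cases hd : d ∈ Dec p ν j
  · rw [if_pos hd, if_pos hd]
    by_cases h : d * σ ∈ S
    · rw [if_pos h, if_neg (fun h' => h' h)]
    · rw [if_neg h, if_pos (show d * σ ∈ Sᶜ from h), neg_neg]
  · rw [if_neg hd, if_neg hd, neg_zero]

end small

section weil

variable {p : ℕ} [Fact p.Prime] {ν : PadicAlgCl p ≃+* ℂ} {L : Type} [Field L] [NumberField L]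
  [IsCMField L] [IsGalois ℚ L] {j : L →+* ℂ} (A : CMPair) (δ : A.E)

/-- The embeddings with a given value at `δ`. -/
abbrev Psi (L : Type) [Field L] (j : L →+* ℂ) (A : CMPair) (δ : A.E) (z : ℂ) : Type :=
  {φ : A.E →+* L // j (φ δ) = z}

theorem finite_hom : Finite (A.E →+* L) := by
  have hinj : Function.Injective (fun φ : A.E →+* L => (Classical.choice
      (inferInstance : Nonempty (L →+* ℂ))).comp φ) := by
    intro φ φ' h
    ext a
    exact (Classical.choice (inferInstance : Nonempty (L →+* ℂ))).injective (RingHom.congr_fun h a)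
  exact Finite.of_injective _ hinj

theorem DD_eq_dcnt (hslf : S_slf) {Z : RedAV p ν} (hZ : Big Z.X j) [Fintype (Wt Z.X L)]
    (hA : BigA A j) (θ : (A.E →+* ℂ) → Emb Z)
    (hθ : ∀ φ, HasSlopes p ν A φ Z.a (eig Z (θ φ))) (z : ℂ) :
    DD (tw p ν j Z.X) (fun v => (∑ φ : A.E →+* ℂ, if φ δ = z then ind (θ φ) else 0)
      (toEmb j Z v)) = dcnt (fun φ : Psi L j A δ z => tf p ν j (hs A j φ.1)) := by
  classical
  have hfin : Finite (A.E →+* L) := finite_hom A
  have _ : Fintype (A.E →+* L) := Fintype.ofFinite _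
  let EZ : Wt Z.X L ≃ Emb Z := Equiv.ofBijective _ (toEmb_bijective (j := j) hZ)
  let EA : (A.E →+* L) ≃ (A.E →+* ℂ) := Equiv.ofBijective (fun φ => j.comp φ) (by
    constructor
    · intro φ φ' h
      ext a
      exact j.injective (RingHom.congr_fun h a)
    · exact hA)
  have htw : ∀ φ : A.E →+* L, tw p ν j Z.X (EZ.symm (θ (j.comp φ))) = tf p ν j (hs A j φ) := by
    intro φ
    refine tw_eq hslf hZ A φ _ ?_
    have h1 : toEmb j Z (EZ.symm (θ (j.comp φ))) = θ (j.comp φ) := EZ.apply_symm_apply _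
    rw [h1]
    exact hθ _
  funext f
  have hR : ∀ f : (L ≃ₐ[ℚ] L) → ℤ,
      (Nat.card {φ : Psi L j A δ z // tf p ν j (hs A j φ.1) = f} : ℤ) =
      ∑ φ : A.E →+* L, if j (φ δ) = z then (if tf p ν j (hs A j φ) = f then 1 else 0) else 0 := by
    intro f
    have h1 : Nat.card {φ : Psi L j A δ z // tf p ν j (hs A j φ.1) = f} =
        Nat.card {φ : A.E →+* L // j (φ δ) = z ∧ tf p ν j (hs A j φ) = f} :=
      Nat.card_congr (Equiv.subtypeSubtypeEquivSubtypeInter (fun φ : A.E →+* L => j (φ δ) = z)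
        (fun φ : A.E →+* L => tf p ν j (hs A j φ) = f))
    rw [h1, card_eq_sum]
    refine Finset.sum_congr rfl fun φ _ => ?_
    by_cases c1 : j (φ δ) = z <;> by_cases c2 : tf p ν j (hs A j φ) = f <;> simp [c1, c2]
  unfold dcnt
  rw [hR f, hR (-f), ← Finset.sum_sub_distrib]
  set g : Wt Z.X L → ℤ := fun l => (if tw p ν j Z.X l = f then 1 else 0) -
    (if tw p ν j Z.X l = -f then 1 else 0) with hg
  have hDD : ∀ e : Wt Z.X L → ℤ, DD (tw p ν j Z.X) e f = ∑ l, e l * g l := by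
    intro e
    unfold DD
    refine Finset.sum_congr rfl fun l _ => ?_
    rw [hg]
    congr!
  rw [hDD]
  have h2 : ∀ l, (∑ φ : A.E →+* ℂ, if φ δ = z then ind (θ φ) else 0) (toEmb j Z l) * g l =
      ∑ φ : A.E →+* L, (if j (φ δ) = z then ind (θ (j.comp φ)) (toEmb j Z l) else 0) * g l := by
    intro l
    rw [← Finset.sum_mul, ← Equiv.sum_comp EA, Finset.sum_apply]
    congr 1
    refine Finset.sum_congr rfl fun φ _ => ?_
    change (if j (φ δ) = z then ind (θ (j.comp φ)) else 0) (toEmb j Z l) = _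
    by_cases c1 : j (φ δ) = z
    · rw [if_pos c1, if_pos c1]
    · rw [if_neg c1, if_neg c1]
      rfl
  have h3 : ∑ l, (∑ φ : A.E →+* ℂ, if φ δ = z then ind (θ φ) else 0) (toEmb j Z l) * g l =
      ∑ φ : A.E →+* L, ∑ l, (if j (φ δ) = z then ind (θ (j.comp φ)) (toEmb j Z l) else 0) *
        g l := by
    rw [Finset.sum_congr rfl fun l _ => h2 l, Finset.sum_comm]
  refine h3.trans (Finset.sum_congr rfl fun φ _ => ?_)
  by_cases c1 : j (φ δ) = z
  · simp only [if_pos c1]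
    rw [Finset.sum_eq_single (EZ.symm (θ (j.comp φ)))]
    · have h4 : ind (θ (j.comp φ)) (toEmb j Z (EZ.symm (θ (j.comp φ)))) = 1 := by
        have h1 : toEmb j Z (EZ.symm (θ (j.comp φ))) = θ (j.comp φ) := EZ.apply_symm_apply _
        rw [h1]
        unfold ind
        rw [if_pos rfl]
      rw [h4, one_mul, hg]
      simp only [htw]
    · intro l _ hl
      have h4 : ind (θ (j.comp φ)) (toEmb j Z l) = 0 := by
        unfold ind
        rw [if_neg]
        intro h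
        apply hl
        rw [← h]
        exact (EZ.symm_apply_apply l).symm
      rw [h4, zero_mul]
    · intro h
      exact absurd (Finset.mem_univ _) h
  · simp only [if_neg c1, zero_mul, Finset.sum_const_zero, sub_zero]

variable {A δ}

theorem tr_hs' (τ : L ≃ₐ[ℚ] L) (φ : A.E →+* L) : tr τ (hs A j φ) = hs A j (τ • φ) :=
  Pool.Agent.W547.LD.tr_hs A j τ φ

/-- The stabiliser of an element of the field. -/
def stz (x : L) : Subgroup (L ≃ₐ[ℚ] L) where
  carrier := {σ | σ x = x}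
  one_mem' := rfl
  mul_mem' {a b} ha hb := by
    change a (b x) = x
    rw [show b x = x from hb]
    exact ha
  inv_mem' {a} ha := by
    change a.symm x = x
    rw [AlgEquiv.symm_apply_eq]
    exact (show a x = x from ha).symm

theorem mem_stz (x : L) (σ : L ≃ₐ[ℚ] L) : σ ∈ stz x ↔ σ x = x := Iff.rfl

theorem isImag_stz (j : L →+* ℂ) {x : L} {d : ℚ} (hd : 0 < d) (hx : x * x = -(d : L)) :
    IsImag (stz x) := by
  have hx0 : x ≠ 0 := by
    rintro rfl
    rw [mul_zero] at hx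
    have h1 : (d : L) = 0 := by
      rw [← neg_eq_zero, ← hx]
    exact hd.ne' (by exact_mod_cast h1)
  have hpm : ∀ τ : L ≃ₐ[ℚ] L, τ x = x ∨ τ x = -x := by
    intro τ
    have h1 : τ x * τ x = x * x := by
      rw [← map_mul, hx, map_neg, map_ratCast]
    exact mul_self_eq_mul_self_iff.1 h1
  have hcc : cc L ∉ stz x := by
    intro h
    have h1 : j (cc L x) = (starRingEnd ℂ) (j x) := emb_cc j x
    rw [(mem_stz x _).1 h] at h1
    have h2 : (starRingEnd ℂ) (j x) = j x := h1.symm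
    obtain ⟨r, hr⟩ := Complex.conj_eq_iff_real.1 h2
    have h3 : j x * j x = -(d : ℂ) := by
      rw [← map_mul, hx, map_neg, map_ratCast]
    rw [hr] at h3
    have h4 : r * r = -(d : ℝ) := by exact_mod_cast h3
    have h5 : (0 : ℝ) < d := by exact_mod_cast hd
    nlinarith [mul_self_nonneg r]
  refine ⟨hcc, fun τ hτ => ?_⟩
  have h1 : τ x = -x := (hpm τ).resolve_left hτ
  have h2 : cc L x = -x := (hpm (cc L)).resolve_left hcc
  change cc L (τ x) = x
  rw [h1, map_neg, h2, neg_neg]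

theorem orb_card_le {S : Set (L ≃ₐ[ℚ] L)} {N : Subgroup (L ≃ₐ[ℚ] L)} (P : Set (L ≃ₐ[ℚ] L) → Prop)
    (T : Set (A.E →+* ℂ)) (hT : T.encard ≤ 3) (φ0 : A.E →+* L) (hS : S = hs A j φ0)
    (g : (A.E →+* ℂ) → (A.E →+* ℂ)) (hg : Function.Injective g)
    (hgT : ∀ τ ∈ N, P (tr τ S) → g (j.comp (τ • φ0)) ∈ T) :
    Nat.card {k : Orb N (fun _ : Unit => S) // P k.2.1} ≤ 3 := by
  classical
  have hfinT : Finite T := Subtype.finite
  have h1 : Nat.card T ≤ 3 := by
    have h2 : (T.ncard : ℕ∞) = T.encard := (Set.toFinite T).cast_ncard_eq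
    rw [Nat.card_coe_set_eq]
    rw [← h2] at hT
    exact_mod_cast hT
  refine le_trans ?_ h1
  have hc : ∀ k : {k : Orb N (fun _ : Unit => S) // P k.2.1}, ∃ τ ∈ N, tr τ S = k.1.2.1 :=
    fun k => k.1.2.2
  choose c hcN hcS using hc
  let F : {k : Orb N (fun _ : Unit => S) // P k.2.1} → T := fun k =>
    ⟨g (j.comp (c k • φ0)), hgT _ (hcN k) (by rw [hcS k]; exact k.2)⟩
  refine Nat.card_le_card_of_injective F fun k k' h => ?_
  have h2 : j.comp (c k • φ0) = j.comp (c k' • φ0) := hg (Subtype.ext_iff.1 h)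
  have h3 : c k • φ0 = c k' • φ0 := by
    ext a
    exact j.injective (RingHom.congr_fun h2 a)
  have h4 : k.1.2.1 = k'.1.2.1 := by
    rw [← hcS k, ← hcS k', hS, tr_hs', tr_hs', h3]
  obtain ⟨⟨u, s⟩, hk⟩ := k
  obtain ⟨⟨u', s'⟩, hk'⟩ := k'
  have h5 : s = s' := Subtype.ext h4
  subst h5
  rfl

/-- The family of a Weil class in terms of the orbit. -/
theorem dcnt_weil {d : ℚ} (hd : 0 < d) (hδ : δ * δ = -(d : A.E))
    (hm : ∀ u : ℂ, {φ ∈ A.Φ | φ δ = u}.encard ≤ 3) (z : ℂ) :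
    dcnt (fun φ : Psi L j A δ z => tf p ν j (hs A j φ.1)) ∈
      AddSubgroup.closure {d : ((L ≃ₐ[ℚ] L) → ℤ) → ℤ | IsW p ν j d} := by
  classical
  have hfinE : Finite (A.E →+* L) := finite_hom A
  by_cases hne : Nonempty (Psi L j A δ z)
  swap
  · have h0 : IsEmpty (Psi L j A δ z) := not_nonempty_iff.1 hne
    have h1 : dcnt (fun φ : Psi L j A δ z => tf p ν j (hs A j φ.1)) = 0 := by
      funext f
      unfold dcnt
      have e1 : IsEmpty {k : Psi L j A δ z // tf p ν j (hs A j k.1) = f} := ⟨fun k => h0.false k.1⟩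
      have e2 : IsEmpty {k : Psi L j A δ z // tf p ν j (hs A j k.1) = -f} :=
        ⟨fun k => h0.false k.1⟩
      rw [Nat.card_of_isEmpty, Nat.card_of_isEmpty]
      simp
    rw [h1]
    exact zero_mem _
  obtain ⟨φ0, hφ0⟩ := hne
  set x : L := φ0 δ with hx
  have hxx : x * x = -(d : L) := by
    rw [hx, ← map_mul, hδ, map_neg, map_ratCast]
  set N : Subgroup (L ≃ₐ[ℚ] L) := stz x with hN
  have hNi : IsImag N := isImag_stz j hd hxx
  set S : Set (L ≃ₐ[ℚ] L) := hs A j φ0 with hS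
  have hSh : IsHalf S := isHalf_hs A j φ0
  have hmemN : ∀ (φ : A.E →+* L), j (φ δ) = z → ∀ τ : L ≃ₐ[ℚ] L, τ ∈ N →
      j ((τ • φ) δ) = z := by
    intro φ hφ τ hτ
    have h1 : φ δ = x := j.injective (hφ.trans hφ0.symm)
    change j (τ (φ δ)) = z
    rw [h1, show τ x = x from hτ]
    exact hφ0
  have hex : ∀ φ : Psi L j A δ z, ∃ τ ∈ N, tr τ S = hs A j φ.1 := by
    intro φ
    obtain ⟨g, hg⟩ := (setting j A).trans φ0 φ.1
    refine ⟨g, ?_, ?_⟩
    · have h1 : φ.1 δ = x := j.injective (φ.2.trans hφ0.symm)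
      rw [← hg] at h1
      exact h1
    · rw [hS, tr_hs', hg]
  let F : Psi L j A δ z → Orb N (fun _ : Unit => S) := fun φ => ⟨(), ⟨hs A j φ.1, hex φ⟩⟩
  have hFk : ∀ b, Nat.card {a // F a = b} = Nat.card {a : Psi L j A δ z // hs A j a.1 = S} := by
    rintro ⟨u, s, τ, hτ, hs'⟩
    have hF : ∀ a, F a = ⟨u, s, τ, hτ, hs'⟩ ↔ hs A j a.1 = s := by
      intro a
      constructor
      · intro h
        have h1 := congrArg (fun k : Orb N (fun _ : Unit => S) => k.2.1) h
        exact h1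
      · intro h
        subst h
        rfl
    refine Nat.card_congr ?_
    exact
      { toFun := fun a => ⟨⟨τ⁻¹ • a.1.1, hmemN _ a.1.2 _ (N.inv_mem hτ)⟩, by
          have h1 := (hF a.1).1 a.2
          change hs A j (τ⁻¹ • a.1.1) = S
          rw [← tr_hs', h1, ← hs']
          exact tr_inv_tr τ S⟩
        invFun := fun a => ⟨⟨τ • a.1.1, hmemN _ a.1.2 _ hτ⟩, (hF _).2 (by
          change hs A j (τ • a.1.1) = s
          rw [← tr_hs', a.2]
          exact hs')⟩
        left_inv := fun a => Subtype.ext (Subtype.ext (by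
          change τ • (τ⁻¹ • a.1.1) = a.1.1
          rw [smul_inv_smul]))
        right_inv := fun a => Subtype.ext (Subtype.ext (by
          change τ⁻¹ • (τ • a.1.1) = a.1.1
          rw [inv_smul_smul])) }
  have hfinO : Finite (Orb N (fun _ : Unit => S)) := inferInstance
  set m := Nat.card {a : Psi L j A δ z // hs A j a.1 = S} with hmdef
  have hdc : dcnt (fun φ : Psi L j A δ z => tf p ν j (hs A j φ.1)) =
      m • dcnt (fun k : Orb N (fun _ : Unit => S) => tf p ν j k.2.1) := by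
    funext f
    have h1 := Pool.Agent.W366.TA.card_fib F m hFk (fun k => tf p ν j k.2.1 = f)
    have h2 := Pool.Agent.W366.TA.card_fib F m hFk (fun k => tf p ν j k.2.1 = -f)
    rw [Pi.smul_apply]
    unfold dcnt
    have h3 : (Nat.card {k : Psi L j A δ z // tf p ν j (hs A j k.1) = f} : ℤ) =
      m * Nat.card {k : Orb N (fun _ : Unit => S) // tf p ν j k.2.1 = f} := by exact_mod_cast h1
    have h4 : (Nat.card {k : Psi L j A δ z // tf p ν j (hs A j k.1) = -f} : ℤ) =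
      m * Nat.card {k : Orb N (fun _ : Unit => S) // tf p ν j k.2.1 = -f} := by exact_mod_cast h2
    rw [h3, h4, nsmul_eq_mul]
    ring
  rw [hdc]
  by_cases hst : stab S ≤ N
  · refine AddSubgroup.nsmul_mem _ (AddSubgroup.subset_closure ?_) m
    refine IsW.mk N hNi S hSh hst ?_ ?_
    · refine orb_card_le (A := A) (j := j) (fun s => (1 : L ≃ₐ[ℚ] L) ∈ s) {φ ∈ A.Φ | φ δ = z}
        (hm z) φ0 hS id Function.injective_id ?_
      intro τ hτ h1
      rw [hS, tr_hs'] at h1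
      refine ⟨?_, hmemN φ0 hφ0 τ hτ⟩
      have h2 : j.comp ((1 : L ≃ₐ[ℚ] L) • (τ • φ0)) ∈ A.Φ := h1
      rw [one_smul] at h2
      exact h2
    · refine orb_card_le (A := A) (j := j) (fun s => (1 : L ≃ₐ[ℚ] L) ∉ s)
        {φ ∈ A.Φ | φ δ = (starRingEnd ℂ) z} (hm _) φ0 hS ComplexEmbedding.conjugate
        (ComplexEmbedding.involutive_conjugate _).injective ?_
      intro τ hτ h1
      rw [hS, tr_hs'] at h1
      have h2 : ¬ j.comp ((1 : L ≃ₐ[ℚ] L) • (τ • φ0)) ∈ A.Φ := h1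
      rw [one_smul] at h2
      refine ⟨?_, ?_⟩
      · by_contra h3
        exact h2 ((A.isCMType _).2 h3)
      · change (starRingEnd ℂ) (j ((τ • φ0) δ)) = _
        rw [hmemN φ0 hφ0 τ hτ]
  · have h0 : dcnt (fun k : Orb N (fun _ : Unit => S) => tf p ν j k.2.1) = 0 := by
      obtain ⟨ρ, hρ1, hρ2⟩ := SetLike.not_le_iff_exists.1 hst
      have hcompl : ∀ s : Set (L ≃ₐ[ℚ] L), (∃ τ ∈ N, tr τ S = s) → ∃ τ ∈ N, tr τ S = sᶜ := by
        rintro s ⟨τ, hτ, rfl⟩
        refine ⟨τ * (cc L * ρ), N.mul_mem hτ (hNi.2 ρ hρ2), ?_⟩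
        rw [← tr_tr, ← tr_tr, show tr ρ S = S from hρ1, tr_cc j hSh]
        rfl
      let C : Orb N (fun _ : Unit => S) → Orb N (fun _ : Unit => S) := fun k =>
        ⟨(), ⟨k.2.1ᶜ, hcompl _ k.2.2⟩⟩
      have hCC : ∀ k, C (C k) = k := by
        rintro ⟨u, s, hs'⟩
        change (⟨(), ⟨sᶜᶜ, _⟩⟩ : Orb N (fun _ : Unit => S)) = ⟨(), ⟨s, hs'⟩⟩
        congr 1
        exact Subtype.ext (compl_compl s)
      have hCt : ∀ k, tf p ν j (C k).2.1 = -tf p ν j k.2.1 := fun k => tf_compl _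
      funext f
      unfold dcnt
      have h1 : Nat.card {k : Orb N (fun _ : Unit => S) // tf p ν j k.2.1 = f} =
          Nat.card {k : Orb N (fun _ : Unit => S) // tf p ν j k.2.1 = -f} :=
        Nat.card_congr
          { toFun := fun k => ⟨C k.1, by rw [hCt, k.2]⟩
            invFun := fun k => ⟨C k.1, by rw [hCt, k.2, neg_neg]⟩
            left_inv := fun k => Subtype.ext (hCC _)
            right_inv := fun k => Subtype.ext (hCC _) }
      rw [h1, sub_self]
      rfl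
    rw [h0, smul_zero]
    exact zero_mem _

end weil

end PosA

/-- Piece F. -/
theorem posA : S_posA := by
  intro hslf p _ ν Z e he
  unfold Gen at he
  induction he using AddSubgroup.closure_induction with
  | mem x hx =>
    rcases hx with ⟨w, w', n, hn, h⟩ | ⟨w, n, hn, h⟩ | ⟨A, δ, d, hd, hδ, hm, θ, hθ, z⟩
    · refine ⟨Z.X, fun L _ _ _ _ j _ hZ _ => ?_⟩
      rw [PosA.DD_pair hZ w w' n hn h]
      exact zero_mem _
    · refine ⟨Z.X, fun L _ _ _ _ j _ hZ _ => ?_⟩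
      rw [PosA.DD_super hZ w n hn h]
      exact zero_mem _
    · refine ⟨single A, fun L _ _ _ _ j hX hZ _ => ?_⟩
      rw [PosA.DD_eq_dcnt A δ hslf hZ (hX ()) θ hθ z]
      exact PosA.dcnt_weil hd hδ hm z
  | zero =>
    refine ⟨Z.X, fun L _ _ _ _ j _ hZ _ => ?_⟩
    change DD (tw p ν j Z.X) 0 ∈ _
    rw [DD_zero]
    exact zero_mem _
  | add x y _ _ ihx ihy =>
    obtain ⟨X1, h1⟩ := ihx
    obtain ⟨X2, h2⟩ := ihy
    refine ⟨X1.prod X2, fun L _ _ _ _ j hX hZ _ => ?_⟩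
    have e1 := h1 L j (fun i ψ => hX (Sum.inl i) ψ) hZ
    have e2 := h2 L j (fun i ψ => hX (Sum.inr i) ψ) hZ
    change DD (tw p ν j Z.X) ((fun w => x (toEmb j Z w)) + fun w => y (toEmb j Z w)) ∈ _
    rw [DD_add]
    exact add_mem e1 e2
  | neg x _ ih =>
    obtain ⟨X1, h1⟩ := ih
    refine ⟨X1, fun L _ _ _ _ j hX hZ _ => ?_⟩
    have e1 := h1 L j hX hZ
    change DD (tw p ν j Z.X) (-(fun w => x (toEmb j Z w))) ∈ _
    rw [DD_neg]
    exact neg_mem e1

end

end Pool.Agent.K4H21.TF
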