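import Mathlib
import Pool.Agent.K4H21.TF.Defs

/-!
# The angle rank of an abelian variety over a finite field
-/

set_option autoImplicit false

namespace Pool.Agent.K4H21.TF

open NumberField Pool.Agent.H204R3.CM Pool.Agent.W547.KB Pool.Agent.W495.TA Pool.Agent.TH117.BL

noncomputable section

variable {p : ℕ} [Fact p.Prime] {ν : PadicAlgCl p ≃+* ℂ}

/-- The two Frobenius eigenvalues agree up to a root of unity. -/
def SameEig (Z : RedAV p ν) (w w' : Emb Z) : Prop := ∃ n : ℕ, 0 < n ∧ eig Z w ^ n = eig Z w' ^ n

/-- The Frobenius eigenvalue is a square root of `q = p ^ a` up to a root of unity. -/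
def IsSuper (Z : RedAV p ν) (w : Emb Z) : Prop :=
  ∃ n : ℕ, 0 < n ∧ eig Z w ^ (2 * n) = ((p : ℂ) ^ Z.a) ^ n

/-- The number of the Frobenius eigenvalues up to roots of unity, without the supersingular ones. It is
`2 g'`, where `g'` is half of the sum of the degrees of the centres of the endomorphism algebras of
the pairwise non-isogenous simple factors, over an algebraic closure, which are not supersingular. -/
def numEig (Z : RedAV p ν) : ℕ :=
  {C : Set (Emb Z) | ∃ w, ¬ IsSuper Z w ∧ C = {w' | SameEig Z w w'}}.ncard

/-- The angle rank: the rank of the group which is generated by the numbers `α ^ 2 / q`, for all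
Frobenius eigenvalues `α`. -/
def angleRank (Z : RedAV p ν) : ℕ :=
  Module.finrank ℤ (Additive (Subgroup.closure {u : ℂˣ | ∃ w, (u : ℂ) * (p : ℂ) ^ Z.a = eig Z w ^ 2}))

/-- An imaginary quadratic field which contributes to the Frobenius eigenvalues of `Z`: a CM type `A`
with an element `δ = √-d` with multiplicities at most three on the tangent space, and the Frobenius
eigenvalues `θ φ` of `Z` which belong to the reduction of `A`; they are different up to roots of unity
(the reduction of `A` is geometrically simple, with commutative endomorphism algebra). -/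
structure QuadDatum (Z : RedAV p ν) where
  /-- the CM type -/
  A : CMPair
  /-- the element -/
  δ : A.E
  /-- the positive rational number -/
  d : ℚ
  pos : 0 < d
  sq : δ * δ = -(d : A.E)
  mult : ∀ u : ℂ, {φ ∈ A.Φ | φ δ = u}.encard ≤ 3
  /-- the eigenvalues -/
  θ : (A.E →+* ℂ) → Emb Z
  slopes : ∀ φ, HasSlopes p ν A φ Z.a (eig Z (θ φ))
  inj : ∀ φ φ', φ ≠ φ' → ¬ SameEig Z (θ φ) (θ φ')

/-- The prime number `p` splits in the field, and the two multiplicities are different. -/
def QuadDatum.Unbalanced {Z : RedAV p ν} (W : QuadDatum Z) : Prop :=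
  IsSquare (-((W.d : ℚ) : ℚ_[p])) ∧
    ∃ u : ℂ, {φ ∈ W.A.Φ | φ W.δ = u}.encard ≠ {φ ∈ W.A.Φ | φ W.δ = -u}.encard

end

end Pool.Agent.K4H21.TF
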