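import Mathlib
import Pool.Agent.K4H21.TF.Stms
import Pool.Agent.TH117.BL.Alg
import Pool.Agent.W177.TB.WeilG

/-!
# Families of functions which belong to Weil classes
-/

set_option autoImplicit false
set_option linter.unusedSectionVars false
set_option linter.unusedVariables false

namespace Pool.Agent.K4H21.TF

open NumberField Pool.Agent.H204R3.CM Pool.Agent.W547.KB Pool.Agent.W547.LD Module
  Pool.Agent.W495.TA Pool.Agent.W495.TB Pool.Agent.W495.TC Pool.Agent.TH117.BL Pool.Agent.TH117.F5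
open scoped TensorProduct

noncomputable section

section

variable {p : ℕ} [Fact p.Prime] {ν : PadicAlgCl p ≃+* ℂ}
  {L : Type} [Field L] [NumberField L] [IsCMField L] [IsGalois ℚ L]

/-- The orbit of a set under a subgroup. -/
abbrev OS (N : Subgroup (L ≃ₐ[ℚ] L)) (S : Set (L ≃ₐ[ℚ] L)) : Type :=
  {T : Set (L ≃ₐ[ℚ] L) // ∃ τ ∈ N, tr τ S = T}

instance fintypeOS (N : Subgroup (L ≃ₐ[ℚ] L)) (S : Set (L ≃ₐ[ℚ] L)) : Fintype (OS N S) :=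
  Fintype.ofFinite _

/-- Translation on the orbit. -/
def trE {N : Subgroup (L ≃ₐ[ℚ] L)} {S : Set (L ≃ₐ[ℚ] L)} {σ : L ≃ₐ[ℚ] L} (hσ : σ ∈ N) :
    OS N S ≃ OS N S where
  toFun T := ⟨tr σ T.1, by
    obtain ⟨τ, hτ, h⟩ := T.2
    exact ⟨σ * τ, N.mul_mem hσ hτ, by rw [← h, tr_tr]⟩⟩
  invFun T := ⟨tr σ⁻¹ T.1, by
    obtain ⟨τ, hτ, h⟩ := T.2
    exact ⟨σ⁻¹ * τ, N.mul_mem (N.inv_mem hσ) hτ, by rw [← h, tr_tr]⟩⟩
  left_inv T := Subtype.ext (by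
    change tr σ⁻¹ (tr σ T.1) = T.1
    rw [tr_tr, inv_mul_cancel, tr_one])
  right_inv T := Subtype.ext (by
    change tr σ (tr σ⁻¹ T.1) = T.1
    rw [tr_tr, mul_inv_cancel, tr_one])

theorem isHalf_tr {S : Set (L ≃ₐ[ℚ] L)} (hS : IsHalf S) (τ : L ≃ₐ[ℚ] L) : IsHalf (tr τ S) := by
  intro σ
  rw [mem_tr, mem_tr, mul_assoc]
  exact hS (σ * τ)

theorem isHalf_OS {N : Subgroup (L ≃ₐ[ℚ] L)} {S : Set (L ≃ₐ[ℚ] L)} (hS : IsHalf S) (T : OS N S) :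
    IsHalf T.1 := by
  obtain ⟨τ, -, h⟩ := T.2
  rw [← h]
  exact isHalf_tr hS τ

open Classical in
/-- The sign. -/
def sn (S : Set (L ≃ₐ[ℚ] L)) (σ : L ≃ₐ[ℚ] L) : ℤ := if σ ∈ S then 1 else -1

theorem sn_half {S : Set (L ≃ₐ[ℚ] L)} (hS : IsHalf S) (σ : L ≃ₐ[ℚ] L) :
    sn S (cc L * σ) = -sn S σ := by
  unfold sn
  have h := hS σ
  by_cases h1 : σ ∈ S
  · rw [if_pos h1, if_neg (h.1 h1)]
  · have h2 : cc L * σ ∈ S := by
      by_contra h3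
      exact h1 (h.2 h3)
    rw [if_neg h1, if_pos h2, neg_neg]

theorem sn_sq (S : Set (L ≃ₐ[ℚ] L)) (σ : L ≃ₐ[ℚ] L) : sn S σ = 1 ∨ sn S σ = -1 := by
  unfold sn
  split_ifs
  · exact Or.inl rfl
  · exact Or.inr rfl

/-- The sum of the signs over the orbit. -/
theorem sum_sn {N : Subgroup (L ≃ₐ[ℚ] L)} (hN : IsImag N) {S : Set (L ≃ₐ[ℚ] L)} (hS : IsHalf S)
    (σ : L ≃ₐ[ℚ] L) :
    ∑ T : OS N S, sn T.1 σ = sn (N : Set (L ≃ₐ[ℚ] L)) σ * ∑ T : OS N S, sn T.1 1 := by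
  have key : ∀ σ ∈ N, ∑ T : OS N S, sn T.1 σ = ∑ T : OS N S, sn T.1 1 := by
    intro σ hσ
    rw [← Equiv.sum_comp (trE hσ) fun T : OS N S => sn T.1 1]
    refine Finset.sum_congr rfl fun T _ => ?_
    have h1 : (1 : L ≃ₐ[ℚ] L) ∈ tr σ T.1 ↔ σ ∈ T.1 := by
      rw [mem_tr, one_mul]
    change sn T.1 σ = sn (tr σ T.1) 1
    unfold sn
    by_cases h2 : σ ∈ T.1
    · rw [if_pos h2, if_pos (h1.2 h2)]
    · rw [if_neg h2, if_neg (fun h3 => h2 (h1.1 h3))]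
  by_cases hσ : σ ∈ N
  · rw [key σ hσ]
    have : sn (N : Set (L ≃ₐ[ℚ] L)) σ = 1 := if_pos hσ
    rw [this, one_mul]
  · have h1 := key _ (hN.2 σ hσ)
    have h2 : ∑ T : OS N S, sn T.1 (cc L * σ) = -∑ T : OS N S, sn T.1 σ := by
      rw [← Finset.sum_neg_distrib]
      exact Finset.sum_congr rfl fun T _ => sn_half (isHalf_OS hS T) σ
    have : sn (N : Set (L ≃ₐ[ℚ] L)) σ = -1 := if_neg hσ
    rw [this]
    rw [h2] at h1
    linarith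

/-- An imaginary subgroup is a half system. -/
theorem isHalf_N {N : Subgroup (L ≃ₐ[ℚ] L)} (hN : IsImag N) : IsHalf (N : Set (L ≃ₐ[ℚ] L)) := by
  intro σ
  constructor
  · intro h1 h2
    apply hN.1
    have h3 := N.mul_mem h2 (N.inv_mem h1)
    rwa [mul_inv_cancel_right] at h3
  · intro h
    by_contra h1
    exact h (hN.2 σ h1)

theorem isHalf_compl {S : Set (L ≃ₐ[ℚ] L)} (hS : IsHalf S) : IsHalf Sᶜ := by
  intro σ
  have h := hS σ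
  rw [Set.mem_compl_iff, Set.mem_compl_iff]
  tauto

theorem tr_N {N : Subgroup (L ≃ₐ[ℚ] L)} {τ : L ≃ₐ[ℚ] L} (hτ : τ ∈ N) :
    tr τ (N : Set (L ≃ₐ[ℚ] L)) = N := by
  ext σ
  rw [mem_tr]
  exact N.mul_mem_cancel_right hτ

theorem tr_Nc {N : Subgroup (L ≃ₐ[ℚ] L)} {τ : L ≃ₐ[ℚ] L} (hτ : τ ∈ N) :
    tr τ (N : Set (L ≃ₐ[ℚ] L))ᶜ = (N : Set (L ≃ₐ[ℚ] L))ᶜ := by
  ext σ
  rw [mem_tr, Set.mem_compl_iff, Set.mem_compl_iff]
  exact not_congr (N.mul_mem_cancel_right hτ)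

theorem stab_N {N : Subgroup (L ≃ₐ[ℚ] L)} : stab (N : Set (L ≃ₐ[ℚ] L)) ≤ N := by
  intro τ hτ
  have h : tr τ (N : Set (L ≃ₐ[ℚ] L)) = N := hτ
  have h1 : (1 : L ≃ₐ[ℚ] L) ∈ tr τ (N : Set (L ≃ₐ[ℚ] L)) := by
    rw [h]
    exact N.one_mem
  rw [mem_tr, one_mul] at h1
  exact h1

theorem stab_compl {S : Set (L ≃ₐ[ℚ] L)} : stab Sᶜ ≤ stab S := by
  intro τ hτ
  have h : tr τ Sᶜ = Sᶜ := hτ
  change tr τ S = S
  ext σ
  have h1 : σ ∈ tr τ Sᶜ ↔ σ ∈ Sᶜ := by rw [h]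
  rw [mem_tr, Set.mem_compl_iff, Set.mem_compl_iff] at h1
  rw [mem_tr]
  tauto

/-- The family of half systems with six elements. -/
def x6 (N : Subgroup (L ≃ₐ[ℚ] L)) (S : Set (L ≃ₐ[ℚ] L)) (a b : ℕ) :
    Option (Fin a ⊕ Fin b) → Set (L ≃ₐ[ℚ] L)
  | none => S
  | some (Sum.inl _) => (N : Set (L ≃ₐ[ℚ] L))
  | some (Sum.inr _) => (N : Set (L ≃ₐ[ℚ] L))ᶜ

theorem isHalf_x6 {N : Subgroup (L ≃ₐ[ℚ] L)} (hN : IsImag N) {S : Set (L ≃ₐ[ℚ] L)} (hS : IsHalf S)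
    (a b : ℕ) (q : Option (Fin a ⊕ Fin b)) : IsHalf (x6 N S a b q) := by
  rcases q with _ | q | q
  · exact hS
  · exact isHalf_N hN
  · exact isHalf_compl (isHalf_N hN)

theorem stab_x6 {N : Subgroup (L ≃ₐ[ℚ] L)} {S : Set (L ≃ₐ[ℚ] L)} (hst : stab S ≤ N) (a b : ℕ)
    (q : Option (Fin a ⊕ Fin b)) : stab (x6 N S a b q) ≤ N := by
  rcases q with _ | q | q
  · exact hst
  · exact stab_N
  · exact stab_compl.trans stab_N

/-- The orbit of `N` has one element. -/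
@[reducible] def uniqN (N : Subgroup (L ≃ₐ[ℚ] L)) : Unique (OS N (N : Set (L ≃ₐ[ℚ] L))) where
  default := ⟨N, 1, N.one_mem, tr_one _⟩
  uniq := by
    rintro ⟨T, τ, hτ, h⟩
    apply Subtype.ext
    change T = N
    rw [← h, tr_N hτ]

@[reducible] def uniqNc (N : Subgroup (L ≃ₐ[ℚ] L)) : Unique (OS N (N : Set (L ≃ₐ[ℚ] L))ᶜ) where
  default := ⟨(N : Set (L ≃ₐ[ℚ] L))ᶜ, 1, N.one_mem, tr_one _⟩
  uniq := by
    rintro ⟨T, τ, hτ, h⟩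
    apply Subtype.ext
    change T = (N : Set (L ≃ₐ[ℚ] L))ᶜ
    rw [← h, tr_Nc hτ]

theorem sum_N (N : Subgroup (L ≃ₐ[ℚ] L))
    (g : Set (L ≃ₐ[ℚ] L) → ℤ) : ∑ T : OS N (N : Set (L ≃ₐ[ℚ] L)), g T.1 = g N := by
  have := uniqN N
  rw [Fintype.sum_eq_single (⟨N, 1, N.one_mem, tr_one _⟩ : OS N (N : Set (L ≃ₐ[ℚ] L)))]
  intro T hT
  exact absurd (Subsingleton.elim _ _) hT

theorem sum_Nc (N : Subgroup (L ≃ₐ[ℚ] L))
    (g : Set (L ≃ₐ[ℚ] L) → ℤ) :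
    ∑ T : OS N (N : Set (L ≃ₐ[ℚ] L))ᶜ, g T.1 = g (N : Set (L ≃ₐ[ℚ] L))ᶜ := by
  have := uniqNc N
  rw [Fintype.sum_eq_single
    (⟨(N : Set (L ≃ₐ[ℚ] L))ᶜ, 1, N.one_mem, tr_one _⟩ : OS N (N : Set (L ≃ₐ[ℚ] L))ᶜ)]
  intro T hT
  exact absurd (Subsingleton.elim _ _) hT

instance fintypeX6 (N : Subgroup (L ≃ₐ[ℚ] L)) (S : Set (L ≃ₐ[ℚ] L)) (a b : ℕ) :
    Fintype (Orb N (x6 N S a b)) := Sigma.instFintype

/-- Sums over the family with six elements. -/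
theorem sum_x6 (N : Subgroup (L ≃ₐ[ℚ] L)) (S : Set (L ≃ₐ[ℚ] L)) (a b : ℕ)
    (g : Set (L ≃ₐ[ℚ] L) → ℤ) :
    ∑ k : Orb N (x6 N S a b), g k.2.1 =
      ∑ T : OS N S, g T.1 + a * g N + b * g (N : Set (L ≃ₐ[ℚ] L))ᶜ := by
  have h1 : ∑ k : Orb N (x6 N S a b), g k.2.1 =
      ∑ q : Option (Fin a ⊕ Fin b), ∑ T : OS N (x6 N S a b q), g T.1 :=
    Fintype.sum_sigma (fun k : Orb N (x6 N S a b) => g k.2.1)
  have h2 : ∑ i : Fin a, ∑ T : OS N (x6 N S a b (some (Sum.inl i))), g T.1 = a * g N := by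
    have e1 : ∀ i : Fin a, ∑ T : OS N (x6 N S a b (some (Sum.inl i))), g T.1 = g N := fun i =>
      sum_N N g
    rw [Finset.sum_congr rfl fun i _ => e1 i, Finset.sum_const,
        Finset.card_univ, Fintype.card_fin, nsmul_eq_mul]
  have h3 : ∑ i : Fin b, ∑ T : OS N (x6 N S a b (some (Sum.inr i))), g T.1 =
      b * g (N : Set (L ≃ₐ[ℚ] L))ᶜ := by
    have e1 : ∀ i : Fin b, ∑ T : OS N (x6 N S a b (some (Sum.inr i))), g T.1 =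
        g (N : Set (L ≃ₐ[ℚ] L))ᶜ := fun i => sum_Nc N g
    rw [Finset.sum_congr rfl fun i _ => e1 i, Finset.sum_const,
        Finset.card_univ, Fintype.card_fin, nsmul_eq_mul]
  rw [h1, Fintype.sum_option, Fintype.sum_sum_type, h2, h3, ← add_assoc]
  rfl

/-- The sign of the subgroup. -/
theorem sn_compl (S : Set (L ≃ₐ[ℚ] L)) (σ : L ≃ₐ[ℚ] L) : sn Sᶜ σ = -sn S σ := by
  unfold sn
  by_cases h : σ ∈ S
  · rw [if_pos h, if_neg (fun h2 => h2 h)]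
  · rw [if_neg h, if_pos (show σ ∈ Sᶜ from h), neg_neg]

theorem balanced_x6 {N : Subgroup (L ≃ₐ[ℚ] L)} (hN : IsImag N) {S : Set (L ≃ₐ[ℚ] L)}
    (hS : IsHalf S) (a b : ℕ) (h : ∑ T : OS N S, sn T.1 1 + a - b = 0) (σ : L ≃ₐ[ℚ] L) :
    ∑ k : Orb N (x6 N S a b), sn k.2.1 σ = 0 := by
  rw [sum_x6 N S a b fun T => sn T σ, sum_sn hN hS, sn_compl]
  have h1 : sn (N : Set (L ≃ₐ[ℚ] L)) σ * (∑ T : OS N S, sn T.1 1 + a - b) = 0 := by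
    rw [h, mul_zero]
  linarith

theorem card_x6 (N : Subgroup (L ≃ₐ[ℚ] L)) (S : Set (L ≃ₐ[ℚ] L)) (a b : ℕ) :
    (Fintype.card (Orb N (x6 N S a b)) : ℤ) = Fintype.card (OS N S) + a + b := by
  have h := sum_x6 N S a b fun _ => 1
  simpa using h

/-- The counting function of a set. -/
def dl (p : ℕ) [Fact p.Prime] (ν : PadicAlgCl p ≃+* ℂ) (j : L →+* ℂ)
    (f : (L ≃ₐ[ℚ] L) → ℤ) (S : Set (L ≃ₐ[ℚ] L)) : ℤ :=
  dcnt (fun _ : Unit => tf p ν j S) f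

open Classical in
theorem dcnt_sum {κ : Type} [Fintype κ] (t : κ → (L ≃ₐ[ℚ] L) → ℤ) (f : (L ≃ₐ[ℚ] L) → ℤ) :
    dcnt t f = ∑ k, ((if t k = f then 1 else 0) - (if t k = -f then 1 else 0)) := by
  unfold dcnt
  rw [card_eq_sum, card_eq_sum, ← Finset.sum_sub_distrib]

open Classical in
theorem dl_eq (j : L →+* ℂ) (f : (L ≃ₐ[ℚ] L) → ℤ) (S : Set (L ≃ₐ[ℚ] L)) :
    dl p ν j f S = (if tf p ν j S = f then 1 else 0) - (if tf p ν j S = -f then 1 else 0) := by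
  unfold dl
  rw [dcnt_sum, Fintype.sum_unique]

theorem dcnt_eq (j : L →+* ℂ) {κ : Type} [Fintype κ] (S : κ → Set (L ≃ₐ[ℚ] L))
    (f : (L ≃ₐ[ℚ] L) → ℤ) : dcnt (fun k => tf p ν j (S k)) f = ∑ k, dl p ν j f (S k) := by
  classical
  rw [dcnt_sum]
  exact Finset.sum_congr rfl fun k _ => by rw [dl_eq]

theorem tf_compl (j : L →+* ℂ) (S : Set (L ≃ₐ[ℚ] L)) : tf p ν j Sᶜ = -tf p ν j S := by
  funext σ
  unfold tf
  rw [Pi.neg_apply, ← Finset.sum_neg_distrib]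
  refine Finset.sum_congr rfl fun d _ => ?_
  by_cases hd : d ∈ Dec p ν j
  · rw [if_pos hd, if_pos hd]
    by_cases h : d * σ ∈ S
    · rw [if_pos h, if_neg (fun h2 => h2 h)]
    · rw [if_neg h, if_pos (show d * σ ∈ Sᶜ from h), neg_neg]
  · rw [if_neg hd, if_neg hd, neg_zero]

theorem dl_compl (j : L →+* ℂ) (f : (L ≃ₐ[ℚ] L) → ℤ) (S : Set (L ≃ₐ[ℚ] L)) :
    dl p ν j f Sᶜ = -dl p ν j f S := by
  classical
  rw [dl_eq, dl_eq, tf_compl]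
  simp only [neg_eq_iff_eq_neg, neg_neg]
  ring

/-- The functions of half systems. -/
def RR (p : ℕ) [Fact p.Prime] (ν : PadicAlgCl p ≃+* ℂ) (j : L →+* ℂ) : Set ((L ≃ₐ[ℚ] L) → ℤ) :=
  {f | ∃ S, IsHalf S ∧ tf p ν j S = f}

variable {Ω : Type} [Field Ω] [IsAlgClosed Ω] [CharZero Ω] (j : L →+* ℂ) (jO : L →+* Ω)

theorem pair_cancel {S : Set (L ≃ₐ[ℚ] L)} (hS : IsHalf S) :
    PairCancel (L ≃ₐ[ℚ] L) (AlgM p ν j jO) (tf p ν j S) := by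
  have h1 := St_wt j (fun _ : Unit => S) (fun _ => hS) () 1
  rw [tr_one] at h1
  rw [← h1]
  have h2 := tf_nn (p := p) (ν := ν) (j := j) (prodOf j (fun _ : Unit => S) (fun _ => hS)) ()
    (wt j (fun _ : Unit => S) (fun _ => hS) () 1).2
  have h3 : (⟨(), (wt j (fun _ : Unit => S) (fun _ => hS) () 1).2⟩ :
      Wt (prodOf j (fun _ : Unit => S) (fun _ => hS)) L) =
      wt j (fun _ : Unit => S) (fun _ => hS) () 1 := rfl
  rw [h3] at h2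
  rw [h2]
  exact cancel_nn j jO _ _

/-- Good families of six functions. -/
theorem good_x {Q : Type} [Fintype Q] {N : Subgroup (L ≃ₐ[ℚ] L)} (hN : IsImag N)
    (x : Q → Set (L ≃ₐ[ℚ] L)) (hx : ∀ q, IsHalf (x q)) (hst : ∀ q, stab (x q) ≤ N)
    [Fintype (Orb N x)] (hcard : Fintype.card (Orb N x) = 6)
    (hbal : ∀ σ, ∑ k : Orb N x, sn k.2.1 σ = 0) :
    AlgM p ν j jO (Orb N x) fun k => tf p ν j k.2.1 := by
  have hb : Balanced fun k : Orb N x => k.2.1 := hbal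
  have h := @Pool.Agent.W177.TB.weilG Pool.Agent.W902.TB.honda Pool.Agent.W366.TA.val
    Pool.Agent.W64.TA.ru Pool.Agent.W67.TA.basis Pool.Agent.W82.TA.pull p _ ν Ω _ _ L _ _ _ _ j jO
    N hN Q _ x hx hst _ (Or.inr hcard) hb
  exact @h

end

end

end Pool.Agent.K4H21.TF
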