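import Mathlib
import Pool.Agent.K4H21.TF.PosB
import Pool.Agent.W287.TB.SS2

/-!
# Families of functions which belong to Weil classes: the proof
-/

set_option autoImplicit false
set_option linter.unusedSectionVars false
set_option linter.unusedVariables false

namespace Pool.Agent.K4H21.TF

open NumberField Pool.Agent.H204R3.CM Pool.Agent.W547.KB Pool.Agent.W547.LD Module
  Pool.Agent.W495.TA Pool.Agent.W495.TB Pool.Agent.W495.TC Pool.Agent.TH117.BL Pool.Agent.TH117.F5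
open scoped TensorProduct

noncomputable section

variable {p : ℕ} [Fact p.Prime] {ν : PadicAlgCl p ≃+* ℂ} {Ω : Type} [Field Ω] [IsAlgClosed Ω]
  [CharZero Ω] {L : Type} [Field L] [NumberField L] [IsCMField L] [IsGalois ℚ L] (j : L →+* ℂ)
  (jO : L →+* Ω)

theorem tr_compl' (τ : L ≃ₐ[ℚ] L) (S : Set (L ≃ₐ[ℚ] L)) : tr τ Sᶜ = (tr τ S)ᶜ := rfl

/-- The complements. -/
def complE {Q : Type} (N : Subgroup (L ≃ₐ[ℚ] L)) (x : Q → Set (L ≃ₐ[ℚ] L)) :
    Orb N (fun q => (x q)ᶜ) ≃ Orb N x where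
  toFun k := ⟨k.1, k.2.1ᶜ, by
    obtain ⟨τ, hτ, h⟩ := k.2.2
    exact ⟨τ, hτ, by rw [← h, tr_compl', compl_compl]⟩⟩
  invFun k := ⟨k.1, k.2.1ᶜ, by
    obtain ⟨τ, hτ, h⟩ := k.2.2
    exact ⟨τ, hτ, by rw [← h, tr_compl']⟩⟩
  left_inv k := by
    obtain ⟨q, T, hT⟩ := k
    simp only [compl_compl]
  right_inv k := by
    obtain ⟨q, T, hT⟩ := k
    simp only [compl_compl]

/-- The six functions are a good family. -/
theorem isGood_x6 {N : Subgroup (L ≃ₐ[ℚ] L)} (hN : IsImag N) {S : Set (L ≃ₐ[ℚ] L)} (hS : IsHalf S)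
    (hst : stab S ≤ N) (a b : ℕ) (h6 : Fintype.card (OS N S) + a + b = 6)
    (hb : ∑ T : OS N S, sn T.1 1 + a - b = 0) :
    IsGood (L ≃ₐ[ℚ] L) (AlgM p ν j jO) (RR p ν j) (Orb N (x6 N S a b))
      fun k => tf p ν j k.2.1 := by
  classical
  have hcard : Fintype.card (Orb N (x6 N S a b)) = 6 := by
    have h := card_x6 N S a b
    have h7 : ((Fintype.card (OS N S) + a + b : ℕ) : ℤ) = 6 := by rw [h6]; rfl
    push_cast at h7
    have h8 : (Fintype.card (Orb N (x6 N S a b)) : ℤ) = 6 := h.trans h7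
    exact_mod_cast h8
  have hx := isHalf_x6 hN hS a b
  have hbal := balanced_x6 hN hS a b hb
  refine ⟨inferInstance, ?_, ?_, ?_, ?_⟩
  · rw [Nat.card_eq_fintype_card, hcard]
    exact ⟨3, rfl⟩
  · rintro ⟨q, T⟩
    exact ⟨T.1, isHalf_OS (hx q) T, rfl⟩
  · exact @good_x p _ ν L _ _ _ _ Ω _ _ _ j jO _ _ N hN _ hx (stab_x6 hst a b) _ hcard hbal
  · let E := complE N (x6 N S a b)
    let _ : Fintype (Orb N (fun q => (x6 N S a b q)ᶜ)) := Fintype.ofEquiv _ E.symm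
    have h1 : AlgM p ν j jO (Orb N (fun q => (x6 N S a b q)ᶜ)) fun k => tf p ν j k.2.1 := by
      refine good_x j jO hN _ (fun q => isHalf_compl (hx q))
        (fun q => stab_compl.trans (stab_x6 hst a b q)) ?_ ?_
      · rw [← hcard]
        exact Fintype.card_congr E
      · intro σ
        have h2 := hbal σ
        rw [← Equiv.sum_comp E] at h2
        have h3 : ∀ k : Orb N (fun q => (x6 N S a b q)ᶜ), sn (E k).2.1 σ = -sn k.2.1 σ := fun k =>
          sn_compl _ _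
        rw [Finset.sum_congr rfl fun k _ => h3 k, Finset.sum_neg_distrib, neg_eq_zero] at h2
        exact h2
    refine @Closed.reindex _ _ (closedM (p := p) (ν := ν) j jO) _ _ _ E _ _ ?_ @h1
    intro k
    change -tf p ν j k.2.1ᶜ = tf p ν j k.2.1
    rw [tf_compl, neg_neg]

/-- The orbit of one half system. -/
def orbOne (N : Subgroup (L ≃ₐ[ℚ] L)) (S : Set (L ≃ₐ[ℚ] L)) :
    Orb N (fun _ : Unit => S) ≃ OS N S where
  toFun k := k.2
  invFun T := ⟨(), T⟩
  left_inv k := rfl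
  right_inv T := rfl

instance fintypeSub : Fintype (Subgroup (L ≃ₐ[ℚ] L)) := Fintype.ofFinite _

/-- Representation by good families and the functions of the imaginary subgroups. -/
def Rep (p : ℕ) [Fact p.Prime] (ν : PadicAlgCl p ≃+* ℂ) (j : L →+* ℂ) (jO : L →+* Ω)
    (d : ((L ≃ₐ[ℚ] L) → ℤ) → ℤ) : Prop :=
  ∃ (ι : Type) (_ : Fintype ι) (κ : ι → Type) (_ : ∀ i, Fintype (κ i))
    (T : ∀ i, κ i → Set (L ≃ₐ[ℚ] L)) (m : ι → ℤ) (c : Subgroup (L ≃ₐ[ℚ] L) → ℤ),
    (∀ i, IsGood (L ≃ₐ[ℚ] L) (AlgM p ν j jO) (RR p ν j) (κ i) fun k => tf p ν j (T i k)) ∧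
    (∀ i σ, ∑ k, sn (T i k) σ = 0) ∧ (∀ N, c N ≠ 0 → IsImag N) ∧
    ∀ f, d f = ∑ i, m i * ∑ k, dl p ν j f (T i k) + ∑ N, c N * dl p ν j f N

theorem rep_zero : Rep p ν j jO 0 := by
  refine ⟨Empty, inferInstance, fun _ => Empty, fun _ => inferInstance, fun i => i.elim,
    fun _ => 0, fun _ => 0, fun i => i.elim, fun i => i.elim, fun N h => absurd rfl h, fun f => ?_⟩
  simp

theorem rep_neg {d : ((L ≃ₐ[ℚ] L) → ℤ) → ℤ} (h : Rep p ν j jO d) : Rep p ν j jO (-d) := by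
  obtain ⟨ι, _, κ, _, T, m, c, h1, h2, h3, h4⟩ := h
  refine ⟨ι, inferInstance, κ, inferInstance, T, fun i => -m i, fun N => -c N, h1, h2,
    fun N hN => h3 N fun h => hN (by
      change -c N = 0
      rw [h, neg_zero]), fun f => ?_⟩
  rw [Pi.neg_apply, h4, neg_add, ← Finset.sum_neg_distrib, ← Finset.sum_neg_distrib]
  congr 1
  · exact Finset.sum_congr rfl fun i _ => by ring
  · exact Finset.sum_congr rfl fun i _ => by ring

theorem rep_add {d d' : ((L ≃ₐ[ℚ] L) → ℤ) → ℤ} (h : Rep p ν j jO d) (h' : Rep p ν j jO d') :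
    Rep p ν j jO (d + d') := by
  obtain ⟨ι, _, κ, _, T, m, c, h1, h2, h3, h4⟩ := h
  obtain ⟨ι', _, κ', _, T', m', c', h1', h2', h3', h4'⟩ := h'
  refine ⟨ι ⊕ ι', inferInstance, Sum.elim κ κ', fun i => match i with
    | Sum.inl i => inferInstanceAs (Fintype (κ i))
    | Sum.inr i => inferInstanceAs (Fintype (κ' i)), fun i => match i with
    | Sum.inl i => T i
    | Sum.inr i => T' i, Sum.elim m m', fun N => c N + c' N, ?_, ?_, ?_, ?_⟩
  · rintro (i | i)
    · exact h1 i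
    · exact h1' i
  · rintro (i | i) σ
    · exact h2 i σ
    · exact h2' i σ
  · intro N hN
    by_cases h5 : c N = 0
    · refine h3' N fun h6 => hN ?_
      change c N + c' N = 0
      rw [h5, h6, add_zero]
    · exact h3 N h5
  · intro f
    rw [Pi.add_apply, h4, h4', Fintype.sum_sum_type]
    have e1 : ∑ N, (c N + c' N) * dl p ν j f N = ∑ N, c N * dl p ν j f N +
        ∑ N, c' N * dl p ν j f N := by
      rw [← Finset.sum_add_distrib]
      exact Finset.sum_congr rfl fun N _ => by ring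
    rw [e1]
    change _ = (∑ i, m i * ∑ k, dl p ν j f (T i k) + ∑ i, m' i * ∑ k, dl p ν j f (T' i k)) + _
    ring

theorem rep_W {d : ((L ≃ₐ[ℚ] L) → ℤ) → ℤ} (h : IsW p ν j d) : Rep p ν j jO d := by
  classical
  obtain ⟨N, hN, S, hS, hst, h1, h2⟩ := h
  set A := (Finset.univ.filter fun T : OS N S => 1 ∈ T.1).card with hA
  set B := (Finset.univ.filter fun T : OS N S => 1 ∉ T.1).card with hB
  have hA3 : A ≤ 3 := by
    refine le_trans (le_of_eq ?_) h1
    rw [hA, ← Fintype.card_subtype, ← Nat.card_eq_fintype_card]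
    exact Nat.card_congr ((orbOne N S).subtypeEquiv fun k => Iff.rfl).symm
  have hB3 : B ≤ 3 := by
    refine le_trans (le_of_eq ?_) h2
    rw [hB, ← Fintype.card_subtype, ← Nat.card_eq_fintype_card]
    exact Nat.card_congr ((orbOne N S).subtypeEquiv fun k => Iff.rfl).symm
  have hAB : Fintype.card (OS N S) = A + B := by
    rw [hA, hB, Finset.card_filter_add_card_filter_not]
    rfl
  have hsum : ∑ T : OS N S, sn T.1 1 = (A : ℤ) - B := by
    unfold sn
    rw [Finset.sum_ite, Finset.sum_const, Finset.sum_const, hA, hB]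
    simp only [nsmul_eq_mul, mul_one, mul_neg]
    ring
  have hg := isGood_x6 (p := p) (ν := ν) j jO hN hS hst (3 - A) (3 - B) (by omega) (by
    rw [hsum, Nat.cast_sub hA3, Nat.cast_sub hB3]
    ring)
  have hbal := balanced_x6 hN hS (3 - A) (3 - B) (by
    rw [hsum, Nat.cast_sub hA3, Nat.cast_sub hB3]
    ring)
  refine ⟨Unit, inferInstance, fun _ => Orb N (x6 N S (3 - A) (3 - B)), fun _ => inferInstance,
    fun _ k => k.2.1, fun _ => 1, fun M => if M = N then (A : ℤ) - B else 0, fun _ => hg,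
    fun _ => hbal, ?_, ?_⟩
  · intro M hM
    by_cases h : M = N
    · rw [h]
      exact hN
    · exact absurd (if_neg h) hM
  · intro f
    have e1 : dcnt (fun k : Orb N (fun _ : Unit => S) => tf p ν j k.2.1) f =
        ∑ T : OS N S, dl p ν j f T.1 := by
      let _ : Fintype (Orb N (fun _ : Unit => S)) := Fintype.ofEquiv _ (orbOne N S).symm
      rw [dcnt_eq]
      exact Fintype.sum_equiv (orbOne N S) _ _ fun k => rfl
    have e2 := sum_x6 N S (3 - A) (3 - B) fun T => dl p ν j f T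
    have e3 : ∑ M : Subgroup (L ≃ₐ[ℚ] L), (if M = N then (A : ℤ) - B else 0) * dl p ν j f M =
        ((A : ℤ) - B) * dl p ν j f N := by
      rw [Finset.sum_eq_single N]
      · rw [if_pos rfl]
      · intro M _ hM
        rw [if_neg hM, zero_mul]
      · intro h
        exact absurd (Finset.mem_univ _) h
    have e4 : ∑ _i : Unit, (1 : ℤ) * ∑ k : Orb N (x6 N S (3 - A) (3 - B)), dl p ν j f k.2.1 =
        ∑ k : Orb N (x6 N S (3 - A) (3 - B)), dl p ν j f k.2.1 := by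
      rw [Finset.univ_unique, Finset.sum_singleton, one_mul]
    refine Eq.trans ?_ (congrArg₂ (· + ·) e4.symm e3.symm)
    rw [e1, e2, dl_compl, Nat.cast_sub hA3, Nat.cast_sub hB3]
    ring

theorem rep_closure {d : ((L ≃ₐ[ℚ] L) → ℤ) → ℤ}
    (h : d ∈ AddSubgroup.closure {d : ((L ≃ₐ[ℚ] L) → ℤ) → ℤ | IsW p ν j d}) : Rep p ν j jO d := by
  induction h using AddSubgroup.closure_induction with
  | mem d hd => exact rep_W j jO hd
  | zero => exact rep_zero j jO
  | add d d' _ _ h h' => exact rep_add j jO h h'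
  | neg d _ h => exact rep_neg j jO h

/-! ### Evaluation -/

/-- All functions with bounded values. -/
def FB (p : ℕ) [Fact p.Prime] (ν : PadicAlgCl p ≃+* ℂ) (j : L →+* ℂ) :
    Finset ((L ≃ₐ[ℚ] L) → ℤ) := by
  classical
  exact Fintype.piFinset fun _ => Finset.Icc (-(Fintype.card (L ≃ₐ[ℚ] L) : ℤ))
    (Fintype.card (L ≃ₐ[ℚ] L) : ℤ)

theorem mem_FB (S : Set (L ≃ₐ[ℚ] L)) : tf p ν j S ∈ FB p ν j := by
  classical
  unfold FB
  rw [Fintype.mem_piFinset]
  intro σ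
  rw [Finset.mem_Icc, ← abs_le]
  unfold tf
  refine (Finset.abs_sum_le_sum_abs _ _).trans ?_
  refine (Finset.sum_le_card_nsmul Finset.univ _ 1 fun d _ => ?_).trans ?_
  · split_ifs <;> simp
  · rw [Finset.card_univ, nsmul_eq_mul, mul_one]

theorem mem_FB_neg (S : Set (L ≃ₐ[ℚ] L)) : -tf p ν j S ∈ FB p ν j := by
  rw [← tf_compl]
  exact mem_FB j _

theorem eval_dl (S : Set (L ≃ₐ[ℚ] L)) (σ : L ≃ₐ[ℚ] L) :
    ∑ f ∈ FB p ν j, dl p ν j f S * f σ = 2 * tf p ν j S σ := by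
  classical
  have h1 : ∀ f : (L ≃ₐ[ℚ] L) → ℤ, dl p ν j f S * f σ =
      (if tf p ν j S = f then f σ else 0) - (if -tf p ν j S = f then f σ else 0) := by
    intro f
    rw [dl_eq]
    have h2 : tf p ν j S = -f ↔ -tf p ν j S = f := by
      rw [neg_eq_iff_eq_neg]
    simp only [h2]
    split_ifs <;> ring
  rw [Finset.sum_congr rfl fun f _ => h1 f, Finset.sum_sub_distrib, Finset.sum_ite_eq,
    Finset.sum_ite_eq, if_pos (mem_FB j S), if_pos (mem_FB_neg j S), Pi.neg_apply]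
  ring

open Classical in
theorem tf_sn (S : Set (L ≃ₐ[ℚ] L)) (σ : L ≃ₐ[ℚ] L) :
    tf p ν j S σ = ∑ d : L ≃ₐ[ℚ] L, if d ∈ Dec p ν j then sn S (d * σ) else 0 := by
  unfold tf sn
  exact Finset.sum_congr rfl fun d _ => by congr

theorem sum_tf {κ : Type} [Fintype κ] (T : κ → Set (L ≃ₐ[ℚ] L)) (h : ∀ σ, ∑ k, sn (T k) σ = 0)
    (σ : L ≃ₐ[ℚ] L) : ∑ k, tf p ν j (T k) σ = 0 := by
  classical
  rw [Finset.sum_congr rfl fun k _ => tf_sn j (T k) σ, Finset.sum_comm]
  refine Finset.sum_eq_zero fun d _ => ?_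
  by_cases hd : d ∈ Dec p ν j
  · simp only [if_pos hd]
    exact h _
  · simp only [if_neg hd, Finset.sum_const_zero]

/-! ### Independence of the quadratic characters -/

/-- The quadratic character. -/
def chiN {N : Subgroup (L ≃ₐ[ℚ] L)} (hN : IsImag N) (j : L →+* ℂ) : (L ≃ₐ[ℚ] L) →* ℚ where
  toFun σ := (sn (N : Set (L ≃ₐ[ℚ] L)) σ : ℚ)
  map_one' := by
    have : sn (N : Set (L ≃ₐ[ℚ] L)) 1 = 1 := if_pos N.one_mem
    rw [this, Int.cast_one]
  map_mul' σ τ := by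
    have h := hN.mul_mem_iff j σ τ
    have e1 : ∀ ρ, ρ ∈ N → sn (N : Set (L ≃ₐ[ℚ] L)) ρ = 1 := fun ρ hρ => if_pos hρ
    have e2 : ∀ ρ, ρ ∉ N → sn (N : Set (L ≃ₐ[ℚ] L)) ρ = -1 := fun ρ hρ => if_neg hρ
    by_cases h1 : σ ∈ N <;> by_cases h2 : τ ∈ N
    · rw [e1 _ h1, e1 _ h2, e1 _ (by tauto)]
      norm_num
    · rw [e1 _ h1, e2 _ h2, e2 _ (by tauto)]
      norm_num
    · rw [e2 _ h1, e1 _ h2, e2 _ (by tauto)]
      norm_num
    · rw [e2 _ h1, e2 _ h2, e1 _ (by tauto)]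
      norm_num

theorem tf_N {N : Subgroup (L ≃ₐ[ℚ] L)} (hN : IsImag N) (h : Dec p ν j ≤ N) (σ : L ≃ₐ[ℚ] L) :
    tf p ν j N σ = Nat.card (Dec p ν j) * sn (N : Set (L ≃ₐ[ℚ] L)) σ := by
  classical
  rw [tf_sn]
  have h1 : ∀ d : L ≃ₐ[ℚ] L, (if d ∈ Dec p ν j then sn (N : Set (L ≃ₐ[ℚ] L)) (d * σ) else 0) =
      (if d ∈ Dec p ν j then sn (N : Set (L ≃ₐ[ℚ] L)) σ else 0) := by
    intro d
    by_cases hd : d ∈ Dec p ν j
    · rw [if_pos hd, if_pos hd]
      have h2 : d * σ ∈ (N : Set (L ≃ₐ[ℚ] L)) ↔ σ ∈ (N : Set (L ≃ₐ[ℚ] L)) :=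
        N.mul_mem_cancel_left (h hd)
      unfold sn
      by_cases h3 : σ ∈ (N : Set (L ≃ₐ[ℚ] L))
      · rw [if_pos h3, if_pos (h2.2 h3)]
      · rw [if_neg h3, if_neg fun h4 => h3 (h2.1 h4)]
    · rw [if_neg hd, if_neg hd]
  rw [Finset.sum_congr rfl fun d _ => h1 d, ← Finset.sum_filter, Finset.sum_const, nsmul_eq_mul,
    Nat.card_eq_fintype_card]
  congr 2
  exact (Fintype.card_subtype _).symm

theorem tf_N_zero {N : Subgroup (L ≃ₐ[ℚ] L)} (hN : IsImag N) (h : ¬ Dec p ν j ≤ N) :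
    tf p ν j N = 0 := by
  funext σ
  exact (Pool.Agent.W287.TBSS.ss2 Pool.Agent.W366.TA.val p ν L j N hN h).1 σ

theorem indep (c : Subgroup (L ≃ₐ[ℚ] L) → ℤ) (hc : ∀ N, c N ≠ 0 → IsImag N)
    (h : ∀ σ, ∑ N, c N * tf p ν j (N : Subgroup (L ≃ₐ[ℚ] L)) σ = 0) (N : Subgroup (L ≃ₐ[ℚ] L))
    (hN : c N ≠ 0) : tf p ν j N = 0 := by
  classical
  by_cases hD : Dec p ν j ≤ N
  swap
  · exact tf_N_zero j (hc N hN) hD
  exfalso
  let J := {N : Subgroup (L ≃ₐ[ℚ] L) // IsImag N ∧ Dec p ν j ≤ N}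
  let g : J → ((L ≃ₐ[ℚ] L) →* ℚ) := fun M => chiN M.2.1 j
  have hg : Function.Injective g := by
    intro M M' hMM
    apply Subtype.ext
    ext σ
    have h1 : (sn (M.1 : Set (L ≃ₐ[ℚ] L)) σ : ℚ) = (sn (M'.1 : Set (L ≃ₐ[ℚ] L)) σ : ℚ) :=
      DFunLike.congr_fun hMM σ
    have h2 : sn (M.1 : Set (L ≃ₐ[ℚ] L)) σ = sn (M'.1 : Set (L ≃ₐ[ℚ] L)) σ := by exact_mod_cast h1
    unfold sn at h2
    simp only [SetLike.mem_coe] at h2
    by_cases a : σ ∈ M.1 <;> by_cases b : σ ∈ M'.1 <;> simp [a, b] at h2 ⊢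
  have hlin := (linearIndependent_monoidHom (L ≃ₐ[ℚ] L) ℚ).comp g hg
  rw [Fintype.linearIndependent_iff] at hlin
  have hcard : (Nat.card (Dec p ν j) : ℚ) ≠ 0 := by
    have h0 : 0 < Nat.card (Dec p ν j) := Nat.card_pos
    exact_mod_cast h0.ne'
  have h1 := hlin (fun M => (c M.1 : ℚ)) (by
    funext σ
    rw [Finset.sum_apply, Pi.zero_apply]
    have h2 := h σ
    have h3 : ∑ N, c N * tf p ν j (N : Subgroup (L ≃ₐ[ℚ] L)) σ =
        ∑ M : J, c M.1 * (Nat.card (Dec p ν j) * sn (M.1 : Set (L ≃ₐ[ℚ] L)) σ) := by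
      rw [← Finset.sum_subset (Finset.subset_univ (Finset.univ.filter fun N : Subgroup (L ≃ₐ[ℚ] L) =>
        IsImag N ∧ Dec p ν j ≤ N))]
      · rw [← Finset.sum_subtype_eq_sum_filter, Finset.subtype_univ]
        exact Finset.sum_congr rfl fun M _ => by rw [tf_N j M.2.1 M.2.2]
      · intro M _ hM
        rw [Finset.mem_filter, not_and] at hM
        have h4 := hM (Finset.mem_univ _)
        by_cases h5 : c M = 0
        · rw [h5, zero_mul]
        · have h6 := hc M h5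
          have h7 : ¬ Dec p ν j ≤ M := fun h8 => h4 ⟨h6, h8⟩
          rw [tf_N_zero j h6 h7, Pi.zero_apply, mul_zero]
    rw [h3] at h2
    have h4 : ((∑ M : J, c M.1 * (Nat.card (Dec p ν j) * sn (M.1 : Set (L ≃ₐ[ℚ] L)) σ) : ℤ) : ℚ) = 0 := by
      rw [h2, Int.cast_zero]
    push_cast at h4
    have h5 : (Nat.card (Dec p ν j) : ℚ) *
        ∑ M : J, (c M.1 : ℚ) * (sn (M.1 : Set (L ≃ₐ[ℚ] L)) σ : ℚ) = 0 := by
      rw [← h4, Finset.mul_sum]
      exact Finset.sum_congr rfl fun M _ => by ring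
    exact (mul_eq_zero.1 h5).resolve_left hcard) ⟨N, hc N hN, hD⟩
  exact hN (by exact_mod_cast h1)

theorem posB_main : S_posB := by
  intro p _ ν Ω _ _ _ L _ _ _ _ j jO hkp κ _ S hS heven hsum hmem
  classical
  obtain ⟨ι, _, κ', _, T, m, c, h1, h2, h3, h4⟩ := rep_closure j jO hmem
  have hkey : ∀ σ, ∑ N, c N * tf p ν j (N : Subgroup (L ≃ₐ[ℚ] L)) σ = 0 := by
    intro σ
    have e1 : ∑ f ∈ FB p ν j, dcnt (fun k => tf p ν j (S k)) f * f σ = 0 := by
      have e2 : ∀ f, dcnt (fun k => tf p ν j (S k)) f * f σ = ∑ k, dl p ν j f (S k) * f σ := by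
        intro f
        rw [dcnt_eq, Finset.sum_mul]
      rw [Finset.sum_congr rfl fun f _ => e2 f, Finset.sum_comm,
        Finset.sum_congr rfl fun k _ => eval_dl j (S k) σ, ← Finset.mul_sum, hsum, mul_zero]
    have e3 : ∑ f ∈ FB p ν j, dcnt (fun k => tf p ν j (S k)) f * f σ =
        2 * ∑ N, c N * tf p ν j (N : Subgroup (L ≃ₐ[ℚ] L)) σ := by
      have e4 : ∀ f, dcnt (fun k => tf p ν j (S k)) f * f σ =
          ∑ i, m i * ∑ k, dl p ν j f (T i k) * f σ + ∑ N, c N * (dl p ν j f N * f σ) := by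
        intro f
        rw [h4, add_mul, Finset.sum_mul, Finset.sum_mul]
        congr 1
        · refine Finset.sum_congr rfl fun i _ => ?_
          rw [mul_assoc, Finset.sum_mul]
        · exact Finset.sum_congr rfl fun i _ => by ring
      rw [Finset.sum_congr rfl fun f _ => e4 f, Finset.sum_add_distrib, Finset.sum_comm]
      have e5 : ∑ i, ∑ f ∈ FB p ν j, m i * ∑ k, dl p ν j f (T i k) * f σ = 0 := by
        refine Finset.sum_eq_zero fun i _ => ?_
        rw [← Finset.mul_sum, Finset.sum_comm,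
          Finset.sum_congr rfl fun k _ => eval_dl j (T i k) σ, ← Finset.mul_sum, sum_tf j (T i) (h2 i),
          mul_zero, mul_zero]
      rw [e5, zero_add, Finset.sum_comm, Finset.mul_sum]
      refine Finset.sum_congr rfl fun N _ => ?_
      rw [← Finset.mul_sum, eval_dl]
      ring
    rw [e1] at e3
    omega
  have hz : ∀ f, ∑ N, c N * dl p ν j f N = 0 := by
    intro f
    refine Finset.sum_eq_zero fun N _ => ?_
    by_cases h5 : c N = 0
    · rw [h5, zero_mul]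
    · have h6 := indep j c h3 hkey N h5
      rw [dl_eq, h6]
      have h7 : (0 : (L ≃ₐ[ℚ] L) → ℤ) = -f ↔ (0 : (L ≃ₐ[ℚ] L) → ℤ) = f := by
        rw [eq_comm, neg_eq_zero, eq_comm]
      simp only [h7, sub_self, mul_zero]
  have hG : GenD (AlgM p ν j jO) (RR p ν j) (dcnt fun k => tf p ν j (S k)) := by
    refine ⟨ι, inferInstance, κ', fun i k => tf p ν j (T i k), m, h1, fun f => ?_⟩
    rw [h4, hz, add_zero]
    exact Finset.sum_congr rfl fun i _ => by rw [dcnt_eq]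
  refine @of_genD _ _ (RR p ν j) (closedM (p := p) (ν := ν) j jO) ?_ κ _
    (fun k => tf p ν j (S k)) (fun k => ⟨S k, hS k, rfl⟩)
    (by rw [Nat.card_eq_fintype_card]; exact heven) hG
  rintro f ⟨S', hS', rfl⟩
  exact pair_cancel j jO hS'

end

end Pool.Agent.K4H21.TF
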