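import Mathlib
import Pool.Agent.K4H21.TF.Stms

/-!
# Multiplicative relations with integral exponents
-/

set_option autoImplicit false
set_option linter.unusedSectionVars false
set_option linter.unusedVariables false

namespace Pool.Agent.K4H21.TF

open NumberField Pool.Agent.H204R3.CM Pool.Agent.W547.KB Pool.Agent.W547.LD Module
  Pool.Agent.W495.TA Pool.Agent.W495.TB Pool.Agent.W495.TC Pool.Agent.TH117.BL
open scoped TensorProduct

noncomputable section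

variable {p : ℕ} [Fact p.Prime] {ν : PadicAlgCl p ≃+* ℂ}

/-- The complex conjugate embedding. -/
def cj {Z : RedAV p ν} (w : Emb Z) : Emb Z := ⟨w.1, ComplexEmbedding.conjugate w.2⟩

theorem cj_cj {Z : RedAV p ν} (w : Emb Z) : cj (cj w) = w := by
  obtain ⟨i, φ⟩ := w
  unfold cj
  simp only
  congr 1
  exact ComplexEmbedding.involutive_conjugate _ φ

theorem q_ne (Z : RedAV p ν) : ((p : ℂ) ^ Z.a) ≠ 0 :=
  pow_ne_zero _ (by exact_mod_cast (Fact.out : p.Prime).ne_zero)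

/-- The product of an eigenvalue and its complex conjugate. -/
theorem eig_cj {Z : RedAV p ν} (w : Emb Z) : eig Z w * eig Z (cj w) = (p : ℂ) ^ Z.a := by
  have h := (Z.frob w.1).weil w.2
  change w.2 (Z.π w.1) * (starRingEnd ℂ) (w.2 (Z.π w.1)) = _
  rw [Complex.mul_conj, Complex.normSq_eq_norm_sq, h]
  push_cast
  rfl

theorem eig_ne {Z : RedAV p ν} (w : Emb Z) : eig Z w ≠ 0 := by
  intro h
  have h1 := eig_cj w
  rw [h, zero_mul] at h1
  exact q_ne Z h1.symm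

/-- The product of the squares of all eigenvalues. -/
theorem prod_eig (Z : RedAV p ν) [Fintype (Emb Z)] :
    (∏ w, eig Z w) ^ 2 = ((p : ℂ) ^ Z.a) ^ Fintype.card (Emb Z) := by
  have e : Emb Z ≃ Emb Z := ⟨cj, cj, cj_cj, cj_cj⟩
  have h1 : ∏ w, eig Z (cj w) = ∏ w, eig Z w :=
    Equiv.prod_comp (⟨cj, cj, cj_cj, cj_cj⟩ : Emb Z ≃ Emb Z) (eig Z)
  rw [sq]
  nth_rewrite 2 [← h1]
  rw [← Finset.prod_mul_distrib, Finset.prod_congr rfl fun w _ => eig_cj w, Finset.prod_const,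
    Finset.card_univ]

theorem aux1 {q P : ℂ} (hq : q ≠ 0) {m : ℤ} {n C K S : ℕ} (hS : (S : ℤ) = 2 * m + 2 * K * C)
    (hP : P ^ n = (q ^ m) ^ n) : (P * (q ^ C) ^ K) ^ (2 * n) = q ^ (n * S) := by
  have h1 : (P * (q ^ C) ^ K) ^ (2 * n) = (P ^ n) ^ 2 * (q ^ C) ^ (K * (2 * n)) := by ring
  rw [h1, hP, ← pow_mul, ← pow_mul, ← zpow_natCast, ← zpow_natCast, ← zpow_natCast, ← zpow_mul,
    ← zpow_add₀ hq]
  congr 1
  push_cast
  rw [hS]
  ring

theorem aux2 {q P : ℂ} (hq : q ≠ 0) {m : ℤ} {n C K S : ℕ} (hS : (S : ℤ) = 2 * m + 2 * K * C)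
    (hP : (P * (q ^ C) ^ K) ^ (2 * n) = q ^ (n * S)) : P ^ (2 * n) = (q ^ m) ^ (2 * n) := by
  have h5 : (q ^ C) ^ (K * (2 * n)) ≠ 0 := pow_ne_zero _ (pow_ne_zero _ hq)
  apply mul_right_cancel₀ h5
  have h1 : P ^ (2 * n) * (q ^ C) ^ (K * (2 * n)) = (P * (q ^ C) ^ K) ^ (2 * n) := by ring
  rw [h1, hP, ← pow_mul, ← zpow_natCast, ← zpow_natCast, ← zpow_natCast, ← zpow_mul,
    ← zpow_add₀ hq]
  congr 1
  push_cast
  rw [hS]
  ring

theorem rel_main : S_rel := by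
  intro p _ ν L _ _ _ _ j Z hZ _ e
  classical
  -- a large multiple of the sum of all eigenvalues is added
  obtain ⟨K, hK⟩ : ∃ K : ℕ, ∀ w, 0 ≤ e w + K := by
    refine ⟨∑ w, (e w).natAbs, fun w => ?_⟩
    have h1 : (e w).natAbs ≤ ∑ w, (e w).natAbs :=
      Finset.single_le_sum (f := fun w => (e w).natAbs) (fun _ _ => Nat.zero_le _) (Finset.mem_univ w)
    have h2 : -((e w).natAbs : ℤ) ≤ e w := by omega
    have h3 : ((e w).natAbs : ℤ) ≤ ((∑ w, (e w).natAbs : ℕ) : ℤ) := by exact_mod_cast h1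
    linarith
  let e' : Emb Z → ℕ := fun w => (e w + 2 * K).toNat
  have he' : ∀ w, (e' w : ℤ) = e w + 2 * K := fun w => Int.toNat_of_nonneg (by
    have := hK w
    have h0 : (0 : ℤ) ≤ K := by positivity
    linarith)
  have h0 := isRel_iff hZ e'
  -- the sum of all functions is zero
  have hsum0 : ∀ σ, ∑ w : Wt Z.X L, tw p ν j Z.X w σ = 0 := by
    intro σ
    have h1 : ∑ w : Wt Z.X L, tw p ν j Z.X (cw Z w) σ = ∑ w : Wt Z.X L, tw p ν j Z.X w σ := by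
      refine Equiv.sum_comp (⟨cw Z, cw Z, ?_, ?_⟩ : Wt Z.X L ≃ Wt Z.X L)
        (fun w => tw p ν j Z.X w σ)
      · rintro ⟨i, φ⟩
        change (⟨i, cc L • cc L • φ⟩ : Wt Z.X L) = ⟨i, φ⟩
        rw [← mul_smul, cc_cc, one_smul]
      · rintro ⟨i, φ⟩
        change (⟨i, cc L • cc L • φ⟩ : Wt Z.X L) = ⟨i, φ⟩
        rw [← mul_smul, cc_cc, one_smul]
    have h2 : ∑ w : Wt Z.X L, tw p ν j Z.X (cw Z w) σ = -∑ w : Wt Z.X L, tw p ν j Z.X w σ := by
      rw [← Finset.sum_neg_distrib]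
      exact Finset.sum_congr rfl fun w _ => by rw [tw_cw, Pi.neg_apply]
    linarith
  have h3 : (∀ σ, ∑ w : Wt Z.X L, (e' (toEmb j Z w) : ℤ) * tw p ν j Z.X w σ = 0) ↔
      ∀ σ, ∑ w : Wt Z.X L, e (toEmb j Z w) * tw p ν j Z.X w σ = 0 := by
    refine forall_congr' fun σ => ?_
    have h4 : ∑ w : Wt Z.X L, (e' (toEmb j Z w) : ℤ) * tw p ν j Z.X w σ =
        ∑ w : Wt Z.X L, e (toEmb j Z w) * tw p ν j Z.X w σ +
          2 * K * ∑ w : Wt Z.X L, tw p ν j Z.X w σ := by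
      rw [Finset.mul_sum, ← Finset.sum_add_distrib]
      exact Finset.sum_congr rfl fun w _ => by rw [he']; ring
    rw [h4, hsum0, mul_zero, add_zero]
  have hprod : ∏ w, eig Z w ^ (e' w) = (∏ w, eig Z w ^ e w) * ((∏ w, eig Z w) ^ 2) ^ K := by
    rw [← pow_mul, ← Finset.prod_pow, ← Finset.prod_mul_distrib]
    refine Finset.prod_congr rfl fun w _ => ?_
    rw [← zpow_natCast, he', zpow_add₀ (eig_ne w)]
    rfl
  have hS : (∑ w, e' w : ℤ) = ∑ w, e w + 2 * K * Fintype.card (Emb Z) := by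
    rw [Finset.sum_congr rfl fun w _ => he' w, Finset.sum_add_distrib, Finset.sum_const,
      Finset.card_univ, nsmul_eq_mul]
    ring
  set q : ℂ := (p : ℂ) ^ Z.a with hq
  have hq0 : q ≠ 0 := q_ne Z
  rw [← h3, ← h0]
  unfold IsRelation IsRel
  constructor
  · rintro ⟨m, n, hn, hm, h⟩
    refine ⟨⟨m, by rw [hm]; ring⟩, n, hn, ?_⟩
    rw [hprod, prod_eig]
    refine aux1 hq0 (m := m) ?_ h
    push_cast
    rw [hS, hm]
  · rintro ⟨⟨m, hm⟩, n, hn, h⟩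
    refine ⟨m, 2 * n, by omega, by rw [hm]; ring, ?_⟩
    rw [hprod, prod_eig] at h
    refine aux2 hq0 (m := m) ?_ h
    push_cast
    rw [hS, hm]
    ring

end

end Pool.Agent.K4H21.TF
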