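import Mathlib
import Pool.Agent.K4H21.TF.Stms

/-!
# The slope functions in terms of a Galois CM field
-/

set_option autoImplicit false
set_option linter.unusedSectionVars false
set_option linter.unusedVariables false

namespace Pool.Agent.K4H21.TF

open NumberField Pool.Agent.H204R3.CM Pool.Agent.W547.KB Pool.Agent.W547.LD Module
  Pool.Agent.W495.TA Pool.Agent.W495.TB Pool.Agent.W495.TC Pool.Agent.TH117.BL Pool.Agent.W366.TA
open scoped TensorProduct

noncomputable section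

theorem slf_main : S_slf := by
  intro p _ ν L _ _ _ _ j A φ0 τ σ hτ
  have hc : ((τ : ℂ →+* ℂ).comp (j.comp φ0)) = j.comp (σ • φ0) := by
    refine RingHom.ext fun x => ?_
    exact hτ (φ0 x)
  rw [← tf_hs_smul]
  unfold slf
  rw [hc]
  set φ := σ • φ0 with hφ
  set k := Nat.card {d : Dec p ν j // (d : L ≃ₐ[ℚ] L) • φ = φ} with hk
  have hk0 : 0 < k := Nat.card_pos_iff.2 ⟨⟨⟨1, one_smul _ φ⟩⟩, inferInstance⟩
  have hfin : Finite {φ' : A.E →+* ℂ // SamePlace p ν (j.comp φ) φ'} := Subtype.finite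
  have h1 := card_fib (toPl (p := p) (ν := ν) j φ) k (card_fibre j φ) (fun _ => True)
  have h2 := card_fib (toPl (p := p) (ν := ν) j φ) k (card_fibre j φ) (fun b => b.1 ∈ A.Φ)
  rw [Nat.card_congr (Equiv.subtypeUnivEquiv fun _ => trivial),
    Nat.card_congr (Equiv.subtypeUnivEquiv fun _ => trivial)] at h1
  rw [Nat.card_congr (Equiv.subtypeSubtypeEquivSubtypeInter _ _)] at h2
  have h3 := card_tf (p := p) (ν := ν) j (hs A j φ)
  have h4 : Nat.card {d : Dec p ν j // (d : L ≃ₐ[ℚ] L) ∈ hs A j φ} =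
      Nat.card {d : Dec p ν j // (toPl j φ d).1 ∈ A.Φ} := rfl
  rw [h4, h2] at h3
  set m := Nat.card {φ' : A.E →+* ℂ // SamePlace p ν (j.comp φ) φ'} with hm
  set n := Nat.card {φ' : A.E →+* ℂ // SamePlace p ν (j.comp φ) φ' ∧ φ' ∈ A.Φ} with hn
  have h5 : (Nat.card (Dec p ν j) : ℚ) + ((tf p ν j (hs A j φ) 1 : ℤ) : ℚ) = 2 * (k * n : ℚ) := by
    exact_mod_cast h3
  rw [h5, h1]
  have hm0 : (m : ℚ) ≠ 0 := by
    have h6 : 0 < m := by
      rw [hm]
      exact Nat.card_pos_iff.2 ⟨⟨⟨j.comp φ, 1, fun x => (ν.apply_symm_apply _).symm⟩⟩, hfin⟩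
    exact_mod_cast h6.ne'
  push_cast
  field_simp

end

end Pool.Agent.K4H21.TF
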