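import Mathlib
import Pool.Agent.K4H21.TF.Slf
import Pool.Agent.K4H21.TF.RelI
import Pool.Agent.K4H21.LC.Neg
import Pool.Agent.K4H21.TL.Mk

/-!
# Utilities for slopes
-/

set_option autoImplicit false
set_option linter.unusedSectionVars false
set_option linter.unusedVariables false

namespace Pool.Agent.K4H21.TF

open NumberField Pool.Agent.H204R3.CM Pool.Agent.W547.KB Pool.Agent.W547.LD Module
  Pool.Agent.W495.TA Pool.Agent.W495.TB Pool.Agent.W495.TC Pool.Agent.TH117.BL Pool.Agent.W366.TA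
open Pool.Agent.K4H21.DB (signs)
open Pool.Agent.K4H21.LC (rr rr_spec rr_surj Th Th_inj signs_eq)
open scoped TensorProduct

noncomputable section

variable {p : ℕ} [Fact p.Prime] {ν : PadicAlgCl p ≃+* ℂ}

/-- The local degree is positive. -/
theorem card_place_pos (A : CMPair) (φ : A.E →+* ℂ) :
    0 < Nat.card {φ' : A.E →+* ℂ // SamePlace p ν φ φ'} :=
  Nat.card_pos_iff.2 ⟨⟨⟨φ, 1, fun x => (ν.apply_symm_apply _).symm⟩⟩, Subtype.finite⟩

/-- The eigenvalues of `Z` satisfy the formula of Shimura and Taniyama. -/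
theorem frob_slopes (Z : RedAV p ν) (w : Emb Z) :
    HasSlopes p ν (Z.X.factor w.1) w.2 Z.a (eig Z w) := fun τ =>
  (Z.frob w.1).shimuraTaniyama ((τ : ℂ →+* ℂ).comp w.2)

theorem frob_slopes' {A : CMPair} {a : ℕ} {ϖ : A.E} (h : IsFrobenius p ν A a ϖ) (φ : A.E →+* ℂ) :
    HasSlopes p ν A φ a (φ ϖ) := fun τ => h.shimuraTaniyama ((τ : ℂ →+* ℂ).comp φ)

theorem pa_pos (a : ℕ) : 0 < ‖(p : PadicAlgCl p) ^ a‖ := by
  rw [norm_pow]
  exact pow_pos norm_p_pos a

theorem pa_lt {a : ℕ} (ha : 0 < a) : ‖(p : PadicAlgCl p) ^ a‖ < 1 := by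
  rw [norm_pow]
  exact pow_lt_one₀ norm_p_pos.le norm_p_lt ha.ne'

/-- The formula of Shimura and Taniyama in terms of the slope function. -/
theorem norm_slf_iff (A : CMPair) (φ : A.E →+* ℂ) (a : ℕ) (α : ℂ) :
    HasSlopes p ν A φ a α ↔ ∀ τ : ℂ ≃+* ℂ,
      ‖ν.symm (τ α)‖ = ‖(p : PadicAlgCl p) ^ a‖ ^ ((slf p ν A φ τ : ℚ) : ℝ) := by
  refine forall_congr' fun τ => ?_
  unfold slf
  set m := Nat.card {φ' : A.E →+* ℂ // SamePlace p ν ((τ : ℂ →+* ℂ).comp φ) φ'} with hm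
  set n := Nat.card {φ' : A.E →+* ℂ // SamePlace p ν ((τ : ℂ →+* ℂ).comp φ) φ' ∧ φ' ∈ A.Φ} with hn
  have hm0 : 0 < m := card_place_pos A _
  have hmr : (m : ℝ) ≠ 0 := by exact_mod_cast hm0.ne'
  have hP := pa_pos (p := p) a
  have h1 : (‖(p : PadicAlgCl p) ^ a‖ ^ (((n : ℚ) / (m : ℚ) : ℚ) : ℝ)) ^ m =
      ‖(p : PadicAlgCl p) ^ a‖ ^ n := by
    rw [← Real.rpow_natCast, ← Real.rpow_mul hP.le, ← Real.rpow_natCast]
    congr 1
    push_cast
    field_simp
  constructor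
  · intro h
    refine (pow_left_inj₀ (norm_nonneg _) (Real.rpow_nonneg hP.le _) hm0.ne').1 ?_
    rw [h1, h]
  · intro h
    rw [h, h1]

/-- The slope function is determined by the norms. -/
theorem slf_of_norm {A A' : CMPair} {φ : A.E →+* ℂ} {φ' : A'.E →+* ℂ} {a : ℕ} (ha : 0 < a) {α : ℂ}
    (h : HasSlopes p ν A φ a α) (h' : HasSlopes p ν A' φ' a α) : slf p ν A φ = slf p ν A' φ' := by
  funext τ
  have h1 := (norm_slf_iff A φ a α).1 h τ
  rw [(norm_slf_iff A' φ' a α).1 h' τ] at h1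
  have h2 := (Real.rpow_right_inj (pa_pos (p := p) a) (pa_lt (p := p) ha).ne).1 h1
  exact_mod_cast h2.symm

/-- The formula for a type with the same slope function. -/
theorem slopes_of_slf {A A' : CMPair} {φ : A.E →+* ℂ} {φ' : A'.E →+* ℂ} {a : ℕ} {α : ℂ}
    (h : HasSlopes p ν A φ a α) (hs : slf p ν A φ = slf p ν A' φ') : HasSlopes p ν A' φ' a α := by
  rw [norm_slf_iff] at h ⊢
  intro τ
  rw [← hs]
  exact h τ

/-- Composition with an automorphism. -/
theorem slf_comp (A : CMPair) (φ : A.E →+* ℂ) (τ' τ : ℂ ≃+* ℂ) :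
    slf p ν A ((τ' : ℂ →+* ℂ).comp φ) τ = slf p ν A φ (τ'.trans τ) := rfl

/-- The powers of numbers with slopes. -/
theorem slf_of_pow {A A' : CMPair} {φ : A.E →+* ℂ} {φ' : A'.E →+* ℂ} {a b s t : ℕ} (ha : 0 < a)
    (hs : 0 < s) (hst : a * s = b * t) {α β : ℂ} (h : HasSlopes p ν A φ a α)
    (h' : HasSlopes p ν A' φ' b β) (hp : α ^ s = β ^ t) : slf p ν A φ = slf p ν A' φ' := by
  funext τ
  have h1 := (norm_slf_iff A φ a α).1 h τ
  have h2 := (norm_slf_iff A' φ' b β).1 h' τ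
  have h3 : ‖ν.symm (τ α)‖ ^ s = ‖ν.symm (τ β)‖ ^ t := by
    rw [← norm_pow, ← norm_pow, ← map_pow, ← map_pow, ← map_pow, ← map_pow, hp]
  have hp0 := norm_p_pos (p := p)
  rw [h1, h2, norm_pow, norm_pow, ← Real.rpow_natCast, ← Real.rpow_natCast, ← Real.rpow_natCast,
    ← Real.rpow_natCast, ← Real.rpow_mul hp0.le, ← Real.rpow_mul hp0.le, ← Real.rpow_mul hp0.le,
    ← Real.rpow_mul hp0.le] at h3
  have h4 := (Real.rpow_right_inj hp0 norm_p_lt.ne).1 h3
  have h5 : (b : ℝ) * t = a * s := by exact_mod_cast hst.symm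
  have h6 : (a : ℝ) * s ≠ 0 := by
    have : 0 < a * s := Nat.mul_pos ha hs
    exact_mod_cast this.ne'
  have h7 : ((slf p ν A φ τ : ℚ) : ℝ) = ((slf p ν A' φ' τ : ℚ) : ℝ) := by
    apply mul_left_cancel₀ h6
    calc (a : ℝ) * s * ((slf p ν A φ τ : ℚ) : ℝ) = a * ((slf p ν A φ τ : ℚ) : ℝ) * s := by ring
      _ = b * ((slf p ν A' φ' τ : ℚ) : ℝ) * t := h4
      _ = b * t * ((slf p ν A' φ' τ : ℚ) : ℝ) := by ring
      _ = _ := by rw [h5]
  exact_mod_cast h7

/-- Two numbers whose product is `q` up to a root of unity. -/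
theorem slf_of_mul {A A' : CMPair} {φ : A.E →+* ℂ} {φ' : A'.E →+* ℂ} {a s : ℕ} (ha : 0 < a)
    (hs : 0 < s) {α β : ℂ} (h : HasSlopes p ν A φ a α)
    (h' : HasSlopes p ν A' φ' a β) (hp : (α * β) ^ s = ((p : ℂ) ^ a) ^ s) (τ : ℂ ≃+* ℂ) :
    slf p ν A φ τ + slf p ν A' φ' τ = 1 := by
  have h1 := (norm_slf_iff A φ a α).1 h τ
  have h2 := (norm_slf_iff A' φ' a β).1 h' τ
  have h3 : (‖ν.symm (τ α)‖ * ‖ν.symm (τ β)‖) ^ s = ‖(p : PadicAlgCl p) ^ a‖ ^ s := by
    rw [← norm_mul, ← norm_pow, ← norm_pow, ← map_mul, ← map_mul, ← map_pow, ← map_pow, hp,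
      map_pow, map_pow, map_pow, map_pow, map_natCast, map_natCast]
  have h4 := (pow_left_inj₀ (by positivity) (norm_nonneg _) hs.ne').1 h3
  rw [h1, h2, ← Real.rpow_add (pa_pos (p := p) a)] at h4
  nth_rewrite 2 [← Real.rpow_one ‖(p : PadicAlgCl p) ^ a‖] at h4
  have h5 := (Real.rpow_right_inj (pa_pos (p := p) a) (pa_lt (p := p) ha).ne).1 h4
  exact_mod_cast h5

/-- A Galois CM field which contains all conjugates of the fields of the factors. -/
theorem exists_big (X : CMAV) :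
    ∃ (L : Type) (_ : Field L) (_ : NumberField L) (_ : IsCMField L) (_ : IsGalois ℚ L)
      (j : L →+* ℂ), Big X j := Pool.Agent.K4H21.LC.exists_cmL X

section

variable {L : Type} [Field L] [NumberField L] [IsCMField L] [IsGalois ℚ L]

/-- The slope function in terms of the decomposition group. -/
theorem slf_rr (j : L →+* ℂ) (A : CMPair) (φ : A.E →+* L) (τ : ℂ ≃+* ℂ) :
    2 * (Nat.card (Dec p ν j) : ℚ) * slf p ν A (j.comp φ) τ =
      (Nat.card (Dec p ν j) : ℚ) + ((tf p ν j (hs A j φ) (rr j τ) : ℤ) : ℚ) :=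
  slf_main p ν L j A φ τ (rr j τ) (rr_spec j τ)

theorem dec_ne (j : L →+* ℂ) : (Nat.card (Dec p ν j) : ℚ) ≠ 0 := by
  have h : 0 < Nat.card (Dec p ν j) := Nat.card_pos
  exact_mod_cast h.ne'

/-- Slope functions are equal if and only if the functions on the Galois group are equal. -/
theorem slf_eq_iff (j : L →+* ℂ) (A A' : CMPair) (φ : A.E →+* L) (φ' : A'.E →+* L) :
    slf p ν A (j.comp φ) = slf p ν A' (j.comp φ') ↔
      tf p ν j (hs A j φ) = tf p ν j (hs A' j φ') := by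
  have hD := dec_ne (p := p) (ν := ν) j
  constructor
  · intro h
    funext σ
    obtain ⟨τ, rfl⟩ := rr_surj j σ
    have h1 := slf_rr (p := p) (ν := ν) j A φ τ
    rw [h, slf_rr] at h1
    have h2 := add_left_cancel h1
    exact_mod_cast h2.symm
  · intro h
    funext τ
    have h1 := slf_rr (p := p) (ν := ν) j A φ τ
    rw [h, ← slf_rr] at h1
    exact mul_left_cancel₀ (mul_ne_zero two_ne_zero hD) h1

/-- Slope functions with sum one. -/
theorem slf_add_iff (j : L →+* ℂ) (A A' : CMPair) (φ : A.E →+* L) (φ' : A'.E →+* L) :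
    (∀ τ, slf p ν A (j.comp φ) τ + slf p ν A' (j.comp φ') τ = 1) ↔
      ∀ σ, tf p ν j (hs A j φ) σ + tf p ν j (hs A' j φ') σ = 0 := by
  have hD := dec_ne (p := p) (ν := ν) j
  constructor
  · intro h σ
    obtain ⟨τ, rfl⟩ := rr_surj j σ
    have h1 := slf_rr (p := p) (ν := ν) j A φ τ
    have h2 := slf_rr (p := p) (ν := ν) j A' φ' τ
    have h3 : ((tf p ν j (hs A j φ) (rr j τ) : ℤ) : ℚ) + ((tf p ν j (hs A' j φ') (rr j τ) : ℤ) : ℚ) = 0 := by
      have h4 : 2 * (Nat.card (Dec p ν j) : ℚ) * (slf p ν A (j.comp φ) τ + slf p ν A' (j.comp φ') τ) =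
        2 * (Nat.card (Dec p ν j) : ℚ) := by rw [h τ, mul_one]
      linarith
    exact_mod_cast h3
  · intro h τ
    have h1 := slf_rr (p := p) (ν := ν) j A φ τ
    have h2 := slf_rr (p := p) (ν := ν) j A' φ' τ
    have h3 : ((tf p ν j (hs A j φ) (rr j τ) : ℤ) : ℚ) + ((tf p ν j (hs A' j φ') (rr j τ) : ℤ) : ℚ) = 0 := by
      exact_mod_cast h (rr j τ)
    apply mul_left_cancel₀ (mul_ne_zero two_ne_zero hD)
    linarith

end

/-- The slope functions of complex conjugate embeddings. -/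
theorem slf_conj (A : CMPair) (φ : A.E →+* ℂ) (τ : ℂ ≃+* ℂ) :
    slf p ν A φ τ + slf p ν A (ComplexEmbedding.conjugate φ) τ = 1 := by
  obtain ⟨L, _, _, _, _, j, hj⟩ := exists_big (single A)
  obtain ⟨φ', rfl⟩ := hj () φ
  rw [← comp_smul_cc]
  revert τ
  rw [slf_add_iff]
  intro σ
  have h := tf_cc_wt (p := p) (ν := ν) j (X := single A) (⟨(), φ'⟩ : Wt (single A) L) σ
  change tf p ν j (hs A j (cc L • φ')) σ = -tf p ν j (hs A j φ') σ at h
  rw [h]
  ring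

/-- The slope functions only depend on the sign vectors. -/
theorem slf_signs {A A' : CMPair} {φ : A.E →+* ℂ} {φ' : A'.E →+* ℂ}
    (h : signs A φ = signs A' φ') : slf p ν A φ = slf p ν A' φ' := by
  obtain ⟨L, _, _, _, _, j, hj⟩ := exists_big ((single A).prod (single A'))
  obtain ⟨ψ, rfl⟩ : ∃ ψ : A.E →+* L, j.comp ψ = φ := hj (Sum.inl ()) φ
  obtain ⟨ψ', rfl⟩ : ∃ ψ : A'.E →+* L, j.comp ψ = φ' := hj (Sum.inr ()) φ'
  rw [signs_eq, signs_eq] at h
  exact (slf_eq_iff j A A' ψ ψ').2 (by rw [Th_inj j h])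

/-- The embeddings of a number field are conjugate under the automorphisms of the field of complex
numbers. -/
theorem exists_aut_emb (A : CMPair) (φ0 φ : A.E →+* ℂ) :
    ∃ τ : ℂ ≃+* ℂ, (τ : ℂ →+* ℂ).comp φ0 = φ := Pool.Agent.K4H21.TL.exists_tau A φ0 φ

/-- Numbers with slopes with sum one: their product is `q` up to a root of unity. -/
theorem eig_mul_of_slf (Z : RedAV p ν) (w w' : Emb Z)
    (h : ∀ τ, slf p ν (Z.X.factor w.1) w.2 τ + slf p ν (Z.X.factor w'.1) w'.2 τ = 1) :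
    ∃ n : ℕ, 0 < n ∧ (eig Z w * eig Z w') ^ n = ((p : ℂ) ^ Z.a) ^ n := by
  classical
  obtain ⟨L, _, _, _, _, j, hj⟩ := exists_big Z.X
  have := finite_wt j hj
  let _ : Fintype (Wt Z.X L) := Fintype.ofFinite _
  obtain ⟨i, φ⟩ := w
  obtain ⟨i', φ'⟩ := w'
  obtain ⟨ψ, rfl⟩ := hj i φ
  obtain ⟨ψ', rfl⟩ := hj i' φ'
  have h1 := (slf_add_iff j _ _ ψ ψ').1 h
  have h2 := (isRel_iff (ν := ν) hj (fun u => (if u = toEmb j Z ⟨i, ψ⟩ then 1 else 0) +
    (if u = toEmb j Z ⟨i', ψ'⟩ then 1 else 0))).2 (by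
      intro σ
      have hinj := (toEmb_bijective (Z := Z) hj).1
      have e1 : ∀ u : Wt Z.X L, (((if toEmb j Z u = toEmb j Z ⟨i, ψ⟩ then 1 else 0) +
          (if toEmb j Z u = toEmb j Z ⟨i', ψ'⟩ then 1 else 0) : ℕ) : ℤ) * tw p ν j Z.X u σ =
          (if u = ⟨i, ψ⟩ then tw p ν j Z.X u σ else 0) +
            (if u = ⟨i', ψ'⟩ then tw p ν j Z.X u σ else 0) := by
        intro u
        simp only [hinj.eq_iff]
        push_cast
        split_ifs <;> ring
      rw [Finset.sum_congr rfl fun u _ => e1 u, Finset.sum_add_distrib, Finset.sum_ite_eq',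
        Finset.sum_ite_eq', if_pos (Finset.mem_univ _), if_pos (Finset.mem_univ _)]
      have h3 := h1 σ
      rw [tf_hs, tf_hs] at h3
      exact h3)
  obtain ⟨s, hs, h3⟩ := h2
  refine ⟨2 * s, by omega, ?_⟩
  have e2 : ∏ w : Emb Z, eig Z w ^ ((if w = toEmb j Z ⟨i, ψ⟩ then 1 else 0) +
      (if w = toEmb j Z ⟨i', ψ'⟩ then 1 else 0)) = eig Z ⟨i, j.comp ψ⟩ * eig Z ⟨i', j.comp ψ'⟩ := by
    have e3 : ∀ (w u : Emb Z), eig Z w ^ (if w = u then 1 else 0) = if w = u then eig Z w else 1 := by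
      intro w u
      split_ifs <;> simp
    simp only [pow_add, Finset.prod_mul_distrib, e3, Finset.prod_ite_eq', Finset.mem_univ, if_true]
    rfl
  have e4 : ∑ w : Emb Z, ((if w = toEmb j Z ⟨i, ψ⟩ then 1 else 0) +
      (if w = toEmb j Z ⟨i', ψ'⟩ then 1 else 0)) = 2 := by
    simp [Finset.sum_add_distrib]
  rw [e2, e4] at h3
  rw [h3]
  congr 1
  ring

end

end Pool.Agent.K4H21.TF
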