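import Mathlib
import Pool.Agent.K4H21.TF.Defs2
import Pool.Agent.K4H21.TF.PosB2
import Pool.Agent.K4H21.TF.Utl

/-!
# The parts of the proof of the numerical criterion
-/

set_option autoImplicit false

namespace Pool.Agent.K4H21.TF

open NumberField Pool.Agent.H204R3.CM Pool.Agent.W547.KB Pool.Agent.W547.LD Module
  Pool.Agent.W495.TA Pool.Agent.W495.TB Pool.Agent.W495.TC Pool.Agent.TH117.BL
open scoped TensorProduct

noncomputable section

/-- The bounded functions. -/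
abbrev TB (p : ℕ) [Fact p.Prime] (ν : PadicAlgCl p ≃+* ℂ) {L : Type} [Field L] [NumberField L]
    [IsCMField L] [IsGalois ℚ L] (j : L →+* ℂ) : Type := {f : (L ≃ₐ[ℚ] L) → ℤ // f ∈ FB p ν j}

/-- The odd relations between the functions of the eigenvalues. -/
def LamT {p : ℕ} [Fact p.Prime] {ν : PadicAlgCl p ≃+* ℂ} {L : Type} [Field L] [NumberField L]
    [IsCMField L] [IsGalois ℚ L] (j : L →+* ℂ) (Z : RedAV p ν) :
    Submodule ℤ (TB p ν j → ℤ) where
  carrier := {a | (∀ f, a f ≠ 0 → f.1 ∈ Set.range (tw p ν j Z.X)) ∧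
    (∀ f f' : TB p ν j, f'.1 = -f.1 → a f' = -a f) ∧ ∀ σ, ∑ f, a f * f.1 σ = 0}
  zero_mem' := ⟨fun f h => absurd rfl h, fun f f' _ => by simp, fun σ => by simp⟩
  add_mem' := fun {a b} ha hb => ⟨fun f h => by
      by_cases h1 : a f = 0
      · by_cases h2 : b f = 0
        · exact absurd (show (a + b) f = 0 by rw [Pi.add_apply, h1, h2, add_zero]) h
        · exact hb.1 f h2
      · exact ha.1 f h1,
    fun f f' h => by
      rw [Pi.add_apply, Pi.add_apply, ha.2.1 f f' h, hb.2.1 f f' h]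
      ring,
    fun σ => by
      have h1 := ha.2.2 σ
      have h2 := hb.2.2 σ
      calc ∑ f, (a + b) f * f.1 σ = ∑ f, a f * f.1 σ + ∑ f, b f * f.1 σ := by
            rw [← Finset.sum_add_distrib]
            exact Finset.sum_congr rfl fun f _ => by rw [Pi.add_apply, add_mul]
        _ = 0 := by rw [h1, h2, add_zero]⟩
  smul_mem' := fun c a ha => ⟨fun f h => ha.1 f fun h1 => h (by
      rw [Pi.smul_apply, h1, smul_zero]),
    fun f f' h => by
      rw [Pi.smul_apply, Pi.smul_apply, ha.2.1 f f' h, smul_neg],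
    fun σ => by
      have h1 := ha.2.2 σ
      calc ∑ f, (c • a) f * f.1 σ = c * ∑ f, a f * f.1 σ := by
            rw [Finset.mul_sum]
            exact Finset.sum_congr rfl fun f _ => by rw [Pi.smul_apply, smul_eq_mul, mul_assoc]
        _ = 0 := by rw [h1, mul_zero]⟩

/-- Piece H: combinations with trivial function are in `Gen`. -/
def S_ker : Prop :=
  ∀ (p : ℕ) [Fact p.Prime] (ν : PadicAlgCl p ≃+* ℂ) (Z : RedAV p ν) (L : Type) [Field L]
    [NumberField L] [IsCMField L] [IsGalois ℚ L] (j : L →+* ℂ) (_ : Big Z.X j)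
    [Fintype (Wt Z.X L)] (e : Emb Z → ℤ)
    (_ : DD (tw p ν j Z.X) (fun w => e (toEmb j Z w)) = 0), e ∈ Gen Z

/-- Piece I: the rank of the relations. -/
def S_rk : Prop :=
  ∀ (p : ℕ) [Fact p.Prime] (ν : PadicAlgCl p ≃+* ℂ) (Z : RedAV p ν) (L : Type) [Field L]
    [NumberField L] [IsCMField L] [IsGalois ℚ L] (j : L →+* ℂ) (_ : Big Z.X j),
    2 * (finrank ℤ (LamT j Z) + angleRank Z) = numEig Z

/-- The numerical criterion. -/
def S_num : Prop :=
  ∀ (p : ℕ) [Fact p.Prime] (ν : PadicAlgCl p ≃+* ℂ) (Z : RedAV p ν) (r : ℕ)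
    (W : Fin r → QuadDatum Z)
    (_ : ∀ i k, i ≠ k → ∀ φ ψ, ¬ SameEig Z ((W i).θ φ) ((W k).θ ψ))
    (_ : numEig Z / 2 + ((fun i => (W i).d) '' {i | (W i).Unbalanced}).ncard ≤ angleRank Z + r)
    (e : Emb Z → ℤ), IsRelation Z e → e ∈ Gen Z

end

end Pool.Agent.K4H21.TF
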