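import Mathlib
import Pool.Agent.K4H21.TF.Stms2
import Pool.Agent.K4H21.TF.PosA
import Pool.Agent.K4H21.LC.Num

/-!
# The numerical criterion
-/

set_option autoImplicit false
set_option linter.unusedSectionVars false
set_option linter.unusedVariables false

namespace Pool.Agent.K4H21.TF

open NumberField Pool.Agent.H204R3.CM Pool.Agent.W547.KB Pool.Agent.W547.LD Module
  Pool.Agent.W495.TA Pool.Agent.W495.TB Pool.Agent.W495.TC Pool.Agent.TH117.BL Pool.Agent.TH117.F5
open Pool.Agent.K4H21.LC (zz zz_sq zz_conj zz_ne mem_of_rank)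
open Pool.Agent.K4H21.TF.PosA (Psi stz mem_stz isImag_stz tr_hs' finite_hom)
open scoped TensorProduct

noncomputable section

variable {p : ℕ} [Fact p.Prime] {ν : PadicAlgCl p ≃+* ℂ}

/-- Equal slope functions give equal eigenvalues up to roots of unity. -/
theorem sameEig_of_slf {Z : RedAV p ν} (w w' : Emb Z)
    (h : slf p ν (Z.X.factor w.1) w.2 = slf p ν (Z.X.factor w'.1) w'.2) : SameEig Z w w' := by
  have h1 : ∀ v : Emb Z, slf p ν (Z.X.factor v.1) v.2 = slf p ν (Z.X.factor w'.1) w'.2 →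
      ∃ n : ℕ, 0 < n ∧ (eig Z v * eig Z (cj w')) ^ n = ((p : ℂ) ^ Z.a) ^ n := by
    intro v hv
    refine eig_mul_of_slf Z v (cj w') fun τ => ?_
    rw [hv]
    exact slf_conj _ _ τ
  obtain ⟨n, hn, h2⟩ := h1 w h
  refine ⟨n, hn, ?_⟩
  have h3 : (eig Z w' * eig Z (cj w')) ^ n = ((p : ℂ) ^ Z.a) ^ n := by rw [eig_cj]
  rw [← h2, mul_pow, mul_pow] at h3
  exact (mul_right_cancel₀ (pow_ne_zero _ (eig_ne _)) h3).symm

section

variable {L : Type} [Field L] [NumberField L] [IsCMField L] [IsGalois ℚ L] (j : L →+* ℂ)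
  (A : CMPair) (δ : A.E) (z : ℂ)

instance fintypePsi : Fintype (Psi L j A δ z) := by
  have := finite_hom (L := L) A
  exact Fintype.ofFinite _

/-- The sum of the signs at one. -/
def FP : ℤ := ∑ φ : Psi L j A δ z, sn (hs A j φ.1) 1

theorem hs_smul (τ : L ≃ₐ[ℚ] L) (φ : A.E →+* L) : hs A j (τ • φ) = tr τ (hs A j φ) :=
  (tr_hs' τ φ).symm

variable {A δ z}

/-- The action of the stabiliser on the embeddings. -/
def actPsi (φ0 : Psi L j A δ z) {τ : L ≃ₐ[ℚ] L} (hτ : τ ∈ stz (φ0.1 δ)) :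
    Psi L j A δ z ≃ Psi L j A δ z where
  toFun φ := ⟨τ • φ.1, by
    have h1 : φ.1 δ = φ0.1 δ := j.injective (φ.2.trans φ0.2.symm)
    change j (τ (φ.1 δ)) = z
    rw [h1, (mem_stz _ _).1 hτ, φ0.2]⟩
  invFun φ := ⟨τ⁻¹ • φ.1, by
    have h1 : φ.1 δ = φ0.1 δ := j.injective (φ.2.trans φ0.2.symm)
    change j (τ⁻¹ (φ.1 δ)) = z
    rw [h1, (mem_stz _ _).1 ((stz (φ0.1 δ)).inv_mem hτ), φ0.2]⟩
  left_inv φ := Subtype.ext (inv_smul_smul τ φ.1)
  right_inv φ := Subtype.ext (smul_inv_smul τ φ.1)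

theorem sum_Psi {d : ℚ} (hd : 0 < d) (hδ : δ * δ = -(d : A.E)) (φ0 : Psi L j A δ z)
    (σ : L ≃ₐ[ℚ] L) : ∑ φ : Psi L j A δ z, sn (hs A j φ.1) σ =
      sn (stz (φ0.1 δ) : Set (L ≃ₐ[ℚ] L)) σ * FP j A δ z := by
  have hx : φ0.1 δ * φ0.1 δ = -(d : L) := by rw [← map_mul, hδ, map_neg, map_ratCast]
  have hN := isImag_stz j hd hx
  have key : ∀ σ ∈ stz (φ0.1 δ), ∑ φ : Psi L j A δ z, sn (hs A j φ.1) σ = FP j A δ z := by
    intro σ hσ
    unfold FP
    rw [← Equiv.sum_comp (actPsi j φ0 hσ) fun φ : Psi L j A δ z => sn (hs A j φ.1) 1]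
    refine Finset.sum_congr rfl fun φ _ => ?_
    change _ = sn (hs A j (σ • φ.1)) 1
    rw [hs_smul]
    have h1 : (1 : L ≃ₐ[ℚ] L) ∈ tr σ (hs A j φ.1) ↔ σ ∈ hs A j φ.1 := by
      rw [mem_tr, one_mul]
    unfold sn
    by_cases h2 : σ ∈ hs A j φ.1
    · rw [if_pos h2, if_pos (h1.2 h2)]
    · rw [if_neg h2, if_neg (fun h3 => h2 (h1.1 h3))]
  by_cases hσ : σ ∈ stz (φ0.1 δ)
  · rw [key σ hσ]
    have : sn (stz (φ0.1 δ) : Set (L ≃ₐ[ℚ] L)) σ = 1 := if_pos hσ
    rw [this, one_mul]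
  · have h1 := key _ (hN.2 σ hσ)
    have h2 : ∑ φ : Psi L j A δ z, sn (hs A j φ.1) (cc L * σ) =
        -∑ φ : Psi L j A δ z, sn (hs A j φ.1) σ := by
      rw [← Finset.sum_neg_distrib]
      exact Finset.sum_congr rfl fun φ _ => sn_half (isHalf_hs A j φ.1) σ
    have : sn (stz (φ0.1 δ) : Set (L ≃ₐ[ℚ] L)) σ = -1 := if_neg hσ
    rw [this]
    rw [h2] at h1
    linarith

theorem sum_tf_Psi {d : ℚ} (hd : 0 < d) (hδ : δ * δ = -(d : A.E)) (φ0 : Psi L j A δ z)
    (σ : L ≃ₐ[ℚ] L) : ∑ φ : Psi L j A δ z, tf p ν j (hs A j φ.1) σ =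
      FP j A δ z * tf p ν j (stz (φ0.1 δ) : Set (L ≃ₐ[ℚ] L)) σ := by
  classical
  rw [Finset.sum_congr rfl fun φ _ => tf_sn j (hs A j φ.1) σ, Finset.sum_comm, tf_sn,
    Finset.mul_sum]
  refine Finset.sum_congr rfl fun t _ => ?_
  by_cases ht : t ∈ Dec p ν j
  · simp only [if_pos ht]
    rw [sum_Psi j hd hδ φ0]
    ring
  · simp only [if_neg ht, Finset.sum_const_zero, mul_zero]

/-- The sum of the signs vanishes if the multiplicities agree. -/
theorem FP_zero (hA : BigA A j) (hz : starRingEnd ℂ z = -z)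
    (h : ∀ u, {φ ∈ A.Φ | φ δ = u}.encard = {φ ∈ A.Φ | φ δ = -u}.encard) :
    FP j A δ z = 0 := by
  classical
  have hjinj : Function.Injective fun φ : A.E →+* L => j.comp φ := fun φ φ' h =>
    RingHom.ext fun x => j.injective (congrArg (fun f : A.E →+* ℂ => f x) h)
  let P : Finset (Psi L j A δ z) := Finset.univ.filter fun φ => (1 : L ≃ₐ[ℚ] L) ∈ hs A j φ.1
  let Q : Finset (Psi L j A δ z) := Finset.univ.filter fun φ => (1 : L ≃ₐ[ℚ] L) ∉ hs A j φ.1
  have hF : FP j A δ z = (P.card : ℤ) - Q.card := by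
    unfold FP sn
    rw [Finset.sum_ite, Finset.sum_const, Finset.sum_const]
    simp only [nsmul_eq_mul, mul_one, mul_neg]
    ring
  have hone : ∀ φ : A.E →+* L, (1 : L ≃ₐ[ℚ] L) ∈ hs A j φ ↔ j.comp φ ∈ A.Φ := by
    intro φ
    change j.comp ((1 : L ≃ₐ[ℚ] L) • φ) ∈ A.Φ ↔ _
    rw [one_smul]
  have hp : {φ ∈ A.Φ | φ δ = z}.encard = P.card := by
    have h3 : {φ ∈ A.Φ | φ δ = z} = ((P.image fun φ => j.comp φ.1 : Finset (A.E →+* ℂ)) :
        Set (A.E →+* ℂ)) := by
      ext ψ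
      rw [Finset.mem_coe, Finset.mem_image]
      constructor
      · rintro ⟨h4, h5⟩
        obtain ⟨φ, rfl⟩ := hA ψ
        exact ⟨⟨φ, h5⟩, Finset.mem_filter.2 ⟨Finset.mem_univ _, (hone φ).2 h4⟩, rfl⟩
      · rintro ⟨φ, h4, rfl⟩
        exact ⟨(hone _).1 (Finset.mem_filter.1 h4).2, φ.2⟩
    rw [h3, Set.encard_coe_eq_coe_finsetCard, Finset.card_image_of_injective _
      (fun φ φ' h => Subtype.ext (hjinj h))]
  have hq : {φ ∈ A.Φ | φ δ = -z}.encard = Q.card := by
    have h3 : {φ ∈ A.Φ | φ δ = -z} =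
        ((Q.image fun φ => ComplexEmbedding.conjugate (j.comp φ.1) : Finset (A.E →+* ℂ)) :
        Set (A.E →+* ℂ)) := by
      ext ψ
      rw [Finset.mem_coe, Finset.mem_image]
      constructor
      · rintro ⟨h4, h5⟩
        obtain ⟨φ, hφ⟩ := hA (ComplexEmbedding.conjugate ψ)
        have h6 : j (φ δ) = ComplexEmbedding.conjugate ψ δ := congrArg (fun f => f δ) hφ
        have h7 : j (φ δ) = z := by
          rw [h6]
          change starRingEnd ℂ (ψ δ) = z
          rw [h5, map_neg, hz, neg_neg]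
        refine ⟨⟨φ, h7⟩, Finset.mem_filter.2 ⟨Finset.mem_univ _, ?_⟩, ?_⟩
        · rw [hone, hφ]
          exact (A.isCMType ψ).1 h4
        · change ComplexEmbedding.conjugate (j.comp φ) = ψ
          rw [hφ]
          exact star_star ψ
      · rintro ⟨φ, h4, rfl⟩
        have h5 := (Finset.mem_filter.1 h4).2
        refine ⟨?_, ?_⟩
        · by_contra h6
          exact h5 ((hone _).2 ((A.isCMType (j.comp φ.1)).2 h6))
        · change starRingEnd ℂ (j (φ.1 δ)) = -z
          rw [φ.2, hz]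
    rw [h3, Set.encard_coe_eq_coe_finsetCard,
      Finset.card_image_of_injective _ (fun φ φ' h => Subtype.ext (hjinj (star_injective h)))]
  have h3 := h z
  rw [hp, hq] at h3
  have h4 : P.card = Q.card := by exact_mod_cast h3
  rw [hF, h4, sub_self]

end

/-- A relation between the numbers of the two kinds. -/
def S_square : Prop :=
  ∀ (p : ℕ) [Fact p.Prime] (ν : PadicAlgCl p ≃+* ℂ) (L : Type) [Field L] [NumberField L]
    [IsCMField L] [IsGalois ℚ L] (j : L →+* ℂ) (z : L) (d : ℚ) (_ : z * z = -(d : L))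
    (_ : ∀ t ∈ Dec p ν j, t z = z), IsSquare (-((d : ℚ) : ℚ_[p]))

/-- **The numerical criterion.** -/
theorem num_of (hker : S_ker) (hrk : S_rk) (hsq : S_square) : S_num := by
  intro p _ ν Z r W hne hnum e he
  classical
  obtain ⟨L, _, _, _, _, j, hj⟩ := exists_big (Z.X.prod ⟨Fin r, fun i => (W i).A⟩)
  have hZj : Big Z.X j := fun i ψ => hj (Sum.inl i) ψ
  have hAj : ∀ i, BigA (W i).A j := fun i ψ => hj (Sum.inr i) ψ
  have hfin := finite_wt j hZj
  let _ : Fintype (Wt Z.X L) := Fintype.ofFinite _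
  let EZ : Wt Z.X L ≃ Emb Z := Equiv.ofBijective _ (toEmb_bijective (j := j) hZj)
  have htw : ∀ i (φ : (W i).A.E →+* L), tw p ν j Z.X (EZ.symm ((W i).θ (j.comp φ))) =
      tf p ν j (hs (W i).A j φ) := by
    intro i φ
    refine PosA.tw_eq slf_main hZj (W i).A φ _ ?_
    have h1 : toEmb j Z (EZ.symm ((W i).θ (j.comp φ))) = (W i).θ (j.comp φ) :=
      EZ.apply_symm_apply _
    rw [h1]
    exact (W i).slopes _
  -- equal functions belong to equal eigenvalues
  have hsame : ∀ i k (φ : (W i).A.E →+* L) (ψ : (W k).A.E →+* L),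
      tf p ν j (hs (W i).A j φ) = tf p ν j (hs (W k).A j ψ) →
      SameEig Z ((W i).θ (j.comp φ)) ((W k).θ (j.comp ψ)) := by
    intro i k φ ψ h
    apply sameEig_of_slf
    have h1 := (slf_eq_iff j _ _ φ ψ).2 h
    have h2 := slf_of_norm Z.pos ((W i).slopes (j.comp φ)) (frob_slopes Z _)
    have h3 := slf_of_norm Z.pos ((W k).slopes (j.comp ψ)) (frob_slopes Z _)
    rw [← h2, ← h3, h1]
  have hjc : ∀ (A : CMPair) (φ ψ : A.E →+* L), j.comp φ = j.comp ψ → φ = ψ := fun A φ ψ h =>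
    RingHom.ext fun x => j.injective (congrArg (fun f : A.E →+* ℂ => f x) h)
  have hcc : ∀ i (φ : (W i).A.E →+* L), -tf p ν j (hs (W i).A j φ) =
      tf p ν j (hs (W i).A j (cc L • φ)) := by
    intro i φ
    funext σ
    have h := tf_cc_wt (p := p) (ν := ν) j (X := single (W i).A)
      (⟨(), φ⟩ : Wt (single (W i).A) L) σ
    exact h.symm
  -- the embeddings
  have hφ : ∀ i, ∃ φ : (W i).A.E →+* L, j (φ (W i).δ) = zz (W i).d := by
    intro i
    obtain ⟨ψ⟩ : Nonempty ((W i).A.E →+* ℂ) := inferInstance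
    have h3 : ψ (W i).δ * ψ (W i).δ = zz (W i).d * zz (W i).d := by
      rw [← map_mul, (W i).sq, map_neg, map_ratCast, zz_sq (W i).pos]
    rcases mul_self_eq_mul_self_iff.1 h3 with h4 | h4
    · obtain ⟨φ, hφ⟩ := hAj i ψ
      exact ⟨φ, by rw [← h4, ← hφ]; rfl⟩
    · obtain ⟨φ, hφ⟩ := hAj i (ComplexEmbedding.conjugate ψ)
      refine ⟨φ, ?_⟩
      have h5 : j (φ (W i).δ) = ComplexEmbedding.conjugate ψ (W i).δ :=
        congrArg (fun f => f (W i).δ) hφ
      rw [h5]
      change starRingEnd ℂ (ψ (W i).δ) = _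
      rw [h4, map_neg, zz_conj, neg_neg]
  choose φ hφ using hφ
  let P0 : ∀ i, Psi L j (W i).A (W i).δ (zz (W i).d) := fun i => ⟨φ i, hφ i⟩
  let u : Fin r → TB p ν j → ℤ := fun i f =>
    ∑ ψ : Psi L j (W i).A (W i).δ (zz (W i).d), dl p ν j f.1 (hs (W i).A j ψ.1)
  let t : Fin r → TB p ν j := fun i => ⟨tf p ν j (hs (W i).A j (φ i)), mem_FB j _⟩
  have hccP : ∀ i (ψ : Psi L j (W i).A (W i).δ (zz (W i).d)), ψ.1 ≠ cc L • φ i := by
    intro i ψ h
    have h1 := ψ.2
    rw [h] at h1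
    have h2 : j (cc L (φ i (W i).δ)) = starRingEnd ℂ (j (φ i (W i).δ)) := emb_cc j _
    have h3 : j (cc L (φ i (W i).δ)) = zz (W i).d := h1
    rw [h2, hφ, zz_conj] at h3
    exact zz_ne (W i).pos h3.symm
  have hu1 : ∀ i, u i (t i) = 1 := by
    intro i
    have e1 : ∀ ψ : Psi L j (W i).A (W i).δ (zz (W i).d),
        dl p ν j (t i).1 (hs (W i).A j ψ.1) = if ψ = P0 i then 1 else 0 := by
      intro ψ
      rw [dl_eq]
      have h1 : tf p ν j (hs (W i).A j ψ.1) = (t i).1 ↔ ψ = P0 i := by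
        constructor
        · intro h
          by_contra hcon
          refine (W i).inj (j.comp ψ.1) (j.comp (φ i)) (fun h2 => hcon (Subtype.ext (hjc _ _ _ h2))) ?_
          exact hsame i i _ _ h
        · intro h
          rw [h]
      have h2 : tf p ν j (hs (W i).A j ψ.1) ≠ -(t i).1 := by
        intro h
        change _ = -tf p ν j (hs (W i).A j (φ i)) at h
        rw [hcc] at h
        refine (W i).inj (j.comp ψ.1) (j.comp (cc L • φ i)) (fun h2 => hccP i ψ (hjc _ _ _ h2)) ?_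
        exact hsame i i _ _ h
      rw [if_neg h2, sub_zero]
      simp only [h1]
    change ∑ ψ : Psi L j (W i).A (W i).δ (zz (W i).d), dl p ν j (t i).1 (hs (W i).A j ψ.1) = 1
    rw [Finset.sum_congr rfl fun ψ _ => e1 ψ, Finset.sum_ite_eq', if_pos (Finset.mem_univ _)]
  have hu0 : ∀ i k, i ≠ k → u i (t k) = 0 := by
    intro i k hik
    refine Finset.sum_eq_zero fun ψ _ => ?_
    rw [dl_eq, if_neg, if_neg, sub_zero]
    · intro h
      change _ = -tf p ν j (hs (W k).A j (φ k)) at h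
      rw [hcc] at h
      exact hne i k hik _ _ (hsame i k _ _ h)
    · intro h
      exact hne i k hik _ _ (hsame i k _ _ h)
  let N : Fin r → Subgroup (L ≃ₐ[ℚ] L) := fun i => stz (φ i (W i).δ)
  let ei : Fin r → ℤ := fun i => if tf p ν j (N i : Set (L ≃ₐ[ℚ] L)) = 0 then 0 else
    FP j (W i).A (W i).δ (zz (W i).d)
  have hsumu : ∀ i σ, ∑ f : TB p ν j, u i f * f.1 σ =
      2 * (ei i * tf p ν j (N i : Set (L ≃ₐ[ℚ] L)) σ) := by
    intro i σ
    have h1 : ∀ f : TB p ν j, u i f * f.1 σ =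
        ∑ ψ : Psi L j (W i).A (W i).δ (zz (W i).d), dl p ν j f.1 (hs (W i).A j ψ.1) * f.1 σ :=
      fun f => Finset.sum_mul _ _ _
    rw [Finset.sum_congr rfl fun f _ => h1 f, Finset.sum_comm]
    have h2 : ∀ ψ : Psi L j (W i).A (W i).δ (zz (W i).d),
        ∑ f : TB p ν j, dl p ν j f.1 (hs (W i).A j ψ.1) * f.1 σ =
          2 * tf p ν j (hs (W i).A j ψ.1) σ := by
      intro ψ
      rw [← eval_dl j (hs (W i).A j ψ.1) σ]
      exact Finset.sum_coe_sort (FB p ν j) fun f => dl p ν j f (hs (W i).A j ψ.1) * f σ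
    rw [Finset.sum_congr rfl fun ψ _ => h2 ψ, ← Finset.mul_sum,
      sum_tf_Psi j (W i).pos (W i).sq (P0 i) σ]
    congr 1
    change FP j (W i).A (W i).δ (zz (W i).d) * tf p ν j (N i : Set (L ≃ₐ[ℚ] L)) σ =
      (if tf p ν j (N i : Set (L ≃ₐ[ℚ] L)) = 0 then 0 else
        FP j (W i).A (W i).δ (zz (W i).d)) * _
    by_cases h3 : tf p ν j (N i : Set (L ≃ₐ[ℚ] L)) = 0
    · rw [if_pos h3, h3, Pi.zero_apply, mul_zero, mul_zero]
    · rw [if_neg h3]
  have hNd : ∀ i k, (W i).d = (W k).d → N i = N k := by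
    intro i k h
    have h1 : φ i (W i).δ = φ k (W k).δ := j.injective (by rw [hφ, hφ, h])
    change stz _ = stz _
    rw [h1]
  have hΛ : ∀ c : Fin r → ℤ, (∀ D : ℚ, ∑ i ∈ Finset.univ.filter (fun i => (W i).d = D),
      c i * ei i = 0) → ∑ i, c i • u i ∈ LamT j Z := by
    intro c hc
    refine ⟨fun f hf => ?_, fun f f' h => ?_, fun σ => ?_⟩
    · rw [Finset.sum_apply] at hf
      obtain ⟨i, -, hi⟩ := Finset.exists_ne_zero_of_sum_ne_zero hf
      have h1 : u i f ≠ 0 := fun h => hi (by rw [Pi.smul_apply, h, smul_zero])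
      obtain ⟨ψ, -, hψ⟩ := Finset.exists_ne_zero_of_sum_ne_zero h1
      rw [dl_eq] at hψ
      by_cases h2 : tf p ν j (hs (W i).A j ψ.1) = f.1
      · exact ⟨_, (htw i ψ.1).trans h2⟩
      · by_cases h3 : tf p ν j (hs (W i).A j ψ.1) = -f.1
        · refine ⟨EZ.symm ((W i).θ (j.comp (cc L • ψ.1))), ?_⟩
          rw [htw, ← hcc, h3, neg_neg]
        · rw [if_neg h2, if_neg h3, sub_zero] at hψ
          exact absurd rfl hψ
    · have h1 : ∀ i, u i f' = -u i f := by
        intro i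
        change ∑ ψ : Psi L j (W i).A (W i).δ (zz (W i).d), dl p ν j f'.1 (hs (W i).A j ψ.1) =
          -∑ ψ : Psi L j (W i).A (W i).δ (zz (W i).d), dl p ν j f.1 (hs (W i).A j ψ.1)
        rw [← Finset.sum_neg_distrib]
        refine Finset.sum_congr rfl fun ψ _ => ?_
        rw [dl_eq, dl_eq, h, neg_neg]
        ring
      rw [Finset.sum_apply, Finset.sum_apply, ← Finset.sum_neg_distrib]
      refine Finset.sum_congr rfl fun i _ => ?_
      rw [Pi.smul_apply, Pi.smul_apply, h1, smul_neg]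
    · have h1 : ∑ f : TB p ν j, (∑ i, c i • u i) f * f.1 σ =
          ∑ i, c i * (2 * (ei i * tf p ν j (N i : Set (L ≃ₐ[ℚ] L)) σ)) := by
        have h2 : ∀ f : TB p ν j, (∑ i, c i • u i) f * f.1 σ = ∑ i, c i * (u i f * f.1 σ) := by
          intro f
          rw [Finset.sum_apply, Finset.sum_mul]
          exact Finset.sum_congr rfl fun i _ => by rw [Pi.smul_apply, smul_eq_mul, mul_assoc]
        rw [Finset.sum_congr rfl fun f _ => h2 f, Finset.sum_comm]
        refine Finset.sum_congr rfl fun i _ => ?_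
        rw [← Finset.mul_sum, hsumu]
      rw [h1]
      let g : ℚ → ℤ := fun D => if h : ∃ i, (W i).d = D then
        tf p ν j (N h.choose : Set (L ≃ₐ[ℚ] L)) σ else 0
      have hg : ∀ i, g (W i).d = tf p ν j (N i : Set (L ≃ₐ[ℚ] L)) σ := by
        intro i
        have h : ∃ k, (W k).d = (W i).d := ⟨i, rfl⟩
        have h6 : g (W i).d = tf p ν j (N h.choose : Set (L ≃ₐ[ℚ] L)) σ := dif_pos h
        rw [h6, hNd _ _ h.choose_spec]
      have h6 : ∑ i, c i * (2 * (ei i * tf p ν j (N i : Set (L ≃ₐ[ℚ] L)) σ)) =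
          2 * ∑ D ∈ Finset.univ.image fun i => (W i).d,
            ∑ i ∈ Finset.univ.filter (fun i => (W i).d = D), (c i * ei i) * g D := by
        have h8 : ∀ D ∈ Finset.univ.image fun i => (W i).d,
            ∑ i ∈ Finset.univ.filter (fun i => (W i).d = D), (c i * ei i) * g D =
            ∑ i ∈ Finset.univ.filter (fun i => (W i).d = D),
              c i * (ei i * tf p ν j (N i : Set (L ≃ₐ[ℚ] L)) σ) := by
          intro D _
          refine Finset.sum_congr rfl fun i hi => ?_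
          rw [← hg i, (Finset.mem_filter.1 hi).2, mul_assoc]
        rw [Finset.sum_congr rfl h8, Finset.sum_fiberwise_of_maps_to
          (fun i _ => Finset.mem_image_of_mem _ (Finset.mem_univ i)), Finset.mul_sum]
        exact Finset.sum_congr rfl fun i _ => by ring
      rw [h6]
      have h7 : ∀ D ∈ Finset.univ.image fun i => (W i).d,
          ∑ i ∈ Finset.univ.filter (fun i => (W i).d = D), (c i * ei i) * g D = 0 := by
        intro D _
        rw [← Finset.sum_mul, hc D, zero_mul]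
      rw [Finset.sum_eq_zero h7, mul_zero]
  have hdef : finrank ℤ (LamT j Z) + ((fun i => (W i).d) '' {i | ei i ≠ 0}).ncard ≤
      Fintype.card (Fin r) := by
    rw [Fintype.card_fin]
    have h1 := hrk p ν Z L j hZj
    have h2 : ((fun i => (W i).d) '' {i | ei i ≠ 0}).ncard ≤
        ((fun i => (W i).d) '' {i | (W i).Unbalanced}).ncard := by
      refine Set.ncard_le_ncard (Set.image_mono ?_) (Set.toFinite _)
      intro i hi
      have h3 : tf p ν j (N i : Set (L ≃ₐ[ℚ] L)) ≠ 0 := fun h => hi (if_pos h)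
      have h4 : FP j (W i).A (W i).δ (zz (W i).d) ≠ 0 := fun h => hi (by
        change (if tf p ν j (N i : Set (L ≃ₐ[ℚ] L)) = 0 then 0 else _) = _
        rw [if_neg h3, h])
      have hx : φ i (W i).δ * φ i (W i).δ = -((W i).d : L) := by
        rw [← map_mul, (W i).sq, map_neg, map_ratCast]
      have hDec : Dec p ν j ≤ N i := by
        by_contra hcon
        exact h3 (tf_N_zero j (isImag_stz j (W i).pos hx) hcon)
      refine ⟨hsq p ν L j (φ i (W i).δ) (W i).d hx fun t ht => (mem_stz _ _).1 (hDec ht), ?_⟩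
      by_contra hcon
      push Not at hcon
      exact h4 (FP_zero j (hAj i) (zz_conj _) hcon)
    omega
  have hmem := mem_of_rank (LamT j Z) u t hu1 hu0 ei (fun i => (W i).d) hΛ hdef
  -- the relation
  obtain ⟨-, hrel⟩ := (rel_main p ν L j Z hZj e).1 he
  let D : (Emb Z → ℤ) → ((L ≃ₐ[ℚ] L) → ℤ) → ℤ := fun e => DD (tw p ν j Z.X) fun w => e (toEmb j Z w)
  have htwFB : ∀ l : Wt Z.X L, tw p ν j Z.X l ∈ FB p ν j := by
    intro l
    have h1 : tf p ν j (St j l) = tw p ν j Z.X l := tf_St j Z.X l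
    rw [← h1]
    exact mem_FB j _
  have hDne : ∀ (e : Emb Z → ℤ) f, D e f ≠ 0 → ∃ l, tw p ν j Z.X l = f ∨ tw p ν j Z.X l = -f := by
    intro e f hf
    obtain ⟨l, -, hl⟩ := Finset.exists_ne_zero_of_sum_ne_zero hf
    refine ⟨l, ?_⟩
    by_contra hcon
    push Not at hcon
    rw [if_neg hcon.1, if_neg hcon.2, sub_zero, mul_zero] at hl
    exact hl rfl
  have ha : (fun f : TB p ν j => D e f.1) ∈ LamT j Z := by
    refine ⟨fun f hf => ?_, fun f f' h => ?_, fun σ => ?_⟩
    · obtain ⟨l, hl | hl⟩ := hDne e f.1 hf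
      · exact ⟨l, hl⟩
      · exact ⟨cw Z l, by rw [tw_cw, hl, neg_neg]⟩
    · change DD _ _ f'.1 = -DD _ _ f.1
      unfold DD
      rw [h, ← Finset.sum_neg_distrib]
      refine Finset.sum_congr rfl fun l _ => ?_
      rw [neg_neg]
      ring
    · have h1 : ∀ f : TB p ν j, D e f.1 * f.1 σ = ∑ l, e (toEmb j Z l) *
          ((if tw p ν j Z.X l = f.1 then f.1 σ else 0) -
            (if -tw p ν j Z.X l = f.1 then f.1 σ else 0)) := by
        intro f
        change DD _ _ f.1 * _ = _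
        unfold DD
        rw [Finset.sum_mul]
        refine Finset.sum_congr rfl fun l _ => ?_
        have h2 : tw p ν j Z.X l = -f.1 ↔ -tw p ν j Z.X l = f.1 := by
          rw [neg_eq_iff_eq_neg]
        simp only [h2]
        split_ifs <;> ring
      rw [Finset.sum_congr rfl fun f _ => h1 f, Finset.sum_comm]
      have h3 : ∀ l : Wt Z.X L, ∑ f : TB p ν j, e (toEmb j Z l) *
          ((if tw p ν j Z.X l = f.1 then f.1 σ else 0) -
            (if -tw p ν j Z.X l = f.1 then f.1 σ else 0)) =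
          2 * (e (toEmb j Z l) * tw p ν j Z.X l σ) := by
        intro l
        rw [← Finset.mul_sum, Finset.sum_sub_distrib]
        have h4 : ∑ f : TB p ν j, (if tw p ν j Z.X l = f.1 then f.1 σ else 0) =
            tw p ν j Z.X l σ := by
          rw [Finset.sum_coe_sort (FB p ν j) fun f => if tw p ν j Z.X l = f then f σ else 0,
            Finset.sum_ite_eq, if_pos (htwFB l)]
        have h5 : ∑ f : TB p ν j, (if -tw p ν j Z.X l = f.1 then f.1 σ else 0) =
            -tw p ν j Z.X l σ := by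
          have h6 : -tw p ν j Z.X l ∈ FB p ν j := by
            rw [← tw_cw]
            exact htwFB _
          rw [Finset.sum_coe_sort (FB p ν j) fun f => if -tw p ν j Z.X l = f then f σ else 0,
            Finset.sum_ite_eq, if_pos h6, Pi.neg_apply]
        rw [h4, h5]
        ring
      rw [Finset.sum_congr rfl fun l _ => h3 l, ← Finset.mul_sum, hrel σ, mul_zero]
  obtain ⟨c, hc⟩ := hmem _ ha
  -- the generators
  let G : Fin r → Emb Z → ℤ := fun i =>
    ∑ ψ : (W i).A.E →+* ℂ, if ψ (W i).δ = zz (W i).d then ind ((W i).θ ψ) else 0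
  have hG : ∀ i, G i ∈ Gen Z := fun i => AddSubgroup.subset_closure
    (IsGenerator.weil (W i).A (W i).δ (W i).d (W i).pos (W i).sq (W i).mult (W i).θ (W i).slopes _)
  have hDG : ∀ i f, D (G i) f =
      ∑ ψ : Psi L j (W i).A (W i).δ (zz (W i).d), dl p ν j f (hs (W i).A j ψ.1) := by
    intro i f
    have h1 := congrFun (PosA.DD_eq_dcnt (W i).A (W i).δ slf_main hZj (hAj i) (W i).θ (W i).slopes
      (zz (W i).d)) f
    rw [dcnt_eq] at h1
    exact h1
  have hDlin : ∀ f, D (e - ∑ i, c i • G i) f = D e f - ∑ i, c i * D (G i) f := by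
    intro f
    let DDh : (Wt Z.X L → ℤ) →+ (((L ≃ₐ[ℚ] L) → ℤ) → ℤ) :=
      { toFun := DD (tw p ν j Z.X)
        map_zero' := DD_zero _
        map_add' := fun a b => DD_add _ a b }
    let R : (Emb Z → ℤ) →+ (Wt Z.X L → ℤ) :=
      { toFun := fun e w => e (toEmb j Z w)
        map_zero' := rfl
        map_add' := fun a b => rfl }
    have h1 : D (e - ∑ i, c i • G i) = (DDh.comp R) (e - ∑ i, c i • G i) := rfl
    have h2 : D e = (DDh.comp R) e := rfl
    have h3 : ∀ i, D (G i) = (DDh.comp R) (G i) := fun i => rfl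
    rw [h1, h2, map_sub, map_sum, Pi.sub_apply, Finset.sum_apply]
    congr 1
    refine Finset.sum_congr rfl fun i _ => ?_
    rw [map_zsmul, h3, Pi.smul_apply, smul_eq_mul]
  have hzero : D (e - ∑ i, c i • G i) = 0 := by
    funext f
    rw [Pi.zero_apply, hDlin]
    by_cases hf : f ∈ FB p ν j
    · have h1 := congrFun hc ⟨f, hf⟩
      change D e f = _ at h1
      rw [h1, Finset.sum_apply, sub_eq_zero]
      refine Finset.sum_congr rfl fun i _ => ?_
      rw [hDG]
      rfl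
    · have h1 : ∀ e : Emb Z → ℤ, D e f = 0 := by
        intro e
        by_contra hcon
        obtain ⟨l, hl | hl⟩ := hDne e f hcon
        · exact hf (by rw [← hl]; exact htwFB l)
        · apply hf
          have h2 : f = tw p ν j Z.X (cw Z l) := by rw [tw_cw, hl, neg_neg]
          rw [h2]
          exact htwFB _
      rw [h1, Finset.sum_congr rfl fun i _ => by rw [h1, mul_zero], Finset.sum_const_zero, sub_zero]
  have h1 := hker p ν Z L j hZj _ hzero
  have h2 : e = (e - ∑ i, c i • G i) + ∑ i, c i • G i := by abel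
  rw [h2]
  exact (Gen Z).add_mem h1 (AddSubgroup.sum_mem _ fun i _ => (Gen Z).zsmul_mem (hG i) (c i))

end

end Pool.Agent.K4H21.TF
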