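import Mathlib
import Pool.Agent.K4H21.TF.Defs2

/-!
# Isotypic abelian varieties, and the system of all Tate classes
-/

set_option autoImplicit false

namespace Pool.Agent.K4H21.TF

open NumberField Pool.Agent.H204R3.CM Pool.Agent.W547.KB Pool.Agent.W495.TA Pool.Agent.TH117.BL

noncomputable section

/-- `Z` is a product of an isotypic abelian variety (the factor with index `i₀`: over an algebraic
closure it is isogenous to a power of a simple abelian variety, since a CM field of maximal degree acts
on it) and of supersingular abelian varieties; there is at least one supersingular factor, or `Z` is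
ordinary (the Frobenius eigenvalues are `p`-adic units or `q` times units). -/
structure IsotypicTimesSuper {p : ℕ} [Fact p.Prime] {ν : PadicAlgCl p ≃+* ℂ} (Z : RedAV p ν)
    (i₀ : Z.X.I) : Prop where
  ss : (∃ w, IsSuper Z w) ∨
    ∀ w, ‖ν.symm (eig Z w)‖ = 1 ∨ ‖ν.symm (eig Z w)‖ = ‖(p : PadicAlgCl p) ^ Z.a‖
  other : ∀ w : Emb Z, w.1 ≠ i₀ → IsSuper Z w

/-- All Tate classes, over all finite extensions and in all degrees, on all products of powers of the
factors of `Z` are in the system `Alg` which is generated by the theorems of Tate and Markman. -/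
def AllTate (Ω : Type) [Field Ω] [CharZero Ω] {p : ℕ} [Fact p.Prime] {ν : PadicAlgCl p ≃+* ℂ}
    (Z : RedAV p ν) : Prop :=
  ∀ Y : RedAV p ν, IsPowersOf Z Y → ∀ s m : ℕ, 0 < s →
    ∀ f : (TM Ω Y) [⋀^Fin (2 * m)]→ₗ[Ω] Ω, IsTateClass Ω Y s m f → Alg Ω Y (Fin (2 * m)) f

end

end Pool.Agent.K4H21.TF
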