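import Mathlib
import Pool.Agent.K4H21.TF.Stms2
import Pool.Agent.K4H21.TF.Defs3

/-!
# The parts of the proof of the classification of the simple abelian varieties
-/

set_option autoImplicit false

namespace Pool.Agent.K4H21.TF

open NumberField Pool.Agent.H204R3.CM Pool.Agent.W547.KB Pool.Agent.W547.LD Module
  Pool.Agent.W495.TA Pool.Agent.W495.TB Pool.Agent.W495.TC Pool.Agent.TH117.BL
open scoped TensorProduct

noncomputable section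

/-- `Z` is a product of a geometrically simple abelian variety with commutative endomorphism algebra
which is not supersingular (the factor with index `i₀`: the Frobenius eigenvalues are different up to
roots of unity) and of supersingular abelian varieties; there is at least one supersingular factor, or
`Z` is ordinary (the eigenvalues are `p`-adic units or `q` times units). -/
structure SimpleTimesSuper {p : ℕ} [Fact p.Prime] {ν : PadicAlgCl p ≃+* ℂ} (Z : RedAV p ν)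
    (i₀ : Z.X.I) : Prop where
  ss : (∃ w, IsSuper Z w) ∨
    ∀ w, ‖ν.symm (eig Z w)‖ = 1 ∨ ‖ν.symm (eig Z w)‖ = ‖(p : PadicAlgCl p) ^ Z.a‖
  other : ∀ w : Emb Z, w.1 ≠ i₀ → IsSuper Z w
  inj : ∀ φ φ' : (Z.X.factor i₀).E →+* ℂ, φ ≠ φ' → ¬ SameEig Z ⟨i₀, φ⟩ ⟨i₀, φ'⟩

/-- The data which are obtained if all relations are in `Gen` and there is a nontrivial relation. -/
structure Core {p : ℕ} [Fact p.Prime] {ν : PadicAlgCl p ≃+* ℂ} (Z : RedAV p ν) (i₀ : Z.X.I) where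
  /-- the signs -/
  ω : ((Z.X.factor i₀).E →+* ℂ) → ℤ
  val : ∀ φ, ω φ = 1 ∨ ω φ = -1
  rel : ∀ σ, ∑ φ, (ω φ : ℚ) * (2 * slf p ν (Z.X.factor i₀) φ σ - 1) = 0
  all : ∀ e, IsRelation Z e → ∃ k : ℤ, ∀ φ,
    e ⟨i₀, φ⟩ - e ⟨i₀, ComplexEmbedding.conjugate φ⟩ = k * ω φ
  /-- the CM type -/
  A : CMPair
  δ : A.E
  d : ℚ
  pos : 0 < d
  sq : δ * δ = -(d : A.E)
  mult : ∀ u : ℂ, {φ ∈ A.Φ | φ δ = u}.encard ≤ 3
  θ : (A.E →+* ℂ) → Emb Z
  slopes : ∀ φ, HasSlopes p ν A φ Z.a (eig Z (θ φ))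
  z : ℂ
  zsq : z * z = -(d : ℂ)
  equiv : ∀ (τ : ℂ ≃+* ℂ) φ, ω ((τ : ℂ →+* ℂ).comp φ) = if τ z = z then ω φ else -ω φ
  mem : ∃ ψ φ, θ ψ = ⟨i₀, φ⟩

/-- Piece K: the core. -/
def S_core : Prop :=
  ∀ (p : ℕ) [Fact p.Prime] (ν : PadicAlgCl p ≃+* ℂ) (Z : RedAV p ν) (i₀ : Z.X.I)
    (_ : SimpleTimesSuper Z i₀) (_ : ∀ e, IsRelation Z e → e ∈ Gen Z)
    (e₀ : Emb Z → ℤ) (_ : IsRelation Z e₀) (φ₀ : (Z.X.factor i₀).E →+* ℂ)
    (_ : e₀ ⟨i₀, φ₀⟩ - e₀ ⟨i₀, ComplexEmbedding.conjugate φ₀⟩ ≠ 0), Nonempty (Core Z i₀)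

/-- Piece L: the rank of the relations is one in this situation; and if the rank is not maximal
then there is a nontrivial relation. -/
def S_one : Prop :=
  ∀ (p : ℕ) [Fact p.Prime] (ν : PadicAlgCl p ≃+* ℂ) (Z : RedAV p ν) (i₀ : Z.X.I)
    (_ : SimpleTimesSuper Z i₀),
    (∀ _ : Core Z i₀, 2 * (angleRank Z + 1) = numEig Z) ∧
    (2 * angleRank Z ≠ numEig Z → ∃ (e₀ : Emb Z → ℤ) (φ₀ : (Z.X.factor i₀).E →+* ℂ),
      IsRelation Z e₀ ∧ e₀ ⟨i₀, φ₀⟩ - e₀ ⟨i₀, ComplexEmbedding.conjugate φ₀⟩ ≠ 0)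

/-- Piece M: the quadratic field. -/
def S_quad : Prop :=
  ∀ (p : ℕ) [Fact p.Prime] (ν : PadicAlgCl p ≃+* ℂ) (Z : RedAV p ν) (i₀ : Z.X.I)
    (_ : SimpleTimesSuper Z i₀) (_ : Core Z i₀), ∃ W : QuadDatum Z, ¬ W.Unbalanced

end

end Pool.Agent.K4H21.TF
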