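import Mathlib
import Pool.Agent.K4H21.TF.Stms3
import Pool.Agent.K4H21.TF.NumT

/-!
# The classification of the simple abelian varieties: the core
-/

set_option autoImplicit false
set_option linter.unusedSectionVars false
set_option linter.unusedVariables false

namespace Pool.Agent.K4H21.TF

open NumberField Pool.Agent.H204R3.CM Pool.Agent.W547.KB Pool.Agent.W547.LD Module
  Pool.Agent.W495.TA Pool.Agent.W495.TB Pool.Agent.W495.TC Pool.Agent.TH117.BL Pool.Agent.TH117.F5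
open Pool.Agent.K4H21.LC (rr rr_spec rr_surj)
open scoped TensorProduct

noncomputable section

variable {p : ℕ} [Fact p.Prime] {ν : PadicAlgCl p ≃+* ℂ}

/-- The relations in terms of the slope functions. -/
theorem rel_slf (Z : RedAV p ν) (e : Emb Z → ℤ) : IsRelation Z e ↔ Even (∑ w, e w) ∧
    ∀ σ : ℂ ≃+* ℂ, ∑ w, (e w : ℚ) * (2 * slf p ν (Z.X.factor w.1) w.2 σ - 1) = 0 := by
  classical
  obtain ⟨L, _, _, _, _, j, hj⟩ := exists_big Z.X
  have := finite_wt j hj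
  let _ : Fintype (Wt Z.X L) := Fintype.ofFinite _
  let EZ : Wt Z.X L ≃ Emb Z := Equiv.ofBijective _ (toEmb_bijective (j := j) hj)
  rw [rel_main p ν L j Z hj e]
  have hD := dec_ne (p := p) (ν := ν) j
  have h1 : ∀ σ : ℂ ≃+* ℂ, (Nat.card (Dec p ν j) : ℚ) *
      ∑ w, (e w : ℚ) * (2 * slf p ν (Z.X.factor w.1) w.2 σ - 1) =
        ((∑ w : Wt Z.X L, e (toEmb j Z w) * tw p ν j Z.X w (rr j σ) : ℤ) : ℚ) := by
    intro σ
    rw [← Equiv.sum_comp EZ, Finset.mul_sum, Int.cast_sum]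
    refine Finset.sum_congr rfl fun w _ => ?_
    have h2 := slf_rr (p := p) (ν := ν) j (Z.X.factor w.1) w.2 σ
    have h3 : tf p ν j (hs (Z.X.factor w.1) j w.2) (rr j σ) = tw p ν j Z.X w (rr j σ) := by
      rw [tf_hs]
    rw [h3] at h2
    change (Nat.card (Dec p ν j) : ℚ) * ((e (toEmb j Z w) : ℚ) *
      (2 * slf p ν (Z.X.factor w.1) (j.comp w.2) σ - 1)) = _
    push_cast
    linear_combination (e (toEmb j Z w) : ℚ) * h2
  constructor
  · rintro ⟨h2, h3⟩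
    refine ⟨h2, fun σ => ?_⟩
    have h4 := h1 σ
    rw [h3, Int.cast_zero] at h4
    exact (mul_eq_zero.1 h4).resolve_left hD
  · rintro ⟨h2, h3⟩
    refine ⟨h2, fun σ => ?_⟩
    obtain ⟨τ, rfl⟩ := rr_surj j σ
    have h4 := h1 τ
    rw [h3, mul_zero] at h4
    exact_mod_cast h4.symm

/-- Supersingular embeddings. -/
theorem super_slf {Z : RedAV p ν} {w : Emb Z} (h : IsSuper Z w) (σ : ℂ ≃+* ℂ) :
    2 * slf p ν (Z.X.factor w.1) w.2 σ - 1 = 0 := by
  obtain ⟨n, hn, h1⟩ := h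
  have h2 := slf_of_mul (p := p) (ν := ν) Z.pos hn (frob_slopes Z w) (frob_slopes Z w)
    (by rw [← h1, ← sq, ← pow_mul]) σ
  linarith

theorem slf_super {Z : RedAV p ν} {w : Emb Z}
    (h : ∀ σ, 2 * slf p ν (Z.X.factor w.1) w.2 σ - 1 = 0) : IsSuper Z w := by
  obtain ⟨n, hn, h1⟩ := eig_mul_of_slf Z w w (fun τ => by linarith [h τ])
  exact ⟨n, hn, by rw [← h1, ← sq, ← pow_mul]⟩

/-- Eigenvalues which agree up to roots of unity have equal slope functions. -/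
theorem slf_of_sameEig {Z : RedAV p ν} {w w' : Emb Z} (h : SameEig Z w w') :
    slf p ν (Z.X.factor w.1) w.2 = slf p ν (Z.X.factor w'.1) w'.2 := by
  obtain ⟨n, hn, h1⟩ := h
  exact slf_of_pow (p := p) (ν := ν) Z.pos hn rfl (frob_slopes Z w) (frob_slopes Z w') h1

/-- Complex conjugate embeddings are different. -/
theorem conj_ne (A : CMPair) (φ : A.E →+* ℂ) : ComplexEmbedding.conjugate φ ≠ φ := by
  intro h
  have h1 := A.isCMType φ
  rw [h] at h1
  tauto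

/-- The difference at an embedding and the complex conjugate embedding. -/
def dd (Z : RedAV p ν) (i₀ : Z.X.I) (e : Emb Z → ℤ) (φ : (Z.X.factor i₀).E →+* ℂ) : ℤ :=
  e ⟨i₀, φ⟩ - e ⟨i₀, ComplexEmbedding.conjugate φ⟩

section

variable {Z : RedAV p ν} {i₀ : Z.X.I} (H : SimpleTimesSuper Z i₀)
include H

theorem emb_inj {φ φ' : (Z.X.factor i₀).E →+* ℂ}
    (h : slf p ν (Z.X.factor i₀) φ = slf p ν (Z.X.factor i₀) φ') : φ = φ' := by
  by_contra hne
  exact H.inj φ φ' hne (sameEig_of_slf (Z := Z) ⟨i₀, φ⟩ ⟨i₀, φ'⟩ h)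

theorem not_super (φ : (Z.X.factor i₀).E →+* ℂ) : ¬ IsSuper Z ⟨i₀, φ⟩ := by
  intro h
  refine conj_ne _ φ (emb_inj H (funext fun τ => ?_)).symm
  have h1 := super_slf h τ
  have h2 := slf_conj (p := p) (ν := ν) (Z.X.factor i₀) φ τ
  change 2 * slf p ν (Z.X.factor i₀) φ τ - 1 = 0 at h1
  linarith

theorem eq_of_slf (w : Emb Z) (φ : (Z.X.factor i₀).E →+* ℂ)
    (h : slf p ν (Z.X.factor w.1) w.2 = slf p ν (Z.X.factor i₀) φ) : w = ⟨i₀, φ⟩ := by
  obtain ⟨i, ψ⟩ := w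
  by_cases hi : i = i₀
  · subst hi
    have h5 : ψ = φ := emb_inj H h
    rw [h5]
  · exfalso
    apply not_super H φ
    apply slf_super
    intro σ
    have h1 := super_slf (H.other ⟨i, ψ⟩ hi) σ
    rw [h] at h1
    exact h1

omit H in
theorem slf_conj_eq (A : CMPair) (φ : A.E →+* ℂ) :
    slf p ν A (ComplexEmbedding.conjugate φ) = fun τ => 1 - slf p ν A φ τ := by
  funext τ
  have := slf_conj (p := p) (ν := ν) A φ τ
  linarith

theorem dd_pair (w w' : Emb Z) (n : ℕ) (hn : 0 < n)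
    (h : (eig Z w * eig Z w') ^ n = ((p : ℂ) ^ Z.a) ^ n) : dd Z i₀ (ind w + ind w') = 0 := by
  have key : ∀ (v v' : Emb Z) (φ : (Z.X.factor i₀).E →+* ℂ),
      (∀ τ, slf p ν (Z.X.factor v.1) v.2 τ + slf p ν (Z.X.factor v'.1) v'.2 τ = 1) →
      v = ⟨i₀, φ⟩ → v' = ⟨i₀, ComplexEmbedding.conjugate φ⟩ := by
    intro v v' φ hv hvφ
    subst hvφ
    apply eq_of_slf H
    rw [slf_conj_eq]
    funext τ
    have := hv τ
    change slf p ν (Z.X.factor i₀) φ τ + _ = 1 at this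
    linarith
  have h1 := fun τ => slf_of_mul (p := p) (ν := ν) Z.pos hn (frob_slopes Z w) (frob_slopes Z w') h τ
  have h2 : ∀ τ, slf p ν (Z.X.factor w'.1) w'.2 τ + slf p ν (Z.X.factor w.1) w.2 τ = 1 :=
    fun τ => by rw [add_comm]; exact h1 τ
  have hcc : ∀ φ : (Z.X.factor i₀).E →+* ℂ,
      ComplexEmbedding.conjugate (ComplexEmbedding.conjugate φ) = φ := fun φ => TL.cj_cj φ
  funext φ
  have e1 : (⟨i₀, φ⟩ : Emb Z) = w ↔ (⟨i₀, ComplexEmbedding.conjugate φ⟩ : Emb Z) = w' := by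
    constructor
    · intro hw
      exact (key w w' φ h1 hw.symm).symm
    · intro hw
      have := (key w' w _ h2 hw.symm).symm
      rwa [hcc] at this
  have e2 : (⟨i₀, φ⟩ : Emb Z) = w' ↔ (⟨i₀, ComplexEmbedding.conjugate φ⟩ : Emb Z) = w := by
    constructor
    · intro hw
      exact (key w' w φ h2 hw.symm).symm
    · intro hw
      have := (key w w' _ h1 hw.symm).symm
      rwa [hcc] at this
  simp only [dd, ind, Pi.add_apply, Pi.zero_apply]
  split_ifs <;> first | rfl | (exfalso; tauto)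

theorem dd_super (w : Emb Z) (n : ℕ) (hn : 0 < n)
    (h : (eig Z w) ^ (2 * n) = ((p : ℂ) ^ Z.a) ^ n) : dd Z i₀ (ind w) = 0 := by
  have h1 : ∀ φ : (Z.X.factor i₀).E →+* ℂ, (⟨i₀, φ⟩ : Emb Z) ≠ w := by
    rintro φ rfl
    exact not_super H φ ⟨n, hn, h⟩
  funext φ
  simp only [dd, ind, Pi.zero_apply]
  rw [if_neg (h1 _), if_neg (h1 _), sub_zero]

end

/-- The number of the embeddings with given slope function over a complex number. -/
def cnt (p : ℕ) [Fact p.Prime] (ν : PadicAlgCl p ≃+* ℂ) (A B : CMPair) (δ : A.E) (z : ℂ)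
    (φ : B.E →+* ℂ) : ℤ := by
  classical
  exact ∑ ψ : A.E →+* ℂ, if ψ δ = z ∧ slf p ν A ψ = slf p ν B φ then 1 else 0

/-- The composition with an automorphism. -/
def compEquiv (E : Type) [Field E] (τ : ℂ ≃+* ℂ) : (E →+* ℂ) ≃ (E →+* ℂ) where
  toFun φ := (τ : ℂ →+* ℂ).comp φ
  invFun φ := (τ.symm : ℂ →+* ℂ).comp φ
  left_inv φ := RingHom.ext fun x => τ.symm_apply_apply _
  right_inv φ := RingHom.ext fun x => τ.apply_symm_apply _

theorem slf_comp_iff (A B : CMPair) (ψ : A.E →+* ℂ) (φ : B.E →+* ℂ) (τ : ℂ ≃+* ℂ) :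
    slf p ν A ((τ : ℂ →+* ℂ).comp ψ) = slf p ν B ((τ : ℂ →+* ℂ).comp φ) ↔
      slf p ν A ψ = slf p ν B φ := by
  constructor
  · intro h
    funext σ
    have h1 := congrFun h (τ.symm.trans σ)
    rw [slf_comp, slf_comp] at h1
    have h2 : τ.trans (τ.symm.trans σ) = σ := RingEquiv.ext fun x => by
      simp
    rwa [h2] at h1
  · intro h
    funext σ
    rw [slf_comp, slf_comp, h]

theorem cnt_comp (A B : CMPair) (δ : A.E) (z : ℂ) (φ : B.E →+* ℂ) (τ : ℂ ≃+* ℂ) :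
    cnt p ν A B δ (τ z) ((τ : ℂ →+* ℂ).comp φ) = cnt p ν A B δ z φ := by
  classical
  unfold cnt
  rw [← Equiv.sum_comp (compEquiv A.E τ)]
  refine Finset.sum_congr rfl fun ψ _ => ?_
  have h1 : (compEquiv A.E τ ψ) δ = τ z ↔ ψ δ = z := τ.injective.eq_iff
  have h2 := slf_comp_iff (p := p) (ν := ν) A B ψ φ τ
  refine if_congr (and_congr h1 h2) rfl rfl

theorem cnt_conj (A B : CMPair) (δ : A.E) (z : ℂ) (φ : B.E →+* ℂ) :
    cnt p ν A B δ z (ComplexEmbedding.conjugate φ) = cnt p ν A B δ (starRingEnd ℂ z) φ := by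
  classical
  unfold cnt
  have hinv : Function.Involutive
      (fun ψ : A.E →+* ℂ => ComplexEmbedding.conjugate ψ) := fun ψ => TL.cj_cj ψ
  rw [← Equiv.sum_comp (hinv.toPerm _)]
  refine Finset.sum_congr rfl fun ψ _ => ?_
  have h1 : (hinv.toPerm _ ψ) δ = z ↔ ψ δ = starRingEnd ℂ z := by
    change starRingEnd ℂ (ψ δ) = z ↔ _
    constructor
    · rintro rfl
      rw [Complex.conj_conj]
    · intro h
      rw [h, Complex.conj_conj]
  have h2 : slf p ν A (hinv.toPerm _ ψ) = slf p ν B (ComplexEmbedding.conjugate φ) ↔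
      slf p ν A ψ = slf p ν B φ := by
    change slf p ν A (ComplexEmbedding.conjugate ψ) = _ ↔ _
    rw [slf_conj_eq, slf_conj_eq]
    constructor
    · intro h
      funext τ
      have := congrFun h τ
      linarith
    · intro h
      rw [h]
  exact if_congr (and_congr h1 h2) rfl rfl

open Classical in
/-- The quadratic character. -/
def chz (d : ℚ) (hd : 0 < d) (z : ℂ) (hz : z * z = -(d : ℂ)) : (ℂ ≃+* ℂ) →* ℤ :=
  { toFun := fun τ => if τ z = z then 1 else -1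
    map_one' := if_pos rfl
    map_mul' := by
      intro τ σ
      have hz0 : z ≠ 0 := by
        rintro rfl
        rw [mul_zero, eq_comm, neg_eq_zero] at hz
        exact hd.ne' (by exact_mod_cast hz)
      have hne : -z ≠ z := by
        intro h
        apply hz0
        have : (2 : ℂ) * z = 0 := by linear_combination -h
        exact (mul_eq_zero.1 this).resolve_left two_ne_zero
      have hpm : ∀ ρ : ℂ ≃+* ℂ, ρ z = z ∨ ρ z = -z := by
        intro ρ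
        apply mul_self_eq_mul_self_iff.1
        rw [← map_mul, hz, map_neg, map_ratCast]
      change (if τ (σ z) = z then (1 : ℤ) else -1) = (if τ z = z then 1 else -1) *
        (if σ z = z then 1 else -1)
      rcases hpm σ with h | h
      · rw [h, if_pos (rfl : z = z), mul_one]
      · rw [h, if_neg hne, map_neg]
        rcases hpm τ with h1 | h1
        · rw [h1, if_neg hne, if_pos (rfl : z = z)]
          ring
        · rw [h1, neg_neg, if_pos (rfl : z = z), if_neg hne]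
          ring }

open Classical in
theorem chz_apply {d : ℚ} (hd : 0 < d) {z : ℂ} (hz : z * z = -(d : ℂ))
    (τ : ℂ ≃+* ℂ) : chz d hd z hz τ = if τ z = z then 1 else -1 := rfl

/-- The character comes from an imaginary quadratic field with multiplicities at most three. -/
structure GoodD (Z : RedAV p ν) (i₀ : Z.X.I) (χ : (ℂ ≃+* ℂ) →* ℤ) where
  A : CMPair
  δ : A.E
  d : ℚ
  pos : 0 < d
  sq : δ * δ = -(d : A.E)
  mult : ∀ u : ℂ, {φ ∈ A.Φ | φ δ = u}.encard ≤ 3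
  θ : (A.E →+* ℂ) → Emb Z
  slopes : ∀ φ, HasSlopes p ν A φ Z.a (eig Z (θ φ))
  z : ℂ
  zsq : z * z = -(d : ℂ)
  eq : χ = chz d pos z zsq
  mem : ∃ ψ φ, θ ψ = ⟨i₀, φ⟩

theorem GoodD.pm {Z : RedAV p ν} {i₀ : Z.X.I} {χ : (ℂ ≃+* ℂ) →* ℤ} (G : GoodD Z i₀ χ)
    (τ : ℂ ≃+* ℂ) : χ τ = 1 ∨ χ τ = -1 := by
  rw [G.eq, chz_apply]
  split_ifs
  · exact Or.inl rfl
  · exact Or.inr rfl

theorem zz_ne' {d : ℚ} (hd : 0 < d) {z : ℂ} (hz : z * z = -(d : ℂ)) : -z ≠ z := by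
  intro h
  have h0 : z = 0 := by
    have : (2 : ℂ) * z = 0 := by linear_combination -h
    exact (mul_eq_zero.1 this).resolve_left two_ne_zero
  rw [h0, mul_zero, eq_comm, neg_eq_zero] at hz
  exact hd.ne' (by exact_mod_cast hz)

theorem conj_sqrt' {d : ℚ} (hd : 0 < d) {z : ℂ} (hz : z * z = -(d : ℂ)) :
    starRingEnd ℂ z = -z := TL.conj_sqrt hd hz

/-- Complex conjugation as an automorphism. -/
def cxc : ℂ ≃+* ℂ := starRingAut

theorem cxc_comp {E : Type} [Field E] (φ : E →+* ℂ) :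
    ((cxc : ℂ ≃+* ℂ) : ℂ →+* ℂ).comp φ = ComplexEmbedding.conjugate φ := RingHom.ext fun _ => rfl

theorem GoodD.cxc {Z : RedAV p ν} {i₀ : Z.X.I} {χ : (ℂ ≃+* ℂ) →* ℤ} (G : GoodD Z i₀ χ) :
    χ TF.cxc = -1 := by
  rw [G.eq, chz_apply, if_neg]
  intro h
  have h1 : starRingEnd ℂ G.z = G.z := h
  rw [conj_sqrt' G.pos G.zsq] at h1
  exact zz_ne' G.pos G.zsq h1

/-- The decomposition of the difference with respect to the characters. -/
structure Dec' (Z : RedAV p ν) (i₀ : Z.X.I) (e : Emb Z → ℤ) where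
  C : ((ℂ ≃+* ℂ) →* ℤ) →₀ (((Z.X.factor i₀).E →+* ℂ) → ℤ)
  equiv : ∀ χ (σ : ℂ ≃+* ℂ) φ, C χ ((σ : ℂ →+* ℂ).comp φ) = χ σ * C χ φ
  good : ∀ χ, C χ ≠ 0 → Nonempty (GoodD Z i₀ χ)
  sum : ∀ φ, dd Z i₀ e φ = C.sum fun _ c => c φ

section

variable {Z : RedAV p ν} {i₀ : Z.X.I}

theorem dd_add (e e' : Emb Z → ℤ) : dd Z i₀ (e + e') = dd Z i₀ e + dd Z i₀ e' := by
  funext φ
  simp only [dd, Pi.add_apply]
  ring

theorem dd_neg (e : Emb Z → ℤ) : dd Z i₀ (-e) = -dd Z i₀ e := by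
  funext φ
  simp only [dd, Pi.neg_apply]
  ring

theorem dec_zero (e : Emb Z → ℤ) (h : dd Z i₀ e = 0) : Nonempty (Dec' Z i₀ e) :=
  ⟨{  C := 0
      equiv := fun χ σ φ => by simp
      good := fun χ h => absurd rfl h
      sum := fun φ => by rw [h, Finsupp.sum_zero_index]; rfl }⟩

theorem dec_add (e e' : Emb Z → ℤ) (h : Nonempty (Dec' Z i₀ e)) (h' : Nonempty (Dec' Z i₀ e')) :
    Nonempty (Dec' Z i₀ (e + e')) := by
  classical
  obtain ⟨D⟩ := h
  obtain ⟨D'⟩ := h'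
  refine ⟨{ C := D.C + D'.C, equiv := fun χ σ φ => ?_, good := fun χ h => ?_, sum := fun φ => ?_ }⟩
  · rw [Finsupp.add_apply, Pi.add_apply, Pi.add_apply, D.equiv, D'.equiv, mul_add]
  · by_cases h1 : D.C χ = 0
    · by_cases h2 : D'.C χ = 0
      · exact absurd (by rw [Finsupp.add_apply, h1, h2, add_zero]) h
      · exact D'.good χ h2
    · exact D.good χ h1
  · rw [dd_add, Pi.add_apply, D.sum, D'.sum, Finsupp.sum_add_index']
    · intro _
      rfl
    · intro _ _ _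
      rfl

theorem dec_neg (e : Emb Z → ℤ) (h : Nonempty (Dec' Z i₀ e)) : Nonempty (Dec' Z i₀ (-e)) := by
  classical
  obtain ⟨D⟩ := h
  refine ⟨{ C := -D.C, equiv := fun χ σ φ => ?_, good := fun χ h => ?_, sum := fun φ => ?_ }⟩
  · rw [Finsupp.neg_apply, Pi.neg_apply, Pi.neg_apply, D.equiv, mul_neg]
  · exact D.good χ fun h1 => h (by rw [Finsupp.neg_apply, h1, neg_zero])
  · rw [dd_neg, Pi.neg_apply, D.sum, Finsupp.sum_neg_index fun _ => rfl, Finsupp.sum, Finsupp.sum,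
      ← Finset.sum_neg_distrib]
    exact Finset.sum_congr rfl fun _ _ => rfl

variable (H : SimpleTimesSuper Z i₀)
include H

theorem dec_weil (A : CMPair) (δ : A.E) (d : ℚ) (hd : 0 < d) (hδ : δ * δ = -(d : A.E))
    (hm : ∀ u : ℂ, {φ ∈ A.Φ | φ δ = u}.encard ≤ 3) (θ : (A.E →+* ℂ) → Emb Z)
    (hθ : ∀ φ, HasSlopes p ν A φ Z.a (eig Z (θ φ))) (z : ℂ) :
    Nonempty (Dec' Z i₀ (∑ φ : A.E →+* ℂ, if φ δ = z then ind (θ φ) else 0)) := by
  classical
  have hslf : ∀ ψ, slf p ν (Z.X.factor (θ ψ).1) (θ ψ).2 = slf p ν A ψ := fun ψ =>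
    slf_of_norm (p := p) (ν := ν) Z.pos (frob_slopes Z (θ ψ)) (hθ ψ)
  have hiff : ∀ ψ (φ : (Z.X.factor i₀).E →+* ℂ),
      (⟨i₀, φ⟩ : Emb Z) = θ ψ ↔ slf p ν A ψ = slf p ν (Z.X.factor i₀) φ := by
    intro ψ φ
    constructor
    · intro h
      have h1 := hslf ψ
      rw [← h] at h1
      exact h1.symm
    · intro h
      exact (eq_of_slf H (θ ψ) φ (by rw [hslf, h])).symm
  have hval : ∀ φ : (Z.X.factor i₀).E →+* ℂ,
      (∑ ψ : A.E →+* ℂ, if ψ δ = z then ind (θ ψ) else 0) ⟨i₀, φ⟩ =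
        cnt p ν A (Z.X.factor i₀) δ z φ := by
    intro φ
    unfold cnt
    rw [Finset.sum_apply]
    refine Finset.sum_congr rfl fun ψ _ => ?_
    by_cases h1 : ψ δ = z
    · rw [if_pos h1]
      unfold ind
      by_cases h2 : slf p ν A ψ = slf p ν (Z.X.factor i₀) φ
      · rw [if_pos ((hiff ψ φ).2 h2), if_pos ⟨h1, h2⟩]
      · rw [if_neg fun h => h2 ((hiff ψ φ).1 h), if_neg fun h => h2 h.2]
    · rw [if_neg h1, if_neg fun h => h1 h.1]
      rfl
  have hdd : ∀ φ, dd Z i₀ (∑ ψ : A.E →+* ℂ, if ψ δ = z then ind (θ ψ) else 0) φ =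
      cnt p ν A (Z.X.factor i₀) δ z φ - cnt p ν A (Z.X.factor i₀) δ (starRingEnd ℂ z) φ := by
    intro φ
    unfold dd
    rw [hval, hval, cnt_conj]
  by_cases hz : z * z = -(d : ℂ)
  · rw [show starRingEnd ℂ z = -z from conj_sqrt' hd hz] at hdd
    by_cases h0 : dd Z i₀ (∑ ψ : A.E →+* ℂ, if ψ δ = z then ind (θ ψ) else 0) = 0
    · exact dec_zero _ h0
    · generalize (∑ ψ : A.E →+* ℂ, if ψ δ = z then ind (θ ψ) else 0) = F at h0 hdd ⊢
      refine ⟨⟨Finsupp.single (chz d hd z hz) (dd Z i₀ F), fun χ σ φ => ?_, fun χ h => ?_,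
        fun φ => ?_⟩⟩
      · by_cases hχ : chz d hd z hz = χ
        · subst hχ
          rw [Finsupp.single_eq_same, chz_apply, hdd, hdd]
          have hpm : σ z = z ∨ σ z = -z := by
            apply mul_self_eq_mul_self_iff.1
            rw [← map_mul, hz, map_neg, map_ratCast]
          rcases hpm with h | h
          · rw [if_pos h, one_mul]
            have h1 := cnt_comp (p := p) (ν := ν) A (Z.X.factor i₀) δ z φ σ
            have h2 := cnt_comp (p := p) (ν := ν) A (Z.X.factor i₀) δ (-z) φ σ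
            rw [h] at h1
            rw [map_neg, h] at h2
            rw [h1, h2]
          · rw [if_neg (by rw [h]; exact zz_ne' hd hz)]
            have h1 := cnt_comp (p := p) (ν := ν) A (Z.X.factor i₀) δ z φ σ
            have h2 := cnt_comp (p := p) (ν := ν) A (Z.X.factor i₀) δ (-z) φ σ
            rw [h] at h1
            rw [map_neg, h, neg_neg] at h2
            rw [h1, h2]
            ring
        · rw [Finsupp.single_eq_of_ne' hχ]
          simp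
      · by_cases hχ : chz d hd z hz = χ
        · subst hχ
          refine ⟨{ A := A, δ := δ, d := d, pos := hd, sq := hδ, mult := hm, θ := θ, slopes := hθ,
                    z := z, zsq := hz, eq := rfl, mem := ?_ }⟩
          by_contra hcon
          push Not at hcon
          apply h0
          funext φ
          rw [hdd]
          have h1 : ∀ y, cnt p ν A (Z.X.factor i₀) δ y φ = 0 := by
            intro y
            unfold cnt
            refine Finset.sum_eq_zero fun ψ _ => ?_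
            rw [if_neg]
            rintro ⟨-, h2⟩
            exact hcon ψ φ ((hiff ψ φ).2 h2).symm
          rw [h1, h1, sub_zero]
          rfl
        · exact absurd (Finsupp.single_eq_of_ne' hχ) h
      · rw [Finsupp.sum_single_index]
        rfl
  · apply dec_zero
    have h1 : (∑ ψ : A.E →+* ℂ, if ψ δ = z then ind (θ ψ) else 0) = (0 : Emb Z → ℤ) := by
      refine Finset.sum_eq_zero fun ψ _ => ?_
      rw [if_neg]
      rintro rfl
      apply hz
      rw [← map_mul, hδ, map_neg, map_ratCast]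
    rw [h1]
    funext φ
    simp [dd]

/-- All elements of the group have a decomposition. -/
theorem dec_gen (e : Emb Z → ℤ) (he : e ∈ Gen Z) : Nonempty (Dec' Z i₀ e) := by
  refine AddSubgroup.closure_induction (p := fun e _ => Nonempty (Dec' Z i₀ e)) ?_ ?_ ?_ ?_ he
  · intro x hx
    cases hx with
    | pair w w' n hn h => exact dec_zero _ (dd_pair H w w' n hn h)
    | super w n hn h => exact dec_zero _ (dd_super H w n hn h)
    | weil A δ d hd hδ hm θ hθ z => exact dec_weil H A δ d hd hδ hm θ hθ z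
  · exact dec_zero _ (by funext φ; simp [dd])
  · intro x y _ _ hx hy
    exact dec_add x y hx hy
  · intro x _ hx
    exact dec_neg x hx

end

/-- Independence of the characters. -/
theorem indepCh (s : Finset ((ℂ ≃+* ℂ) →* ℤ)) (g : ((ℂ ≃+* ℂ) →* ℤ) → ℚ)
    (h : ∀ σ : ℂ ≃+* ℂ, ∑ χ ∈ s, g χ * ((χ σ : ℤ) : ℚ) = 0) : ∀ χ ∈ s, g χ = 0 := by
  have hinj : Function.Injective (fun χ : (ℂ ≃+* ℂ) →* ℤ =>
      ((Int.castRingHom ℚ : ℤ →+* ℚ) : ℤ →* ℚ).comp χ) := by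
    intro χ χ' h
    refine MonoidHom.ext fun σ => ?_
    have h1 := congrArg (fun f : (ℂ ≃+* ℂ) →* ℚ => f σ) h
    change ((χ σ : ℤ) : ℚ) = ((χ' σ : ℤ) : ℚ) at h1
    exact_mod_cast h1
  have h1 := (linearIndependent_monoidHom (ℂ ≃+* ℂ) ℚ).comp _ hinj
  refine linearIndependent_iff'.1 h1 s g ?_
  funext σ
  rw [Finset.sum_apply, Pi.zero_apply, ← h σ]
  exact Finset.sum_congr rfl fun χ _ => rfl

/-- The transform. -/
def Tr (p : ℕ) [Fact p.Prime] (ν : PadicAlgCl p ≃+* ℂ) (B : CMPair) (c : (B.E →+* ℂ) → ℤ)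
    (σ : ℂ ≃+* ℂ) : ℚ := ∑ φ, (c φ : ℚ) * (2 * slf p ν B φ σ - 1)

theorem tr_equiv (B : CMPair) (c : (B.E →+* ℂ) → ℤ) (σ : ℂ ≃+* ℂ) (x : ℤ) (hx : x = 1 ∨ x = -1)
    (hc : ∀ φ, c ((σ : ℂ →+* ℂ).comp φ) = x * c φ) :
    Tr p ν B c σ = (x : ℚ) * Tr p ν B c (RingEquiv.refl ℂ) := by
  unfold Tr
  rw [← Equiv.sum_comp (compEquiv B.E σ) fun φ => (c φ : ℚ) * (2 * slf p ν B φ (RingEquiv.refl ℂ) - 1),
    Finset.mul_sum]
  refine Finset.sum_congr rfl fun φ _ => ?_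
  change _ = (x : ℚ) * (((c ((σ : ℂ →+* ℂ).comp φ) : ℤ) : ℚ) *
    (2 * slf p ν B ((σ : ℂ →+* ℂ).comp φ) (RingEquiv.refl ℂ) - 1))
  rw [hc, slf_comp]
  have h1 : σ.trans (RingEquiv.refl ℂ) = σ := RingEquiv.ext fun _ => rfl
  rw [h1]
  rcases hx with rfl | rfl <;> push_cast <;> ring

/-- A function with values one and minus one which belongs to the character. -/
structure Om (Z : RedAV p ν) (i₀ : Z.X.I) (χ : (ℂ ≃+* ℂ) →* ℤ) where
  ω : ((Z.X.factor i₀).E →+* ℂ) → ℤ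
  val : ∀ φ, ω φ = 1 ∨ ω φ = -1
  equiv : ∀ (σ : ℂ ≃+* ℂ) φ, ω ((σ : ℂ →+* ℂ).comp φ) = χ σ * ω φ
  rel : ∀ σ, ∑ φ, (ω φ : ℚ) * (2 * slf p ν (Z.X.factor i₀) φ σ - 1) = 0

section

variable {Z : RedAV p ν} {i₀ : Z.X.I} (H : SimpleTimesSuper Z i₀)
include H

/-- Relations and the transform of the difference. -/
theorem sum_emb (e : Emb Z → ℤ) (σ : ℂ ≃+* ℂ) :
    2 * ∑ w, (e w : ℚ) * (2 * slf p ν (Z.X.factor w.1) w.2 σ - 1) =
      Tr p ν (Z.X.factor i₀) (dd Z i₀ e) σ := by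
  classical
  have h1 : ∑ w : Emb Z, (e w : ℚ) * (2 * slf p ν (Z.X.factor w.1) w.2 σ - 1) =
      ∑ φ : (Z.X.factor i₀).E →+* ℂ, (e ⟨i₀, φ⟩ : ℚ) *
        (2 * slf p ν (Z.X.factor i₀) φ σ - 1) := by
    have h2 : ∑ w : Emb Z, (e w : ℚ) * (2 * slf p ν (Z.X.factor w.1) w.2 σ - 1) =
        ∑ i, ∑ φ : (Z.X.factor i).E →+* ℂ, (e ⟨i, φ⟩ : ℚ) *
          (2 * slf p ν (Z.X.factor i) φ σ - 1) := by
      rw [Fintype.sum_sigma]
    rw [h2, Finset.sum_eq_single i₀]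
    · intro i _ hi
      refine Finset.sum_eq_zero fun φ _ => ?_
      have h3 := super_slf (H.other ⟨i, φ⟩ hi) σ
      change 2 * slf p ν (Z.X.factor i) φ σ - 1 = 0 at h3
      rw [h3, mul_zero]
    · intro h
      exact absurd (Finset.mem_univ _) h
  have hinv : Function.Involutive
      (fun ψ : (Z.X.factor i₀).E →+* ℂ => ComplexEmbedding.conjugate ψ) := fun ψ => TL.cj_cj ψ
  have h4 : ∑ φ : (Z.X.factor i₀).E →+* ℂ, (e ⟨i₀, ComplexEmbedding.conjugate φ⟩ : ℚ) *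
        (2 * slf p ν (Z.X.factor i₀) φ σ - 1) =
      -∑ φ : (Z.X.factor i₀).E →+* ℂ, (e ⟨i₀, φ⟩ : ℚ) *
        (2 * slf p ν (Z.X.factor i₀) φ σ - 1) := by
    rw [← Equiv.sum_comp (hinv.toPerm _) fun φ => (e ⟨i₀, φ⟩ : ℚ) *
        (2 * slf p ν (Z.X.factor i₀) φ σ - 1), ← Finset.sum_neg_distrib]
    refine Finset.sum_congr rfl fun φ _ => ?_
    change _ = -((e ⟨i₀, ComplexEmbedding.conjugate φ⟩ : ℚ) *
        (2 * slf p ν (Z.X.factor i₀) (ComplexEmbedding.conjugate φ) σ - 1))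
    rw [slf_conj_eq]
    ring
  rw [h1]
  unfold Tr dd
  have h5 : ∀ φ : (Z.X.factor i₀).E →+* ℂ,
      (((e ⟨i₀, φ⟩ - e ⟨i₀, ComplexEmbedding.conjugate φ⟩ : ℤ)) : ℚ) *
        (2 * slf p ν (Z.X.factor i₀) φ σ - 1) = (e ⟨i₀, φ⟩ : ℚ) *
        (2 * slf p ν (Z.X.factor i₀) φ σ - 1) - (e ⟨i₀, ComplexEmbedding.conjugate φ⟩ : ℚ) *
        (2 * slf p ν (Z.X.factor i₀) φ σ - 1) := fun φ => by push_cast; ring
  rw [Finset.sum_congr rfl fun φ _ => h5 φ, Finset.sum_sub_distrib, h4]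
  ring

/-- The components of a relation. -/
theorem comp_rel (e : Emb Z → ℤ) (he : IsRelation Z e) (D : Dec' Z i₀ e)
    (χ : (ℂ ≃+* ℂ) →* ℤ) (hχ : D.C χ ≠ 0) : Nonempty (Om Z i₀ χ) := by
  classical
  obtain ⟨-, hrel⟩ := (rel_slf Z e).1 he
  have h1 : ∀ σ, Tr p ν (Z.X.factor i₀) (dd Z i₀ e) σ = 0 := fun σ => by
    rw [← sum_emb H, hrel, mul_zero]
  have hpm : ∀ χ ∈ D.C.support, ∀ σ, χ σ = 1 ∨ χ σ = -1 := fun χ hχ σ => by
    obtain ⟨G⟩ := D.good χ (Finsupp.mem_support_iff.1 hχ)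
    exact G.pm σ
  have h2 : ∀ σ, Tr p ν (Z.X.factor i₀) (dd Z i₀ e) σ =
      ∑ χ ∈ D.C.support, Tr p ν (Z.X.factor i₀) (D.C χ) (RingEquiv.refl ℂ) * ((χ σ : ℤ) : ℚ) := by
    intro σ
    have h3 : ∀ χ ∈ D.C.support, Tr p ν (Z.X.factor i₀) (D.C χ) (RingEquiv.refl ℂ) *
        ((χ σ : ℤ) : ℚ) = Tr p ν (Z.X.factor i₀) (D.C χ) σ := by
      intro χ hχ
      rw [tr_equiv (p := p) (ν := ν) _ (D.C χ) σ (χ σ) (hpm χ hχ σ) (D.equiv χ σ), mul_comm]
    rw [Finset.sum_congr rfl h3]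
    unfold Tr
    rw [Finset.sum_comm]
    refine Finset.sum_congr rfl fun φ _ => ?_
    rw [D.sum, Finsupp.sum, Int.cast_sum, Finset.sum_mul]
  have h3 : ∀ χ ∈ D.C.support, Tr p ν (Z.X.factor i₀) (D.C χ) (RingEquiv.refl ℂ) = 0 :=
    indepCh _ _ fun σ => by rw [← h2, h1]
  have hmem : χ ∈ D.C.support := Finsupp.mem_support_iff.2 hχ
  have h4 : ∀ σ, Tr p ν (Z.X.factor i₀) (D.C χ) σ = 0 := fun σ => by
    rw [tr_equiv (p := p) (ν := ν) _ (D.C χ) σ (χ σ) (hpm χ hmem σ) (D.equiv χ σ), h3 χ hmem,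
      mul_zero]
  obtain ⟨φ1, hφ1⟩ : ∃ φ, D.C χ φ ≠ 0 := Function.ne_iff.1 hχ
  have hne : ∀ φ, D.C χ φ ≠ 0 := by
    intro φ
    obtain ⟨σ, rfl⟩ := exists_aut_emb _ φ1 φ
    rw [D.equiv]
    refine mul_ne_zero ?_ hφ1
    rcases hpm χ hmem σ with h | h <;> rw [h] <;> norm_num
  have habs : ∀ φ, |D.C χ φ| = |D.C χ φ1| := by
    intro φ
    obtain ⟨σ, rfl⟩ := exists_aut_emb _ φ1 φ
    rw [D.equiv, abs_mul]
    rcases hpm χ hmem σ with h | h <;> rw [h] <;> simp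
  refine ⟨{ ω := fun φ => Int.sign (D.C χ φ), val := fun φ => ?_, equiv := fun σ φ => ?_,
            rel := fun σ => ?_ }⟩
  · rcases lt_trichotomy (D.C χ φ) 0 with h | h | h
    · exact Or.inr (Int.sign_eq_neg_one_of_neg h)
    · exact absurd h (hne φ)
    · exact Or.inl (Int.sign_eq_one_of_pos h)
  · rw [D.equiv, Int.sign_mul]
    rcases hpm χ hmem σ with h | h <;> rw [h] <;> simp
  · have h5 := h4 σ
    unfold Tr at h5
    have h6 : ∀ φ, ((D.C χ φ : ℤ) : ℚ) = ((|D.C χ φ1| : ℤ) : ℚ) *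
        ((Int.sign (D.C χ φ) : ℤ) : ℚ) := by
      intro φ
      rw [← Int.cast_mul, ← habs φ, mul_comm, Int.sign_mul_abs]
    have h7 : ((|D.C χ φ1| : ℤ) : ℚ) *
        ∑ φ, ((Int.sign (D.C χ φ) : ℤ) : ℚ) * (2 * slf p ν (Z.X.factor i₀) φ σ - 1) = 0 := by
      rw [Finset.mul_sum, ← h5]
      refine Finset.sum_congr rfl fun φ _ => ?_
      rw [h6 φ, mul_assoc]
    refine (mul_eq_zero.1 h7).resolve_left ?_
    exact_mod_cast abs_ne_zero.2 hφ1

/-- There is only one character. -/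
theorem uniq (hall : ∀ e, IsRelation Z e → e ∈ Gen Z) (χ₁ χ₂ : (ℂ ≃+* ℂ) →* ℤ)
    (G₁ : GoodD Z i₀ χ₁) (G₂ : GoodD Z i₀ χ₂) (O₁ : Om Z i₀ χ₁) (O₂ : Om Z i₀ χ₂) : χ₁ = χ₂ := by
  classical
  by_contra hne
  have hodd₁ : ∀ φ, O₁.ω (ComplexEmbedding.conjugate φ) = -O₁.ω φ := fun φ => by
    rw [← cxc_comp, O₁.equiv, G₁.cxc, neg_one_mul]
  have hodd₂ : ∀ φ, O₂.ω (ComplexEmbedding.conjugate φ) = -O₂.ω φ := fun φ => by
    rw [← cxc_comp, O₂.equiv, G₂.cxc, neg_one_mul]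
  let ε : ((Z.X.factor i₀).E →+* ℂ) → ℤ := fun φ => (O₁.ω φ + O₂.ω φ) / 2
  have hε : ∀ φ, 2 * ε φ = O₁.ω φ + O₂.ω φ := by
    intro φ
    change 2 * ((O₁.ω φ + O₂.ω φ) / 2) = _
    rcases O₁.val φ with h | h <;> rcases O₂.val φ with h' | h' <;> rw [h, h'] <;> norm_num
  have hεodd : ∀ φ, ε (ComplexEmbedding.conjugate φ) = -ε φ := by
    intro φ
    have h1 := hε (ComplexEmbedding.conjugate φ)
    rw [hodd₁, hodd₂] at h1
    have h2 := hε φ
    omega
  -- the relation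
  let e1 : Emb Z → ℤ := fun w => if h : w.1 = i₀ then
    (if (h ▸ w.2 : (Z.X.factor i₀).E →+* ℂ) ∈ (Z.X.factor i₀).Φ then ε (h ▸ w.2) else 0) else 0
  have he1 : ∀ φ, e1 ⟨i₀, φ⟩ = if φ ∈ (Z.X.factor i₀).Φ then ε φ else 0 := by
    intro φ
    exact dif_pos rfl
  have hdd1 : ∀ φ, dd Z i₀ e1 φ = ε φ := by
    intro φ
    unfold dd
    rw [he1, he1]
    have h1 := (Z.X.factor i₀).isCMType φ
    by_cases h2 : φ ∈ (Z.X.factor i₀).Φ
    · rw [if_pos h2, if_neg (h1.1 h2), sub_zero]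
    · have h3 : ComplexEmbedding.conjugate φ ∈ (Z.X.factor i₀).Φ := by
        by_contra h4
        exact h2 (h1.2 h4)
      rw [if_neg h2, if_pos h3, hεodd]
      ring
  -- the transform of a combination with this difference is zero
  have hTr : ∀ e : Emb Z → ℤ, (∀ φ, dd Z i₀ e φ = ε φ) → ∀ σ,
      ∑ w, (e w : ℚ) * (2 * slf p ν (Z.X.factor w.1) w.2 σ - 1) = 0 := by
    intro e hdd σ
    have h1 := sum_emb H e σ
    have h2 : Tr p ν (Z.X.factor i₀) (dd Z i₀ e) σ = 0 := by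
      unfold Tr
      have h3 : ∀ φ, ((dd Z i₀ e φ : ℤ) : ℚ) * (2 * slf p ν (Z.X.factor i₀) φ σ - 1) =
          (1 / 2) * (((O₁.ω φ : ℤ) : ℚ) * (2 * slf p ν (Z.X.factor i₀) φ σ - 1) +
            ((O₂.ω φ : ℤ) : ℚ) * (2 * slf p ν (Z.X.factor i₀) φ σ - 1)) := by
        intro φ
        rw [hdd]
        have h4 : (2 : ℚ) * ((ε φ : ℤ) : ℚ) = ((O₁.ω φ : ℤ) : ℚ) + ((O₂.ω φ : ℤ) : ℚ) := by
          exact_mod_cast hε φ
        linear_combination (1 / 2) * (2 * slf p ν (Z.X.factor i₀) φ σ - 1) * h4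
      rw [Finset.sum_congr rfl fun φ _ => h3 φ, ← Finset.mul_sum, Finset.sum_add_distrib,
        O₁.rel, O₂.rel, add_zero, mul_zero]
    rw [h2] at h1
    exact (mul_eq_zero.1 h1).resolve_left two_ne_zero
  obtain ⟨e, hdd, hrel⟩ : ∃ e : Emb Z → ℤ, (∀ φ, dd Z i₀ e φ = ε φ) ∧ IsRelation Z e := by
    rcases H.ss with ⟨ws, hws⟩ | hord
    · let e : Emb Z → ℤ := e1 + ((∑ w, e1 w) • ind ws)
      have hdds : dd Z i₀ (ind ws) = 0 := by
        obtain ⟨n, hn, h⟩ := hws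
        exact dd_super H ws n hn h
      have hdd : ∀ φ, dd Z i₀ e φ = ε φ := by
        intro φ
        have h1 := congrFun hdds φ
        simp only [dd, Pi.zero_apply] at h1
        have h2 := hdd1 φ
        simp only [dd] at h2
        simp only [dd, e, Pi.add_apply, Pi.smul_apply, smul_eq_mul]
        linear_combination h2 + (∑ w, e1 w) * h1
      refine ⟨e, hdd, (rel_slf Z e).2 ⟨?_, hTr e hdd⟩⟩
      have h1 : ∑ w, ind ws w = 1 := by
        refine (Finset.sum_eq_single ws (fun b _ h => ?_)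
          (fun h => absurd (Finset.mem_univ _) h)).trans ?_
        · exact if_neg h
        · exact if_pos rfl
      have h2 : ∑ w, e w = ∑ w, e1 w + ∑ w, e1 w := by
        simp only [e, Pi.add_apply, Pi.smul_apply, smul_eq_mul]
        rw [Finset.sum_add_distrib, ← Finset.mul_sum, h1, mul_one]
      exact ⟨_, h2⟩
    · refine ⟨e1, hdd1, (rel_slf Z e1).2 ⟨?_, hTr e1 hdd1⟩⟩
      -- the slopes are zero or one
      have h1 : ∀ w : Emb Z, ∃ x : ℤ,
          2 * slf p ν (Z.X.factor w.1) w.2 (RingEquiv.refl ℂ) - 1 = 2 * (x : ℚ) + 1 := by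
        intro w
        have h2 := (norm_slf_iff _ _ _ _).1 (frob_slopes Z w) (RingEquiv.refl ℂ)
        have h0 := pa_pos (p := p) Z.a
        have h3 := pa_lt (p := p) Z.pos
        rcases hord w with h | h
        · refine ⟨-1, ?_⟩
          change ‖ν.symm (eig Z w)‖ = _ at h2
          rw [h, ← Real.rpow_zero ‖(p : PadicAlgCl p) ^ Z.a‖] at h2
          have h4 := (Real.rpow_right_inj h0 h3.ne).1 h2
          have h5 : slf p ν (Z.X.factor w.1) w.2 (RingEquiv.refl ℂ) = 0 := by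
            exact_mod_cast h4.symm
          rw [h5]
          norm_num
        · refine ⟨0, ?_⟩
          change ‖ν.symm (eig Z w)‖ = _ at h2
          rw [h] at h2
          nth_rewrite 1 [← Real.rpow_one ‖(p : PadicAlgCl p) ^ Z.a‖] at h2
          have h4 := (Real.rpow_right_inj h0 h3.ne).1 h2
          have h5 : slf p ν (Z.X.factor w.1) w.2 (RingEquiv.refl ℂ) = 1 := by
            exact_mod_cast h4.symm
          rw [h5]
          norm_num
      choose x hx using h1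
      have h2 := hTr e1 hdd1 (RingEquiv.refl ℂ)
      have h3 : ∀ w, (e1 w : ℚ) * (2 * slf p ν (Z.X.factor w.1) w.2 (RingEquiv.refl ℂ) - 1) =
          ((e1 w * (2 * x w + 1) : ℤ) : ℚ) := by
        intro w
        rw [hx]
        push_cast
        ring
      rw [Finset.sum_congr rfl fun w _ => h3 w, ← Int.cast_sum] at h2
      have h4 : ∑ w, e1 w * (2 * x w + 1) = 0 := by exact_mod_cast h2
      refine ⟨-∑ w, e1 w * x w, ?_⟩
      have h5 : ∑ w, e1 w * (2 * x w + 1) = 2 * ∑ w, e1 w * x w + ∑ w, e1 w := by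
        rw [Finset.mul_sum, ← Finset.sum_add_distrib]
        exact Finset.sum_congr rfl fun w _ => by ring
      rw [h5] at h4
      linarith
  obtain ⟨D⟩ := dec_gen H e (hall e hrel)
  obtain ⟨φ0⟩ : Nonempty ((Z.X.factor i₀).E →+* ℂ) := inferInstance
  let s : Finset ((ℂ ≃+* ℂ) →* ℤ) := D.C.support ∪ {χ₁, χ₂}
  let g : ((ℂ ≃+* ℂ) →* ℤ) → ℚ := fun χ => ((2 * D.C χ φ0 - (if χ = χ₁ then O₁.ω φ0 else 0) -
    (if χ = χ₂ then O₂.ω φ0 else 0) : ℤ) : ℚ)
  have h1 : ∀ σ : ℂ ≃+* ℂ, ∑ χ ∈ s, g χ * ((χ σ : ℤ) : ℚ) = 0 := by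
    intro σ
    have h2 : ∑ χ ∈ s, D.C χ ((σ : ℂ →+* ℂ).comp φ0) = ε ((σ : ℂ →+* ℂ).comp φ0) := by
      rw [← hdd, D.sum, Finsupp.sum]
      symm
      refine Finset.sum_subset Finset.subset_union_left fun χ _ h => ?_
      rw [Finsupp.notMem_support_iff.1 h]
      rfl
    have h3 : ∑ χ ∈ s, (2 * D.C χ φ0 - (if χ = χ₁ then O₁.ω φ0 else 0) -
        (if χ = χ₂ then O₂.ω φ0 else 0)) * χ σ = 0 := by
      have h4 : ∀ χ ∈ s, (2 * D.C χ φ0 - (if χ = χ₁ then O₁.ω φ0 else 0) -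
        (if χ = χ₂ then O₂.ω φ0 else 0)) * χ σ =
          2 * D.C χ ((σ : ℂ →+* ℂ).comp φ0) - (if χ = χ₁ then χ₁ σ * O₁.ω φ0 else 0) -
            (if χ = χ₂ then χ₂ σ * O₂.ω φ0 else 0) := by
        intro χ _
        rw [D.equiv]
        by_cases h5 : χ = χ₁
        · subst h5
          rw [if_pos rfl, if_pos rfl]
          by_cases h6 : χ = χ₂
          · exact absurd h6 hne
          · rw [if_neg h6, if_neg h6]
            ring
        · rw [if_neg h5, if_neg h5]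
          by_cases h6 : χ = χ₂
          · subst h6
            rw [if_pos rfl, if_pos rfl]
            ring
          · rw [if_neg h6, if_neg h6]
            ring
      have hm1 : χ₁ ∈ s := Finset.mem_union_right _ (by simp)
      have hm2 : χ₂ ∈ s := Finset.mem_union_right _ (by simp)
      rw [Finset.sum_congr rfl h4, Finset.sum_sub_distrib, Finset.sum_sub_distrib, ← Finset.mul_sum,
        h2, Finset.sum_ite_eq', Finset.sum_ite_eq', if_pos hm1, if_pos hm2, hε, O₁.equiv, O₂.equiv]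
      ring
    have h5 : ((∑ χ ∈ s, (2 * D.C χ φ0 - (if χ = χ₁ then O₁.ω φ0 else 0) -
        (if χ = χ₂ then O₂.ω φ0 else 0)) * χ σ : ℤ) : ℚ) = 0 := by rw [h3, Int.cast_zero]
    rw [← h5, Int.cast_sum]
    exact Finset.sum_congr rfl fun χ _ => by rw [Int.cast_mul]
  have h2 := indepCh s g h1 χ₁ (Finset.mem_union_right _ (by simp))
  have h3 : 2 * D.C χ₁ φ0 - O₁.ω φ0 = 0 := by
    change ((2 * D.C χ₁ φ0 - (if χ₁ = χ₁ then O₁.ω φ0 else 0) -
      (if χ₁ = χ₂ then O₂.ω φ0 else 0) : ℤ) : ℚ) = 0 at h2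
    rw [if_pos rfl, if_neg hne, sub_zero] at h2
    exact_mod_cast h2
  rcases O₁.val φ0 with h | h <;> omega

end

/-- **The core.** -/
theorem core_main : S_core := by
  intro p _ ν Z i₀ H hall e₀ he₀ φ₀ hφ₀
  classical
  obtain ⟨D⟩ := dec_gen H e₀ (hall e₀ he₀)
  obtain ⟨χ, hχ⟩ : ∃ χ, D.C χ ≠ 0 := by
    by_contra hcon
    push Not at hcon
    apply hφ₀
    have h1 := D.sum φ₀
    unfold dd at h1
    rw [h1, Finsupp.sum]
    refine Finset.sum_eq_zero fun χ _ => ?_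
    rw [hcon]
    rfl
  obtain ⟨G⟩ := D.good χ hχ
  obtain ⟨O⟩ := comp_rel H e₀ he₀ D χ hχ
  refine ⟨{ ω := O.ω, val := O.val, rel := O.rel, all := fun e he => ?_, A := G.A, δ := G.δ,
            d := G.d, pos := G.pos, sq := G.sq, mult := G.mult, θ := G.θ, slopes := G.slopes,
            z := G.z, zsq := G.zsq, equiv := fun τ φ => ?_, mem := G.mem }⟩
  · obtain ⟨D'⟩ := dec_gen H e (hall e he)
    have h1 : ∀ χ', D'.C χ' ≠ 0 → χ' = χ := by
      intro χ' hχ'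
      obtain ⟨G'⟩ := D'.good χ' hχ'
      obtain ⟨O'⟩ := comp_rel H e he D' χ' hχ'
      exact uniq H hall χ' χ G' G O' O
    have h2 : ∀ φ, dd Z i₀ e φ = D'.C χ φ := by
      intro φ
      rw [D'.sum, Finsupp.sum, Finset.sum_eq_single χ]
      · intro χ' h3 h4
        exact absurd (h1 χ' (Finsupp.mem_support_iff.1 h3)) h4
      · intro h3
        rw [Finsupp.notMem_support_iff.1 h3]
        rfl
    refine ⟨D'.C χ φ₀ * O.ω φ₀, fun φ => ?_⟩
    have h3 := h2 φ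
    unfold dd at h3
    rw [h3]
    obtain ⟨σ, rfl⟩ := exists_aut_emb _ φ₀ φ
    rw [D'.equiv, O.equiv]
    rcases O.val φ₀ with h | h <;> rw [h] <;> ring
  · have h5 : χ τ = if τ G.z = G.z then 1 else -1 := by
      have h6 := congrArg (fun f : (ℂ ≃+* ℂ) →* ℤ => f τ) G.eq
      refine h6.trans ?_
      change chz G.d G.pos G.z G.zsq τ = _
      rw [chz_apply]
    rw [O.equiv, h5]
    by_cases h : τ G.z = G.z
    · rw [if_pos h, if_pos h, one_mul]
    · rw [if_neg h, if_neg h, neg_one_mul]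

end

end Pool.Agent.K4H21.TF
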