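import Mathlib
import Pool.Agent.K4H21.TF.Stms3

/-!
# The parts of the proof of the classification of the simple abelian varieties: the quadratic field
-/

set_option autoImplicit false

namespace Pool.Agent.K4H21.TF

open NumberField Pool.Agent.H204R3.CM Pool.Agent.W547.KB Pool.Agent.W547.LD Module
  Pool.Agent.W495.TA Pool.Agent.W495.TB Pool.Agent.W495.TC Pool.Agent.TH117.BL
open scoped TensorProduct

noncomputable section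

/-- Piece M1: counting. -/
def S_quadA1 : Prop :=
  ∀ (p : ℕ) [Fact p.Prime] (ν : PadicAlgCl p ≃+* ℂ) (Z : RedAV p ν) (i₀ : Z.X.I)
    (_ : SimpleTimesSuper Z i₀) (C : Core Z i₀),
    (∀ ψ, (C.θ ψ).1 = i₀) ∧ ((∀ φ φ', φ ≠ φ' → ¬ SameEig Z (C.θ φ) (C.θ φ')) ∨
      finrank ℚ (Z.X.factor i₀).E ≤ 6)

/-- Piece M2: small dimension. -/
def S_quadA2 : Prop :=
  ∀ (p : ℕ) [Fact p.Prime] (ν : PadicAlgCl p ≃+* ℂ) (Z : RedAV p ν) (i₀ : Z.X.I)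
    (_ : SimpleTimesSuper Z i₀) (C : Core Z i₀) (_ : finrank ℚ (Z.X.factor i₀).E ≤ 6),
    ∃ W : QuadDatum Z, W.d = C.d ∧ ∀ ψ, (W.θ ψ).1 = i₀

/-- Piece M3: the multiplicities. -/
def S_quadB : Prop :=
  ∀ (p : ℕ) [Fact p.Prime] (ν : PadicAlgCl p ≃+* ℂ) (Z : RedAV p ν) (i₀ : Z.X.I)
    (_ : SimpleTimesSuper Z i₀) (C : Core Z i₀) (W : QuadDatum Z) (_ : W.d = C.d)
    (_ : ∀ ψ, (W.θ ψ).1 = i₀), ¬ W.Unbalanced

theorem quad_of (h1 : S_quadA1) (h2 : S_quadA2) (h3 : S_quadB) : S_quad := by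
  intro p _ ν Z i₀ H C
  obtain ⟨h4, h5 | h5⟩ := h1 p ν Z i₀ H C
  · exact ⟨⟨C.A, C.δ, C.d, C.pos, C.sq, C.mult, C.θ, C.slopes, h5⟩,
      h3 p ν Z i₀ H C _ rfl h4⟩
  · obtain ⟨W, hW, hW1⟩ := h2 p ν Z i₀ H C h5
    exact ⟨W, h3 p ν Z i₀ H C W hW hW1⟩

end

end Pool.Agent.K4H21.TF
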