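import Mathlib
import Pool.Agent.K4H21.TF.Stms4
import Pool.Agent.K4H21.TF.CoreT

/-!
# The parts of the proof of the classification of the isotypic abelian varieties
-/

set_option autoImplicit false

namespace Pool.Agent.K4H21.TF

open NumberField Pool.Agent.H204R3.CM Pool.Agent.W547.KB Pool.Agent.W547.LD Module
  Pool.Agent.W495.TA Pool.Agent.W495.TB Pool.Agent.W495.TC Pool.Agent.TH117.BL
open scoped TensorProduct

noncomputable section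

/-- All factors except one are supersingular. -/
abbrev IsoTimesSuper {p : ℕ} [Fact p.Prime] {ν : PadicAlgCl p ≃+* ℂ} (Z : RedAV p ν)
    (i₀ : Z.X.I) : Prop := IsotypicTimesSuper Z i₀

open Classical in
/-- The sum over the embeddings with the slope function of `φ`, minus the sum over the embeddings with
the slope function of the complex conjugate of `φ`. -/
def di {p : ℕ} [Fact p.Prime] {ν : PadicAlgCl p ≃+* ℂ} (Z : RedAV p ν) (i₀ : Z.X.I)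
    (e : Emb Z → ℤ) (φ : (Z.X.factor i₀).E →+* ℂ) : ℤ :=
  (∑ w : Emb Z, if slf p ν (Z.X.factor w.1) w.2 = slf p ν (Z.X.factor i₀) φ then e w else 0) -
    ∑ w : Emb Z, if slf p ν (Z.X.factor w.1) w.2 =
      slf p ν (Z.X.factor i₀) (ComplexEmbedding.conjugate φ) then e w else 0

/-- The data which are obtained if all relations are in `Gen` and there is a nontrivial relation. -/
structure CoreI {p : ℕ} [Fact p.Prime] {ν : PadicAlgCl p ≃+* ℂ} (Z : RedAV p ν) (i₀ : Z.X.I) where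
  /-- the signs -/
  ω : ((Z.X.factor i₀).E →+* ℂ) → ℤ
  val : ∀ φ, ω φ = 1 ∨ ω φ = -1
  fib : ∀ φ φ', slf p ν (Z.X.factor i₀) φ = slf p ν (Z.X.factor i₀) φ' → ω φ = ω φ'
  rel : ∀ σ, ∑ φ, (ω φ : ℚ) * (2 * slf p ν (Z.X.factor i₀) φ σ - 1) = 0
  all : ∀ e, IsRelation Z e → ∃ k : ℤ, ∀ φ, di Z i₀ e φ = k * ω φ
  /-- the CM type -/
  A : CMPair
  δ : A.E
  d : ℚ
  pos : 0 < d
  sq : δ * δ = -(d : A.E)
  mult : ∀ u : ℂ, {φ ∈ A.Φ | φ δ = u}.encard ≤ 3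
  θ : (A.E →+* ℂ) → Emb Z
  slopes : ∀ φ, HasSlopes p ν A φ Z.a (eig Z (θ φ))
  z : ℂ
  zsq : z * z = -(d : ℂ)
  equiv : ∀ (τ : ℂ ≃+* ℂ) φ, ω ((τ : ℂ →+* ℂ).comp φ) = if τ z = z then ω φ else -ω φ
  odd : ∃ φ, Odd (Nat.card {ψ : A.E →+* ℂ // slf p ν A ψ = slf p ν (Z.X.factor i₀) φ})

/-- Piece N1: the core. -/
def S_coreI : Prop :=
  ∀ (p : ℕ) [Fact p.Prime] (ν : PadicAlgCl p ≃+* ℂ) (Z : RedAV p ν) (i₀ : Z.X.I)
    (_ : IsoTimesSuper Z i₀) (_ : ∀ e, IsRelation Z e → e ∈ Gen Z)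
    (e₀ : Emb Z → ℤ) (_ : IsRelation Z e₀) (φ₀ : (Z.X.factor i₀).E →+* ℂ)
    (_ : di Z i₀ e₀ φ₀ ≠ 0), Nonempty (CoreI Z i₀)

/-- Piece N2: the rank. -/
def S_oneI : Prop :=
  ∀ (p : ℕ) [Fact p.Prime] (ν : PadicAlgCl p ≃+* ℂ) (Z : RedAV p ν) (i₀ : Z.X.I)
    (_ : IsoTimesSuper Z i₀),
    (∀ _ : CoreI Z i₀, 2 * (angleRank Z + 1) = numEig Z) ∧
    (2 * angleRank Z ≠ numEig Z → ∃ (e₀ : Emb Z → ℤ) (φ₀ : (Z.X.factor i₀).E →+* ℂ),
      IsRelation Z e₀ ∧ di Z i₀ e₀ φ₀ ≠ 0)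

/-- Piece N3: the quadratic field. -/
def S_quadI : Prop :=
  ∀ (p : ℕ) [Fact p.Prime] (ν : PadicAlgCl p ≃+* ℂ) (Z : RedAV p ν) (i₀ : Z.X.I)
    (_ : IsoTimesSuper Z i₀) (_ : CoreI Z i₀), numEig Z ≤ 12 ∧ ∃ W : QuadDatum Z, ¬ W.Unbalanced

end

end Pool.Agent.K4H21.TF
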