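import Mathlib
import Pool.Agent.K4H21.TF.Stms5

/-!
# The classification of the isotypic abelian varieties: the core
-/

set_option autoImplicit false
set_option linter.unusedSectionVars false
set_option linter.unusedVariables false

namespace Pool.Agent.K4H21.TF.CI

open NumberField Pool.Agent.H204R3.CM Pool.Agent.W547.KB Pool.Agent.W547.LD Module
  Pool.Agent.W495.TA Pool.Agent.W495.TB Pool.Agent.W495.TC Pool.Agent.TH117.BL Pool.Agent.TH117.F5
open Pool.Agent.K4H21.LC (rr rr_spec rr_surj)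
open scoped TensorProduct

noncomputable section

variable {p : ℕ} [Fact p.Prime] {ν : PadicAlgCl p ≃+* ℂ}

theorem chz_pm {d : ℚ} (hd : 0 < d) {z : ℂ} (hz : z * z = -(d : ℂ)) (τ : ℂ ≃+* ℂ) :
    chz d hd z hz τ = 1 ∨ chz d hd z hz τ = -1 := by
  rw [chz_apply]
  split_ifs
  · exact Or.inl rfl
  · exact Or.inr rfl

theorem chz_cxc {d : ℚ} (hd : 0 < d) {z : ℂ} (hz : z * z = -(d : ℂ)) :
    chz d hd z hz cxc = -1 := by
  rw [chz_apply, if_neg]
  intro h
  have h1 : starRingEnd ℂ z = z := h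
  rw [conj_sqrt' hd hz] at h1
  exact zz_ne' hd hz h1

section

variable {Z : RedAV p ν} {i₀ : Z.X.I}

/-- `di` as a homomorphism. -/
def diH (Z : RedAV p ν) (i₀ : Z.X.I) : (Emb Z → ℤ) →+ (((Z.X.factor i₀).E →+* ℂ) → ℤ) where
  toFun := di Z i₀
  map_zero' := by
    funext φ
    simp [di]
  map_add' e e' := by
    classical
    funext φ
    simp only [di, Pi.add_apply]
    have h : ∀ (P : Emb Z → Prop) [DecidablePred P], ∑ w, (if P w then e w + e' w else 0) =
        ∑ w, (if P w then e w else 0) + ∑ w, if P w then e' w else 0 := by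
      intro P _
      rw [← Finset.sum_add_distrib]
      exact Finset.sum_congr rfl fun w _ => by split_ifs <;> simp
    rw [h, h]
    ring

theorem di_ind [DecidableEq ((ℂ ≃+* ℂ) → ℚ)] (w : Emb Z) (φ : (Z.X.factor i₀).E →+* ℂ) :
    di Z i₀ (ind w) φ =
      (if slf p ν (Z.X.factor w.1) w.2 = slf p ν (Z.X.factor i₀) φ then 1 else 0) -
      (if slf p ν (Z.X.factor w.1) w.2 =
        slf p ν (Z.X.factor i₀) (ComplexEmbedding.conjugate φ) then 1 else 0) := by
  have h : ∀ (f : (ℂ ≃+* ℂ) → ℚ), (∑ v : Emb Z, @ite _ (slf p ν (Z.X.factor v.1) v.2 = f)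
      (Classical.propDecidable _) (ind w v) 0) =
      if slf p ν (Z.X.factor w.1) w.2 = f then 1 else 0 := by
    intro f
    refine (Finset.sum_eq_single w (fun v _ hv => ?_)
      (fun h => absurd (Finset.mem_univ _) h)).trans ?_
    · have : ind w v = 0 := if_neg hv
      rw [this]
      exact ite_self _
    · have : ind w w = 1 := if_pos rfl
      rw [this]
      split_ifs <;> rfl
  unfold di
  rw [h, h]

theorem di_pair (w w' : Emb Z) (n : ℕ) (hn : 0 < n)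
    (h : (eig Z w * eig Z w') ^ n = ((p : ℂ) ^ Z.a) ^ n) : di Z i₀ (ind w + ind w') = 0 := by
  classical
  have h1 : slf p ν (Z.X.factor w'.1) w'.2 = fun τ => 1 - slf p ν (Z.X.factor w.1) w.2 τ := by
    funext τ
    have := slf_of_mul (p := p) (ν := ν) Z.pos hn (frob_slopes Z w) (frob_slopes Z w') h τ
    linarith
  funext φ
  have h2 : di Z i₀ (ind w + ind w') φ = di Z i₀ (ind w) φ + di Z i₀ (ind w') φ :=
    congrFun ((diH Z i₀).map_add (ind w) (ind w')) φ
  rw [h2, di_ind, di_ind, h1, slf_conj_eq]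
  have e1 : ∀ f g : (ℂ ≃+* ℂ) → ℚ, ((fun τ => 1 - f τ) = fun τ => 1 - g τ) ↔ f = g := by
    intro f g
    constructor
    · intro h
      funext τ
      have := congrFun h τ
      linarith
    · rintro rfl
      rfl
  have e2 : ∀ f g : (ℂ ≃+* ℂ) → ℚ, (fun τ => 1 - f τ) = g ↔ f = fun τ => 1 - g τ := by
    intro f g
    constructor
    · rintro rfl
      funext τ
      ring
    · rintro rfl
      funext τ
      ring
  simp only [e1, e2, Pi.zero_apply]
  ring

theorem di_super (w : Emb Z) (n : ℕ) (hn : 0 < n)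
    (h : (eig Z w) ^ (2 * n) = ((p : ℂ) ^ Z.a) ^ n) : di Z i₀ (ind w) = 0 := by
  classical
  have h1 := super_slf (Z := Z) (w := w) ⟨n, hn, h⟩
  funext φ
  rw [di_ind, slf_conj_eq]
  have e1 : slf p ν (Z.X.factor w.1) w.2 = slf p ν (Z.X.factor i₀) φ ↔
      slf p ν (Z.X.factor w.1) w.2 = fun τ => 1 - slf p ν (Z.X.factor i₀) φ τ := by
    constructor
    · intro h2
      funext τ
      have h3 := h1 τ
      rw [h2] at h3 ⊢
      linarith
    · intro h2
      funext τ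
      have h3 := h1 τ
      have h4 := congrFun h2 τ
      linarith
  simp only [e1, Pi.zero_apply, sub_self]

end

/-- An odd fibre. -/
structure GoodI (Z : RedAV p ν) (i₀ : Z.X.I) (χ : (ℂ ≃+* ℂ) →* ℤ) where
  A : CMPair
  δ : A.E
  d : ℚ
  pos : 0 < d
  sq : δ * δ = -(d : A.E)
  mult : ∀ u : ℂ, {φ ∈ A.Φ | φ δ = u}.encard ≤ 3
  θ : (A.E →+* ℂ) → Emb Z
  slopes : ∀ φ, HasSlopes p ν A φ Z.a (eig Z (θ φ))
  z : ℂ
  zsq : z * z = -(d : ℂ)
  eq : χ = chz d pos z zsq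
  odd : ∃ φ, Odd (Nat.card {ψ : A.E →+* ℂ // slf p ν A ψ = slf p ν (Z.X.factor i₀) φ})

/-- The decomposition of the difference with respect to the characters. -/
structure DecI (Z : RedAV p ν) (i₀ : Z.X.I) (e : Emb Z → ℤ) where
  C : ((ℂ ≃+* ℂ) →* ℤ) →₀ (((Z.X.factor i₀).E →+* ℂ) → ℤ)
  equiv : ∀ χ (σ : ℂ ≃+* ℂ) φ, C χ ((σ : ℂ →+* ℂ).comp φ) = χ σ * C χ φ
  fib : ∀ χ φ φ', slf p ν (Z.X.factor i₀) φ = slf p ν (Z.X.factor i₀) φ' → C χ φ = C χ φ'
  chr : ∀ χ, C χ ≠ 0 → ∃ (d : ℚ) (hd : 0 < d) (z : ℂ) (hz : z * z = -(d : ℂ)), χ = chz d hd z hz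
  good : ∀ χ φ, Odd (C χ φ) → Nonempty (GoodI Z i₀ χ)
  sum : ∀ φ, di Z i₀ e φ = C.sum fun _ c => c φ

section

variable {Z : RedAV p ν} {i₀ : Z.X.I}

theorem dec_zero (e : Emb Z → ℤ) (h : di Z i₀ e = 0) : Nonempty (DecI Z i₀ e) :=
  ⟨{  C := 0
      equiv := fun χ σ φ => by simp
      fib := fun χ φ φ' _ => rfl
      chr := fun χ h => absurd rfl h
      good := fun χ φ h => by
        exfalso
        obtain ⟨k, hk⟩ := h
        have : (0 : ℤ) = 2 * k + 1 := hk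
        omega
      sum := fun φ => by rw [h, Finsupp.sum_zero_index]; rfl }⟩

theorem dec_add (e e' : Emb Z → ℤ) (h : Nonempty (DecI Z i₀ e)) (h' : Nonempty (DecI Z i₀ e')) :
    Nonempty (DecI Z i₀ (e + e')) := by
  classical
  obtain ⟨D⟩ := h
  obtain ⟨D'⟩ := h'
  refine ⟨{ C := D.C + D'.C, equiv := fun χ σ φ => ?_, fib := fun χ φ φ' h => ?_,
            chr := fun χ h => ?_, good := fun χ φ h => ?_, sum := fun φ => ?_ }⟩
  · rw [Finsupp.add_apply, Pi.add_apply, Pi.add_apply, D.equiv, D'.equiv, mul_add]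
  · rw [Finsupp.add_apply, Pi.add_apply, Pi.add_apply, D.fib χ φ φ' h, D'.fib χ φ φ' h]
  · by_cases h1 : D.C χ = 0
    · by_cases h2 : D'.C χ = 0
      · exact absurd (by rw [Finsupp.add_apply, h1, h2, add_zero]) h
      · exact D'.chr χ h2
    · exact D.chr χ h1
  · rw [Finsupp.add_apply, Pi.add_apply] at h
    rcases Int.even_or_odd (D.C χ φ) with h1 | h1
    · exact D'.good χ φ ((Int.odd_add.1 h).not.1 (by simpa using h1) |> fun h2 => by
        simpa using h2)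
    · exact D.good χ φ h1
  · have h2 : di Z i₀ (e + e') φ = di Z i₀ e φ + di Z i₀ e' φ :=
      congrFun ((diH Z i₀).map_add e e') φ
    rw [h2, D.sum, D'.sum, Finsupp.sum_add_index']
    · intro _
      rfl
    · intro _ _ _
      rfl

theorem dec_neg (e : Emb Z → ℤ) (h : Nonempty (DecI Z i₀ e)) : Nonempty (DecI Z i₀ (-e)) := by
  classical
  obtain ⟨D⟩ := h
  refine ⟨{ C := -D.C, equiv := fun χ σ φ => ?_, fib := fun χ φ φ' h => ?_,
            chr := fun χ h => ?_, good := fun χ φ h => ?_, sum := fun φ => ?_ }⟩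
  · rw [Finsupp.neg_apply, Pi.neg_apply, Pi.neg_apply, D.equiv, mul_neg]
  · rw [Finsupp.neg_apply, Pi.neg_apply, Pi.neg_apply, D.fib χ φ φ' h]
  · exact D.chr χ fun h1 => h (by rw [Finsupp.neg_apply, h1, neg_zero])
  · refine D.good χ φ ?_
    rw [Finsupp.neg_apply, Pi.neg_apply] at h
    simpa using h
  · have h2 : di Z i₀ (-e) φ = -di Z i₀ e φ :=
      congrFun ((diH Z i₀).map_neg e) φ
    rw [h2, D.sum, Finsupp.sum_neg_index fun _ => rfl, Finsupp.sum, Finsupp.sum,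
      ← Finset.sum_neg_distrib]
    exact Finset.sum_congr rfl fun _ _ => rfl

theorem cnt_fib (A B : CMPair) (δ : A.E) (z : ℂ) (φ φ' : B.E →+* ℂ)
    (h : slf p ν B φ = slf p ν B φ') : cnt p ν A B δ z φ = cnt p ν A B δ z φ' := by
  unfold cnt
  rw [h]

theorem dec_weil (A : CMPair) (δ : A.E) (d : ℚ) (hd : 0 < d) (hδ : δ * δ = -(d : A.E))
    (hm : ∀ u : ℂ, {φ ∈ A.Φ | φ δ = u}.encard ≤ 3) (θ : (A.E →+* ℂ) → Emb Z)
    (hθ : ∀ φ, HasSlopes p ν A φ Z.a (eig Z (θ φ))) (z : ℂ) :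
    Nonempty (DecI Z i₀ (∑ φ : A.E →+* ℂ, if φ δ = z then ind (θ φ) else 0)) := by
  classical
  have hslf : ∀ ψ, slf p ν (Z.X.factor (θ ψ).1) (θ ψ).2 = slf p ν A ψ := fun ψ =>
    slf_of_norm (p := p) (ν := ν) Z.pos (frob_slopes Z (θ ψ)) (hθ ψ)
  have hdd : ∀ φ, di Z i₀ (∑ ψ : A.E →+* ℂ, if ψ δ = z then ind (θ ψ) else 0) φ =
      cnt p ν A (Z.X.factor i₀) δ z φ - cnt p ν A (Z.X.factor i₀) δ (starRingEnd ℂ z) φ := by
    intro φ
    have h1 : di Z i₀ (∑ ψ : A.E →+* ℂ, if ψ δ = z then ind (θ ψ) else 0) φ =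
        ∑ ψ : A.E →+* ℂ, di Z i₀ (if ψ δ = z then ind (θ ψ) else 0) φ := by
      have h2 := congrFun (map_sum (diH Z i₀) (fun ψ : A.E →+* ℂ =>
        if ψ δ = z then (ind (θ ψ) : Emb Z → ℤ) else 0) Finset.univ) φ
      rw [Finset.sum_apply] at h2
      exact h2
    have h2 : di Z i₀ (0 : Emb Z → ℤ) φ = 0 := congrFun ((diH Z i₀).map_zero) φ
    rw [h1, ← cnt_conj]
    unfold cnt
    rw [← Finset.sum_sub_distrib]
    refine Finset.sum_congr rfl fun ψ _ => ?_
    by_cases h3 : ψ δ = z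
    · rw [if_pos h3, di_ind, hslf]
      simp only [h3, true_and]
    · rw [if_neg h3, h2, if_neg fun h => h3 h.1, if_neg fun h => h3 h.1, sub_zero]
  by_cases hz : z * z = -(d : ℂ)
  · rw [show starRingEnd ℂ z = -z from conj_sqrt' hd hz] at hdd
    generalize (∑ ψ : A.E →+* ℂ, if ψ δ = z then ind (θ ψ) else 0) = F at hdd ⊢
    refine ⟨⟨Finsupp.single (chz d hd z hz) (di Z i₀ F), fun χ σ φ => ?_, fun χ φ φ' h => ?_,
      fun χ h => ?_, fun χ φ h => ?_, fun φ => ?_⟩⟩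
    · by_cases hχ : chz d hd z hz = χ
      · subst hχ
        rw [Finsupp.single_eq_same, chz_apply, hdd, hdd]
        have hpm : σ z = z ∨ σ z = -z := by
          apply mul_self_eq_mul_self_iff.1
          rw [← map_mul, hz, map_neg, map_ratCast]
        rcases hpm with h | h
        · rw [if_pos h, one_mul]
          have h1 := cnt_comp (p := p) (ν := ν) A (Z.X.factor i₀) δ z φ σ
          have h2 := cnt_comp (p := p) (ν := ν) A (Z.X.factor i₀) δ (-z) φ σ
          rw [h] at h1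
          rw [map_neg, h] at h2
          rw [h1, h2]
        · rw [if_neg (by rw [h]; exact zz_ne' hd hz)]
          have h1 := cnt_comp (p := p) (ν := ν) A (Z.X.factor i₀) δ z φ σ
          have h2 := cnt_comp (p := p) (ν := ν) A (Z.X.factor i₀) δ (-z) φ σ
          rw [h] at h1
          rw [map_neg, h, neg_neg] at h2
          rw [h1, h2]
          ring
      · rw [Finsupp.single_eq_of_ne' hχ]
        simp
    · by_cases hχ : chz d hd z hz = χ
      · subst hχ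
        rw [Finsupp.single_eq_same, hdd, hdd, cnt_fib A _ δ z φ φ' h, cnt_fib A _ δ (-z) φ φ' h]
      · rw [Finsupp.single_eq_of_ne' hχ]
        rfl
    · by_cases hχ : chz d hd z hz = χ
      · exact ⟨d, hd, z, hz, hχ.symm⟩
      · exact absurd (Finsupp.single_eq_of_ne' hχ) h
    · by_cases hχ : chz d hd z hz = χ
      · subst hχ
        rw [Finsupp.single_eq_same, hdd] at h
        refine ⟨⟨A, δ, d, hd, hδ, hm, θ, hθ, z, hz, rfl, φ, ?_⟩⟩
        have h1 : (Nat.card {ψ : A.E →+* ℂ // slf p ν A ψ = slf p ν (Z.X.factor i₀) φ} : ℤ) =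
            cnt p ν A (Z.X.factor i₀) δ z φ + cnt p ν A (Z.X.factor i₀) δ (-z) φ := by
          unfold cnt
          rw [Nat.card_eq_fintype_card, Fintype.card_subtype, Finset.card_filter, Nat.cast_sum,
            ← Finset.sum_add_distrib]
          refine Finset.sum_congr rfl fun ψ _ => ?_
          have hpm : ψ δ = z ∨ ψ δ = -z := by
            apply mul_self_eq_mul_self_iff.1
            rw [hz, ← map_mul, hδ, map_neg, map_ratCast]
          have hne := zz_ne' hd hz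
          by_cases h3 : slf p ν A ψ = slf p ν (Z.X.factor i₀) φ
          · rcases hpm with h4 | h4
            · rw [if_pos h3, if_pos ⟨h4, h3⟩, if_neg fun h => hne (h.1.symm.trans h4)]
              rfl
            · rw [if_pos h3, if_neg fun h => hne (h4.symm.trans h.1), if_pos ⟨h4, h3⟩]
              rfl
          · rw [if_neg h3, if_neg fun h => h3 h.2, if_neg fun h => h3 h.2]
            rfl
        have h2 : Odd ((Nat.card {ψ : A.E →+* ℂ //
            slf p ν A ψ = slf p ν (Z.X.factor i₀) φ} : ℕ) : ℤ) := by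
          rw [h1]
          rw [show cnt p ν A (Z.X.factor i₀) δ z φ + cnt p ν A (Z.X.factor i₀) δ (-z) φ =
            (cnt p ν A (Z.X.factor i₀) δ z φ - cnt p ν A (Z.X.factor i₀) δ (-z) φ) +
              2 * cnt p ν A (Z.X.factor i₀) δ (-z) φ by ring]
          exact h.add_even (even_two_mul _)
        exact_mod_cast h2
      · rw [Finsupp.single_eq_of_ne' hχ] at h
        exfalso
        obtain ⟨k, hk⟩ := h
        have : (0 : ℤ) = 2 * k + 1 := hk
        omega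
    · rw [Finsupp.sum_single_index]
      rfl
  · apply dec_zero
    have h1 : (∑ ψ : A.E →+* ℂ, if ψ δ = z then ind (θ ψ) else 0) = (0 : Emb Z → ℤ) := by
      refine Finset.sum_eq_zero fun ψ _ => ?_
      rw [if_neg]
      rintro rfl
      apply hz
      rw [← map_mul, hδ, map_neg, map_ratCast]
    rw [h1]
    exact (diH Z i₀).map_zero

/-- All elements of the group have a decomposition. -/
theorem dec_gen (e : Emb Z → ℤ) (he : e ∈ Gen Z) : Nonempty (DecI Z i₀ e) := by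
  refine AddSubgroup.closure_induction (p := fun e _ => Nonempty (DecI Z i₀ e)) ?_ ?_ ?_ ?_ he
  · intro x hx
    cases hx with
    | pair w w' n hn h => exact dec_zero _ (di_pair w w' n hn h)
    | super w n hn h => exact dec_zero _ (di_super w n hn h)
    | weil A δ d hd hδ hm θ hθ z => exact dec_weil A δ d hd hδ hm θ hθ z
  · exact dec_zero _ (diH Z i₀).map_zero
  · intro x y _ _ hx hy
    exact dec_add x y hx hy
  · intro x _ hx
    exact dec_neg x hx

end

/-- A function with values one and minus one which belongs to the character. -/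
structure OmI (Z : RedAV p ν) (i₀ : Z.X.I) (χ : (ℂ ≃+* ℂ) →* ℤ) where
  ω : ((Z.X.factor i₀).E →+* ℂ) → ℤ
  val : ∀ φ, ω φ = 1 ∨ ω φ = -1
  fib : ∀ φ φ', slf p ν (Z.X.factor i₀) φ = slf p ν (Z.X.factor i₀) φ' → ω φ = ω φ'
  equiv : ∀ (σ : ℂ ≃+* ℂ) φ, ω ((σ : ℂ →+* ℂ).comp φ) = χ σ * ω φ
  rel : ∀ σ, ∑ φ, (ω φ : ℚ) * (2 * slf p ν (Z.X.factor i₀) φ σ - 1) = 0

/-- The number of the embeddings with a given slope function. -/
def mf (B : CMPair) (f : (ℂ ≃+* ℂ) → ℚ) : ℚ := by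
  classical
  exact ∑ φ : B.E →+* ℂ, if slf p ν B φ = f then 1 else 0

theorem mf_const (B : CMPair) (φ φ' : B.E →+* ℂ) :
    mf (p := p) (ν := ν) B (slf p ν B φ) = mf (p := p) (ν := ν) B (slf p ν B φ') := by
  classical
  obtain ⟨τ, rfl⟩ := exists_aut_emb _ φ φ'
  unfold mf
  rw [← Equiv.sum_comp (compEquiv B.E τ) fun ψ => if slf p ν B ψ =
    slf p ν B ((τ : ℂ →+* ℂ).comp φ) then (1 : ℚ) else 0]
  refine Finset.sum_congr rfl fun ψ _ => ?_
  exact if_congr (slf_comp_iff B B ψ φ τ).symm rfl rfl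

theorem mf_pos (B : CMPair) (φ : B.E →+* ℂ) : mf (p := p) (ν := ν) B (slf p ν B φ) ≠ 0 := by
  classical
  unfold mf
  refine ne_of_gt (lt_of_lt_of_le one_pos ?_)
  have h1 := Finset.single_le_sum
    (f := fun ψ : B.E →+* ℂ => if slf p ν B ψ = slf p ν B φ then (1 : ℚ) else 0)
    (fun ψ _ => by split_ifs <;> norm_num) (Finset.mem_univ φ)
  rw [if_pos rfl] at h1
  exact h1

section

variable {Z : RedAV p ν} {i₀ : Z.X.I} (H : IsoTimesSuper Z i₀)
include H

/-- Relations and the transform of the difference. -/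
theorem sum_emb (φ0 : (Z.X.factor i₀).E →+* ℂ) (e : Emb Z → ℤ) (σ : ℂ ≃+* ℂ) :
    2 * mf (p := p) (ν := ν) (Z.X.factor i₀) (slf p ν (Z.X.factor i₀) φ0) *
      ∑ w, (e w : ℚ) * (2 * slf p ν (Z.X.factor w.1) w.2 σ - 1) =
      Tr p ν (Z.X.factor i₀) (di Z i₀ e) σ := by
  classical
  let B := Z.X.factor i₀
  -- the sum for one embedding
  have h1 : ∀ w : Emb Z, ∑ φ : B.E →+* ℂ,
      ((if slf p ν (Z.X.factor w.1) w.2 = slf p ν B φ then (e w : ℚ) else 0) -
        (if slf p ν (Z.X.factor w.1) w.2 = slf p ν B (ComplexEmbedding.conjugate φ)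
          then (e w : ℚ) else 0)) * (2 * slf p ν B φ σ - 1) =
      2 * mf (p := p) (ν := ν) B (slf p ν (Z.X.factor w.1) w.2) *
        ((e w : ℚ) * (2 * slf p ν (Z.X.factor w.1) w.2 σ - 1)) := by
    intro w
    have hinv : Function.Involutive
        (fun ψ : B.E →+* ℂ => ComplexEmbedding.conjugate ψ) := fun ψ => TL.cj_cj ψ
    have h2 : ∑ φ : B.E →+* ℂ, (if slf p ν (Z.X.factor w.1) w.2 = slf p ν B φ
        then (e w : ℚ) else 0) * (2 * slf p ν B φ σ - 1) =
        mf (p := p) (ν := ν) B (slf p ν (Z.X.factor w.1) w.2) *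
          ((e w : ℚ) * (2 * slf p ν (Z.X.factor w.1) w.2 σ - 1)) := by
      unfold mf
      rw [Finset.sum_mul]
      refine Finset.sum_congr rfl fun φ _ => ?_
      by_cases h : slf p ν (Z.X.factor w.1) w.2 = slf p ν B φ
      · rw [if_pos h, if_pos h.symm, one_mul, h]
      · rw [if_neg h, if_neg fun h' => h h'.symm, zero_mul, zero_mul]
    have h3 : ∑ φ : B.E →+* ℂ, (if slf p ν (Z.X.factor w.1) w.2 =
        slf p ν B (ComplexEmbedding.conjugate φ) then (e w : ℚ) else 0) *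
          (2 * slf p ν B φ σ - 1) =
        -(mf (p := p) (ν := ν) B (slf p ν (Z.X.factor w.1) w.2) *
          ((e w : ℚ) * (2 * slf p ν (Z.X.factor w.1) w.2 σ - 1))) := by
      rw [← h2, ← Equiv.sum_comp (hinv.toPerm _) fun φ => (if slf p ν (Z.X.factor w.1) w.2 =
        slf p ν B φ then (e w : ℚ) else 0) * (2 * slf p ν B φ σ - 1), ← Finset.sum_neg_distrib]
      refine Finset.sum_congr rfl fun φ _ => ?_
      change _ = -((if slf p ν (Z.X.factor w.1) w.2 = slf p ν B (ComplexEmbedding.conjugate φ)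
        then (e w : ℚ) else 0) * (2 * slf p ν B (ComplexEmbedding.conjugate φ) σ - 1))
      have h4 := slf_conj (p := p) (ν := ν) B φ σ
      have h5 : 2 * slf p ν B φ σ - 1 =
          -(2 * slf p ν B (ComplexEmbedding.conjugate φ) σ - 1) := by linarith
      rw [h5]
      ring
    calc _ = ∑ φ : B.E →+* ℂ, ((if slf p ν (Z.X.factor w.1) w.2 = slf p ν B φ
          then (e w : ℚ) else 0) * (2 * slf p ν B φ σ - 1) -
          (if slf p ν (Z.X.factor w.1) w.2 = slf p ν B (ComplexEmbedding.conjugate φ)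
            then (e w : ℚ) else 0) * (2 * slf p ν B φ σ - 1)) :=
          Finset.sum_congr rfl fun φ _ => sub_mul _ _ _
      _ = _ := by rw [Finset.sum_sub_distrib, h2, h3]; ring
  have h2 : Tr p ν B (di Z i₀ e) σ = ∑ w : Emb Z, ∑ φ : B.E →+* ℂ,
      ((if slf p ν (Z.X.factor w.1) w.2 = slf p ν B φ then (e w : ℚ) else 0) -
        (if slf p ν (Z.X.factor w.1) w.2 = slf p ν B (ComplexEmbedding.conjugate φ)
          then (e w : ℚ) else 0)) * (2 * slf p ν B φ σ - 1) := by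
    unfold Tr
    rw [Finset.sum_comm]
    refine Finset.sum_congr rfl fun φ _ => ?_
    rw [← Finset.sum_mul, Finset.sum_sub_distrib]
    congr 1
    unfold di
    push_cast
    congr 1
  change _ = Tr p ν B (di Z i₀ e) σ
  rw [h2, Finset.sum_congr rfl fun w _ => h1 w, Finset.mul_sum]
  refine Finset.sum_congr rfl fun w _ => ?_
  obtain ⟨i, φ⟩ := w
  by_cases hi : i = i₀
  · subst hi
    have h3 := mf_const (p := p) (ν := ν) (Z.X.factor i) φ0 φ
    change 2 * mf (p := p) (ν := ν) (Z.X.factor i) (slf p ν (Z.X.factor i) φ0) * _ =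
      2 * mf (p := p) (ν := ν) (Z.X.factor i) (slf p ν (Z.X.factor i) φ) * _
    rw [h3]
  · have h3 := super_slf (H.other ⟨i, φ⟩ hi) σ
    rw [h3, mul_zero, mul_zero, mul_zero]

/-- The components of a relation. -/
theorem comp_rel (e : Emb Z → ℤ) (he : IsRelation Z e) (D : DecI Z i₀ e)
    (χ : (ℂ ≃+* ℂ) →* ℤ) (hχ : D.C χ ≠ 0) : Nonempty (OmI Z i₀ χ) := by
  classical
  obtain ⟨φ00⟩ : Nonempty ((Z.X.factor i₀).E →+* ℂ) := inferInstance
  obtain ⟨-, hrel⟩ := (rel_slf Z e).1 he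
  have h1 : ∀ σ, Tr p ν (Z.X.factor i₀) (di Z i₀ e) σ = 0 := fun σ => by
    rw [← sum_emb H φ00, hrel, mul_zero]
  have hpm : ∀ χ ∈ D.C.support, ∀ σ, χ σ = 1 ∨ χ σ = -1 := fun χ hχ σ => by
    obtain ⟨d, hd, z, hz, rfl⟩ := D.chr χ (Finsupp.mem_support_iff.1 hχ)
    exact chz_pm hd hz σ
  have h2 : ∀ σ, Tr p ν (Z.X.factor i₀) (di Z i₀ e) σ =
      ∑ χ ∈ D.C.support, Tr p ν (Z.X.factor i₀) (D.C χ) (RingEquiv.refl ℂ) * ((χ σ : ℤ) : ℚ) := by
    intro σ
    have h3 : ∀ χ ∈ D.C.support, Tr p ν (Z.X.factor i₀) (D.C χ) (RingEquiv.refl ℂ) *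
        ((χ σ : ℤ) : ℚ) = Tr p ν (Z.X.factor i₀) (D.C χ) σ := by
      intro χ hχ
      rw [tr_equiv (p := p) (ν := ν) _ (D.C χ) σ (χ σ) (hpm χ hχ σ) (D.equiv χ σ), mul_comm]
    rw [Finset.sum_congr rfl h3]
    unfold Tr
    rw [Finset.sum_comm]
    refine Finset.sum_congr rfl fun φ _ => ?_
    rw [D.sum, Finsupp.sum, Int.cast_sum, Finset.sum_mul]
  have h3 : ∀ χ ∈ D.C.support, Tr p ν (Z.X.factor i₀) (D.C χ) (RingEquiv.refl ℂ) = 0 :=
    indepCh _ _ fun σ => by rw [← h2, h1]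
  have hmem : χ ∈ D.C.support := Finsupp.mem_support_iff.2 hχ
  have h4 : ∀ σ, Tr p ν (Z.X.factor i₀) (D.C χ) σ = 0 := fun σ => by
    rw [tr_equiv (p := p) (ν := ν) _ (D.C χ) σ (χ σ) (hpm χ hmem σ) (D.equiv χ σ), h3 χ hmem,
      mul_zero]
  obtain ⟨φ1, hφ1⟩ : ∃ φ, D.C χ φ ≠ 0 := Function.ne_iff.1 hχ
  have hne : ∀ φ, D.C χ φ ≠ 0 := by
    intro φ
    obtain ⟨σ, rfl⟩ := exists_aut_emb _ φ1 φ
    rw [D.equiv]
    refine mul_ne_zero ?_ hφ1
    rcases hpm χ hmem σ with h | h <;> rw [h] <;> norm_num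
  have habs : ∀ φ, |D.C χ φ| = |D.C χ φ1| := by
    intro φ
    obtain ⟨σ, rfl⟩ := exists_aut_emb _ φ1 φ
    rw [D.equiv, abs_mul]
    rcases hpm χ hmem σ with h | h <;> rw [h] <;> simp
  refine ⟨{ ω := fun φ => Int.sign (D.C χ φ), val := fun φ => ?_, fib := fun φ φ' h => ?_,
            equiv := fun σ φ => ?_, rel := fun σ => ?_ }⟩
  · rcases lt_trichotomy (D.C χ φ) 0 with h | h | h
    · exact Or.inr (Int.sign_eq_neg_one_of_neg h)
    · exact absurd h (hne φ)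
    · exact Or.inl (Int.sign_eq_one_of_pos h)
  · rw [D.fib χ φ φ' h]
  · rw [D.equiv, Int.sign_mul]
    rcases hpm χ hmem σ with h | h <;> rw [h] <;> simp
  · have h5 := h4 σ
    unfold Tr at h5
    have h6 : ∀ φ, ((D.C χ φ : ℤ) : ℚ) = ((|D.C χ φ1| : ℤ) : ℚ) *
        ((Int.sign (D.C χ φ) : ℤ) : ℚ) := by
      intro φ
      rw [← Int.cast_mul, ← habs φ, mul_comm, Int.sign_mul_abs]
    have h7 : ((|D.C χ φ1| : ℤ) : ℚ) *
        ∑ φ, ((Int.sign (D.C χ φ) : ℤ) : ℚ) * (2 * slf p ν (Z.X.factor i₀) φ σ - 1) = 0 := by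
      rw [Finset.mul_sum, ← h5]
      refine Finset.sum_congr rfl fun φ _ => ?_
      rw [h6 φ, mul_assoc]
    refine (mul_eq_zero.1 h7).resolve_left ?_
    exact_mod_cast abs_ne_zero.2 hφ1

/-- Relations with a given difference. -/
theorem exists_rel (ε : ((Z.X.factor i₀).E →+* ℂ) → ℤ)
    (hfib : ∀ φ φ', slf p ν (Z.X.factor i₀) φ = slf p ν (Z.X.factor i₀) φ' → ε φ = ε φ')
    (hodd : ∀ φ, ε (ComplexEmbedding.conjugate φ) = -ε φ)
    (hns : ∀ φ, slf p ν (Z.X.factor i₀) (ComplexEmbedding.conjugate φ) ≠ slf p ν (Z.X.factor i₀) φ)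
    (hTr : ∀ σ, ∑ φ, (ε φ : ℚ) * (2 * slf p ν (Z.X.factor i₀) φ σ - 1) = 0) :
    ∃ e : Emb Z → ℤ, (∀ φ, di Z i₀ e φ = ε φ) ∧ IsRelation Z e := by
  classical
  obtain ⟨φ00⟩ : Nonempty ((Z.X.factor i₀).E →+* ℂ) := inferInstance
  let B := Z.X.factor i₀
  -- representatives
  let R : ((ℂ ≃+* ℂ) → ℚ) → (B.E →+* ℂ) := fun f =>
    if h : ∃ φ, slf p ν B φ = f then h.choose else φ00
  have hR : ∀ φ, slf p ν B (R (slf p ν B φ)) = slf p ν B φ := by
    intro φ
    have h : ∃ φ', slf p ν B φ' = slf p ν B φ := ⟨φ, rfl⟩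
    have h1 : R (slf p ν B φ) = h.choose := dif_pos h
    rw [h1]
    exact h.choose_spec
  let P : ((ℂ ≃+* ℂ) → ℚ) → Prop := fun f => WellOrderingRel f (fun τ => 1 - f τ)
  have hP : ∀ φ, P (slf p ν B φ) ↔ ¬ P (slf p ν B (ComplexEmbedding.conjugate φ)) := by
    intro φ
    have h1 : (fun τ => 1 - slf p ν B φ τ) = slf p ν B (ComplexEmbedding.conjugate φ) :=
      (slf_conj_eq B φ).symm
    have h2 : (fun τ => 1 - slf p ν B (ComplexEmbedding.conjugate φ) τ) = slf p ν B φ := by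
      funext τ
      have := slf_conj (p := p) (ν := ν) B φ τ
      linarith
    change WellOrderingRel _ _ ↔ ¬ WellOrderingRel _ _
    rw [h1, h2]
    constructor
    · intro h3 h4
      exact asymm_of WellOrderingRel h3 h4
    · intro h3
      rcases trichotomous_of WellOrderingRel (slf p ν B φ)
        (slf p ν B (ComplexEmbedding.conjugate φ)) with h4 | h4 | h4
      · exact h4
      · exact absurd h4.symm (hns φ)
      · exact absurd h4 h3
  let e0 : (B.E →+* ℂ) → ℤ := fun φ => if φ = R (slf p ν B φ) ∧ P (slf p ν B φ) then ε φ else 0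
  let e1 : Emb Z → ℤ := fun w => if h : w.1 = i₀ then
    e0 (h ▸ w.2 : (Z.X.factor i₀).E →+* ℂ) else 0
  have he1 : ∀ φ, e1 ⟨i₀, φ⟩ = e0 φ := fun φ => dif_pos rfl
  have he1' : ∀ w : Emb Z, w.1 ≠ i₀ → e1 w = 0 := fun w h => dif_neg h
  have hsum : ∀ φ, ∑ w : Emb Z, (if slf p ν (Z.X.factor w.1) w.2 = slf p ν B φ then e1 w else 0) =
      if P (slf p ν B φ) then ε φ else 0 := by
    intro φ
    refine (Finset.sum_eq_single (⟨i₀, R (slf p ν B φ)⟩ : Emb Z) (fun w _ hw => ?_)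
      (fun h => absurd (Finset.mem_univ _) h)).trans ?_
    · obtain ⟨i, ψ⟩ := w
      by_cases hi : i = i₀
      · subst hi
        by_cases h1 : slf p ν B ψ = slf p ν B φ
        · have h2 : e1 ⟨i, ψ⟩ = 0 := by
            rw [he1]
            refine if_neg ?_
            rintro ⟨h3, -⟩
            apply hw
            rw [h1] at h3
            rw [h3]
          rw [h2]
          exact ite_self _
        · exact if_neg h1
      · rw [he1' ⟨i, ψ⟩ hi]
        exact ite_self _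
    · rw [if_pos (hR φ), he1]
      change (if R (slf p ν B φ) = R (slf p ν B (R (slf p ν B φ))) ∧
        P (slf p ν B (R (slf p ν B φ))) then ε (R (slf p ν B φ)) else 0) = _
      rw [hR, hfib _ φ (hR φ)]
      simp only [true_and]
  have hdi1 : ∀ φ, di Z i₀ e1 φ = ε φ := by
    intro φ
    have h1 : di Z i₀ e1 φ = (if P (slf p ν B φ) then ε φ else 0) -
        (if P (slf p ν B (ComplexEmbedding.conjugate φ)) then
          ε (ComplexEmbedding.conjugate φ) else 0) := by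
      rw [← hsum, ← hsum]
      unfold di
      congr 1 <;> exact Finset.sum_congr rfl fun w _ => by congr
    rw [h1, hodd]
    by_cases h2 : P (slf p ν B φ)
    · rw [if_pos h2, if_neg ((hP φ).1 h2), sub_zero]
    · have h3 : P (slf p ν B (ComplexEmbedding.conjugate φ)) := by
        by_contra h3
        exact h2 ((hP φ).2 h3)
      rw [if_neg h2, if_pos h3]
      ring
  have hTr' : ∀ e : Emb Z → ℤ, (∀ φ, di Z i₀ e φ = ε φ) → ∀ σ,
      ∑ w, (e w : ℚ) * (2 * slf p ν (Z.X.factor w.1) w.2 σ - 1) = 0 := by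
    intro e hdi σ
    have h1 := sum_emb H φ00 e σ
    have h2 : Tr p ν (Z.X.factor i₀) (di Z i₀ e) σ = 0 := by
      unfold Tr
      rw [← hTr σ]
      exact Finset.sum_congr rfl fun φ _ => by rw [hdi]
    rw [h2] at h1
    exact (mul_eq_zero.1 h1).resolve_left
      (mul_ne_zero two_ne_zero (mf_pos (p := p) (ν := ν) (Z.X.factor i₀) φ00))
  rcases H.ss with ⟨ws, hws⟩ | hord
  · let e : Emb Z → ℤ := e1 + ((∑ w, e1 w) • ind ws)
    have hdis : di Z i₀ (ind ws) = 0 := by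
      obtain ⟨n, hn, h⟩ := hws
      exact di_super ws n hn h
    have hdi : ∀ φ, di Z i₀ e φ = ε φ := by
      intro φ
      have h1 : di Z i₀ e = di Z i₀ e1 + (∑ w, e1 w) • di Z i₀ (ind ws) := by
        have h2 := (diH Z i₀).map_add e1 ((∑ w, e1 w) • ind ws)
        rw [map_zsmul] at h2
        exact h2
      rw [h1, hdis, smul_zero, add_zero]
      exact hdi1 φ
    refine ⟨e, hdi, (rel_slf Z e).2 ⟨?_, hTr' e hdi⟩⟩
    have h1 : ∑ w, ind ws w = 1 := by
      refine (Finset.sum_eq_single ws (fun b _ h => ?_)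
        (fun h => absurd (Finset.mem_univ _) h)).trans ?_
      · exact if_neg h
      · exact if_pos rfl
    have h2 : ∑ w, e w = ∑ w, e1 w + ∑ w, e1 w := by
      simp only [e, Pi.add_apply, Pi.smul_apply, smul_eq_mul]
      rw [Finset.sum_add_distrib, ← Finset.mul_sum, h1, mul_one]
    exact ⟨_, h2⟩
  · refine ⟨e1, hdi1, (rel_slf Z e1).2 ⟨?_, hTr' e1 hdi1⟩⟩
    -- the slopes are zero or one
    have h1 : ∀ w : Emb Z, ∃ x : ℤ,
        2 * slf p ν (Z.X.factor w.1) w.2 (RingEquiv.refl ℂ) - 1 = 2 * (x : ℚ) + 1 := by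
      intro w
      have h2 := (norm_slf_iff _ _ _ _).1 (frob_slopes Z w) (RingEquiv.refl ℂ)
      have h0 := pa_pos (p := p) Z.a
      have h3 := pa_lt (p := p) Z.pos
      rcases hord w with h | h
      · refine ⟨-1, ?_⟩
        change ‖ν.symm (eig Z w)‖ = _ at h2
        rw [h, ← Real.rpow_zero ‖(p : PadicAlgCl p) ^ Z.a‖] at h2
        have h4 := (Real.rpow_right_inj h0 h3.ne).1 h2
        have h5 : slf p ν (Z.X.factor w.1) w.2 (RingEquiv.refl ℂ) = 0 := by
          exact_mod_cast h4.symm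
        rw [h5]
        norm_num
      · refine ⟨0, ?_⟩
        change ‖ν.symm (eig Z w)‖ = _ at h2
        rw [h] at h2
        nth_rewrite 1 [← Real.rpow_one ‖(p : PadicAlgCl p) ^ Z.a‖] at h2
        have h4 := (Real.rpow_right_inj h0 h3.ne).1 h2
        have h5 : slf p ν (Z.X.factor w.1) w.2 (RingEquiv.refl ℂ) = 1 := by
          exact_mod_cast h4.symm
        rw [h5]
        norm_num
    choose x hx using h1
    have h2 := hTr' e1 hdi1 (RingEquiv.refl ℂ)
    have h3 : ∀ w, (e1 w : ℚ) * (2 * slf p ν (Z.X.factor w.1) w.2 (RingEquiv.refl ℂ) - 1) =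
        ((e1 w * (2 * x w + 1) : ℤ) : ℚ) := by
      intro w
      rw [hx]
      push_cast
      ring
    rw [Finset.sum_congr rfl fun w _ => h3 w, ← Int.cast_sum] at h2
    have h4 : ∑ w, e1 w * (2 * x w + 1) = 0 := by exact_mod_cast h2
    refine ⟨-∑ w, e1 w * x w, ?_⟩
    have h5 : ∑ w, e1 w * (2 * x w + 1) = 2 * ∑ w, e1 w * x w + ∑ w, e1 w := by
      rw [Finset.mul_sum, ← Finset.sum_add_distrib]
      exact Finset.sum_congr rfl fun w _ => by ring
    rw [h5] at h4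
    linarith

omit H in
theorem om_conj {χ : (ℂ ≃+* ℂ) →* ℤ} (O : OmI Z i₀ χ) (hχ : χ cxc = -1)
    (φ : (Z.X.factor i₀).E →+* ℂ) : O.ω (ComplexEmbedding.conjugate φ) = -O.ω φ := by
  rw [← cxc_comp, O.equiv, hχ, neg_one_mul]

omit H in
theorem om_ns {χ : (ℂ ≃+* ℂ) →* ℤ} (O : OmI Z i₀ χ) (hχ : χ cxc = -1)
    (φ : (Z.X.factor i₀).E →+* ℂ) :
    slf p ν (Z.X.factor i₀) (ComplexEmbedding.conjugate φ) ≠ slf p ν (Z.X.factor i₀) φ := by
  intro h
  have h1 := O.fib _ _ h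
  rw [om_conj O hχ] at h1
  rcases O.val φ with h2 | h2 <;> omega

/-- There is only one character. -/
theorem uniq (hall : ∀ e, IsRelation Z e → e ∈ Gen Z) (χ₁ χ₂ : (ℂ ≃+* ℂ) →* ℤ)
    (h₁ : χ₁ cxc = -1) (h₂ : χ₂ cxc = -1) (O₁ : OmI Z i₀ χ₁) (O₂ : OmI Z i₀ χ₂) : χ₁ = χ₂ := by
  classical
  by_contra hne
  let ε : ((Z.X.factor i₀).E →+* ℂ) → ℤ := fun φ => (O₁.ω φ + O₂.ω φ) / 2
  have hε : ∀ φ, 2 * ε φ = O₁.ω φ + O₂.ω φ := by
    intro φ
    change 2 * ((O₁.ω φ + O₂.ω φ) / 2) = _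
    rcases O₁.val φ with h | h <;> rcases O₂.val φ with h' | h' <;> rw [h, h'] <;> norm_num
  have hεodd : ∀ φ, ε (ComplexEmbedding.conjugate φ) = -ε φ := by
    intro φ
    have h1 := hε (ComplexEmbedding.conjugate φ)
    rw [om_conj O₁ h₁, om_conj O₂ h₂] at h1
    have h2 := hε φ
    omega
  obtain ⟨e, hdi, hrel⟩ := exists_rel H ε (fun φ φ' h => by
      have h1 := hε φ
      have h2 := hε φ'
      rw [O₁.fib φ φ' h, O₂.fib φ φ' h] at h1
      omega) hεodd (om_ns O₁ h₁) (fun σ => by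
      have h3 : ∀ φ, ((ε φ : ℤ) : ℚ) * (2 * slf p ν (Z.X.factor i₀) φ σ - 1) =
          (1 / 2) * (((O₁.ω φ : ℤ) : ℚ) * (2 * slf p ν (Z.X.factor i₀) φ σ - 1) +
            ((O₂.ω φ : ℤ) : ℚ) * (2 * slf p ν (Z.X.factor i₀) φ σ - 1)) := by
        intro φ
        have h4 : (2 : ℚ) * ((ε φ : ℤ) : ℚ) = ((O₁.ω φ : ℤ) : ℚ) + ((O₂.ω φ : ℤ) : ℚ) := by
          exact_mod_cast hε φ
        linear_combination (1 / 2) * (2 * slf p ν (Z.X.factor i₀) φ σ - 1) * h4
      rw [Finset.sum_congr rfl fun φ _ => h3 φ, ← Finset.mul_sum, Finset.sum_add_distrib,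
        O₁.rel, O₂.rel, add_zero, mul_zero])
  obtain ⟨D⟩ := dec_gen (i₀ := i₀) e (hall e hrel)
  obtain ⟨φ0⟩ : Nonempty ((Z.X.factor i₀).E →+* ℂ) := inferInstance
  let s : Finset ((ℂ ≃+* ℂ) →* ℤ) := D.C.support ∪ {χ₁, χ₂}
  let g : ((ℂ ≃+* ℂ) →* ℤ) → ℚ := fun χ => ((2 * D.C χ φ0 - (if χ = χ₁ then O₁.ω φ0 else 0) -
    (if χ = χ₂ then O₂.ω φ0 else 0) : ℤ) : ℚ)
  have h1 : ∀ σ : ℂ ≃+* ℂ, ∑ χ ∈ s, g χ * ((χ σ : ℤ) : ℚ) = 0 := by
    intro σ
    have h2 : ∑ χ ∈ s, D.C χ ((σ : ℂ →+* ℂ).comp φ0) = ε ((σ : ℂ →+* ℂ).comp φ0) := by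
      rw [← hdi, D.sum, Finsupp.sum]
      symm
      refine Finset.sum_subset Finset.subset_union_left fun χ _ h => ?_
      rw [Finsupp.notMem_support_iff.1 h]
      rfl
    have h3 : ∑ χ ∈ s, (2 * D.C χ φ0 - (if χ = χ₁ then O₁.ω φ0 else 0) -
        (if χ = χ₂ then O₂.ω φ0 else 0)) * χ σ = 0 := by
      have h4 : ∀ χ ∈ s, (2 * D.C χ φ0 - (if χ = χ₁ then O₁.ω φ0 else 0) -
        (if χ = χ₂ then O₂.ω φ0 else 0)) * χ σ =
          2 * D.C χ ((σ : ℂ →+* ℂ).comp φ0) - (if χ = χ₁ then χ₁ σ * O₁.ω φ0 else 0) -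
            (if χ = χ₂ then χ₂ σ * O₂.ω φ0 else 0) := by
        intro χ _
        rw [D.equiv]
        by_cases h5 : χ = χ₁
        · subst h5
          rw [if_pos rfl, if_pos rfl]
          by_cases h6 : χ = χ₂
          · exact absurd h6 hne
          · rw [if_neg h6, if_neg h6]
            ring
        · rw [if_neg h5, if_neg h5]
          by_cases h6 : χ = χ₂
          · subst h6
            rw [if_pos rfl, if_pos rfl]
            ring
          · rw [if_neg h6, if_neg h6]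
            ring
      have hm1 : χ₁ ∈ s := Finset.mem_union_right _ (by simp)
      have hm2 : χ₂ ∈ s := Finset.mem_union_right _ (by simp)
      rw [Finset.sum_congr rfl h4, Finset.sum_sub_distrib, Finset.sum_sub_distrib, ← Finset.mul_sum,
        h2, Finset.sum_ite_eq', Finset.sum_ite_eq', if_pos hm1, if_pos hm2, hε, O₁.equiv, O₂.equiv]
      ring
    have h5 : ((∑ χ ∈ s, (2 * D.C χ φ0 - (if χ = χ₁ then O₁.ω φ0 else 0) -
        (if χ = χ₂ then O₂.ω φ0 else 0)) * χ σ : ℤ) : ℚ) = 0 := by rw [h3, Int.cast_zero]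
    rw [← h5, Int.cast_sum]
    exact Finset.sum_congr rfl fun χ _ => by rw [Int.cast_mul]
  have h2 := indepCh s g h1 χ₁ (Finset.mem_union_right _ (by simp))
  have h3 : 2 * D.C χ₁ φ0 - O₁.ω φ0 = 0 := by
    change ((2 * D.C χ₁ φ0 - (if χ₁ = χ₁ then O₁.ω φ0 else 0) -
      (if χ₁ = χ₂ then O₂.ω φ0 else 0) : ℤ) : ℚ) = 0 at h2
    rw [if_pos rfl, if_neg hne, sub_zero] at h2
    exact_mod_cast h2
  rcases O₁.val φ0 with h | h <;> omega

/-- The function with values one and minus one is a combination of generators, so there is an odd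
fibre. -/
theorem exists_good (hall : ∀ e, IsRelation Z e → e ∈ Gen Z) (χ : (ℂ ≃+* ℂ) →* ℤ)
    (hχ : χ cxc = -1) (O : OmI Z i₀ χ) : Nonempty (GoodI Z i₀ χ) := by
  classical
  obtain ⟨e, hdi, hrel⟩ := exists_rel H O.ω O.fib (om_conj O hχ) (om_ns O hχ) O.rel
  obtain ⟨D⟩ := dec_gen (i₀ := i₀) e (hall e hrel)
  obtain ⟨φ0⟩ : Nonempty ((Z.X.factor i₀).E →+* ℂ) := inferInstance
  let s : Finset ((ℂ ≃+* ℂ) →* ℤ) := D.C.support ∪ {χ}
  let g : ((ℂ ≃+* ℂ) →* ℤ) → ℚ := fun χ' =>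
    ((D.C χ' φ0 - (if χ' = χ then O.ω φ0 else 0) : ℤ) : ℚ)
  have h1 : ∀ σ : ℂ ≃+* ℂ, ∑ χ' ∈ s, g χ' * ((χ' σ : ℤ) : ℚ) = 0 := by
    intro σ
    have h2 : ∑ χ' ∈ s, D.C χ' ((σ : ℂ →+* ℂ).comp φ0) = O.ω ((σ : ℂ →+* ℂ).comp φ0) := by
      rw [← hdi, D.sum, Finsupp.sum]
      symm
      refine Finset.sum_subset Finset.subset_union_left fun χ _ h => ?_
      rw [Finsupp.notMem_support_iff.1 h]
      rfl
    have h3 : ∑ χ' ∈ s, (D.C χ' φ0 - (if χ' = χ then O.ω φ0 else 0)) * χ' σ = 0 := by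
      have h4 : ∀ χ' ∈ s, (D.C χ' φ0 - (if χ' = χ then O.ω φ0 else 0)) * χ' σ =
          D.C χ' ((σ : ℂ →+* ℂ).comp φ0) - (if χ' = χ then χ σ * O.ω φ0 else 0) := by
        intro χ' _
        rw [D.equiv]
        by_cases h5 : χ' = χ
        · subst h5
          rw [if_pos rfl, if_pos rfl]
          ring
        · rw [if_neg h5, if_neg h5]
          ring
      have hm1 : χ ∈ s := Finset.mem_union_right _ (by simp)
      rw [Finset.sum_congr rfl h4, Finset.sum_sub_distrib,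
        h2, Finset.sum_ite_eq', if_pos hm1, O.equiv]
      ring
    have h5 : ((∑ χ' ∈ s, (D.C χ' φ0 - (if χ' = χ then O.ω φ0 else 0)) * χ' σ : ℤ) : ℚ) = 0 := by
      rw [h3, Int.cast_zero]
    rw [← h5, Int.cast_sum]
    exact Finset.sum_congr rfl fun χ _ => by rw [Int.cast_mul]
  have h2 := indepCh s g h1 χ (Finset.mem_union_right _ (by simp))
  have h3 : D.C χ φ0 - O.ω φ0 = 0 := by
    change ((D.C χ φ0 - (if χ = χ then O.ω φ0 else 0) : ℤ) : ℚ) = 0 at h2
    rw [if_pos rfl] at h2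
    exact_mod_cast h2
  refine D.good χ φ0 ?_
  rw [show D.C χ φ0 = O.ω φ0 by omega]
  rcases O.val φ0 with h | h <;> rw [h]
  · exact odd_one
  · exact ⟨-1, rfl⟩

end

end

end Pool.Agent.K4H21.TF.CI

namespace Pool.Agent.K4H21.TF

open NumberField Pool.Agent.H204R3.CM Pool.Agent.W547.KB Pool.Agent.W547.LD Module
  Pool.Agent.W495.TA Pool.Agent.W495.TB Pool.Agent.W495.TC Pool.Agent.TH117.BL

noncomputable section

open CI in
/-- **The core.** -/
theorem coreI_main : S_coreI := by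
  intro p _ ν Z i₀ H hall e₀ he₀ φ₀ hφ₀
  classical
  obtain ⟨D⟩ := CI.dec_gen (i₀ := i₀) e₀ (hall e₀ he₀)
  obtain ⟨χ, hχ⟩ : ∃ χ, D.C χ ≠ 0 := by
    by_contra hcon
    push Not at hcon
    apply hφ₀
    have h1 := D.sum φ₀
    rw [h1, Finsupp.sum]
    refine Finset.sum_eq_zero fun χ _ => ?_
    rw [hcon]
    rfl
  have hcx : ∀ {e : Emb Z → ℤ} (D : DecI Z i₀ e) (χ : (ℂ ≃+* ℂ) →* ℤ), D.C χ ≠ 0 →
      χ cxc = -1 := by
    intro e D χ hχ
    obtain ⟨d, hd, z, hz, rfl⟩ := D.chr χ hχ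
    exact chz_cxc hd hz
  obtain ⟨O⟩ := CI.comp_rel H e₀ he₀ D χ hχ
  obtain ⟨G⟩ := exists_good H hall χ (hcx D χ hχ) O
  refine ⟨{ ω := O.ω, val := O.val, fib := O.fib, rel := O.rel, all := fun e he => ?_, A := G.A,
            δ := G.δ, d := G.d, pos := G.pos, sq := G.sq, mult := G.mult, θ := G.θ,
            slopes := G.slopes, z := G.z, zsq := G.zsq, equiv := fun τ φ => ?_, odd := G.odd }⟩
  · obtain ⟨D'⟩ := CI.dec_gen (i₀ := i₀) e (hall e he)
    have h1 : ∀ χ', D'.C χ' ≠ 0 → χ' = χ := by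
      intro χ' hχ'
      obtain ⟨O'⟩ := CI.comp_rel H e he D' χ' hχ'
      exact CI.uniq H hall χ' χ (hcx D' χ' hχ') (hcx D χ hχ) O' O
    have h2 : ∀ φ, di Z i₀ e φ = D'.C χ φ := by
      intro φ
      rw [D'.sum, Finsupp.sum, Finset.sum_eq_single χ]
      · intro χ' h3 h4
        exact absurd (h1 χ' (Finsupp.mem_support_iff.1 h3)) h4
      · intro h3
        rw [Finsupp.notMem_support_iff.1 h3]
        rfl
    refine ⟨D'.C χ φ₀ * O.ω φ₀, fun φ => ?_⟩
    rw [h2 φ]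
    obtain ⟨σ, rfl⟩ := exists_aut_emb _ φ₀ φ
    rw [D'.equiv, O.equiv]
    rcases O.val φ₀ with h | h <;> rw [h] <;> ring
  · have h5 : χ τ = if τ G.z = G.z then 1 else -1 := by
      have h6 := congrArg (fun f : (ℂ ≃+* ℂ) →* ℤ => f τ) G.eq
      refine h6.trans ?_
      rw [chz_apply]
    rw [O.equiv, h5]
    by_cases h : τ G.z = G.z
    · rw [if_pos h, if_pos h, one_mul]
    · rw [if_neg h, if_neg h, neg_one_mul]

end

end Pool.Agent.K4H21.TF
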