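import Mathlib
import Pool.Agent.K4H21.TF.Stms3

/-!
# The imaginary quadratic field
-/

set_option autoImplicit false
set_option linter.unusedSectionVars false
set_option linter.unusedVariables false

namespace Pool.Agent.K4H21.TF

open NumberField Pool.Agent.H204R3.CM Pool.Agent.W547.KB Pool.Agent.W547.LD Module
  Pool.Agent.W495.TA Pool.Agent.W495.TB Pool.Agent.W495.TC Pool.Agent.TH117.BL
open Pool.Agent.K4H21.LC (rr rr_spec rr_surj)

noncomputable section

namespace Quad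

variable {p : ℕ} [Fact p.Prime] {ν : PadicAlgCl p ≃+* ℂ}

theorem same_of_slf {Z : RedAV p ν} (w w' : Emb Z)
    (h : slf p ν (Z.X.factor w.1) w.2 = slf p ν (Z.X.factor w'.1) w'.2) : SameEig Z w w' := by
  have h1 : ∀ v : Emb Z, slf p ν (Z.X.factor v.1) v.2 = slf p ν (Z.X.factor w'.1) w'.2 →
      ∃ n : ℕ, 0 < n ∧ (eig Z v * eig Z (cj w')) ^ n = ((p : ℂ) ^ Z.a) ^ n := by
    intro v hv
    refine eig_mul_of_slf Z v (cj w') fun τ => ?_
    rw [hv]
    exact slf_conj _ _ τ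
  obtain ⟨n, hn, h2⟩ := h1 w h
  refine ⟨n, hn, ?_⟩
  have h3 : (eig Z w' * eig Z (cj w')) ^ n = ((p : ℂ) ^ Z.a) ^ n := by rw [eig_cj]
  rw [← h2, mul_pow, mul_pow] at h3
  exact (mul_right_cancel₀ (pow_ne_zero _ (eig_ne _)) h3).symm

theorem slf_of_same {Z : RedAV p ν} (w w' : Emb Z) (h : SameEig Z w w') :
    slf p ν (Z.X.factor w.1) w.2 = slf p ν (Z.X.factor w'.1) w'.2 := by
  obtain ⟨n, hn, h⟩ := h
  exact slf_of_pow Z.pos hn rfl (frob_slopes Z w) (frob_slopes Z w') h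

/-! ### Places -/

section place

variable {E : Type} [Field E]

theorem sp_refl (φ : E →+* ℂ) : SamePlace p ν φ φ := ⟨1, fun x => (ν.apply_symm_apply _).symm⟩

theorem sp_symm {φ φ' : E →+* ℂ} (h : SamePlace p ν φ φ') : SamePlace p ν φ' φ := by
  obtain ⟨τ, h⟩ := h
  refine ⟨τ.symm, fun x => ?_⟩
  rw [h x, ν.symm_apply_apply, τ.symm_apply_apply, ν.apply_symm_apply]

theorem sp_trans {φ φ' φ'' : E →+* ℂ} (h : SamePlace p ν φ φ') (h' : SamePlace p ν φ' φ'') :
    SamePlace p ν φ φ'' := by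
  obtain ⟨τ, h⟩ := h
  obtain ⟨τ', h'⟩ := h'
  refine ⟨τ.trans τ', fun x => ?_⟩
  rw [h' x, h x, ν.symm_apply_apply]
  rfl

theorem sp_fix {φ φ' : E →+* ℂ} (h : SamePlace p ν φ φ') {δ : E} [CharZero E] {d : ℚ}
    (hδ : δ * δ = -(d : E)) (hs : IsSquare (-((d : ℚ) : ℚ_[p]))) : φ' δ = φ δ := by
  obtain ⟨τ, h⟩ := h
  obtain ⟨s, hs⟩ := hs
  rw [h]
  have h1 : ν.symm (φ δ) * ν.symm (φ δ) =
      algebraMap ℚ_[p] (PadicAlgCl p) s * algebraMap ℚ_[p] (PadicAlgCl p) s := by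
    rw [← map_mul, ← map_mul, hδ, ← map_mul, ← hs, map_neg, map_neg, map_neg, map_ratCast,
      map_ratCast, map_ratCast]
  have h2 : τ (ν.symm (φ δ)) = ν.symm (φ δ) := by
    rcases mul_self_eq_mul_self_iff.1 h1 with h3 | h3
    · rw [h3, τ.commutes]
    · rw [h3, map_neg, τ.commutes]
  rw [h2, ν.apply_symm_apply]

end place

open Classical in
/-- The sum of the slopes at one over a union of places is the number of the embeddings in the CM
type. -/
theorem sum_slf (A : CMPair) (S : Finset (A.E →+* ℂ))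
    (hS : ∀ φ φ', SamePlace p ν φ φ' → φ ∈ S → φ' ∈ S) :
    ∑ φ ∈ S, slf p ν A φ (RingEquiv.refl ℂ) = ((S.filter fun φ => φ ∈ A.Φ).card : ℚ) := by
  let c : (A.E →+* ℂ) → ℕ := fun φ => (Finset.univ.filter fun φ' => SamePlace p ν φ φ').card
  have hslf : ∀ φ, slf p ν A φ (RingEquiv.refl ℂ) =
      ((Finset.univ.filter fun φ' => SamePlace p ν φ φ' ∧ φ' ∈ A.Φ).card : ℚ) / (c φ : ℚ) := by
    intro φ
    have h1 : ((RingEquiv.refl ℂ : ℂ ≃+* ℂ) : ℂ →+* ℂ).comp φ = φ := RingHom.ext fun _ => rfl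
    unfold slf
    rw [h1, Nat.card_eq_fintype_card, Nat.card_eq_fintype_card, Fintype.card_subtype,
      Fintype.card_subtype]
  have hc : ∀ φ φ', SamePlace p ν φ φ' → c φ = c φ' := by
    intro φ φ' h
    change (Finset.univ.filter fun φ'' => SamePlace p ν φ φ'').card =
      (Finset.univ.filter fun φ'' => SamePlace p ν φ' φ'').card
    congr 1
    ext φ''
    rw [Finset.mem_filter, Finset.mem_filter]
    exact ⟨fun h' => ⟨h'.1, sp_trans (sp_symm h) h'.2⟩, fun h' => ⟨h'.1, sp_trans h h'.2⟩⟩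
  have hpos : ∀ φ, (c φ : ℚ) ≠ 0 := by
    intro φ
    have h1 : 0 < c φ := Finset.card_pos.2 ⟨φ, by
      rw [Finset.mem_filter]
      exact ⟨Finset.mem_univ _, sp_refl φ⟩⟩
    exact_mod_cast h1.ne'
  have h1 : ∑ φ ∈ S, slf p ν A φ (RingEquiv.refl ℂ) =
      ∑ φ : A.E →+* ℂ, ∑ φ' : A.E →+* ℂ,
        if φ' ∈ S ∧ φ' ∈ A.Φ then (if SamePlace p ν φ' φ then 1 / (c φ' : ℚ) else 0) else 0 := by
    rw [← Finset.sum_filter_add_sum_filter_not Finset.univ (fun φ => φ ∈ S)]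
    have h2 : ∑ φ ∈ Finset.univ.filter (fun φ => φ ∉ S), ∑ φ' : A.E →+* ℂ,
        (if φ' ∈ S ∧ φ' ∈ A.Φ then (if SamePlace p ν φ' φ then 1 / (c φ' : ℚ) else 0) else 0) = 0 := by
      refine Finset.sum_eq_zero fun φ hφ => Finset.sum_eq_zero fun φ' _ => ?_
      rw [Finset.mem_filter] at hφ
      split_ifs with h3 h4
      · exact absurd (hS _ _ h4 h3.1) hφ.2
      · rfl
      · rfl
    rw [h2, add_zero]
    have h3 : Finset.univ.filter (fun φ => φ ∈ S) = S := by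
      ext φ
      rw [Finset.mem_filter]
      exact ⟨fun h => h.2, fun h => ⟨Finset.mem_univ _, h⟩⟩
    rw [h3]
    refine Finset.sum_congr rfl fun φ hφ => ?_
    rw [hslf, Finset.card_eq_sum_ones, Nat.cast_sum, Finset.sum_div, Finset.sum_filter]
    refine Finset.sum_congr rfl fun φ' _ => ?_
    by_cases h4 : SamePlace p ν φ φ'
    · by_cases h5 : φ' ∈ A.Φ
      · rw [if_pos ⟨h4, h5⟩, if_pos ⟨hS _ _ h4 hφ, h5⟩, if_pos (sp_symm h4), hc _ _ h4]
        simp
      · rw [if_neg fun h => h5 h.2, if_neg fun h => h5 h.2]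
    · rw [if_neg fun h => h4 h.1]
      split_ifs with h5 h6
      · exact absurd (sp_symm h6) h4
      · rfl
      · rfl
  rw [h1, Finset.sum_comm, Finset.card_eq_sum_ones, Nat.cast_sum, Finset.sum_filter]
  have h2 : ∀ φ' : A.E →+* ℂ, (∑ φ : A.E →+* ℂ,
      if φ' ∈ S ∧ φ' ∈ A.Φ then (if SamePlace p ν φ' φ then 1 / (c φ' : ℚ) else 0) else 0) =
      if φ' ∈ S ∧ φ' ∈ A.Φ then 1 else 0 := by
    intro φ'
    by_cases h3 : φ' ∈ S ∧ φ' ∈ A.Φ
    · simp only [if_pos h3]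
      rw [← Finset.sum_filter, Finset.sum_const, nsmul_eq_mul]
      exact mul_one_div_cancel (hpos φ')
    · simp only [if_neg h3, Finset.sum_const_zero]
  rw [Finset.sum_congr rfl fun φ' _ => h2 φ', ← Finset.sum_filter, ← Finset.sum_filter]
  have h4 : Finset.univ.filter (fun φ' => φ' ∈ S ∧ φ' ∈ A.Φ) = S.filter fun φ => φ ∈ A.Φ := by
    ext φ
    simp [Finset.mem_filter]
  rw [h4]
  simp

/-! ### Counting embeddings -/

open Classical in
/-- The embeddings in the CM type with a given value. -/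
def mset (A : CMPair) (δ : A.E) (u : ℂ) : Finset (A.E →+* ℂ) :=
  Finset.univ.filter fun φ => φ ∈ A.Φ ∧ φ δ = u

theorem encard_mset (A : CMPair) (δ : A.E) (u : ℂ) :
    {φ ∈ A.Φ | φ δ = u}.encard = ((mset A δ u).card : ℕ∞) := by
  rw [← Set.encard_coe_eq_coe_finsetCard]
  congr 1
  ext φ
  simp [mset]

theorem conj_z {z : ℂ} {d : ℚ} (hd : 0 < d) (hz : z * z = -(d : ℂ)) : starRingEnd ℂ z = -z := by
  have hd' : (0 : ℝ) < (d : ℝ) := by exact_mod_cast hd
  have h1 := congrArg Complex.re hz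
  have h2 := congrArg Complex.im hz
  simp only [Complex.mul_re, Complex.mul_im, Complex.neg_re, Complex.neg_im, Complex.ratCast_re,
    Complex.ratCast_im, neg_zero] at h1 h2
  have h3 : z.im ≠ 0 := by
    intro h
    rw [h] at h1
    nlinarith [mul_self_nonneg z.re]
  have h4 : z.re = 0 := by
    have h5 : z.re * z.im = 0 := by linarith [mul_comm z.re z.im]
    exact (mul_eq_zero.1 h5).resolve_right h3
  apply Complex.ext
  · simp [h4]
  · simp

theorem pm_of {A : CMPair} {δ : A.E} {d : ℚ} (hδ : δ * δ = -(d : A.E)) {z : ℂ}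
    (hz : z * z = -(d : ℂ)) (φ : A.E →+* ℂ) : φ δ = z ∨ φ δ = -z := by
  have h1 : φ δ * φ δ = z * z := by
    rw [hz, ← map_mul, hδ, map_neg, map_ratCast]
  exact mul_self_eq_mul_self_iff.1 h1

/-- The conjugation of embeddings. -/
def cje (E : Type) [Field E] : (E →+* ℂ) ≃ (E →+* ℂ) where
  toFun φ := ComplexEmbedding.conjugate φ
  invFun φ := ComplexEmbedding.conjugate φ
  left_inv φ := star_involutive φ
  right_inv φ := star_involutive φ

open Classical in
/-- The two multiplicities are equal if the signed sum of the slopes is zero. -/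
theorem mult_eq' (A : CMPair) {δ : A.E} {d : ℚ} (hd : 0 < d) (hδ : δ * δ = -(d : A.E)) {z : ℂ}
    (hz : z * z = -(d : ℂ)) (hs : IsSquare (-((d : ℚ) : ℚ_[p]))) {ε : ℚ} (hε : ε ≠ 0)
    (h : ∑ φ : A.E →+* ℂ, (if φ δ = z then ε else -ε) *
      (2 * slf p ν A φ (RingEquiv.refl ℂ) - 1) = 0) :
    (mset A δ z).card = (mset A δ (-z)).card := by
  have hz0 : z ≠ 0 := by
    rintro rfl
    rw [mul_zero] at hz
    have h1 : (d : ℂ) ≠ 0 := by exact_mod_cast hd.ne'
    exact h1 (neg_eq_zero.1 hz.symm)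
  have hzz : z ≠ -z := fun h1 => hz0 (self_eq_neg.1 h1)
  have key : ∀ u : ℂ, ∑ φ ∈ Finset.univ.filter (fun φ : A.E →+* ℂ => φ δ = u),
      slf p ν A φ (RingEquiv.refl ℂ) = ((mset A δ u).card : ℚ) := by
    intro u
    rw [sum_slf A]
    · congr 2
      ext φ
      simp [mset, and_comm]
    · intro φ φ' h1 h2
      rw [Finset.mem_filter] at h2 ⊢
      exact ⟨Finset.mem_univ _, (sp_fix h1 hδ hs).trans h2.2⟩
  have hN : (Finset.univ.filter (fun φ : A.E →+* ℂ => φ δ = z)).card =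
      (Finset.univ.filter (fun φ : A.E →+* ℂ => φ δ = -z)).card := by
    refine Finset.card_equiv (cje A.E) fun φ => ?_
    rw [Finset.mem_filter, Finset.mem_filter]
    have h1 : (cje A.E φ) δ = starRingEnd ℂ (φ δ) := ComplexEmbedding.conjugate_coe_eq φ δ
    rw [h1]
    refine and_congr (iff_of_true (Finset.mem_univ _) (Finset.mem_univ _)) ⟨fun h2 => by rw [h2, conj_z hd hz], fun h2 => ?_⟩
    have h3 := congrArg (starRingEnd ℂ) h2
    rw [Complex.conj_conj, map_neg, conj_z hd hz, neg_neg] at h3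
    exact h3
  have h1 : ∀ φ : A.E →+* ℂ, (if φ δ = z then ε else -ε) *
      (2 * slf p ν A φ (RingEquiv.refl ℂ) - 1) =
      (if φ δ = z then ε * (2 * slf p ν A φ (RingEquiv.refl ℂ) - 1) else 0) -
      (if φ δ = -z then ε * (2 * slf p ν A φ (RingEquiv.refl ℂ) - 1) else 0) := by
    intro φ
    rcases pm_of hδ hz φ with h2 | h2
    · rw [h2, if_pos rfl, if_pos rfl, if_neg hzz]
      ring
    · rw [h2, if_neg (Ne.symm hzz), if_neg (Ne.symm hzz), if_pos rfl]
      ring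
  rw [Finset.sum_congr rfl fun φ _ => h1 φ, Finset.sum_sub_distrib, ← Finset.sum_filter,
    ← Finset.sum_filter, ← Finset.mul_sum, ← Finset.mul_sum, Finset.sum_sub_distrib,
    Finset.sum_sub_distrib, ← Finset.mul_sum, ← Finset.mul_sum, key, key, Finset.sum_const,
    Finset.sum_const, hN] at h
  have h2 : ε * (2 * (((mset A δ z).card : ℚ) - ((mset A δ (-z)).card : ℚ))) = 0 := by
    linarith
  have h3 := (mul_eq_zero.1 h2).resolve_left hε
  have h4 : ((mset A δ z).card : ℚ) = ((mset A δ (-z)).card : ℚ) := by linarith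
  exact_mod_cast h4

open Classical in
/-- The criterion for a quadratic datum to be balanced. -/
theorem balanced {Z : RedAV p ν} {i₀ : Z.X.I} (C : Core Z i₀) (W : QuadDatum Z)
    (f : (W.A.E →+* ℂ) ≃ ((Z.X.factor i₀).E →+* ℂ))
    (hf : ∀ ψ, slf p ν W.A ψ = slf p ν (Z.X.factor i₀) (f ψ)) {z : ℂ}
    (hz : z * z = -(W.d : ℂ)) {ε : ℤ} (hε : ε ≠ 0)
    (hω : ∀ ψ, C.ω (f ψ) = if ψ W.δ = z then ε else -ε) : ¬ W.Unbalanced := by
  rintro ⟨hs, u, hu⟩
  apply hu
  rw [encard_mset, encard_mset]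
  have h1 := C.rel (RingEquiv.refl ℂ)
  rw [← f.sum_comp] at h1
  have h2 : (mset W.A W.δ z).card = (mset W.A W.δ (-z)).card := by
    refine mult_eq' (p := p) (ν := ν) W.A W.pos W.sq hz hs (ε := (ε : ℚ))
      (by exact_mod_cast hε) ?_
    rw [← h1]
    refine Finset.sum_congr rfl fun ψ _ => ?_
    rw [hω ψ, hf ψ]
    split_ifs <;> push_cast <;> rfl
  by_cases hu1 : u = z
  · rw [hu1, h2]
  · by_cases hu2 : u = -z
    · rw [hu2, neg_neg, h2]
    · have h3 : ∀ u : ℂ, u ≠ z → u ≠ -z → mset W.A W.δ u = ∅ := by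
        intro u h4 h5
        refine Finset.eq_empty_of_forall_notMem fun φ hφ => ?_
        unfold mset at hφ
        rw [Finset.mem_filter] at hφ
        rcases pm_of W.sq hz φ with h6 | h6
        · exact h4 (hφ.2.2.symm.trans h6)
        · exact h5 (hφ.2.2.symm.trans h6)
      rw [h3 u hu1 hu2, h3 (-u) (fun h => hu2 (by rw [← h, neg_neg]))
        (fun h => hu1 (neg_injective h))]

open Classical in
/-- The number of the embeddings is twice the number of the embeddings in the CM type. -/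
theorem card_emb_eq (A : CMPair) : Fintype.card (A.E →+* ℂ) =
    2 * (Finset.univ.filter fun φ : A.E →+* ℂ => φ ∈ A.Φ).card := by
  have h1 : (Finset.univ.filter fun φ : A.E →+* ℂ => φ ∉ A.Φ).card =
      (Finset.univ.filter fun φ : A.E →+* ℂ => φ ∈ A.Φ).card := by
    refine Finset.card_equiv (cje A.E) fun φ => ?_
    rw [Finset.mem_filter, Finset.mem_filter]
    refine and_congr (iff_of_true (Finset.mem_univ _) (Finset.mem_univ _)) ?_
    have h2 := A.isCMType φ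
    have h3 : cje A.E φ = ComplexEmbedding.conjugate φ := rfl
    rw [h3]
    tauto
  have h2 := Finset.card_filter_add_card_filter_not (s := (Finset.univ : Finset (A.E →+* ℂ)))
    (fun φ => φ ∈ A.Φ)
  rw [Finset.card_univ] at h2
  rw [← h2]
  change _ + (Finset.univ.filter fun φ : A.E →+* ℂ => φ ∉ A.Φ).card = _
  rw [h1]
  ring

open Classical in
/-- If the multiplicities are at most three then the degree is at most twelve. -/
theorem card_emb_le (A : CMPair) {δ : A.E} {d : ℚ} (hδ : δ * δ = -(d : A.E)) {z : ℂ}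
    (hz : z * z = -(d : ℂ)) (hm : ∀ u : ℂ, {φ ∈ A.Φ | φ δ = u}.encard ≤ 3) :
    Fintype.card (A.E →+* ℂ) ≤ 12 := by
  have h1 : ∀ u, (mset A δ u).card ≤ 3 := fun u => by
    have h2 := hm u
    rw [encard_mset] at h2
    exact_mod_cast h2
  have h3 : (Finset.univ.filter fun φ : A.E →+* ℂ => φ ∈ A.Φ) ⊆ mset A δ z ∪ mset A δ (-z) := by
    intro φ hφ
    rw [Finset.mem_filter] at hφ
    rw [Finset.mem_union]
    unfold mset
    rw [Finset.mem_filter, Finset.mem_filter]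
    rcases pm_of hδ hz φ with h | h
    · exact Or.inl ⟨Finset.mem_univ _, hφ.2, h⟩
    · exact Or.inr ⟨Finset.mem_univ _, hφ.2, h⟩
  have h4 := (Finset.card_le_card h3).trans (Finset.card_union_le _ _)
  have h5 := h1 z
  have h6 := h1 (-z)
  rw [card_emb_eq]
  omega

/-- An element which is fixed by all automorphisms which fix the field. -/
theorem mem_of_fix (A : CMPair) (B : CMPair) (φ0 : A.E →+* ℂ) (ψ0 : B.E →+* ℂ) (δ : B.E)
    (h : ∀ τ : ℂ ≃+* ℂ, (τ : ℂ →+* ℂ).comp φ0 = φ0 → τ (ψ0 δ) = ψ0 δ) :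
    ∃ δ0 : A.E, φ0 δ0 = ψ0 δ := by
  obtain ⟨L, _, _, _, _, j, hj⟩ := exists_big ((single A).prod (single B))
  obtain ⟨a0, rfl⟩ : ∃ a : A.E →+* L, j.comp a = φ0 := hj (Sum.inl ()) φ0
  obtain ⟨b0, rfl⟩ : ∃ b : B.E →+* L, j.comp b = ψ0 := hj (Sum.inr ()) ψ0
  let K : IntermediateField ℚ L := a0.toRatAlgHom.fieldRange
  have h1 : b0 δ ∈ IntermediateField.fixedField K.fixingSubgroup := by
    rw [IntermediateField.mem_fixedField_iff]
    intro σ hσ
    obtain ⟨τ, rfl⟩ := rr_surj j σ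
    have h2 : ∀ x, rr j τ (a0 x) = a0 x := fun x =>
      (IntermediateField.mem_fixingSubgroup_iff K _).1 hσ (a0 x) ⟨x, rfl⟩
    have h3 := h τ (RingHom.ext fun x => by
      change τ (j (a0 x)) = j (a0 x)
      rw [rr_spec, h2])
    have h4 : τ (j (b0 δ)) = j (b0 δ) := h3
    rw [rr_spec] at h4
    exact j.injective h4
  rw [IsGalois.fixedField_fixingSubgroup] at h1
  obtain ⟨δ0, h2⟩ := h1
  exact ⟨δ0, congrArg j h2⟩

end Quad

open Quad

open Classical in
theorem quad_main : S_quad := by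
  intro p _ ν Z i₀ S C
  obtain ⟨ψ0, φ0, h0⟩ := C.mem
  -- slopes
  have hθ : ∀ ψ, slf p ν (Z.X.factor (C.θ ψ).1) (C.θ ψ).2 = slf p ν C.A ψ := fun ψ =>
    slf_of_norm Z.pos (frob_slopes Z (C.θ ψ)) (C.slopes ψ)
  have hs0 : slf p ν C.A ψ0 = slf p ν (Z.X.factor i₀) φ0 := by
    rw [← hθ ψ0, h0]
  have huniq : ∀ φ φ' : (Z.X.factor i₀).E →+* ℂ,
      slf p ν (Z.X.factor i₀) φ = slf p ν (Z.X.factor i₀) φ' → φ = φ' := by
    intro φ φ' h
    by_contra hne
    exact S.inj φ φ' hne (same_of_slf (Z := Z) ⟨i₀, φ⟩ ⟨i₀, φ'⟩ h)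
  have hshift : ∀ τ : ℂ ≃+* ℂ, slf p ν C.A ((τ : ℂ →+* ℂ).comp ψ0) =
      slf p ν (Z.X.factor i₀) ((τ : ℂ →+* ℂ).comp φ0) := by
    intro τ
    funext τ'
    rw [slf_comp, slf_comp, hs0]
  choose t ht using fun ψ => exists_aut_emb C.A ψ0 ψ
  have hf : ∀ ψ, slf p ν C.A ψ = slf p ν (Z.X.factor i₀) ((t ψ : ℂ →+* ℂ).comp φ0) := by
    intro ψ
    rw [← hshift, ht]
  have hsurj : Function.Surjective fun ψ => (t ψ : ℂ →+* ℂ).comp φ0 := by
    intro φ
    obtain ⟨s, hs⟩ := exists_aut_emb (Z.X.factor i₀) φ0 φ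
    refine ⟨(s : ℂ →+* ℂ).comp ψ0, huniq _ _ ?_⟩
    rw [← hf, hshift, hs]
  have hψz : (ψ0 C.δ) * (ψ0 C.δ) = -(C.d : ℂ) := by
    rw [← map_mul, C.sq, map_neg, map_ratCast]
  have hzz : ∀ τ : ℂ ≃+* ℂ, τ C.z = C.z ↔ τ (ψ0 C.δ) = ψ0 C.δ := by
    intro τ
    rcases pm_of C.sq C.zsq ψ0 with h | h
    · rw [h]
    · rw [h, map_neg, neg_inj]
  have hω0 : C.ω φ0 ≠ 0 := by
    rcases C.val φ0 with h | h <;> rw [h] <;> norm_num
  by_cases hinj : ∀ ψ ψ', ψ ≠ ψ' → ¬ SameEig Z (C.θ ψ) (C.θ ψ')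
  · -- the type `C.A`
    let W : QuadDatum Z := ⟨C.A, C.δ, C.d, C.pos, C.sq, C.mult, C.θ, C.slopes, hinj⟩
    have hbij : Function.Bijective fun ψ => (t ψ : ℂ →+* ℂ).comp φ0 := by
      refine ⟨fun ψ ψ' h => ?_, hsurj⟩
      by_contra hne
      refine hinj ψ ψ' hne (same_of_slf _ _ ?_)
      rw [hθ, hθ, hf, hf]
      exact congrArg _ h
    refine ⟨W, balanced C W (Equiv.ofBijective _ hbij) hf (z := ψ0 C.δ) hψz hω0 fun ψ => ?_⟩
    change C.ω ((t ψ : ℂ →+* ℂ).comp φ0) = if ψ C.δ = ψ0 C.δ then C.ω φ0 else -C.ω φ0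
    rw [C.equiv]
    have h1 : t ψ C.z = C.z ↔ ψ C.δ = ψ0 C.δ := by
      rw [hzz]
      have h2 : t ψ (ψ0 C.δ) = ψ C.δ := RingHom.congr_fun (ht ψ) C.δ
      rw [h2]
    simp only [h1]
  · -- the dimension of the factor is at most three
    push Not at hinj
    obtain ⟨ψ1, ψ2, hne, hsame⟩ := hinj
    have h12 : slf p ν C.A ψ1 = slf p ν C.A ψ2 := by
      rw [← hθ, ← hθ]
      exact slf_of_same _ _ hsame
    have hfib : ∀ φ : (Z.X.factor i₀).E →+* ℂ, 2 ≤ (Finset.univ.filter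
        fun ψ => (t ψ : ℂ →+* ℂ).comp φ0 = φ).card := by
      intro φ
      obtain ⟨ψ, hψ⟩ := hsurj φ
      obtain ⟨s, hs⟩ := exists_aut_emb C.A ψ1 ψ
      have h3 : (s : ℂ →+* ℂ).comp ψ2 ≠ ψ := by
        rw [← hs]
        intro h4
        apply hne
        refine RingHom.ext fun x => s.injective ?_
        exact (RingHom.congr_fun h4 x).symm
      have h4 : (t ((s : ℂ →+* ℂ).comp ψ2) : ℂ →+* ℂ).comp φ0 = φ := by
        rw [← hψ]
        apply huniq
        change _ = slf p ν (Z.X.factor i₀) ((t ψ : ℂ →+* ℂ).comp φ0)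
        rw [← hf, ← hf]
        rw [← hs]
        funext τ
        rw [slf_comp, slf_comp, h12]
      have h5 : ({ψ, (s : ℂ →+* ℂ).comp ψ2} : Finset (C.A.E →+* ℂ)) ⊆
          Finset.univ.filter fun ψ => (t ψ : ℂ →+* ℂ).comp φ0 = φ := by
        intro x hx
        rw [Finset.mem_insert, Finset.mem_singleton] at hx
        rw [Finset.mem_filter]
        rcases hx with rfl | rfl
        · exact ⟨Finset.mem_univ _, hψ⟩
        · exact ⟨Finset.mem_univ _, h4⟩
      have h6 := Finset.card_le_card h5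
      rwa [Finset.card_pair (Ne.symm h3)] at h6
    have h7 : 2 * Fintype.card ((Z.X.factor i₀).E →+* ℂ) ≤ Fintype.card (C.A.E →+* ℂ) := by
      have h8 := Finset.card_eq_sum_card_fiberwise (s := (Finset.univ : Finset (C.A.E →+* ℂ)))
        (t := (Finset.univ : Finset ((Z.X.factor i₀).E →+* ℂ)))
        (f := fun ψ => (t ψ : ℂ →+* ℂ).comp φ0) (fun _ _ => Finset.mem_univ _)
      rw [← Finset.card_univ (α := C.A.E →+* ℂ), h8, ← Finset.card_univ, mul_comm,
        ← smul_eq_mul, ← Finset.sum_const]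
      exact Finset.sum_le_sum fun φ _ => hfib φ
    have h8 := card_emb_le C.A C.sq C.zsq C.mult
    have h9 : Fintype.card ((Z.X.factor i₀).E →+* ℂ) ≤ 6 := by omega
    obtain ⟨δ0, hδ0⟩ := mem_of_fix (Z.X.factor i₀) C.A φ0 ψ0 C.δ fun τ hτ => by
      rw [← hzz]
      by_contra hne
      have h10 := C.equiv τ φ0
      rw [if_neg hne, hτ] at h10
      exact hω0 (self_eq_neg.1 h10)
    have hsq : δ0 * δ0 = -(C.d : (Z.X.factor i₀).E) := by
      apply φ0.injective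
      rw [map_mul, hδ0, hψz, map_neg, map_ratCast]
    have hm : ∀ u : ℂ, {φ ∈ (Z.X.factor i₀).Φ | φ δ0 = u}.encard ≤ 3 := by
      intro u
      rw [encard_mset]
      have h10 : mset (Z.X.factor i₀) δ0 u ⊆
          Finset.univ.filter fun φ : (Z.X.factor i₀).E →+* ℂ => φ ∈ (Z.X.factor i₀).Φ := by
        intro φ hφ
        unfold mset at hφ
        rw [Finset.mem_filter] at hφ ⊢
        exact ⟨hφ.1, hφ.2.1⟩
      have h11 := Finset.card_le_card h10
      have h12 := card_emb_eq (Z.X.factor i₀)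
      have h13 : (mset (Z.X.factor i₀) δ0 u).card ≤ 3 := by omega
      exact_mod_cast h13
    let W : QuadDatum Z := ⟨Z.X.factor i₀, δ0, C.d, C.pos, hsq, hm, fun φ => ⟨i₀, φ⟩,
      fun φ => frob_slopes Z ⟨i₀, φ⟩, fun φ φ' h => S.inj φ φ' h⟩
    refine ⟨W, balanced C W (Equiv.refl _) (fun _ => rfl) (z := ψ0 C.δ) hψz hω0 fun φ => ?_⟩
    change C.ω φ = if φ δ0 = ψ0 C.δ then C.ω φ0 else -C.ω φ0
    obtain ⟨τ, hτ⟩ := exists_aut_emb (Z.X.factor i₀) φ0 φ
    have h10 : τ C.z = C.z ↔ φ δ0 = ψ0 C.δ := by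
      rw [hzz, ← hδ0]
      have h11 : τ (φ0 δ0) = φ δ0 := RingHom.congr_fun hτ δ0
      rw [h11]
    have h11 := C.equiv τ φ0
    rw [hτ] at h11
    rw [h11]
    simp only [h10]

end

end Pool.Agent.K4H21.TF
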