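import Mathlib
import Pool.Agent.K4H21.TF.QuadT

/-!
# The degree of the field is at most twelve
-/

set_option autoImplicit false
set_option linter.unusedSectionVars false
set_option linter.unusedVariables false

namespace Pool.Agent.K4H21.TF

open NumberField Pool.Agent.H204R3.CM Pool.Agent.W547.KB Pool.Agent.W547.LD Module
  Pool.Agent.W495.TA Pool.Agent.W495.TB Pool.Agent.W495.TC Pool.Agent.TH117.BL
open Quad

noncomputable section

variable {p : ℕ} [Fact p.Prime] {ν : PadicAlgCl p ≃+* ℂ}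

open Classical in
/-- The degree of the field of the simple factor is at most twelve. -/
theorem fin12 {Z : RedAV p ν} {i₀ : Z.X.I} (S : SimpleTimesSuper Z i₀) (C : Core Z i₀) :
    finrank ℚ (Z.X.factor i₀).E ≤ 12 := by
  obtain ⟨ψ0, φ0, h0⟩ := C.mem
  have hs0 : slf p ν C.A ψ0 = slf p ν (Z.X.factor i₀) φ0 := by
    have h1 : slf p ν (Z.X.factor (C.θ ψ0).1) (C.θ ψ0).2 = slf p ν C.A ψ0 :=
      slf_of_norm Z.pos (frob_slopes Z (C.θ ψ0)) (C.slopes ψ0)
    rw [← h1, h0]
  have huniq : ∀ φ φ' : (Z.X.factor i₀).E →+* ℂ,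
      slf p ν (Z.X.factor i₀) φ = slf p ν (Z.X.factor i₀) φ' → φ = φ' := by
    intro φ φ' h
    by_contra hne
    exact S.inj φ φ' hne (same_of_slf (Z := Z) ⟨i₀, φ⟩ ⟨i₀, φ'⟩ h)
  choose t ht using fun φ => exists_aut_emb (Z.X.factor i₀) φ0 φ
  have hinj : Function.Injective fun φ => (t φ : ℂ →+* ℂ).comp ψ0 := by
    intro φ φ' h
    have h1 : ∀ φ, slf p ν C.A ((t φ : ℂ →+* ℂ).comp ψ0) = slf p ν (Z.X.factor i₀) φ := by
      intro φ
      nth_rewrite 2 [← ht φ]
      funext τ
      rw [slf_comp, slf_comp, hs0]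
    apply huniq
    rw [← h1, ← h1]
    exact congrArg _ h
  have h1 := Fintype.card_le_of_injective _ hinj
  have h2 := card_emb_le C.A C.sq C.zsq C.mult
  rw [← NumberField.Embeddings.card (Z.X.factor i₀).E ℂ]
  exact h1.trans h2

end

end Pool.Agent.K4H21.TF
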