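import Pool.Agent.K4H21.TF.Stms
import Pool.Agent.H977R3.CM.Aut
import Pool.Agent.W547.UB.Main

/-!
# Piece B: characters
-/

set_option autoImplicit false
set_option linter.unusedSectionVars false

namespace Pool.Agent.K4H21.TF

open NumberField Pool.Agent.H204R3.CM Pool.Agent.W547.KB Pool.Agent.W547.LD Module
  Pool.Agent.W495.TA Pool.Agent.W495.TB Pool.Agent.W495.TC Pool.Agent.TH117.BL Pool.Agent.TH117.F5

noncomputable section

namespace Chr

/-! ### Characters of finite order -/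

/-- An element outside of a subgroup of a free abelian group is detected modulo an integer. -/
theorem exists_mod {W : Type} [Fintype W] (H : AddSubgroup (W → ℤ)) {m₀ : W → ℤ} (h0 : m₀ ∉ H) :
    ∃ (N : ℕ) (y : W → ℤ), 0 < N ∧ (∀ m ∈ H, (N : ℤ) ∣ ∑ w, m w * y w) ∧ ¬ (N : ℤ) ∣ ∑ w, m₀ w * y w := by
  classical
  have h1 : (QuotientAddGroup.mk m₀ : (W → ℤ) ⧸ H) ≠ 0 := by
    intro h
    exact h0 ((QuotientAddGroup.eq_zero_iff m₀).1 h)
  obtain ⟨χ, hχ⟩ := CharacterModule.exists_character_apply_ne_zero_of_ne_zero h1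
  let f : (W → ℤ) →+ AddCircle (1 : ℚ) := (χ : ((W → ℤ) ⧸ H) →+ AddCircle (1 : ℚ)).comp (QuotientAddGroup.mk' H)
  have hf0 : ∀ m ∈ H, f m = 0 := by
    intro m hm
    show χ (QuotientAddGroup.mk m : (W → ℤ) ⧸ H) = 0
    rw [(QuotientAddGroup.eq_zero_iff m).2 hm, map_zero]
  have hf1 : f m₀ ≠ 0 := hχ
  have hx : ∀ s : W, ∃ x : ℚ, ((x : ℚ) : AddCircle (1 : ℚ)) = f (Pi.single s 1) := fun s =>
    QuotientAddGroup.mk_surjective _
  choose x hx using hx
  have key : ∀ m : W → ℤ, ((∑ w, (m w : ℚ) * x w : ℚ) : AddCircle (1 : ℚ)) = f m := by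
    intro m
    have e1 : m = ∑ w, m w • (Pi.single w (1 : ℤ) : W → ℤ) := by
      funext v
      rw [Finset.sum_apply]
      simp [Pi.single_apply]
    have e2 : f m = ∑ w, m w • f (Pi.single w 1) := by
      conv_lhs => rw [e1]
      rw [map_sum]
      exact Finset.sum_congr rfl fun w _ => map_zsmul f _ _
    rw [e2]
    have e3 : ((∑ w, (m w : ℚ) * x w : ℚ) : AddCircle (1 : ℚ)) =
        ∑ w, (((m w : ℚ) * x w : ℚ) : AddCircle (1 : ℚ)) :=
      map_sum (QuotientAddGroup.mk' (AddSubgroup.zmultiples (1 : ℚ))) _ _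
    rw [e3]
    refine Finset.sum_congr rfl fun w _ => ?_
    rw [← hx, ← zsmul_eq_mul]
    rfl
  have hiff : ∀ m : W → ℤ, f m = 0 ↔ ∃ k : ℤ, ∑ w, (m w : ℚ) * x w = k := by
    intro m
    rw [← key, AddCircle.coe_eq_zero_iff]
    constructor
    · rintro ⟨k, hk⟩
      exact ⟨k, by rw [← hk]; simp⟩
    · rintro ⟨k, hk⟩
      exact ⟨k, by rw [hk]; simp⟩
  set N : ℕ := ∏ w, (x w).den with hN
  have hNpos : 0 < N := Finset.prod_pos fun w _ => (x w).den_pos
  have hN0 : (N : ℚ) ≠ 0 := by exact_mod_cast hNpos.ne'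
  have hyex : ∀ w, ∃ y : ℤ, (y : ℚ) = x w * N := by
    intro w
    refine ⟨(x w).num * ∏ v ∈ Finset.univ.erase w, ((x v).den : ℤ), ?_⟩
    have e1 : (N : ℚ) = (x w).den * ∏ v ∈ Finset.univ.erase w, ((x v).den : ℚ) := by
      rw [hN]
      push_cast
      exact (Finset.mul_prod_erase Finset.univ (fun v => ((x v).den : ℚ)) (Finset.mem_univ w)).symm
    rw [e1]
    push_cast
    rw [← mul_assoc, Rat.mul_den_eq_num]
  choose y hy using hyex
  have hsum : ∀ m : W → ℤ, ((∑ w, m w * y w : ℤ) : ℚ) = (∑ w, (m w : ℚ) * x w) * N := by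
    intro m
    push_cast
    rw [Finset.sum_mul]
    exact Finset.sum_congr rfl fun w _ => by rw [hy]; ring
  have hdvd : ∀ m : W → ℤ, (N : ℤ) ∣ ∑ w, m w * y w ↔ f m = 0 := by
    intro m
    rw [hiff]
    constructor
    · rintro ⟨k, hk⟩
      refine ⟨k, ?_⟩
      have h2 := hsum m
      rw [hk] at h2
      push_cast at h2
      have h3 : ((∑ w, (m w : ℚ) * x w) - k) * N = 0 := by linarith
      rcases mul_eq_zero.1 h3 with h4 | h4
      · linarith
      · exact absurd h4 hN0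
    · rintro ⟨k, hk⟩
      refine ⟨k, ?_⟩
      have h2 := hsum m
      rw [hk] at h2
      have h3 : ((∑ w, m w * y w : ℤ) : ℚ) = ((N * k : ℤ) : ℚ) := by
        rw [h2]
        push_cast
        ring
      exact_mod_cast h3
  exact ⟨N, y, hNpos, fun m hm => (hdvd m).2 (hf0 m hm), fun h => hf1 ((hdvd m₀).1 h)⟩

/-! ### Slope functions -/

section slopes

variable {p : ℕ} [Fact p.Prime] {ν : PadicAlgCl p ≃+* ℂ}

/-- Two embeddings are conjugate. -/
theorem exists_tau (A : CMPair) (φ₀ φ : A.E →+* ℂ) : ∃ τ : ℂ ≃+* ℂ, (τ : ℂ →+* ℂ).comp φ₀ = φ := by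
  let X : CMAV := { I := Unit, factor := fun _ => A }
  have : Nonempty X.I := ⟨()⟩
  obtain ⟨L, _, _, _, _, j, hj⟩ := exists_cm X
  obtain ⟨φ₀', h0⟩ := hj () φ₀
  obtain ⟨φ', h1⟩ := hj () φ
  obtain ⟨g, hg⟩ := (setting j A).trans φ₀' φ'
  obtain ⟨τ, hτ⟩ := Pool.Agent.H977R3.CM.exists_aut j (g : L ≃+* L)
  refine ⟨τ, ?_⟩
  ext x
  have h2 : φ₀ x = j (φ₀' x) := (RingHom.congr_fun h0 x).symm
  have h3 : φ x = j (φ' x) := (RingHom.congr_fun h1 x).symm
  change τ (φ₀ x) = φ x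
  rw [h2, h3, hτ, ← hg]
  rfl

theorem slf_comp (A : CMPair) (φ : A.E →+* ℂ) (τ σ : ℂ ≃+* ℂ) :
    slf p ν A ((τ : ℂ →+* ℂ).comp φ) σ = slf p ν A φ (τ.trans σ) := rfl

theorem slf_conj (hslf : S_slf) (A : CMPair) (φ : A.E →+* ℂ) (τ : ℂ ≃+* ℂ) :
    slf p ν A φ τ + slf p ν A (ComplexEmbedding.conjugate φ) τ = 1 := by
  let X : CMAV := { I := Unit, factor := fun _ => A }
  have : Nonempty X.I := ⟨()⟩
  obtain ⟨L, _, _, _, _, j, hj⟩ := exists_cm X
  obtain ⟨φ', h0⟩ := hj () φ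
  have h0' : j.comp φ' = φ := h0
  obtain ⟨g, hg⟩ := Pool.Agent.W547.UB.restrict_aut j τ
  have h1 := hslf p ν L j A φ' τ g (fun x => (hg x).symm)
  have h2 := hslf p ν L j A (cc L • φ') τ g (fun x => (hg x).symm)
  have e : nf (Dec p ν j) (eps j A) (cc L • φ') g = -nf (Dec p ν j) (eps j A) φ' g :=
    congrFun (Pool.Agent.TH117.F5.nn_cc (p := p) (ν := ν) (j := j) A φ') g
  rw [comp_smul_cc, h0', tf_hs, e, Int.cast_neg] at h2
  rw [h0', tf_hs] at h1
  have hD : (0 : ℚ) < Nat.card (Dec p ν j) := by exact_mod_cast Nat.card_pos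
  have h3 : 2 * (Nat.card (Dec p ν j) : ℚ) * (slf p ν A φ τ + slf p ν A (ComplexEmbedding.conjugate φ) τ - 1) = 0 := by
    linear_combination h1 + h2
  rcases mul_eq_zero.1 h3 with h4 | h4
  · exact absurd h4 (by positivity)
  · linarith

theorem eig_ne_zero (Z : RedAV p ν) (w : Emb Z) : eig Z w ≠ 0 := by
  intro h
  have h1 := (Z.frob w.1).weil w.2
  unfold eig at h
  rw [h, norm_zero] at h1
  have hp : (0 : ℝ) < (p : ℝ) ^ Z.a := by
    have : 0 < p := (Fact.out : p.Prime).pos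
    positivity
  norm_num at h1
  linarith

theorem sum_ind {W : Type} [Fintype W] (w : W) (F : W → ℤ) : ∑ v, ind w v * F v = F w := by
  classical
  unfold ind
  rw [Finset.sum_eq_single w]
  · rw [if_pos rfl, one_mul]
  · intro b _ hb
    rw [if_neg hb, zero_mul]
  · intro h
    exact absurd (Finset.mem_univ w) h

theorem prod_ind (Z : RedAV p ν) (w : Emb Z) : ∏ v, eig Z v ^ ind w v = eig Z w := by
  classical
  unfold ind
  rw [Finset.prod_eq_single w]
  · rw [if_pos rfl, zpow_one]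
  · intro b _ hb
    rw [if_neg hb, zpow_zero]
  · intro h
    exact absurd (Finset.mem_univ w) h

/-- Eigenvalues with complementary slopes. -/
theorem pair_mem (hslf : S_slf) (hrel : S_rel) (Z : RedAV p ν) (w w' : Emb Z)
    (h : ∀ τ, slf p ν (Z.X.factor w.1) w.2 τ + slf p ν (Z.X.factor w'.1) w'.2 τ = 1) :
    ind w + ind w' ∈ Gen Z := by
  classical
  have hne : Nonempty Z.X.I := ⟨w.1⟩
  obtain ⟨L, _, _, _, _, j, hj⟩ := exists_cm Z.X
  have hZ : Big Z.X j := hj
  have hfin : Finite (Wt Z.X L) := finite_wt j hZ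
  let _ : Fintype (Wt Z.X L) := Fintype.ofFinite _
  have hbij := toEmb_bijective (j := j) hZ
  obtain ⟨v, hv⟩ := hbij.2 w
  obtain ⟨v', hv'⟩ := hbij.2 w'
  have hD : (0 : ℚ) < Nat.card (Dec p ν j) := by exact_mod_cast Nat.card_pos
  have hrel1 := (hrel p ν L j Z hZ (ind w + ind w')).2 ⟨by
    have h1 : ∑ v, (ind w + ind w') v = 2 := by
      have e1 := sum_ind w (fun _ => (1 : ℤ))
      have e2 := sum_ind w' (fun _ => (1 : ℤ))
      simp only [mul_one] at e1 e2
      simp only [Pi.add_apply, Finset.sum_add_distrib]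
      rw [e1, e2]
      norm_num
    rw [h1]
    exact ⟨1, rfl⟩, by
    intro σ
    obtain ⟨τ, hτ⟩ := Pool.Agent.H977R3.CM.exists_aut j (σ : L ≃+* L)
    have hsum : ∀ (u : Emb Z) (t : Wt Z.X L), toEmb j Z t = u →
        ∑ s : Wt Z.X L, ind u (toEmb j Z s) * tw p ν j Z.X s σ = tw p ν j Z.X t σ := by
      intro u t ht
      rw [Finset.sum_eq_single t]
      · rw [ht]
        unfold ind
        rw [if_pos rfl, one_mul]
      · intro b _ hb
        unfold ind
        rw [if_neg, zero_mul]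
        intro h2
        exact hb (hbij.1 (h2.trans ht.symm))
      · intro h2
        exact absurd (Finset.mem_univ t) h2
    simp only [Pi.add_apply, add_mul, Finset.sum_add_distrib]
    rw [hsum w v hv, hsum w' v' hv']
    have k1 := hslf p ν L j (Z.X.factor v.1) v.2 τ σ (fun x => hτ x)
    have k2 := hslf p ν L j (Z.X.factor v'.1) v'.2 τ σ (fun x => hτ x)
    rw [tf_hs] at k1 k2
    have h3 := h τ
    rw [← hv, ← hv'] at h3
    have h4 : slf p ν (Z.X.factor v.1) (j.comp v.2) τ + slf p ν (Z.X.factor v'.1) (j.comp v'.2) τ = 1 := h3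
    have h5 : ((tw p ν j Z.X v σ + tw p ν j Z.X v' σ : ℤ) : ℚ) = 0 := by
      push_cast
      linear_combination -k1 - k2 + 2 * (Nat.card (Dec p ν j) : ℚ) * h4
    exact_mod_cast h5⟩
  obtain ⟨m, n, hn, h1, h2⟩ := hrel1
  have hm : m = 1 := by
    have e1 := sum_ind w (fun _ => (1 : ℤ))
    have e2 := sum_ind w' (fun _ => (1 : ℤ))
    simp only [mul_one] at e1 e2
    simp only [Pi.add_apply, Finset.sum_add_distrib] at h1
    rw [e1, e2] at h1
    omega
  have h3 : ∏ v, eig Z v ^ (ind w + ind w') v = eig Z w * eig Z w' := by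
    rw [← prod_ind Z w, ← prod_ind Z w', ← Finset.prod_mul_distrib]
    exact Finset.prod_congr rfl fun v _ => by rw [Pi.add_apply, zpow_add₀ (eig_ne_zero Z v)]
  rw [h3, hm, zpow_one] at h2
  exact AddSubgroup.subset_closure (IsGenerator.pair w w' n hn h2)

end slopes

end Chr

theorem chr (hslf : S_slf) (hrel : S_rel) : S_chr := by
  intro p _ ν Z e he
  classical
  obtain ⟨N, yy, hN, h1, h2⟩ := Chr.exists_mod (Gen Z) he
  set sl : Emb Z → (ℂ ≃+* ℂ) → ℚ := fun w => slf p ν (Z.X.factor w.1) w.2 with hsl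
  have hpair : ∀ w w' : Emb Z, (∀ τ, sl w τ + sl w' τ = 1) → (N : ℤ) ∣ yy w + yy w' := by
    intro w w' h
    have h3 := h1 _ (Chr.pair_mem hslf hrel Z w w' h)
    simp only [Pi.add_apply, add_mul, Finset.sum_add_distrib] at h3
    rwa [Chr.sum_ind, Chr.sum_ind] at h3
  let cj : Emb Z → Emb Z := fun w => ⟨w.1, ComplexEmbedding.conjugate w.2⟩
  have hcj : ∀ w τ, sl w τ + sl (cj w) τ = 1 := fun w τ => Chr.slf_conj hslf (Z.X.factor w.1) w.2 τ
  have hyy : ∀ w w' : Emb Z, sl w = sl w' → (N : ℤ) ∣ yy w - yy w' := by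
    intro w w' h
    have h3 := hpair w (cj w) (hcj w)
    have h4 := hpair w' (cj w) (fun τ => by rw [← h]; exact hcj w τ)
    have h5 := dvd_sub h3 h4
    rwa [add_sub_add_right_eq_sub] at h5
  let y : ((ℂ ≃+* ℂ) → ℚ) → ℤ := fun s => if h : ∃ w : Emb Z, sl w = s then yy h.choose else 0
  have hy : ∀ w : Emb Z, (N : ℤ) ∣ y (sl w) - yy w := by
    intro w
    have h : ∃ w' : Emb Z, sl w' = sl w := ⟨w, rfl⟩
    show (N : ℤ) ∣ (if h : ∃ w' : Emb Z, sl w' = sl w then yy h.choose else 0) - yy w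
    rw [dif_pos h]
    exact hyy _ _ h.choose_spec
  have hy0 : ∀ s, (¬ ∃ w : Emb Z, sl w = s) → y s = 0 := fun s h => dif_neg h
  refine ⟨N, y, ⟨hN, ?_, ?_⟩, ?_⟩
  · -- pairs
    intro A A' φ φ' h
    by_cases hex : ∃ w : Emb Z, sl w = slf p ν A φ
    · obtain ⟨w, hw⟩ := hex
      have h3 : slf p ν A' φ' = sl (cj w) := by
        funext τ
        have k1 := h τ
        have k2 := hcj w τ
        rw [hw] at k2
        linarith
      rw [← hw, h3]
      have k3 := hy w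
      have k4 := hy (cj w)
      have k5 := hpair w (cj w) (hcj w)
      have k6 := dvd_add (dvd_add k3 k4) k5
      have e1 : y (sl w) - yy w + (y (sl (cj w)) - yy (cj w)) + (yy w + yy (cj w)) = y (sl w) + y (sl (cj w)) := by ring
      rwa [e1] at k6
    · by_cases hex' : ∃ w : Emb Z, sl w = slf p ν A' φ'
      · exfalso
        obtain ⟨w, hw⟩ := hex'
        apply hex
        refine ⟨cj w, ?_⟩
        funext τ
        have k1 := h τ
        have k2 := hcj w τ
        rw [hw] at k2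
        linarith
      · rw [hy0 _ hex, hy0 _ hex', add_zero]
        exact dvd_zero _
  · -- Weil classes
    intro A δ d z hd hδ hm
    by_cases hex : ∃ φ₀ : A.E →+* ℂ, φ₀ δ = z ∧ ∃ w : Emb Z, sl w = slf p ν A φ₀
    · obtain ⟨φ₀, -, w₀, hw₀⟩ := hex
      choose τ hτ using fun φ : A.E →+* ℂ => Chr.exists_tau A φ₀ φ
      let θ : (A.E →+* ℂ) → Emb Z := fun φ => ⟨w₀.1, ((τ φ : ℂ ≃+* ℂ) : ℂ →+* ℂ).comp w₀.2⟩
      have hθ : ∀ φ, sl (θ φ) = slf p ν A φ := by
        intro φ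
        funext σ
        have k1 : sl (θ φ) σ = sl w₀ ((τ φ).trans σ) := rfl
        have k2 : slf p ν A φ σ = slf p ν A φ₀ ((τ φ).trans σ) := by
          conv_lhs => rw [← hτ φ]
          rfl
        rw [k1, k2, hw₀]
      have hslopes : ∀ φ, HasSlopes p ν A φ Z.a (eig Z (θ φ)) := by
        intro φ σ
        have k1 := (Z.frob (θ φ).1).shimuraTaniyama ((σ : ℂ →+* ℂ).comp (θ φ).2)
        have k2 := congrFun (hθ φ) σ
        have e0 : ((σ : ℂ →+* ℂ).comp (θ φ).2) (Z.π (θ φ).1) = σ (eig Z (θ φ)) := rfl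
        rw [e0] at k1
        have k3 : slf p ν (Z.X.factor (θ φ).1) (θ φ).2 σ = slf p ν A φ σ := k2
        unfold slf at k3
        set x : ℝ := ‖ν.symm (σ (eig Z (θ φ)))‖ with hx
        set q : ℝ := ‖(p : PadicAlgCl p) ^ Z.a‖ with hq
        have c1 : Nat.card {φ' : (Z.X.factor (θ φ).1).E →+* ℂ // SamePlace p ν ((σ : ℂ →+* ℂ).comp (θ φ).2) φ'} ≠ 0 := by
          have : Nonempty {φ' : (Z.X.factor (θ φ).1).E →+* ℂ // SamePlace p ν ((σ : ℂ →+* ℂ).comp (θ φ).2) φ'} :=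
            ⟨⟨(σ : ℂ →+* ℂ).comp (θ φ).2, 1, fun x => (ν.apply_symm_apply _).symm⟩⟩
          exact Nat.card_pos.ne'
        have c2 : Nat.card {φ' : A.E →+* ℂ // SamePlace p ν ((σ : ℂ →+* ℂ).comp φ) φ'} ≠ 0 := by
          have : Nonempty {φ' : A.E →+* ℂ // SamePlace p ν ((σ : ℂ →+* ℂ).comp φ) φ'} :=
            ⟨⟨(σ : ℂ →+* ℂ).comp φ, 1, fun x => (ν.apply_symm_apply _).symm⟩⟩
          exact Nat.card_pos.ne'
        set m₁ := Nat.card {φ' : (Z.X.factor (θ φ).1).E →+* ℂ // SamePlace p ν ((σ : ℂ →+* ℂ).comp (θ φ).2) φ'} with hm₁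
        set n₁ := Nat.card {φ' : (Z.X.factor (θ φ).1).E →+* ℂ // SamePlace p ν ((σ : ℂ →+* ℂ).comp (θ φ).2) φ' ∧
          φ' ∈ (Z.X.factor (θ φ).1).Φ} with hn₁
        set m₂ := Nat.card {φ' : A.E →+* ℂ // SamePlace p ν ((σ : ℂ →+* ℂ).comp φ) φ'} with hm₂
        set n₂ := Nat.card {φ' : A.E →+* ℂ // SamePlace p ν ((σ : ℂ →+* ℂ).comp φ) φ' ∧ φ' ∈ A.Φ} with hn₂
        have c3 : n₁ * m₂ = n₂ * m₁ := by
          rw [div_eq_div_iff (by exact_mod_cast c1) (by exact_mod_cast c2)] at k3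
          exact_mod_cast k3
        have hx0 : 0 ≤ x := norm_nonneg _
        have hq0 : 0 ≤ q := norm_nonneg _
        have k4 : (x ^ m₂) ^ m₁ = (q ^ n₂) ^ m₁ := by
          rw [← pow_mul, ← pow_mul, ← c3, mul_comm m₂ m₁, pow_mul, k1, ← pow_mul]
        exact (pow_left_inj₀ (pow_nonneg hx0 _) (pow_nonneg hq0 _) c1).1 k4
      have hgen := IsGenerator.weil (Z := Z) A δ d hd hδ hm θ hslopes z
      have h3 := h1 _ (AddSubgroup.subset_closure hgen)
      have h4 : ∑ w, (∑ φ : A.E →+* ℂ, if φ δ = z then ind (θ φ) else 0) w * yy w =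
          ∑ φ ∈ Finset.univ.filter (fun φ : A.E →+* ℂ => φ δ = z), yy (θ φ) := by
        rw [Finset.sum_filter]
        simp only [Finset.sum_apply, Finset.sum_mul]
        rw [Finset.sum_comm]
        refine Finset.sum_congr rfl fun φ _ => ?_
        split_ifs with h5
        · exact Chr.sum_ind (θ φ) yy
        · simp
      rw [h4] at h3
      have h5 : ∑ φ ∈ Finset.univ.filter (fun φ : A.E →+* ℂ => φ δ = z), y (slf p ν A φ) =
          ∑ φ ∈ Finset.univ.filter (fun φ : A.E →+* ℂ => φ δ = z), (y (sl (θ φ)) - yy (θ φ)) +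
          ∑ φ ∈ Finset.univ.filter (fun φ : A.E →+* ℂ => φ δ = z), yy (θ φ) := by
        rw [← Finset.sum_add_distrib]
        exact Finset.sum_congr rfl fun φ _ => by rw [hθ]; ring
      rw [h5]
      exact dvd_add (Finset.dvd_sum fun φ _ => hy (θ φ)) h3
    · have h3 : ∑ φ ∈ Finset.univ.filter (fun φ : A.E →+* ℂ => φ δ = z), y (slf p ν A φ) = 0 := by
        refine Finset.sum_eq_zero fun φ hφ => ?_
        apply hy0
        rintro ⟨w, hw⟩
        exact hex ⟨φ, (Finset.mem_filter.1 hφ).2, w, hw⟩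
      rw [h3]
      exact dvd_zero _
  · intro h3
    apply h2
    have h4 : ∑ w, e w * yy w = ∑ w, e w * y (slf p ν (Z.X.factor w.1) w.2) - ∑ w, e w * (y (sl w) - yy w) := by
      rw [← Finset.sum_sub_distrib]
      exact Finset.sum_congr rfl fun w _ => by
        show e w * yy w = e w * y (sl w) - e w * (y (sl w) - yy w)
        ring
    rw [h4]
    exact dvd_sub h3 (Finset.dvd_sum fun w _ => Dvd.dvd.mul_left (hy w) _)

end

end Pool.Agent.K4H21.TF
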