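import Mathlib
import Pool.Agent.K4H21.TF.Stms2
import Pool.Agent.K4H21.TF.PosA
import Pool.Agent.TH117.BL.Main

/-!
# Combinations with trivial function
-/

set_option autoImplicit false
set_option linter.unusedSectionVars false
set_option linter.unusedVariables false

namespace Pool.Agent.K4H21.TF

open NumberField Pool.Agent.H204R3.CM Pool.Agent.W547.KB Pool.Agent.W547.LD Module
  Pool.Agent.W495.TA Pool.Agent.W495.TB Pool.Agent.W495.TC Pool.Agent.TH117.BL
  Pool.Agent.TH117.F5
open scoped TensorProduct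

noncomputable section

namespace Ker

variable {p : ℕ} [Fact p.Prime] {ν : PadicAlgCl p ≃+* ℂ} {L : Type} [Field L] [NumberField L]
  [IsCMField L] [IsGalois ℚ L] {j : L →+* ℂ} {Z : RedAV p ν}

theorem pair_mem (hZ : Big Z.X j) [Fintype (Wt Z.X L)] (w w' : Wt Z.X L)
    (h : tw p ν j Z.X w + tw p ν j Z.X w' = 0) :
    ind (toEmb j Z w) + ind (toEmb j Z w') ∈ Gen Z := by
  classical
  let e : Emb Z → ℕ := fun v => (if v = toEmb j Z w then 1 else 0) +
    (if v = toEmb j Z w' then 1 else 0)
  have hinj := (toEmb_bijective (j := j) hZ).1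
  have h1 : IsRel Z e := by
    rw [isRel_iff hZ]
    intro σ
    have h2 : ∀ v : Wt Z.X L, ((e (toEmb j Z v) : ℕ) : ℤ) * tw p ν j Z.X v σ =
        (if v = w then tw p ν j Z.X v σ else 0) + (if v = w' then tw p ν j Z.X v σ else 0) := by
      intro v
      have h3 : e (toEmb j Z v) = (if v = w then 1 else 0) + (if v = w' then 1 else 0) := by
        simp only [e, hinj.eq_iff]
      rw [h3]
      push_cast
      rw [add_mul, ite_mul, ite_mul, one_mul, zero_mul]
    rw [Finset.sum_congr rfl fun v _ => h2 v, Finset.sum_add_distrib, Finset.sum_ite_eq',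
      Finset.sum_ite_eq', if_pos (Finset.mem_univ _), if_pos (Finset.mem_univ _)]
    exact congrFun h σ
  obtain ⟨s, hs, h3⟩ := h1
  refine AddSubgroup.subset_closure (IsGenerator.pair _ _ (2 * s) (by omega) ?_)
  have e1 : ∏ v, eig Z v ^ e v = eig Z (toEmb j Z w) * eig Z (toEmb j Z w') := by
    simp only [e, pow_add, Finset.prod_mul_distrib, pow_ite, pow_one, pow_zero,
      Finset.prod_ite_eq', Finset.mem_univ, if_true]
  have e2 : ∑ v, e v = 2 := by
    simp only [e, Finset.sum_add_distrib, Finset.sum_ite_eq', Finset.mem_univ, if_true]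
  rw [e1, e2, mul_comm s 2] at h3
  exact h3

theorem super_mem (hZ : Big Z.X j) [Fintype (Wt Z.X L)] (w : Wt Z.X L)
    (h : tw p ν j Z.X w = 0) : ind (toEmb j Z w) ∈ Gen Z := by
  classical
  let e : Emb Z → ℕ := fun v => (if v = toEmb j Z w then 1 else 0)
  have hinj := (toEmb_bijective (j := j) hZ).1
  have h1 : IsRel Z e := by
    rw [isRel_iff hZ]
    intro σ
    have h2 : ∀ v : Wt Z.X L, ((e (toEmb j Z v) : ℕ) : ℤ) * tw p ν j Z.X v σ =
        (if v = w then tw p ν j Z.X v σ else 0) := by
      intro v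
      have h3 : e (toEmb j Z v) = (if v = w then 1 else 0) := by
        simp only [e, hinj.eq_iff]
      rw [h3]
      push_cast
      rw [ite_mul, one_mul, zero_mul]
    rw [Finset.sum_congr rfl fun v _ => h2 v, Finset.sum_ite_eq', if_pos (Finset.mem_univ _)]
    exact congrFun h σ
  obtain ⟨s, hs, h3⟩ := h1
  refine AddSubgroup.subset_closure (IsGenerator.super _ s hs ?_)
  have e1 : ∏ v, eig Z v ^ e v = eig Z (toEmb j Z w) := by
    simp only [e, pow_ite, pow_one, pow_zero, Finset.prod_ite_eq', Finset.mem_univ, if_true]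
  have e2 : ∑ v, e v = 1 := by
    simp only [e, Finset.sum_ite_eq', Finset.mem_univ, if_true]
  rw [e1, e2, mul_one] at h3
  exact h3

/-- Odd functions and combinations without a function. -/
theorem invol {W G A : Type} [Fintype W] [AddCommGroup A] (T : W → G → ℤ) (c : W → W)
    (hcw : ∀ w, T (c w) = -T w) (cl : W → A) (h1 : ∀ w w', T w + T w' = 0 → cl w + cl w' = 0)
    (h0 : ∀ w, T w = 0 → cl w = 0) (e : W → ℤ) (hDD : DD T e = 0) : ∑ w, e w • cl w = 0 := by
  classical
  have h2 : ∀ w w', T w = T w' → cl w = cl w' := by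
    intro w w' h
    have e1 := h1 w (c w') (by rw [hcw, h, add_neg_cancel])
    have e2 := h1 w' (c w') (by rw [hcw, add_neg_cancel])
    exact add_right_cancel (e1.trans e2.symm)
  let ρ : (G → ℤ) → A := fun f => if h : ∃ w, T w = f then cl h.choose else 0
  have hρ : ∀ w, ρ (T w) = cl w := by
    intro w
    have h : ∃ w', T w' = T w := ⟨w, rfl⟩
    have h3 : ρ (T w) = cl h.choose := dif_pos h
    rw [h3]
    exact h2 _ _ h.choose_spec
  have hNdef : ∀ f : G → ℤ, ∃ N : ℤ,
      N = ∑ w ∈ Finset.univ.filter (fun w => T w = f), e w := fun f => ⟨_, rfl⟩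
  choose N hN using hNdef
  have hNN : ∀ f, N f = N (-f) := by
    intro f
    have h3 := congrFun hDD f
    unfold DD at h3
    rw [Pi.zero_apply] at h3
    have h4 : ∀ g : G → ℤ, N g = ∑ w, e w * (if T w = g then 1 else 0) := by
      intro g
      rw [hN, Finset.sum_filter]
      refine Finset.sum_congr rfl fun w _ => ?_
      rw [mul_ite, mul_one, mul_zero]
    rw [← sub_eq_zero, h4, h4, ← Finset.sum_sub_distrib, ← h3]
    refine Finset.sum_congr rfl fun w _ => ?_
    rw [← mul_sub]
    congr!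
  have hsum : ∑ w, e w • cl w = ∑ f ∈ Finset.univ.image T, N f • ρ f := by
    have h3 : ∀ w, e w • cl w = e w • ρ (T w) := by
      intro w
      rw [hρ]
    rw [Finset.sum_congr rfl fun w _ => h3 w,
      ← Finset.sum_fiberwise_of_maps_to (s := Finset.univ) (t := Finset.univ.image T) (g := T)
        (fun w _ => Finset.mem_image_of_mem _ (Finset.mem_univ w))]
    refine Finset.sum_congr rfl fun f _ => ?_
    rw [hN, Finset.sum_smul]
    refine Finset.sum_congr rfl fun w hw => ?_
    rw [(Finset.mem_filter.1 hw).2]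
  rw [hsum]
  refine Finset.sum_involution (fun f _ => -f) ?_ ?_ ?_ ?_
  · intro f hf
    obtain ⟨w, -, rfl⟩ := Finset.mem_image.1 hf
    rw [← hNN (T w), ← smul_add]
    have h3 : ρ (-T w) = cl (c w) := by rw [← hcw, hρ]
    rw [h3, hρ, h1 w (c w) (by rw [hcw, add_neg_cancel]), smul_zero]
  · intro f hf hne h
    apply hne
    obtain ⟨w, -, rfl⟩ := Finset.mem_image.1 hf
    have h3 : T w = 0 := by
      funext σ
      have h4 := congrFun h σ
      rw [Pi.neg_apply] at h4
      rw [Pi.zero_apply]
      omega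
    rw [hρ, h0 w h3, smul_zero]
  · intro f hf
    obtain ⟨w, -, rfl⟩ := Finset.mem_image.1 hf
    rw [← hcw]
    exact Finset.mem_image_of_mem _ (Finset.mem_univ _)
  · intro f _
    exact neg_neg f

end Ker

/-- Piece H. -/
theorem ker_main : S_ker := by
  intro p _ ν Z L _ _ _ _ j hZ _ e hDD
  classical
  let π : (Emb Z → ℤ) →+ (Emb Z → ℤ) ⧸ Gen Z := QuotientAddGroup.mk' (Gen Z)
  have hπ : ∀ x : Emb Z → ℤ, x ∈ Gen Z → π x = 0 := fun x hx =>
    (QuotientAddGroup.eq_zero_iff x).2 hx
  have he : e = ∑ w : Wt Z.X L, e (toEmb j Z w) • ind (toEmb j Z w) := by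
    funext v
    obtain ⟨w0, rfl⟩ := (toEmb_bijective (j := j) hZ).2 v
    rw [Finset.sum_apply, Finset.sum_eq_single w0]
    · change _ = e (toEmb j Z w0) • ind (toEmb j Z w0) (toEmb j Z w0)
      unfold ind
      rw [if_pos rfl, smul_eq_mul, mul_one]
    · intro w _ hw
      change e (toEmb j Z w) • ind (toEmb j Z w) (toEmb j Z w0) = 0
      unfold ind
      rw [if_neg (fun h => hw ((toEmb_bijective (j := j) hZ).1 h).symm), smul_zero]
    · intro h
      exact absurd (Finset.mem_univ _) h
  have key := Ker.invol (tw p ν j Z.X) (cw Z) (fun w => tw_cw w)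
    (fun w => π (ind (toEmb j Z w)))
    (fun w w' h => by
      rw [← map_add]
      exact hπ _ (Ker.pair_mem hZ w w' h))
    (fun w h => hπ _ (Ker.super_mem hZ w h)) (fun w => e (toEmb j Z w)) hDD
  have hzero : π e = 0 := by
    rw [he, map_sum, ← key]
    exact Finset.sum_congr rfl fun w _ => map_zsmul π _ _
  exact (QuotientAddGroup.eq_zero_iff e).1 hzero

end

end Pool.Agent.K4H21.TF
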