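import Mathlib
import Pool.Agent.K4H21.TF.Utl
import Pool.Agent.W67.TA.BasisX
import Pool.Agent.W351.TA.Expand
import Pool.Agent.W495.TA.Final

/-!
# The negative direction: a Tate class which does not belong to the system
-/

set_option autoImplicit false
set_option linter.unusedSectionVars false
set_option linter.unusedVariables false

namespace Pool.Agent.K4H21.TF

open NumberField Pool.Agent.H204R3.CM Pool.Agent.W547.KB Pool.Agent.W547.LD Module
  Pool.Agent.W495.TA Pool.Agent.W495.TB Pool.Agent.W495.TC Pool.Agent.TH117.BL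
open scoped TensorProduct

noncomputable section

variable {p : ℕ} [Fact p.Prime] {ν : PadicAlgCl p ≃+* ℂ}

/-- The complex embeddings of a number field factor through an algebraically closed field. -/
theorem factor_emb {K : Type} [Field K] [CharZero K] [IsAlgClosed K] (j : K →+* ℂ) (E : Type)
    [Field E] [NumberField E] (ψ : E →+* ℂ) : ∃ φ : E →+* K, j.comp φ = ψ := by
  classical
  have h : Function.Bijective (fun φ : E →+* K => j.comp φ) := by
    rw [Fintype.bijective_iff_injective_and_card]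
    refine ⟨fun φ φ' h => ?_, ?_⟩
    · ext x
      exact j.injective (RingHom.congr_fun h x)
    · rw [Embeddings.card, Embeddings.card]
  exact h.2 ψ

section

variable {Ω : Type} [Field Ω] [CharZero Ω] {K : Type} [Field K] [CharZero K] [IsAlgClosed K]

/-- The eigenbasis, for weights with values in an algebraically closed field. -/
theorem basisK (j : K →+* ℂ) (jO : K →+* Ω) (Y : RedAV p ν) :
    ∃ e : Basis (Wt Y.X K) Ω (TM Ω Y), (∀ w, co jO w (e w) = 1) ∧
      ∀ w w', w ≠ w' → co jO w (e w') = 0 := by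
  obtain ⟨L, _, _, _, _, jL, hL⟩ := exists_big Y.X
  obtain ⟨i, hi⟩ := factor_emb j L jL
  obtain ⟨e, h1, h2⟩ := Pool.Agent.W67.TA.basis p ν Ω L jL (jO.comp i) Y hL
  have hbij : Function.Bijective (fun w : Wt Y.X L => (⟨w.1, i.comp w.2⟩ : Wt Y.X K)) := by
    constructor
    · rintro ⟨k, φ⟩ ⟨k', φ'⟩ h
      simp only [Sigma.mk.injEq] at h
      obtain ⟨rfl, h⟩ := h
      have h3 := eq_of_heq h
      congr 1
      ext x
      exact i.injective (RingHom.congr_fun h3 x)
    · rintro ⟨k, φ⟩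
      obtain ⟨φ0, h0⟩ := hL k (j.comp φ)
      refine ⟨⟨k, φ0⟩, ?_⟩
      simp only
      congr 1
      ext x
      apply j.injective
      have h3 := RingHom.congr_fun h0 x
      have h4 := RingHom.congr_fun hi (φ0 x)
      simp only [RingHom.comp_apply] at h3 h4 ⊢
      rw [h4, h3]
  let T : Wt Y.X L ≃ Wt Y.X K := Equiv.ofBijective _ hbij
  have hco : ∀ w : Wt Y.X L, co jO (T w) = co (Y := Y) (jO.comp i) w := fun w => rfl
  refine ⟨e.reindex T, fun w => ?_, fun w w' hw => ?_⟩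
  · obtain ⟨w, rfl⟩ := T.surjective w
    rw [Basis.reindex_apply, T.symm_apply_apply, hco]
    exact h1 w
  · obtain ⟨w, rfl⟩ := T.surjective w
    obtain ⟨w', rfl⟩ := T.surjective w'
    rw [Basis.reindex_apply, T.symm_apply_apply, hco]
    exact h2 w w' fun h => hw (by rw [h])

/-- The operator with given eigenvalues. -/
theorem exists_op (j : K →+* ℂ) (jO : K →+* Ω) (Y : RedAV p ν) (u : Wt Y.X K → Ω)
    (b : Basis (Wt Y.X K) Ω (TM Ω Y)) (h1 : ∀ w, co jO w (b w) = 1)
    (h2 : ∀ w w', w ≠ w' → co jO w (b w') = 0) :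
    ∃ O : TM Ω Y →ₗ[Ω] TM Ω Y, (∀ w, O (b w) = u w • b w) ∧
      ∀ w v, co jO w (O v) = u w * co jO w v := by
  classical
  refine ⟨b.constr Ω fun w => u w • b w, fun w => b.constr_basis Ω _ w, fun w v => ?_⟩
  have h : (co jO w).comp (b.constr Ω fun w => u w • b w) = u w • co jO w := by
    apply b.ext
    intro w'
    rw [LinearMap.comp_apply, b.constr_basis, map_smul, LinearMap.smul_apply, smul_eq_mul,
      smul_eq_mul]
    by_cases hw : w = w'
    · rw [hw]
    · rw [h2 w w' hw, mul_zero, mul_zero]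
  exact LinearMap.congr_fun h v

theorem monoO_self (jO : K →+* Ω) (Y : RedAV p ν)
    (b : Basis (Wt Y.X K) Ω (TM Ω Y)) (h1 : ∀ w, co jO w (b w) = 1)
    (h2 : ∀ w w', w ≠ w' → co jO w (b w') = 0) {κ : Type} [Fintype κ] [DecidableEq κ]
    (I : κ → Wt Y.X K) (hI : Function.Injective I) : monoO jO I (fun k => b (I k)) = 1 := by
  rw [Pool.Agent.W351.TA.monoO_apply, Finset.sum_eq_single 1]
  · simp [h1]
  · intro σ _ hσ
    obtain ⟨k, hk⟩ : ∃ k, σ k ≠ k := by
      by_contra h
      push Not at h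
      exact hσ (Equiv.ext h)
    rw [Finset.prod_eq_zero (Finset.mem_univ k), mul_zero]
    exact h2 _ _ fun h => hk (hI h).symm
  · intro h
    exact absurd (Finset.mem_univ _) h

theorem co_F_pow (jO : K →+* Ω) (Y : RedAV p ν) (w : Wt Y.X K) (s : ℕ) (v : TM Ω Y) :
    co jO w ((F Ω Y ^ s) v) = (jO (w.2 (Y.π w.1))) ^ s * co jO w v := by
  induction s with
  | zero => rw [pow_zero, pow_zero, one_mul]; rfl
  | succ s ih =>
    rw [pow_succ']
    change co jO w (F Ω Y ((F Ω Y ^ s) v)) = _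
    rw [Pool.Agent.W495.TA.co_F, ih, pow_succ]
    ring

theorem monoO_F (jO : K →+* Ω) (Y : RedAV p ν) {κ : Type} [Fintype κ] [DecidableEq κ]
    (I : κ → Wt Y.X K) (s : ℕ) (v : κ → TM Ω Y) :
    monoO jO I (fun k => (F Ω Y ^ s) (v k)) =
      jO (∏ k, (I k).2 (Y.π (I k).1)) ^ s * monoO jO I v := by
  rw [Pool.Agent.W351.TA.monoO_apply, Pool.Agent.W351.TA.monoO_apply, Finset.mul_sum]
  refine Finset.sum_congr rfl fun σ _ => ?_
  simp only [co_F_pow]
  rw [Finset.prod_mul_distrib, Finset.prod_pow, ← map_prod]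
  ring

end

/-- The embeddings with positive exponents, and the complex conjugates of the others. -/
def sg {Z : RedAV p ν} (e : Emb Z → ℤ) (w : Emb Z) : (Z.X.factor w.1).E →+* ℂ :=
  if 0 ≤ e w then w.2 else ComplexEmbedding.conjugate w.2

/-- The indices of the factors of the product. -/
abbrev Ki {Z : RedAV p ν} (e : Emb Z → ℤ) : Type := Σ w : Emb Z, Fin (e w).natAbs

/-- A product of factors of `Z`. -/
def YY (Z : RedAV p ν) (e : Emb Z → ℤ) : RedAV p ν where
  X := ⟨Ki e, fun k => Z.X.factor k.1.1⟩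
  a := Z.a
  pos := Z.pos
  π := fun k => Z.π k.1.1
  frob := fun k => Z.frob k.1.1

theorem pow_sg {Z : RedAV p ν} (e : Emb Z → ℤ) (w : Emb Z) :
    (sg e w (Z.π w.1)) ^ (e w).natAbs = eig Z w ^ (e w) * ((p : ℂ) ^ Z.a) ^ (-(e w)).toNat := by
  unfold sg
  split_ifs with h
  · have h1 : (-(e w)).toNat = 0 := by omega
    rw [h1, pow_zero, mul_one]
    change eig Z w ^ (e w).natAbs = _
    rw [← zpow_natCast]
    congr 1
    omega
  · have h1 : (-(e w)).toNat = (e w).natAbs := by omega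
    rw [h1, ← eig_cj w, mul_pow]
    change (eig Z (cj w)) ^ (e w).natAbs = _
    have h2 : eig Z w ^ (e w) * eig Z w ^ (e w).natAbs = 1 := by
      rw [← zpow_natCast, ← zpow_add₀ (eig_ne w)]
      have h3 : e w + ((e w).natAbs : ℤ) = 0 := by omega
      rw [h3, zpow_zero]
    rw [← mul_assoc, h2, one_mul]

theorem y_sg {N : ℕ} {y : ((ℂ ≃+* ℂ) → ℚ) → ℤ} (hW : Wgt p ν N y) {Z : RedAV p ν}
    (e : Emb Z → ℤ) (w : Emb Z) :
    (N : ℤ) ∣ ((e w).natAbs : ℤ) * y (slf p ν (Z.X.factor w.1) (sg e w)) -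
      e w * y (slf p ν (Z.X.factor w.1) w.2) := by
  unfold sg
  split_ifs with h
  · have h1 : ((e w).natAbs : ℤ) = e w := by omega
    rw [h1, sub_self]
    exact dvd_zero _
  · have h1 : ((e w).natAbs : ℤ) = -e w := by omega
    have h2 := hW.pair (Z.X.factor w.1) (Z.X.factor w.1) w.2 (ComplexEmbedding.conjugate w.2)
      (slf_conj _ _)
    rw [h1]
    have h3 := h2.mul_left (-e w)
    have h4 : -e w * (y (slf p ν (Z.X.factor w.1) w.2) +
        y (slf p ν (Z.X.factor w.1) (ComplexEmbedding.conjugate w.2))) =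
        -e w * y (slf p ν (Z.X.factor w.1) (ComplexEmbedding.conjugate w.2)) -
          e w * y (slf p ν (Z.X.factor w.1) w.2) := by ring
    rwa [h4] at h3

/-- The field of algebraic numbers. -/
theorem exists_K (Ω : Type) [Field Ω] [IsAlgClosed Ω] [CharZero Ω] :
    ∃ (K : Type) (_ : Field K) (_ : CharZero K) (_ : IsAlgClosed K) (_ : Algebra.IsAlgebraic ℚ K)
      (j : K →+* ℂ), Nonempty (K →+* Ω) := by
  have h : Algebra.IsAlgebraic ℚ (AlgebraicClosure ℚ) := by
    have h0 := AlgebraicClosure.isAlgebraic ℚ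
    convert h0 using 1
    · rfl
    · exact Subsingleton.elim _ _
  exact ⟨AlgebraicClosure ℚ, inferInstance, inferInstance, inferInstance, h,
    (IsAlgClosed.lift (R := ℚ) (S := AlgebraicClosure ℚ) (M := ℂ) : AlgebraicClosure ℚ →ₐ[ℚ] ℂ),
    ⟨(IsAlgClosed.lift (R := ℚ) (S := AlgebraicClosure ℚ) (M := Ω) :
      AlgebraicClosure ℚ →ₐ[ℚ] Ω)⟩⟩

theorem zpow_sum_aux {F : Type} [Field F] {ζ : F} (h : ζ ≠ 0) {ι : Type} (s : Finset ι)
    (g : ι → ℤ) : ∏ k ∈ s, ζ ^ g k = ζ ^ ∑ k ∈ s, g k := by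
  classical
  induction s using Finset.induction_on with
  | empty => simp
  | insert a s ha ih => rw [Finset.prod_insert ha, Finset.sum_insert ha, ih, zpow_add₀ h]

theorem neg : S_neg := by
  intro hchr hfix hwt hrel p _ ν Z e he hg Ω _ _ _
  classical
  obtain ⟨N, y, hW, hN⟩ := hchr p ν Z e hg
  obtain ⟨m', n, hn, hsum, hprod⟩ := he
  -- the degree
  set C : ℕ := ∑ w, (-(e w)).toNat with hC
  have hcard : (Fintype.card (Ki e) : ℤ) = 2 * m' + 2 * C := by
    rw [Fintype.card_sigma, ← hsum, hC]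
    simp only [Fintype.card_fin]
    rw [Nat.cast_sum, Nat.cast_sum, Finset.mul_sum, ← Finset.sum_add_distrib]
    refine Finset.sum_congr rfl fun w _ => ?_
    omega
  obtain ⟨m, hm⟩ : ∃ m : ℕ, Fintype.card (Ki e) = 2 * m := by
    have h1 : (2 : ℤ) ∣ (Fintype.card (Ki e) : ℤ) := ⟨m' + C, by rw [hcard]; ring⟩
    have h2 : 2 ∣ Fintype.card (Ki e) := by exact_mod_cast h1
    exact h2
  have hmm : (m : ℤ) = m' + C := by
    rw [hm] at hcard
    push_cast at hcard
    linarith
  let E : Fin (2 * m) ≃ Ki e := (Fintype.equivFinOfCardEq hm).symm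
  -- the product of the eigenvalues
  have hP : (∏ k : Ki e, sg e k.1 (Z.π k.1.1)) ^ n = (((p : ℂ) ^ Z.a) ^ m) ^ n := by
    have h1 : ∏ k : Ki e, sg e k.1 (Z.π k.1.1) =
        (∏ w, eig Z w ^ e w) * ((p : ℂ) ^ Z.a) ^ C := by
      rw [Fintype.prod_sigma, hC, ← Finset.prod_pow_eq_pow_sum, ← Finset.prod_mul_distrib]
      refine Finset.prod_congr rfl fun w _ => ?_
      rw [← pow_sg]
      change ∏ _x : Fin (e w).natAbs, sg e w (Z.π w.1) = _
      rw [Finset.prod_const, Finset.card_univ, Fintype.card_fin]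
    rw [h1, mul_pow, hprod, ← mul_pow]
    have hq := q_ne Z
    generalize (p : ℂ) ^ Z.a = q at hq ⊢
    congr 1
    rw [← zpow_natCast, ← zpow_natCast, ← zpow_add₀ hq, ← hmm]
  -- the fields
  obtain ⟨K, _, _, _, _, j, ⟨jO⟩⟩ := exists_K Ω
  choose ψ hψ using fun k : Ki e => factor_emb j (Z.X.factor k.1.1).E (sg e k.1)
  let I : Fin (2 * m) → Wt (YY Z e).X K := fun k => ⟨E k, ψ (E k)⟩
  have hI : Function.Injective I := fun k k' h => E.injective (congrArg Sigma.fst h)
  refine ⟨YY Z e, n, m, monoO jO I, ?_, hn, ?_, ?_⟩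
  · intro k
    exact ⟨k.1.1, RingHom.id _, 1, 1, one_pos, one_pos, rfl, rfl⟩
  · intro v
    rw [monoO_F]
    congr 1
    have h1 : (∏ k, (I k).2 ((YY Z e).π (I k).1)) ^ n = (((p : K) ^ Z.a) ^ m) ^ n := by
      apply j.injective
      rw [map_pow, map_prod, map_pow, map_pow, map_pow, map_natCast, ← hP]
      congr 1
      rw [← Equiv.prod_comp E]
      refine Finset.prod_congr rfl fun k _ => ?_
      exact RingHom.congr_fun (hψ (E k)) _
    rw [← map_pow, h1, map_pow, map_pow, map_pow, map_natCast, ← pow_mul]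
    rfl
  · intro halg
    have hN0 : NeZero N := ⟨hW.pos.ne'⟩
    have hNΩ : NeZero (N : Ω) := ⟨by exact_mod_cast hW.pos.ne'⟩
    obtain ⟨ζ, hζ⟩ := HasEnoughRootsOfUnity.exists_primitiveRoot Ω N
    obtain ⟨b, h1, h2⟩ := basisK (Ω := Ω) j jO (YY Z e)
    let yy : Wt (YY Z e).X K → ℤ := fun w => y (slf p ν ((YY Z e).X.factor w.1) (j.comp w.2))
    obtain ⟨O, hO, hO2⟩ := exists_op j jO (YY Z e) (fun w => ζ ^ yy w) b h1 h2
    have h3 := hfix hwt p ν N y hW Ω K j jO ζ hζ.pow_eq_one (YY Z e) (Fin (2 * m)) (monoO jO I)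
      halg O hO2 (fun k => b (I k))
    simp only [hO] at h3
    rw [AlternatingMap.map_smul_univ, monoO_self jO (YY Z e) b h1 h2 I hI, smul_eq_mul,
      mul_one] at h3
    have h4 : ζ ^ (∑ k, yy (I k)) = 1 := by
      rw [← h3]
      have hζ0 : ζ ≠ 0 := hζ.ne_zero hW.pos.ne'
      exact (zpow_sum_aux hζ0 _ _).symm
    have h5 := (hζ.zpow_eq_one_iff_dvd _).1 h4
    apply hN
    have h6 : ∑ k, yy (I k) = ∑ w, ((e w).natAbs : ℤ) * y (slf p ν (Z.X.factor w.1) (sg e w)) := by
      have h7 : ∀ k, yy (I k) = y (slf p ν (Z.X.factor (E k).1.1) (sg e (E k).1)) := by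
        intro k
        change y (slf p ν (Z.X.factor (E k).1.1) (j.comp (ψ (E k)))) = _
        rw [hψ]
      rw [Finset.sum_congr rfl fun k _ => h7 k, Equiv.sum_comp E
        (fun k : Ki e => y (slf p ν (Z.X.factor k.1.1) (sg e k.1))), Fintype.sum_sigma]
      simp
    rw [h6] at h5
    have h8 := Finset.dvd_sum (s := Finset.univ) fun w _ => y_sg hW e w
    rw [Finset.sum_sub_distrib] at h8
    exact (dvd_sub_right h5).1 h8

end

end Pool.Agent.K4H21.TF
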