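import Mathlib
import Pool.Agent.K4H21.TF.Stms3
import Pool.Agent.K4H21.TF.NumT
import Pool.Agent.TH117.BL.Main

/-!
# The rank of the relations in the simple case
-/

set_option autoImplicit false
set_option linter.unusedSectionVars false
set_option linter.unusedVariables false

namespace Pool.Agent.K4H21.TF

open NumberField Pool.Agent.H204R3.CM Pool.Agent.W547.KB Pool.Agent.W547.LD Module
  Pool.Agent.W495.TA Pool.Agent.W495.TB Pool.Agent.W495.TC Pool.Agent.TH117.BL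
  Pool.Agent.TH117.F5
open Pool.Agent.K4H21.LC (rr rr_spec rr_surj)
open scoped TensorProduct

noncomputable section

namespace OneT

variable {p : ℕ} [Fact p.Prime] {ν : PadicAlgCl p ≃+* ℂ} {L : Type} [Field L] [NumberField L]
  [IsCMField L] [IsGalois ℚ L] {j : L →+* ℂ} {Z : RedAV p ν}

theorem tw_zero (hZ : Big Z.X j) (w : Wt Z.X L) (h : IsSuper Z (toEmb j Z w)) :
    tw p ν j Z.X w = 0 := by
  classical
  have := finite_wt j hZ
  let _ : Fintype (Wt Z.X L) := Fintype.ofFinite _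
  obtain ⟨n, hn, hw⟩ := h
  let e : Emb Z → ℕ := fun v => (if v = toEmb j Z w then 1 else 0)
  have hinj := (toEmb_bijective (j := j) hZ).1
  have h1 : IsRel Z e := by
    refine ⟨n, hn, ?_⟩
    have e1 : ∏ v, eig Z v ^ e v = eig Z (toEmb j Z w) := by
      simp only [e, pow_ite, pow_one, pow_zero, Finset.prod_ite_eq', Finset.mem_univ, if_true]
    have e2 : ∑ v, e v = 1 := by
      simp only [e, Finset.sum_ite_eq', Finset.mem_univ, if_true]
    rw [e1, e2, hw, mul_one]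
  funext σ
  have h2 := (isRel_iff hZ e).1 h1 σ
  have h3 : ∀ v : Wt Z.X L, ((e (toEmb j Z v) : ℕ) : ℤ) * tw p ν j Z.X v σ =
      (if v = w then tw p ν j Z.X v σ else 0) := by
    intro v
    have h4 : e (toEmb j Z v) = (if v = w then 1 else 0) := by
      simp only [e, hinj.eq_iff]
    rw [h4]
    push_cast
    rw [ite_mul, one_mul, zero_mul]
  rw [Finset.sum_congr rfl fun v _ => h3 v, Finset.sum_ite_eq', if_pos (Finset.mem_univ _)] at h2
  exact h2

theorem toEmb_cw (v : Wt Z.X L) : toEmb j Z (cw Z v) = cj (toEmb j Z v) := by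
  obtain ⟨i, φ⟩ := v
  unfold toEmb cw cj
  simp only
  rw [comp_smul_cc]

/-- The function of an eigenvalue. -/
def fT (hZ : Big Z.X j) (w : Emb Z) : TB p ν j :=
  ⟨tw p ν j Z.X ((Equiv.ofBijective _ (toEmb_bijective (j := j) hZ)).symm w), by
    have h := mem_FB (p := p) (ν := ν) j
      (hs (Z.X.factor ((Equiv.ofBijective _ (toEmb_bijective (j := j) hZ)).symm w).1) j
        ((Equiv.ofBijective _ (toEmb_bijective (j := j) hZ)).symm w).2)
    rw [tf_hs] at h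
    exact h⟩

theorem fT_toEmb (hZ : Big Z.X j) (w : Wt Z.X L) :
    (fT hZ (toEmb j Z w)).1 = tw p ν j Z.X w := by
  unfold fT
  simp only
  congr 1
  exact (Equiv.ofBijective _ (toEmb_bijective (j := j) hZ)).symm_apply_apply w

theorem fT_cj (hZ : Big Z.X j) (w : Emb Z) : (fT hZ (cj w)).1 = -(fT hZ w).1 := by
  obtain ⟨v, rfl⟩ := (toEmb_bijective (j := j) hZ).2 w
  rw [← toEmb_cw, fT_toEmb, fT_toEmb, tw_cw]

theorem fT_super (hZ : Big Z.X j) (w : Emb Z) (h : IsSuper Z w) : (fT hZ w).1 = 0 := by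
  obtain ⟨v, rfl⟩ := (toEmb_bijective (j := j) hZ).2 w
  rw [fT_toEmb]
  exact tw_zero hZ v h

theorem same_of_fT (hZ : Big Z.X j) (w w' : Emb Z) (h : fT hZ w = fT hZ w') : SameEig Z w w' := by
  obtain ⟨v, rfl⟩ := (toEmb_bijective (j := j) hZ).2 w
  obtain ⟨v', rfl⟩ := (toEmb_bijective (j := j) hZ).2 w'
  have h1 := congrArg Subtype.val h
  rw [fT_toEmb, fT_toEmb] at h1
  refine sameEig_of_slf _ _ ?_
  refine (slf_eq_iff j (Z.X.factor v.1) (Z.X.factor v'.1) v.2 v'.2).2 ?_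
  rw [tf_hs, tf_hs]
  exact h1

section

variable {i₀ : Z.X.I}

/-- The relation of an odd relation between the functions. -/
def eA (hZ : Big Z.X j) (i₀ : Z.X.I) (a : TB p ν j → ℤ) : Emb Z → ℤ := by
  classical
  exact fun w => if w.1 = i₀ then a (fT hZ w) else 0

theorem eA_pos (hZ : Big Z.X j) (a : TB p ν j → ℤ) (φ : (Z.X.factor i₀).E →+* ℂ) :
    eA hZ i₀ a ⟨i₀, φ⟩ = a (fT hZ ⟨i₀, φ⟩) := by
  unfold eA
  exact if_pos rfl

theorem odd_zero {a : TB p ν j → ℤ} (ha : ∀ f f' : TB p ν j, f'.1 = -f.1 → a f' = -a f)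
    (f : TB p ν j) (hf : f.1 = 0) : a f = 0 := by
  have h := ha f f (by rw [hf, neg_zero])
  omega

theorem supp {a : TB p ν j → ℤ} (hZ : Big Z.X j) (hS : SimpleTimesSuper Z i₀)
    (ha : a ∈ LamT j Z) (f : TB p ν j) (hf : a f ≠ 0) :
    ∃ φ : (Z.X.factor i₀).E →+* ℂ, f = fT hZ ⟨i₀, φ⟩ := by
  obtain ⟨w, hw⟩ := ha.1 f hf
  by_cases h1 : w.1 = i₀
  · obtain ⟨i, ψ⟩ := w
    dsimp only at h1
    subst h1
    refine ⟨j.comp ψ, Subtype.ext ?_⟩
    rw [← hw]
    exact (fT_toEmb hZ ⟨i, ψ⟩).symm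
  · exfalso
    apply hf
    refine odd_zero ha.2.1 f ?_
    rw [← hw]
    exact tw_zero hZ w (hS.other (toEmb j Z w) h1)

theorem fT_inj (hZ : Big Z.X j) (hS : SimpleTimesSuper Z i₀) {φ φ' : (Z.X.factor i₀).E →+* ℂ}
    (h : fT hZ ⟨i₀, φ⟩ = fT hZ ⟨i₀, φ'⟩) : φ = φ' := by
  by_contra hne
  exact hS.inj φ φ' hne (same_of_fT hZ _ _ h)

/-- Sums over the functions. -/
theorem sum_fT (hZ : Big Z.X j) (hS : SimpleTimesSuper Z i₀) (c : TB p ν j → ℤ)
    (hc : ∀ f, c f ≠ 0 → ∃ φ : (Z.X.factor i₀).E →+* ℂ, f = fT hZ ⟨i₀, φ⟩)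
    (g : TB p ν j → ℤ) : ∑ f, c f * g f =
      ∑ φ : (Z.X.factor i₀).E →+* ℂ, c (fT hZ ⟨i₀, φ⟩) * g (fT hZ ⟨i₀, φ⟩) := by
  classical
  have hinj : Function.Injective fun φ : (Z.X.factor i₀).E →+* ℂ => fT hZ ⟨i₀, φ⟩ :=
    fun φ φ' h => fT_inj hZ hS h
  rw [← Finset.sum_image (f := fun f => c f * g f)
    (g := fun φ : (Z.X.factor i₀).E →+* ℂ => fT hZ ⟨i₀, φ⟩) (fun x _ y _ h => hinj h)]
  symm
  refine Finset.sum_subset (Finset.subset_univ _) fun f _ hf => ?_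
  have h1 : c f = 0 := by
    by_contra hne
    obtain ⟨φ, rfl⟩ := hc f hne
    exact hf (Finset.mem_image_of_mem _ (Finset.mem_univ φ))
  rw [h1, zero_mul]

theorem rel_eA (hZ : Big Z.X j) (hS : SimpleTimesSuper Z i₀) {a : TB p ν j → ℤ}
    (ha : a ∈ LamT j Z) : IsRelation Z (eA hZ i₀ a) := by
  classical
  have := finite_wt j hZ
  let _ : Fintype (Wt Z.X L) := Fintype.ofFinite _
  refine (rel_main p ν L j Z hZ (eA hZ i₀ a)).2 ⟨?_, fun σ => ?_⟩
  · have h1 : ∑ w, eA hZ i₀ a w = 0 := by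
      have h2 : ∀ w : Emb Z, eA hZ i₀ a (cj w) = -eA hZ i₀ a w := by
        intro w
        unfold eA
        have h3 : (cj w).1 = w.1 := rfl
        by_cases h4 : w.1 = i₀
        · simp only [h3, h4, if_true]
          exact ha.2.1 _ _ (fT_cj hZ w)
        · simp only [h3, h4, if_false, neg_zero]
      have h5 : ∑ w, eA hZ i₀ a (cj w) = ∑ w, eA hZ i₀ a w :=
        Equiv.sum_comp (⟨cj, cj, cj_cj, cj_cj⟩ : Emb Z ≃ Emb Z) (eA hZ i₀ a)
      rw [Finset.sum_congr rfl fun w _ => h2 w, Finset.sum_neg_distrib] at h5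
      omega
    rw [h1]
    exact Even.zero
  · let E : Wt Z.X L ≃ Emb Z := Equiv.ofBijective _ (toEmb_bijective (j := j) hZ)
    have h1 : ∑ w : Wt Z.X L, eA hZ i₀ a (toEmb j Z w) * tw p ν j Z.X w σ =
        ∑ w : Emb Z, eA hZ i₀ a w * (fT hZ w).1 σ := by
      rw [← Equiv.sum_comp E]
      refine Finset.sum_congr rfl fun w _ => ?_
      change _ = eA hZ i₀ a (toEmb j Z w) * (fT hZ (toEmb j Z w)).1 σ
      rw [fT_toEmb]
    rw [h1, Fintype.sum_sigma, Finset.sum_eq_single i₀]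
    · have h2 := ha.2.2 σ
      rw [sum_fT hZ hS a (fun f hf => supp hZ hS ha f hf) (fun f => f.1 σ)] at h2
      rw [← h2]
      refine Finset.sum_congr rfl fun φ _ => ?_
      rw [eA_pos]
    · intro i _ hi
      refine Finset.sum_eq_zero fun φ _ => ?_
      unfold eA
      rw [if_neg hi, zero_mul]
    · intro h
      exact absurd (Finset.mem_univ _) h

theorem fT_slf (hZ : Big Z.X j) (φ : (Z.X.factor i₀).E →+* ℂ) (τ : ℂ ≃+* ℂ) :
    (((fT hZ ⟨i₀, φ⟩).1 (rr j τ) : ℤ) : ℚ) =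
      (Nat.card (Dec p ν j) : ℚ) * (2 * slf p ν (Z.X.factor i₀) φ τ - 1) := by
  obtain ⟨ψ, rfl⟩ := hZ i₀ φ
  have h1 := slf_rr (p := p) (ν := ν) j (Z.X.factor i₀) ψ τ
  have h2 : (fT hZ ⟨i₀, j.comp ψ⟩).1 = tf p ν j (hs (Z.X.factor i₀) j ψ) := by
    rw [tf_hs]
    exact fT_toEmb hZ ⟨i₀, ψ⟩
  rw [h2]
  linarith

end

end OneT

open OneT in
/-- Piece L. -/
theorem one_main (hrk : S_rk) : S_one := by
  intro p _ ν Z i₀ hS
  classical
  obtain ⟨L, _, _, _, _, j, hZ⟩ := exists_big Z.X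
  have hr := hrk p ν Z L j hZ
  refine ⟨fun C => ?_, fun hne => ?_⟩
  · obtain ⟨φs⟩ : Nonempty ((Z.X.factor i₀).E →+* ℂ) := inferInstance
    -- the element
    let a0 : TB p ν j → ℤ := fun f => if h : ∃ φ, f = fT hZ ⟨i₀, φ⟩ then C.ω h.choose else 0
    have ha0 : ∀ φ, a0 (fT hZ ⟨i₀, φ⟩) = C.ω φ := by
      intro φ
      have h : ∃ φ', fT hZ ⟨i₀, φ⟩ = fT hZ ⟨i₀, φ'⟩ := ⟨φ, rfl⟩
      have h1 : a0 (fT hZ ⟨i₀, φ⟩) = C.ω h.choose := dif_pos h
      rw [h1, ← fT_inj hZ hS h.choose_spec]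
    have ha0' : ∀ f, a0 f ≠ 0 → ∃ φ, f = fT hZ ⟨i₀, φ⟩ := by
      intro f hf
      by_contra hcon
      exact hf (dif_neg hcon)
    have hconj : ∀ φ, C.ω (ComplexEmbedding.conjugate φ) = -C.ω φ := by
      intro φ
      have h1 := C.equiv starRingAut φ
      have h2 : ((starRingAut : ℂ ≃+* ℂ) : ℂ →+* ℂ).comp φ = ComplexEmbedding.conjugate φ := rfl
      rw [h2] at h1
      rw [h1, if_neg]
      intro h3
      obtain ⟨r, hr'⟩ := Complex.conj_eq_iff_real.1 h3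
      have h4 := C.zsq
      rw [hr'] at h4
      have h5 : r * r = -(C.d : ℝ) := by exact_mod_cast h4
      have h6 : (0 : ℝ) < C.d := by exact_mod_cast C.pos
      nlinarith [mul_self_nonneg r]
    have hmem : a0 ∈ LamT j Z := by
      refine ⟨fun f hf => ?_, fun f f' h => ?_, fun σ => ?_⟩
      · obtain ⟨φ, rfl⟩ := ha0' f hf
        exact ⟨_, rfl⟩
      · by_cases h1 : ∃ φ, f = fT hZ ⟨i₀, φ⟩
        · obtain ⟨φ, rfl⟩ := h1
          have h2 : f' = fT hZ ⟨i₀, ComplexEmbedding.conjugate φ⟩ := by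
            refine Subtype.ext ?_
            rw [h]
            exact (fT_cj hZ ⟨i₀, φ⟩).symm
          rw [h2, ha0, ha0, hconj]
        · have h2 : ¬ ∃ φ, f' = fT hZ ⟨i₀, φ⟩ := by
            rintro ⟨φ, hφ⟩
            apply h1
            refine ⟨ComplexEmbedding.conjugate φ, Subtype.ext ?_⟩
            have h3 := fT_cj hZ ⟨i₀, φ⟩
            rw [← hφ, h, neg_neg] at h3
            exact h3.symm
          have e1 : a0 f = 0 := dif_neg h1
          have e2 : a0 f' = 0 := dif_neg h2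
          rw [e1, e2, neg_zero]
      · rw [sum_fT hZ hS a0 ha0' (fun f => f.1 σ)]
        obtain ⟨τ, rfl⟩ := rr_surj j σ
        have h1 : ((∑ φ : (Z.X.factor i₀).E →+* ℂ, a0 (fT hZ ⟨i₀, φ⟩) *
            (fT hZ ⟨i₀, φ⟩).1 (rr j τ) : ℤ) : ℚ) = 0 := by
          push_cast
          have h2 := C.rel τ
          have h3 : ∀ φ : (Z.X.factor i₀).E →+* ℂ, ((a0 (fT hZ ⟨i₀, φ⟩) : ℤ) : ℚ) *
              (((fT hZ ⟨i₀, φ⟩).1 (rr j τ) : ℤ) : ℚ) = (Nat.card (Dec p ν j) : ℚ) *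
                ((C.ω φ : ℚ) * (2 * slf p ν (Z.X.factor i₀) φ τ - 1)) := by
            intro φ
            rw [ha0, fT_slf]
            ring
          rw [Finset.sum_congr rfl fun φ _ => h3 φ, ← Finset.mul_sum, h2, mul_zero]
        exact_mod_cast h1
    have hle : finrank ℤ (LamT j Z) ≤ 1 := by
      let ev : LamT j Z →ₗ[ℤ] ℤ := (LinearMap.proj (fT hZ ⟨i₀, φs⟩)).comp (LamT j Z).subtype
      have hev : Function.Injective ev := by
        rw [← LinearMap.ker_eq_bot, LinearMap.ker_eq_bot']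
        intro a ha
        have ha' : a.1 (fT hZ ⟨i₀, φs⟩) = 0 := ha
        obtain ⟨k, hk⟩ := C.all _ (rel_eA hZ hS a.2)
        have h2 : ∀ φ, 2 * a.1 (fT hZ ⟨i₀, φ⟩) = k * C.ω φ := by
          intro φ
          have h7 : a.1 (fT hZ ⟨i₀, ComplexEmbedding.conjugate φ⟩) = -a.1 (fT hZ ⟨i₀, φ⟩) :=
            a.2.2.1 _ _ (fT_cj hZ ⟨i₀, φ⟩)
          rw [← hk φ, eA_pos, eA_pos, h7]
          ring
        have h3 : k = 0 := by
          have h4 := h2 φs
          rw [ha', mul_zero] at h4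
          rcases C.val φs with h5 | h5
          · rw [h5] at h4
            omega
          · rw [h5] at h4
            omega
        refine Subtype.ext (funext fun f => ?_)
        by_contra hf
        obtain ⟨φ, rfl⟩ := supp hZ hS a.2 f hf
        apply hf
        have h4 := h2 φ
        rw [h3, zero_mul] at h4
        change a.1 (fT hZ ⟨i₀, φ⟩) = 0
        omega
      have h1 := LinearMap.finrank_le_finrank_of_injective hev
      rwa [finrank_self] at h1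
    have hpos : 0 < finrank ℤ (LamT j Z) := by
      rw [Module.finrank_pos_iff_exists_ne_zero]
      refine ⟨⟨a0, hmem⟩, fun h => ?_⟩
      have h1 : a0 (fT hZ ⟨i₀, φs⟩) = 0 := congrFun (congrArg Subtype.val h) _
      rw [ha0] at h1
      rcases C.val φs with h5 | h5 <;> omega
    omega
  · have h1 : finrank ℤ (LamT j Z) ≠ 0 := by
      intro h
      rw [h, zero_add] at hr
      exact hne hr
    obtain ⟨a, ha⟩ : ∃ a : LamT j Z, a ≠ 0 :=
      Module.finrank_pos_iff_exists_ne_zero.1 (Nat.pos_of_ne_zero h1)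
    obtain ⟨f, hf⟩ : ∃ f, a.1 f ≠ 0 := by
      by_contra hcon
      push Not at hcon
      exact ha (Subtype.ext (funext hcon))
    obtain ⟨φ, rfl⟩ := supp hZ hS a.2 f hf
    refine ⟨eA hZ i₀ a.1, φ, rel_eA hZ hS a.2, ?_⟩
    have h7 : a.1 (fT hZ ⟨i₀, ComplexEmbedding.conjugate φ⟩) = -a.1 (fT hZ ⟨i₀, φ⟩) :=
      a.2.2.1 _ _ (fT_cj hZ ⟨i₀, φ⟩)
    rw [eA_pos, eA_pos, h7]
    intro h
    apply hf
    omega

end

end Pool.Agent.K4H21.TF
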