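import Mathlib
import Pool.Agent.K4H21.TF.Stms
import Pool.Agent.W67.TA.BasisX

/-!
# The operators attached to systems of weights: slopes, eigenbasis
-/

set_option autoImplicit false
set_option linter.unusedSectionVars false
set_option linter.unusedVariables false

namespace Pool.Agent.K4H21.TF.OP

open NumberField Pool.Agent.H204R3.CM Pool.Agent.W547.KB Pool.Agent.W547.LD Module
  Pool.Agent.W495.TA Pool.Agent.W495.TB Pool.Agent.W495.TC Pool.Agent.TH117.BL
open scoped TensorProduct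

noncomputable section

section slopes

variable {p : ℕ} [Fact p.Prime] {ν : PadicAlgCl p ≃+* ℂ}

theorem nrm_pos : 0 < ‖(p : PadicAlgCl p)‖ := by
  rw [norm_pos_iff]
  exact Nat.cast_ne_zero.2 (Fact.out : p.Prime).ne_zero

theorem nrm_lt : ‖(p : PadicAlgCl p)‖ < 1 := by
  have h : ((p : ℚ_[p]) : PadicAlgCl p) = (p : PadicAlgCl p) := by
    exact map_natCast (algebraMap ℚ_[p] (PadicAlgCl p)) p
  rw [← h, PadicAlgCl.norm_extends]
  exact Padic.norm_p_lt_one

theorem log_p_ne : Real.log ‖(p : PadicAlgCl p)‖ ≠ 0 :=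
  (Real.log_neg nrm_pos nrm_lt).ne

theorem log_slf {A : CMPair} {a : ℕ} {π : A.E} (hπ : IsFrobenius p ν A a π) (φ : A.E →+* ℂ)
    (τ : ℂ ≃+* ℂ) : Real.log ‖ν.symm (τ (φ π))‖ =
      (slf p ν A φ τ : ℝ) * (a * Real.log ‖(p : PadicAlgCl p)‖) := by
  have h := hπ.shimuraTaniyama ((τ : ℂ →+* ℂ).comp φ)
  have h1 := congrArg Real.log h
  rw [Real.log_pow, Real.log_pow, norm_pow, Real.log_pow] at h1
  unfold slf
  set m := Nat.card {φ' : A.E →+* ℂ // SamePlace p ν ((τ : ℂ →+* ℂ).comp φ) φ'} with hm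
  set n := Nat.card {φ' : A.E →+* ℂ //
    SamePlace p ν ((τ : ℂ →+* ℂ).comp φ) φ' ∧ φ' ∈ A.Φ} with hn
  have hm0 : (m : ℝ) ≠ 0 := by
    have h6 : 0 < m := by
      rw [hm]
      exact Nat.card_pos_iff.2
        ⟨⟨⟨(τ : ℂ →+* ℂ).comp φ, 1, fun x => (ν.apply_symm_apply _).symm⟩⟩, Subtype.finite⟩
    exact_mod_cast h6.ne'
  have h2 : (m : ℝ) * Real.log ‖ν.symm (τ (φ π))‖ =
      n * (a * Real.log ‖(p : PadicAlgCl p)‖) := h1
  push_cast
  rw [div_mul_eq_mul_div, eq_div_iff hm0, mul_comm, h2]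

theorem slf_eq {A A' : CMPair} {a a' : ℕ} {π : A.E} {π' : A'.E} (hπ : IsFrobenius p ν A a π)
    (hπ' : IsFrobenius p ν A' a' π') (φ : A.E →+* ℂ) (φ' : A'.E →+* ℂ) {s t : ℕ} (hs : 0 < s)
    (ha : 0 < a) (hst : a * s = a' * t) (h : (φ π) ^ s = (φ' π') ^ t) :
    slf p ν A φ = slf p ν A' φ' := by
  funext τ
  have h1 := log_slf hπ φ τ
  have h2 := log_slf hπ' φ' τ
  have h3 : (s : ℝ) * Real.log ‖ν.symm (τ (φ π))‖ = t * Real.log ‖ν.symm (τ (φ' π'))‖ := by
    have e1 : ν.symm (τ (φ π)) ^ s = ν.symm (τ (φ' π')) ^ t := by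
      rw [← map_pow ν.symm, ← map_pow τ, h, map_pow τ, map_pow ν.symm]
    rw [← Real.log_pow, ← Real.log_pow, ← norm_pow, ← norm_pow, e1]
  rw [h1, h2] at h3
  have h4 : ((a : ℝ) * s) * Real.log ‖(p : PadicAlgCl p)‖ ≠ 0 :=
    mul_ne_zero (by positivity) log_p_ne
  have h5 : (a : ℝ) * s = a' * t := by exact_mod_cast hst
  have h6 : (slf p ν A φ τ : ℝ) * (((a : ℝ) * s) * Real.log ‖(p : PadicAlgCl p)‖) =
      (slf p ν A' φ' τ : ℝ) * (((a : ℝ) * s) * Real.log ‖(p : PadicAlgCl p)‖) := by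
    nth_rewrite 2 [h5]
    linarith
  exact_mod_cast mul_right_cancel₀ h4 h6

theorem slf_add {A A' : CMPair} {a : ℕ} {π : A.E} {π' : A'.E} (hπ : IsFrobenius p ν A a π)
    (hπ' : IsFrobenius p ν A' a π') (φ : A.E →+* ℂ) (φ' : A'.E →+* ℂ) {s : ℕ} (hs : 0 < s)
    (ha : 0 < a) (h : (φ π * φ' π') ^ s = ((p : ℂ) ^ a) ^ s) (τ : ℂ ≃+* ℂ) :
    slf p ν A φ τ + slf p ν A' φ' τ = 1 := by
  have h1 := log_slf hπ φ τ
  have h2 := log_slf hπ' φ' τ
  have hne : ∀ {B : CMPair} {ϖ : B.E}, IsFrobenius p ν B a ϖ → ∀ ψ : B.E →+* ℂ,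
      ‖ν.symm (τ (ψ ϖ))‖ ≠ 0 := by
    intro B ϖ hϖ ψ h0
    rw [norm_eq_zero, map_eq_zero_iff _ ν.symm.injective, map_eq_zero_iff _ τ.injective] at h0
    have h3 := hϖ.weil ψ
    rw [h0, norm_zero] at h3
    have h4 : (0 : ℝ) < (p : ℝ) ^ a := pow_pos (by exact_mod_cast (Fact.out : p.Prime).pos) _
    rw [← h3] at h4
    norm_num at h4
  have h3 : (s : ℝ) * (Real.log ‖ν.symm (τ (φ π))‖ + Real.log ‖ν.symm (τ (φ' π'))‖) =
      s * (a * Real.log ‖(p : PadicAlgCl p)‖) := by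
    rw [← Real.log_mul (hne hπ φ) (hne hπ' φ'), ← norm_mul, ← map_mul, ← map_mul,
      ← Real.log_pow, ← norm_pow, ← map_pow, ← map_pow, h, map_pow, map_pow, map_pow, map_pow,
      map_natCast, map_natCast, norm_pow, Real.log_pow, norm_pow, Real.log_pow]
  rw [h1, h2] at h3
  have h4 : (s : ℝ) * ((a : ℝ) * Real.log ‖(p : PadicAlgCl p)‖) ≠ 0 :=
    mul_ne_zero (by positivity) (mul_ne_zero (by positivity) log_p_ne)
  have h6 : ((slf p ν A φ τ : ℝ) + (slf p ν A' φ' τ : ℝ)) *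
      ((s : ℝ) * ((a : ℝ) * Real.log ‖(p : PadicAlgCl p)‖)) =
      1 * ((s : ℝ) * ((a : ℝ) * Real.log ‖(p : PadicAlgCl p)‖)) := by
    linarith
  exact_mod_cast mul_right_cancel₀ h4 h6

theorem slf_conj {A : CMPair} {a : ℕ} {π : A.E} (hπ : IsFrobenius p ν A a π)
    (φ : A.E →+* ℂ) (ha : 0 < a) (τ : ℂ ≃+* ℂ) :
    slf p ν A φ τ + slf p ν A (ComplexEmbedding.conjugate φ) τ = 1 := by
  refine slf_add hπ hπ φ _ one_pos ha ?_ τ
  rw [pow_one, pow_one]
  change φ π * (starRingEnd ℂ) (φ π) = _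
  rw [Complex.mul_conj, Complex.normSq_eq_norm_sq, hπ.weil φ]
  push_cast
  rfl

end slopes

section basis

variable {p : ℕ} [Fact p.Prime] {ν : PadicAlgCl p ≃+* ℂ} {Ω : Type} [Field Ω] [CharZero Ω]
  {K : Type} [Field K] [CharZero K] [IsAlgClosed K]

theorem cardK (X : CMAV) : Nat.card (Wt X K) = finrank ℚ X.H1 := by
  classical
  have h4 : finrank ℚ X.H1 = ∑ i, finrank ℚ (X.factor i).E := Module.finrank_pi_fintype ℚ
  rw [h4, Nat.card_sigma]
  refine Finset.sum_congr rfl fun q _ => ?_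
  rw [Nat.card_eq_fintype_card]
  exact Embeddings.card _ K

theorem co_tmul' (jO : K →+* Ω) {Y : RedAV p ν} (w : Wt Y.X K) (c : Ω) (x : Y.X.H1) :
    co jO w (c ⊗ₜ[ℚ] x) = c * jO (w.2 (x w.1)) := by
  change LinearMap.liftBaseChange Ω (evO jO w) (c ⊗ₜ[ℚ] x) = _
  rw [LinearMap.liftBaseChange_tmul]
  rfl

/-- Linear independence of the coordinates. -/
theorem linInd_coK (jO : K →+* Ω) (Y : RedAV p ν)
    [Fintype (Wt Y.X K)] (c : Wt Y.X K → Ω) (hc : ∑ w, c w • co jO w = 0) : c = 0 := by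
  classical
  funext w
  obtain ⟨i, φ⟩ := w
  have h1 : ∀ x : (Y.X.factor i).E, ∑ w : Wt Y.X K,
      c w * jO (w.2 ((Pi.single i x : Y.X.H1) w.1)) = 0 := by
    intro x
    have h2 := LinearMap.congr_fun hc ((1 : Ω) ⊗ₜ[ℚ] (Pi.single i x : Y.X.H1))
    rw [LinearMap.sum_apply, LinearMap.zero_apply] at h2
    rw [← h2]
    refine Finset.sum_congr rfl fun w _ => ?_
    rw [LinearMap.smul_apply, co_tmul', one_mul, smul_eq_mul]
  -- the embeddings into `Ω`
  have hinj : Function.Injective (fun φ : (Y.X.factor i).E →+* K =>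
      ((jO.comp φ : (Y.X.factor i).E →+* Ω) : (Y.X.factor i).E →* Ω)) := by
    intro φ φ' h
    ext a
    exact jO.injective (DFunLike.congr_fun h a)
  have hli := (linearIndependent_monoidHom (Y.X.factor i).E Ω).comp _ hinj
  have h3 := Fintype.linearIndependent_iff.1 hli (fun φ => c ⟨i, φ⟩) (by
    funext x
    rw [Pi.zero_apply, ← h1 x, Fintype.sum_apply]
    refine Fintype.sum_of_injective (fun φ => (⟨i, φ⟩ : Wt Y.X K)) (fun φ φ' h => by
      simpa using h) _ _ ?_ ?_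
    · rintro ⟨i', φ'⟩ hw
      have hi : i' ≠ i := by
        rintro rfl
        exact hw ⟨φ', rfl⟩
      dsimp only
      rw [Pi.single_eq_of_ne hi, map_zero, map_zero, mul_zero]
    · intro φ
      dsimp only
      rw [Pi.single_eq_same]
      rfl)
  exact h3 φ

theorem basisK (jO : K →+* Ω) (Y : RedAV p ν) :
    ∃ e : Basis (Wt Y.X K) Ω (TM Ω Y), (∀ w, co jO w (e w) = 1) ∧
      ∀ w w', w ≠ w' → co jO w (e w') = 0 := by
  classical
  let : Fintype (Wt Y.X K) := Fintype.ofFinite _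
  -- the evaluation
  let T : TM Ω Y →ₗ[Ω] (Wt Y.X K → Ω) := LinearMap.pi fun w => co jO w
  have hrank : finrank Ω (TM Ω Y) = finrank Ω (Wt Y.X K → Ω) := by
    rw [Module.finrank_fintype_fun_eq_card, Module.finrank_baseChange, ← cardK (K := K) Y.X,
      Nat.card_eq_fintype_card]
  have hsurj : Function.Surjective T := by
    rw [← LinearMap.range_eq_top]
    by_contra hne
    obtain ⟨f, hf, hf2⟩ := Submodule.exists_le_ker_of_lt_top _ (lt_top_iff_ne_top.2 hne)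
    apply hf
    have h1 : (∑ w, f (Pi.single w 1) • co jO w : TM Ω Y →ₗ[Ω] Ω) = 0 := by
      refine LinearMap.ext fun v => ?_
      have h5 : T v = ∑ w, (T v w) • (Pi.single w (1 : Ω) : Wt Y.X K → Ω) := by
        funext w'
        rw [Fintype.sum_apply]
        simp [Pi.single_apply]
      have h6 : f (T v) = 0 := hf2 ⟨v, rfl⟩
      rw [h5, map_sum] at h6
      rw [LinearMap.sum_apply, LinearMap.zero_apply, ← h6]
      refine Finset.sum_congr rfl fun w _ => ?_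
      rw [LinearMap.smul_apply, map_smul, smul_eq_mul, smul_eq_mul, mul_comm]
      rfl
    have h2 := linInd_coK jO Y _ h1
    refine LinearMap.pi_ext' fun w => ?_
    ext
    simpa using congrFun h2 w
  have hinj : Function.Injective T := by
    have : FiniteDimensional Ω (TM Ω Y) := inferInstance
    exact (LinearMap.injective_iff_surjective_of_finrank_eq_finrank hrank).2 hsurj
  let T' : TM Ω Y ≃ₗ[Ω] (Wt Y.X K → Ω) := LinearEquiv.ofBijective T ⟨hinj, hsurj⟩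
  refine ⟨Basis.ofEquivFun T', ?_, ?_⟩
  · intro w
    have h := congrFun (T'.apply_symm_apply (Pi.single w 1)) w
    rw [Pi.single_eq_same] at h
    rw [Basis.coe_ofEquivFun]
    exact h
  · intro w w' hw
    have h := congrFun (T'.apply_symm_apply (Pi.single w' 1)) w
    rw [Pi.single_eq_of_ne hw] at h
    rw [Basis.coe_ofEquivFun]
    exact h

/-- The weights with values in `K` and in the field of complex numbers. -/
theorem bij_wt (X : CMAV) (j : K →+* ℂ) :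
    Function.Bijective fun w : Wt X K => (⟨w.1, j.comp w.2⟩ : Wt X ℂ) := by
  have h1 : ∀ i, Function.Bijective fun φ : (X.factor i).E →+* K => j.comp φ := by
    intro i
    rw [Fintype.bijective_iff_injective_and_card]
    refine ⟨fun φ φ' h => ?_, ?_⟩
    · ext a
      exact j.injective (RingHom.congr_fun h a)
    · rw [Embeddings.card _ K, Embeddings.card _ ℂ]
  constructor
  · rintro ⟨i, φ⟩ ⟨i', φ'⟩ h
    have h' : (⟨i, j.comp φ⟩ : Wt X ℂ) = ⟨i', j.comp φ'⟩ := h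
    obtain ⟨rfl, h2⟩ := Sigma.mk.inj_iff.1 h'
    have h3 : φ = φ' := (h1 i).1 (eq_of_heq h2)
    rw [h3]
  · rintro ⟨i, ψ⟩
    obtain ⟨φ, rfl⟩ := (h1 i).2 ψ
    exact ⟨⟨i, φ⟩, rfl⟩

end basis

end

end Pool.Agent.K4H21.TF.OP
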