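import Mathlib
import Pool.Agent.K4H21.TF.OpA

/-!
# The operators attached to systems of weights: homomorphisms and divisors
-/

set_option autoImplicit false
set_option linter.unusedSectionVars false
set_option linter.unusedVariables false

namespace Pool.Agent.K4H21.TF.OP

open NumberField Pool.Agent.H204R3.CM Pool.Agent.W547.KB Pool.Agent.W547.LD Module
  Pool.Agent.W495.TA Pool.Agent.W495.TB Pool.Agent.W495.TC Pool.Agent.TH117.BL
open scoped TensorProduct

noncomputable section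

section op

variable {p : ℕ} [Fact p.Prime] {ν : PadicAlgCl p ≃+* ℂ} {Ω : Type} [Field Ω] [CharZero Ω]
  {K : Type} [Field K] [CharZero K] [IsAlgClosed K]

/-- The eigenvalue of the operator. -/
def zt (ζ : Ω) (y : ((ℂ ≃+* ℂ) → ℚ) → ℤ) (j : K →+* ℂ) {Y : RedAV p ν} (w : Wt Y.X K) : Ω :=
  ζ ^ (y (slf p ν (Y.X.factor w.1) (j.comp w.2)))

/-- The operator with the eigenvalues `zt`. -/
def IsOp (ζ : Ω) (y : ((ℂ ≃+* ℂ) → ℚ) → ℤ) (j : K →+* ℂ) (jO : K →+* Ω) (Y : RedAV p ν)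
    (O : TM Ω Y →ₗ[Ω] TM Ω Y) : Prop :=
  ∀ (w : Wt Y.X K) (v : TM Ω Y), co jO w (O v) = zt ζ y j w * co jO w v

/-- The eigenbasis. -/
structure IsEB (jO : K →+* Ω) {Y : RedAV p ν} (e : Basis (Wt Y.X K) Ω (TM Ω Y)) : Prop where
  one : ∀ w, co jO w (e w) = 1
  zero : ∀ w w', w ≠ w' → co jO w (e w') = 0

theorem exists_EB (jO : K →+* Ω) (Y : RedAV p ν) :
    ∃ e : Basis (Wt Y.X K) Ω (TM Ω Y), IsEB jO e := by
  obtain ⟨e, h1, h2⟩ := basisK jO Y
  exact ⟨e, h1, h2⟩

variable {jO : K →+* Ω} {Y : RedAV p ν} {e : Basis (Wt Y.X K) Ω (TM Ω Y)}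

theorem co_repr (he : IsEB jO e) (w : Wt Y.X K) (v : TM Ω Y) : co jO w v = e.repr v w := by
  classical
  have h : co jO w = e.coord w := by
    refine e.ext fun w' => ?_
    rw [Basis.coord_apply, Basis.repr_self, Finsupp.single_apply]
    split_ifs with h
    · subst h
      exact he.one _
    · exact he.zero _ _ (Ne.symm h)
  rw [h]
  rfl

theorem co_ext (he : IsEB jO e) {u v : TM Ω Y} (h : ∀ w : Wt Y.X K, co jO w u = co jO w v) :
    u = v := by
  apply e.repr.injective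
  ext w
  rw [← co_repr he, ← co_repr he, h]

theorem co_FK (w : Wt Y.X K) (v : TM Ω Y) :
    co jO w (F Ω Y v) = jO (w.2 (Y.π w.1)) * co jO w v := by
  induction v using TensorProduct.induction_on with
  | zero => rw [map_zero, map_zero, mul_zero]
  | tmul a x =>
    have h : F Ω Y (a ⊗ₜ[ℚ] x) = a ⊗ₜ[ℚ] mulFrob Y x := LinearMap.baseChange_tmul _ _ _
    rw [h, co_tmul', co_tmul']
    change a * jO (w.2 (Y.π w.1 * x w.1)) = _
    rw [map_mul, map_mul]
    ring
  | add x y hx hy => rw [map_add, map_add, hx, hy, map_add, mul_add]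

theorem co_Fpow (w : Wt Y.X K) (s : ℕ) (v : TM Ω Y) :
    co jO w ((F Ω Y ^ s) v) = (jO (w.2 (Y.π w.1))) ^ s * co jO w v := by
  induction s with
  | zero => simp
  | succ s ih =>
    rw [pow_succ', Module.End.mul_apply, co_FK, ih, pow_succ']
    ring

theorem F_e (he : IsEB jO e) (w : Wt Y.X K) (s : ℕ) :
    (F Ω Y ^ s) (e w) = (jO (w.2 (Y.π w.1))) ^ s • e w := by
  refine co_ext he fun w' => ?_
  rw [co_Fpow, map_smul, smul_eq_mul]
  by_cases h : w' = w
  · subst h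
    rfl
  · rw [he.zero _ _ h, mul_zero, mul_zero]

variable {ζ : Ω} {y : ((ℂ ≃+* ℂ) → ℚ) → ℤ} {j : K →+* ℂ}

theorem op_e (he : IsEB jO e) {O : TM Ω Y →ₗ[Ω] TM Ω Y} (hO : IsOp ζ y j jO Y O) (w : Wt Y.X K) :
    O (e w) = zt ζ y j w • e w := by
  refine co_ext he fun w' => ?_
  rw [hO, map_smul, smul_eq_mul]
  by_cases h : w' = w
  · subst h
    rfl
  · rw [he.zero _ _ h, mul_zero, mul_zero]

variable (ζ y j jO Y) in
theorem exists_op : ∃ O : TM Ω Y →ₗ[Ω] TM Ω Y, IsOp ζ y j jO Y O := by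
  obtain ⟨e, he⟩ := exists_EB jO Y
  refine ⟨e.constr Ω fun w => zt ζ y j w • e w, fun w v => ?_⟩
  have h : (co jO w).comp (e.constr Ω fun w => zt ζ y j w • e w) = zt ζ y j w • co jO w := by
    refine e.ext fun w' => ?_
    rw [LinearMap.comp_apply, Basis.constr_basis, map_smul, LinearMap.smul_apply, smul_eq_mul,
      smul_eq_mul]
    by_cases h : w = w'
    · subst h
      rfl
    · rw [he.zero _ _ h, mul_zero, mul_zero]
  exact LinearMap.congr_fun h v

variable {Z : RedAV p ν}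

/-- Homomorphisms commute with the operators. -/
theorem op_comm {h : TM Ω Y →ₗ[Ω] TM Ω Z} (hh : IsFrobHom Ω Y Z h) {O : TM Ω Y →ₗ[Ω] TM Ω Y}
    {O' : TM Ω Z →ₗ[Ω] TM Ω Z} (hO : IsOp ζ y j jO Y O) (hO' : IsOp ζ y j jO Z O')
    (v : TM Ω Y) : h (O v) = O' (h v) := by
  obtain ⟨e, he⟩ := exists_EB jO Y
  obtain ⟨e', he'⟩ := exists_EB jO Z
  obtain ⟨s, t, hs, ht, hst, hF⟩ := hh
  have key : h.comp O = O'.comp h := by
    refine e.ext fun w => ?_
    rw [LinearMap.comp_apply, LinearMap.comp_apply, op_e he hO, map_smul]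
    refine co_ext he' fun w' => ?_
    rw [hO', map_smul, smul_eq_mul]
    by_cases h0 : co jO w' (h (e w)) = 0
    · rw [h0, mul_zero, mul_zero]
    · congr 1
      have h1 := congrArg (co jO w') (hF (e w))
      rw [F_e he, map_smul, map_smul, smul_eq_mul, co_Fpow] at h1
      have h2 := mul_right_cancel₀ h0 h1
      rw [← map_pow jO, ← map_pow jO] at h2
      have h3 := jO.injective h2
      have h4 := congrArg j h3
      rw [map_pow, map_pow] at h4
      unfold zt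
      congr 2
      exact slf_eq (Y.frob w.1) (Z.frob w'.1) (j.comp w.2) (j.comp w'.2) hs Y.pos hst h4
  exact LinearMap.congr_fun key v

/-- Pull-back. -/
theorem fix_pull {κ : Type} {h : TM Ω Y →ₗ[Ω] TM Ω Z} (hh : IsFrobHom Ω Y Z h)
    {f : (TM Ω Z) [⋀^κ]→ₗ[Ω] Ω}
    (hf : ∀ O : TM Ω Z →ₗ[Ω] TM Ω Z, IsOp ζ y j jO Z O → ∀ v : κ → TM Ω Z,
      f (fun k => O (v k)) = f v)
    {O : TM Ω Y →ₗ[Ω] TM Ω Y} (hO : IsOp ζ y j jO Y O) (v : κ → TM Ω Y) :
    (f.compLinearMap h) (fun k => O (v k)) = (f.compLinearMap h) v := by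
  obtain ⟨O', hO'⟩ := exists_op jO Z ζ y j
  rw [AlternatingMap.compLinearMap_apply, AlternatingMap.compLinearMap_apply,
    ← hf O' hO' fun k => h (v k)]
  congr 1
  funext k
  exact op_comm hh hO hO' (v k)

theorem zt_pair {N : ℕ} (hy : Wgt p ν N y) (hζ : ζ ^ N = 1) (w : Wt Y.X K) (w' : Wt Z.X K)
    (h : ∀ τ, slf p ν (Y.X.factor w.1) (j.comp w.2) τ +
      slf p ν (Z.X.factor w'.1) (j.comp w'.2) τ = 1) :
    zt ζ y j w * zt ζ y j w' = 1 := by
  have hζ0 : ζ ≠ 0 := by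
    rintro rfl
    rw [zero_pow hy.pos.ne'] at hζ
    exact zero_ne_one hζ
  unfold zt
  rw [← zpow_add₀ hζ0]
  obtain ⟨k, hk⟩ := hy.pair _ _ _ _ h
  rw [hk, zpow_mul, zpow_natCast, hζ, one_zpow]

/-- Tate classes of degree two. -/
theorem fix_divisor {κ : Type} (hκ : Nat.card κ = 2) {f : (TM Ω Y) [⋀^κ]→ₗ[Ω] Ω} {s : ℕ}
    (hs : 0 < s) (hf : IsTateClass Ω Y s 1 f) {N : ℕ} (hy : Wgt p ν N y) (hζ : ζ ^ N = 1)
    {O : TM Ω Y →ₗ[Ω] TM Ω Y} (hO : IsOp ζ y j jO Y O) (v : κ → TM Ω Y) :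
    f (fun k => O (v k)) = f v := by
  classical
  have hfin : Finite κ := Nat.finite_of_card_ne_zero (by rw [hκ]; exact two_ne_zero)
  let _ : Fintype κ := Fintype.ofFinite κ
  obtain ⟨e, he⟩ := exists_EB jO Y
  let E : κ ≃ Fin 2 := Finite.equivFinOfCardEq hκ
  have h2 : ∀ g : κ → Ω, ∏ k, g k = g (E.symm 0) * g (E.symm 1) := by
    intro g
    rw [← E.symm.prod_comp, Fin.prod_univ_two]
  have key : f.compLinearMap O = f := by
    refine Basis.ext_alternating e fun I _ => ?_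
    rw [AlternatingMap.compLinearMap_apply]
    have h1 : (fun k => O (e (I k))) = fun k => zt ζ y j (I k) • e (I k) := by
      funext k
      exact op_e he hO _
    rw [h1]
    have h3 := f.toMultilinearMap.map_smul_univ (fun k => zt ζ y j (I k)) (fun k => e (I k))
    refine Eq.trans h3 ?_
    change _ • f (fun k => e (I k)) = _
    by_cases h0 : f (fun k => e (I k)) = 0
    · rw [h0, smul_zero]
    · have h4 : (∏ k, (jO ((I k).2 (Y.π (I k).1))) ^ s) • f (fun k => e (I k)) =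
          ((p : Ω) ^ Y.a) ^ (1 * s) * f (fun k => e (I k)) := by
        rw [← hf]
        refine Eq.trans (f.toMultilinearMap.map_smul_univ
          (fun k => (jO ((I k).2 (Y.π (I k).1))) ^ s) (fun k => e (I k))).symm ?_
        change f _ = f _
        congr 1
        funext k
        exact (F_e he _ _).symm
      rw [smul_eq_mul] at h4
      have h5 := mul_right_cancel₀ h0 h4
      rw [h2, one_mul, ← mul_pow, ← map_mul, ← map_pow] at h5
      have h6 : ((p : Ω) ^ Y.a) ^ s = jO (((p : K) ^ Y.a) ^ s) := by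
        rw [map_pow, map_pow, map_natCast]
      rw [h6] at h5
      have h7 := congrArg j (jO.injective h5)
      rw [map_pow, map_mul, map_pow, map_pow, map_natCast] at h7
      rw [h2, zt_pair hy hζ (I (E.symm 0)) (I (E.symm 1)) fun τ =>
        slf_add (Y.frob _) (Y.frob _) (j.comp (I (E.symm 0)).2) (j.comp (I (E.symm 1)).2) hs
          Y.pos h7 τ, one_smul]
  have h := congrArg (fun g : (TM Ω Y) [⋀^κ]→ₗ[Ω] Ω => g v) key
  exact h

end op

end

end Pool.Agent.K4H21.TF.OP
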