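import Mathlib
import Pool.Agent.K4H21.TF.OpB

/-!
# The operators attached to systems of weights: Weil classes and push-forwards
-/

set_option autoImplicit false
set_option linter.unusedSectionVars false
set_option linter.unusedVariables false

namespace Pool.Agent.K4H21.TF.OP

open NumberField Pool.Agent.H204R3.CM Pool.Agent.W547.KB Pool.Agent.W547.LD Module
  Pool.Agent.W495.TA Pool.Agent.W495.TB Pool.Agent.W495.TC Pool.Agent.TH117.BL
open scoped TensorProduct

noncomputable section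

section multi

/-- A multilinear form in terms of a basis. -/
theorem multi_expand {V ι : Type*} [AddCommGroup V] [Module ℚ V] [Fintype ι] {n : ℕ}
    (b : Basis ι ℚ V) (f : MultilinearMap ℚ (fun _ : Fin n => V) ℚ) (v : Fin n → V) :
    f v = ∑ J : Fin n → ι, (∏ k, b.repr (v k) (J k)) * f (fun k => b (J k)) := by
  classical
  have h1 : f v = f (fun k => ∑ i, b.repr (v k) i • b i) := by
    congr 1
    funext k
    exact (b.sum_repr (v k)).symm
  rw [h1, MultilinearMap.map_sum]
  refine Finset.sum_congr rfl fun J _ => ?_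
  rw [MultilinearMap.map_smul_univ, smul_eq_mul]

/-- An alternating form with the first half of the variables fixed. -/
def halfO {R : Type*} [Field R] {κ κ' : Type*} {P Y : Type*} [AddCommGroup P] [Module R P]
    [AddCommGroup Y] [Module R Y] (f : P [⋀^κ ⊕ κ']→ₗ[R] R) (x : κ → P) (j : Y →ₗ[R] P) :
    Y [⋀^κ']→ₗ[R] R where
  toFun y := f (Sum.elim x fun l => j (y l))
  map_update_add' := by
    classical
    intro inst y i a b
    have h1 : ∀ z, (Sum.elim x fun l => j (Function.update y i z l)) =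
        Function.update (Sum.elim x fun l => j (y l)) (Sum.inr i) (j z) := by
      intro z
      funext k
      rcases k with k | k
      · rw [Function.update_of_ne (by simp)]
        rfl
      · by_cases hk : k = i
        · subst hk
          simp
        · rw [Function.update_of_ne (fun h => hk (Sum.inr_injective h)), Sum.elim_inr,
            Function.update_of_ne hk]
          rfl
    rw [h1, h1, h1, map_add, f.map_update_add]
  map_update_smul' := by
    classical
    intro inst y i q b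
    have h1 : ∀ z, (Sum.elim x fun l => j (Function.update y i z l)) =
        Function.update (Sum.elim x fun l => j (y l)) (Sum.inr i) (j z) := by
      intro z
      funext k
      rcases k with k | k
      · rw [Function.update_of_ne (by simp)]
        rfl
      · by_cases hk : k = i
        · subst hk
          simp
        · rw [Function.update_of_ne (fun h => hk (Sum.inr_injective h)), Sum.elim_inr,
            Function.update_of_ne hk]
          rfl
    rw [h1, h1, map_smul, f.map_update_smul]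
  map_eq_zero_of_eq' := by
    intro y i k hy hik
    exact f.map_eq_zero_of_eq _ (i := Sum.inr i) (j := Sum.inr k) (by simp [hy])
      fun h => hik (Sum.inr_injective h)

/-- A linear map of determinant one may be inserted. -/
theorem half_det {R : Type*} [Field R] {κ κ' : Type*} {P Y : Type*} [AddCommGroup P] [Module R P]
    [AddCommGroup Y] [Module R Y] [Finite κ'] (f : P [⋀^κ ⊕ κ']→ₗ[R] R) (x : κ → P)
    (j : Y →ₗ[R] P) (b : Basis κ' R Y) (O : Y →ₗ[R] Y) (hO : LinearMap.det O = 1) :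
    f (Sum.elim x fun l => j (O (b l))) = f (Sum.elim x fun l => j (b l)) := by
  classical
  let _ : Fintype κ' := Fintype.ofFinite κ'
  have e1 := (halfO f x j).eq_smul_basis_det b
  have e2 := congrArg (fun F => F fun l => O (b l)) e1
  simp only [AlternatingMap.smul_apply, smul_eq_mul] at e2
  have e3 : b.det (fun l => O (b l)) = 1 := by
    have h := b.det_comp O b
    rw [hO, b.det_self, one_mul] at h
    exact h
  rw [e3, mul_one] at e2
  exact e2

end multi

section op

variable {p : ℕ} [Fact p.Prime] {ν : PadicAlgCl p ≃+* ℂ} {Ω : Type} [Field Ω] [CharZero Ω]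
  {K : Type} [Field K] [CharZero K] [IsAlgClosed K]

/-- The coefficients of a rational form in the eigenbasis. -/
theorem expand_form (Y : RedAV p ν) {n : ℕ} (f : Y.X.H1 [⋀^Fin n]→ₗ[ℚ] ℚ)
    [Fintype (Wt Y.X K)] : ∃ c : (Fin n → Wt Y.X K) → K, ∀ v : Fin n → Y.X.H1,
      ((f v : ℚ) : K) = ∑ I, c I * ∏ k, ev (v k) (I k) := by
  classical
  obtain ⟨e, he⟩ := exists_EB (RingHom.id K) Y
  let b := Module.finBasis ℚ Y.X.H1
  let m : Fin (finrank ℚ Y.X.H1) → Wt Y.X K → K := fun i w => (b.baseChange K).repr (e w) i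
  have hm : ∀ (x : Y.X.H1) i, ((b.repr x i : ℚ) : K) = ∑ w, m i w * ev x w := by
    intro x i
    have h1 : (1 : K) ⊗ₜ[ℚ] x = ∑ w, ev x w • e w := by
      refine co_ext he fun w => ?_
      rw [map_sum, co_tmul', one_mul, Finset.sum_eq_single w]
      · rw [map_smul, he.one, smul_eq_mul, mul_one]
        rfl
      · intro w' _ hw
        rw [map_smul, he.zero _ _ (Ne.symm hw), smul_zero]
      · intro h
        exact absurd (Finset.mem_univ _) h
    have h2 := congrArg (fun z => (b.baseChange K).repr z i) h1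
    simp only [Basis.baseChange_repr_tmul, map_sum, map_smul, Finsupp.coe_finsetSum,
      Finset.sum_apply, Finsupp.smul_apply, smul_eq_mul] at h2
    rw [Rat.smul_def, mul_one] at h2
    rw [h2]
    exact Finset.sum_congr rfl fun w _ => mul_comm _ _
  refine ⟨fun I => ∑ J : Fin n → Fin (finrank ℚ Y.X.H1),
    (∏ k, m (J k) (I k)) * ((f fun k => b (J k) : ℚ) : K), fun v => ?_⟩
  have h1 := multi_expand b f.toMultilinearMap v
  have h2 := congrArg (fun q : ℚ => (q : K)) h1
  change ((f v : ℚ) : K) = _ at h2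
  rw [h2]
  push_cast
  simp only [hm, Finset.prod_univ_sum, Fintype.piFinset_univ, Finset.sum_mul]
  rw [Finset.sum_comm]
  refine Finset.sum_congr rfl fun I _ => ?_
  refine Finset.sum_congr rfl fun J _ => ?_
  rw [Finset.prod_mul_distrib]
  change _ * ((f _ : ℚ) : K) = _
  ring

variable {jO : K →+* Ω} {Y Z : RedAV p ν}
variable {ζ : Ω} {y : ((ℂ ≃+* ℂ) → ℚ) → ℤ} {j : K →+* ℂ}

/-- Weil classes. -/
theorem fix_weil (hwt : S_wt) {N : ℕ} (hy : Wgt p ν N y) (hζ : ζ ^ N = 1) {n : ℕ}
    (hn : n = 4 ∨ n = 6) (f : Y.X.H1 [⋀^Fin n]→ₗ[ℚ] ℚ) (hf : IsSplitWeilClass Y.X n f)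
    (g : (TM Ω Y) [⋀^Fin n]→ₗ[Ω] Ω)
    (hg : ∀ v : Fin n → Y.X.H1, g (fun k => 1 ⊗ₜ[ℚ] v k) = ((f v : ℚ) : Ω))
    {O : TM Ω Y →ₗ[Ω] TM Ω Y} (hO : IsOp ζ y j jO Y O) (v : Fin n → TM Ω Y) :
    g (fun k => O (v k)) = g v := by
  classical
  let _ : Fintype (Wt Y.X K) := Fintype.ofFinite _
  let _ : Fintype (Wt Y.X ℂ) := Fintype.ofFinite _
  have hζ0 : ζ ≠ 0 := by
    rintro rfl
    rw [zero_pow hy.pos.ne'] at hζ
    exact zero_ne_one hζ
  obtain ⟨c, hc⟩ := expand_form (K := K) Y f
  -- the form over `Ω`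
  let G : MultilinearMap Ω (fun _ : Fin n => TM Ω Y) Ω := ∑ I : Fin n → Wt Y.X K, jO (c I) •
    (MultilinearMap.mkPiAlgebra Ω (Fin n) Ω).compLinearMap (fun k => co jO (I k))
  have hG : ∀ u : Fin n → TM Ω Y, G u = ∑ I : Fin n → Wt Y.X K, jO (c I) *
      ∏ k, co jO (I k) (u k) := by
    intro u
    change (∑ I : Fin n → Wt Y.X K, jO (c I) •
      (MultilinearMap.mkPiAlgebra Ω (Fin n) Ω).compLinearMap (fun k => co jO (I k))) u = _
    rw [MultilinearMap.sum_apply]
    refine Finset.sum_congr rfl fun I _ => ?_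
    rw [MultilinearMap.smul_apply, MultilinearMap.compLinearMap_apply,
      MultilinearMap.mkPiAlgebra_apply, smul_eq_mul]
  have hgG : g.toMultilinearMap = G := by
    let b := Module.finBasis ℚ Y.X.H1
    refine Basis.ext_multilinear (fun _ => b.baseChange Ω) fun J => ?_
    rw [hG]
    have h1 : (fun k => (b.baseChange Ω) (J k)) = fun k => (1 : Ω) ⊗ₜ[ℚ] b (J k) := by
      funext k
      rw [Basis.baseChange_apply]
    rw [h1]
    refine Eq.trans (hg fun k => b (J k)) ?_
    have h2 := congrArg jO (hc fun k => b (J k))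
    rw [map_ratCast, map_sum] at h2
    rw [h2]
    refine Finset.sum_congr rfl fun I _ => ?_
    rw [map_mul, map_prod]
    congr 1
    refine Finset.prod_congr rfl fun k _ => ?_
    rw [Basis.baseChange_apply, co_tmul', one_mul]
    rfl
  have hgv : ∀ u : Fin n → TM Ω Y, g u = ∑ I : Fin n → Wt Y.X K, jO (c I) *
      ∏ k, co jO (I k) (u k) := by
    intro u
    rw [← hG, ← hgG]
    rfl
  -- the form over the field of complex numbers
  let B : Wt Y.X K ≃ Wt Y.X ℂ := Equiv.ofBijective _ (bij_wt Y.X j)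
  have hcC : ∀ v : Fin n → Y.X.H1, ((f v : ℚ) : ℂ) =
      ∑ J : Fin n → Wt Y.X ℂ, j (c fun k => B.symm (J k)) * ∏ k, ev (v k) (J k) := by
    intro v
    have h2 := congrArg j (hc v)
    rw [map_ratCast, map_sum] at h2
    rw [h2]
    refine Fintype.sum_equiv (Equiv.arrowCongr (Equiv.refl (Fin n)) B) _ _ fun I => ?_
    rw [map_mul, map_prod]
    congr 1
    · congr 2
      funext k
      exact (B.symm_apply_apply _).symm
  rw [hgv, hgv]
  refine Finset.sum_congr rfl fun I _ => ?_
  by_cases h0 : c I = 0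
  · rw [h0, map_zero, zero_mul, zero_mul]
  · congr 1
    have h1 : ∏ k, co jO (I k) (O (v k)) = (∏ k, zt ζ y j (I k)) * ∏ k, co jO (I k) (v k) := by
      rw [← Finset.prod_mul_distrib]
      exact Finset.prod_congr rfl fun k _ => hO _ _
    rw [h1]
    have h2 : (N : ℤ) ∣ ∑ k, y (slf p ν (Y.X.factor (B (I k)).1) (B (I k)).2) := by
      refine hwt p ν N y hy Y.X n hn f hf (fun J => j (c fun k => B.symm (J k))) hcC
        (fun k => B (I k)) ?_
      have h3 : (fun k => B.symm (B (I k))) = I := funext fun k => B.symm_apply_apply _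
      change j (c fun k => B.symm (B (I k))) ≠ 0
      rw [h3]
      exact (map_ne_zero_iff j j.injective).2 h0
    have h3 : ∏ k, zt ζ y j (I k) = 1 := by
      have h4 : ∏ k, zt ζ y j (I k) =
          ζ ^ (∑ k, y (slf p ν (Y.X.factor (B (I k)).1) (B (I k)).2)) := by
        have h5 : ∀ s : Finset (Fin n), ∏ k ∈ s, zt ζ y j (I k) =
            ζ ^ (∑ k ∈ s, y (slf p ν (Y.X.factor (B (I k)).1) (B (I k)).2)) := by
          intro s
          induction s using Finset.induction_on with
          | empty => simp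
          | insert a s ha ih =>
            rw [Finset.prod_insert ha, Finset.sum_insert ha, zpow_add₀ hζ0, ih]
            rfl
        exact h5 _
      rw [h4]
      obtain ⟨k, hk⟩ := h2
      rw [hk, zpow_mul, zpow_natCast, hζ, one_zpow]
    rw [h3, one_mul]

/-- The determinant of the operator. -/
theorem op_det {N : ℕ} (hy : Wgt p ν N y) (hζ : ζ ^ N = 1) {O : TM Ω Y →ₗ[Ω] TM Ω Y}
    (hO : IsOp ζ y j jO Y O) : LinearMap.det O = 1 := by
  classical
  let _ : Fintype (Wt Y.X K) := Fintype.ofFinite _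
  let _ : Fintype (Wt Y.X ℂ) := Fintype.ofFinite _
  obtain ⟨e, he⟩ := exists_EB jO Y
  have h1 := e.det_comp O e
  rw [e.det_self, mul_one] at h1
  rw [← h1]
  have h2 : (⇑O ∘ ⇑e) = fun w => zt ζ y j w • e w := by
    funext w
    exact op_e he hO w
  rw [h2]
  refine Eq.trans (e.det.toMultilinearMap.map_smul_univ (fun w => zt ζ y j w) fun w => e w) ?_
  change _ • e.det e = _
  rw [e.det_self, smul_eq_mul, mul_one]
  let B : Wt Y.X K ≃ Wt Y.X ℂ := Equiv.ofBijective _ (bij_wt Y.X j)
  have h3 : ∏ w, zt ζ y j w = ∏ u : Wt Y.X ℂ, ζ ^ (y (slf p ν (Y.X.factor u.1) u.2)) :=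
    Fintype.prod_equiv B _ _ fun w => rfl
  rw [h3]
  have hζ0 : ζ ≠ 0 := by
    rintro rfl
    rw [zero_pow hy.pos.ne'] at hζ
    exact zero_ne_one hζ
  refine Finset.prod_involution
    (fun u _ => (⟨u.1, ComplexEmbedding.conjugate u.2⟩ : Wt Y.X ℂ)) ?_ ?_ ?_ ?_
  · intro u _
    rw [← zpow_add₀ hζ0]
    obtain ⟨k, hk⟩ := hy.pair _ _ u.2 (ComplexEmbedding.conjugate u.2) fun τ =>
      slf_conj (Y.frob u.1) u.2 Y.pos τ
    rw [hk, zpow_mul, zpow_natCast, hζ, one_zpow]
  · intro u _ _ h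
    obtain ⟨i, φ⟩ := u
    have h4 : ComplexEmbedding.conjugate φ = φ := eq_of_heq (Sigma.mk.inj_iff.1 h).2
    have h5 := (Y.X.factor i).isCMType φ
    rw [h4] at h5
    exact iff_not_self h5
  · intro u _
    exact Finset.mem_univ _
  · rintro ⟨i, φ⟩ _
    change (⟨i, ComplexEmbedding.conjugate (ComplexEmbedding.conjugate φ)⟩ : Wt Y.X ℂ) = _
    rw [ComplexEmbedding.involutive_conjugate]

/-- Push-forward. -/
theorem fix_pushO {Y' : RedAV p ν} {N : ℕ} (hy : Wgt p ν N y) (hζ : ζ ^ N = 1) {κ κ' : Type}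
    {h : TM Ω Y →ₗ[Ω] TM Ω Z} {h' : TM Ω Y' →ₗ[Ω] TM Ω Z} (hh : IsFrobHom Ω Y Z h)
    (hh' : IsFrobHom Ω Y' Z h') (b : Basis κ' Ω (TM Ω Y')) {f : (TM Ω Z) [⋀^κ ⊕ κ']→ₗ[Ω] Ω}
    (hf : ∀ O : TM Ω Z →ₗ[Ω] TM Ω Z, IsOp ζ y j jO Z O → ∀ v : κ ⊕ κ' → TM Ω Z,
      f (fun k => O (v k)) = f v)
    {g : (TM Ω Y) [⋀^κ]→ₗ[Ω] Ω}
    (hg : ∀ v : κ → TM Ω Y, g v = f (Sum.elim (fun k => h (v k)) (fun k => h' (b k))))
    {O : TM Ω Y →ₗ[Ω] TM Ω Y} (hO : IsOp ζ y j jO Y O) (v : κ → TM Ω Y) :
    g (fun k => O (v k)) = g v := by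
  have hfin : Finite κ' := Module.Finite.finite_basis b
  obtain ⟨OZ, hOZ⟩ := exists_op jO Z ζ y j
  obtain ⟨O', hO'⟩ := exists_op jO Y' ζ y j
  rw [hg, hg, ← hf OZ hOZ (Sum.elim (fun k => h (v k)) fun k => h' (b k)),
    ← half_det f (fun k => h (O (v k))) h' b O' (op_det hy hζ hO')]
  congr 1
  funext k
  rcases k with k | k
  · exact op_comm hh hO hOZ (v k)
  · exact op_comm hh' hO' hOZ (b k)

end op

end

end Pool.Agent.K4H21.TF.OP
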