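import Mathlib
import Pool.Agent.K4H21.TF.OpC

/-!
# All classes of the system are fixed by the operators
-/

set_option autoImplicit false
set_option linter.unusedSectionVars false
set_option linter.unusedVariables false

namespace Pool.Agent.K4H21.TF

open NumberField Pool.Agent.K4H21.TF.OP Pool.Agent.H204R3.CM Pool.Agent.W547.KB Pool.Agent.W547.LD Module
  Pool.Agent.W495.TA Pool.Agent.W495.TB Pool.Agent.W495.TC Pool.Agent.TH117.BL
open scoped TensorProduct

noncomputable section

theorem fix_all (hwt : S_wt) {p : ℕ} [Fact p.Prime] {ν : PadicAlgCl p ≃+* ℂ} {Ω : Type} [Field Ω]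
    [CharZero Ω] {K : Type} [Field K] [CharZero K] [IsAlgClosed K] {j : K →+* ℂ} {jO : K →+* Ω}
    {N : ℕ} {y : ((ℂ ≃+* ℂ) → ℚ) → ℤ} (hy : Wgt p ν N y) {ζ : Ω} (hζ : ζ ^ N = 1)
    {Y : RedAV p ν} {κ : Type} {f : (TM Ω Y) [⋀^κ]→ₗ[Ω] Ω} (hf : Alg Ω Y κ f) :
    ∀ O : TM Ω Y →ₗ[Ω] TM Ω Y, IsOp ζ y j jO Y O → ∀ v : κ → TM Ω Y,
      f (fun k => O (v k)) = f v := by
  induction hf with
  | unit f =>
    intro O _ v
    congr 1
    funext k
    exact isEmptyElim k
  | divisor hκ f s hs hf =>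
    intro O hO v
    exact fix_divisor hκ hs hf hy hζ hO v
  | weil hn f hf g hg =>
    intro O hO v
    exact fix_weil hwt hy hζ hn f hf g hg hO v
  | zero Y κ =>
    intro O hO v
    rfl
  | add f g _ _ ihf ihg =>
    intro O hO v
    rw [AlternatingMap.add_apply, AlternatingMap.add_apply, ihf O hO, ihg O hO]
  | smul c f _ ihf =>
    intro O hO v
    rw [AlternatingMap.smul_apply, AlternatingMap.smul_apply, ihf O hO]
  | reindex e f _ ihf =>
    intro O hO v
    rw [AlternatingMap.domDomCongr_apply, AlternatingMap.domDomCongr_apply]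
    exact ihf O hO fun k => v (e k)
  | cup f g _ _ h hh ihf ihg =>
    intro O hO v
    rw [hh, hh]
    refine Finset.sum_congr rfl fun σ _ => ?_
    rw [ihf O hO fun k => v (σ (Sum.inl k)), ihg O hO fun k => v (σ (Sum.inr k))]
  | pull h hh f _ ihf =>
    intro O hO v
    exact fix_pull hh ihf hO v
  | push h h' hh hh' hb b f _ g hg ihf =>
    intro O hO v
    exact fix_pushO hy hζ hh hh' b ihf hg hO v

theorem fix : S_fix := by
  intro hwt p _ ν N y hy Ω _ _ _ K _ _ _ _ j jO ζ hζ Y κ _ f hf O hO v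
  exact fix_all hwt hy hζ hf O hO v

end

end Pool.Agent.K4H21.TF
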