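import Mathlib
import Pool.Agent.K4H21.TF.PosA
import Pool.Agent.K4H21.TF.PosB2
import Pool.Agent.K4H21.TF.Utl

/-!
# The positive direction
-/

set_option autoImplicit false
set_option linter.unusedSectionVars false
set_option linter.unusedVariables false

namespace Pool.Agent.K4H21.TF

open NumberField Pool.Agent.H204R3.CM Pool.Agent.W547.KB Pool.Agent.W547.LD Module
  Pool.Agent.W495.TA Pool.Agent.W495.TB Pool.Agent.W495.TC Pool.Agent.TH117.BL Pool.Agent.TH117.F5
open scoped TensorProduct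

noncomputable section

variable {p : ℕ} [Fact p.Prime] {ν : PadicAlgCl p ≃+* ℂ}

/-- The functions of the weights of `Y`. -/
theorem weight_of_powers {Z Y : RedAV p ν} {L : Type} [Field L] [NumberField L] [IsCMField L]
    [IsGalois ℚ L] {j : L →+* ℂ} (hY : IsPowersOf Z Y) (w : Wt Y.X L) :
    ∃ l : Wt Z.X L, tf p ν j (St j w) = tw p ν j Z.X l := by
  obtain ⟨i, φ⟩ := w
  obtain ⟨k, ι, s, t, hs, ht, hst, h⟩ := hY i
  refine ⟨⟨k, φ.comp ι⟩, ?_⟩
  have h1 : slf p ν (Y.X.factor i) (j.comp φ) = slf p ν (Z.X.factor k) (j.comp (φ.comp ι)) := by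
    refine slf_of_pow Y.pos hs hst (frob_slopes Y ⟨i, j.comp φ⟩)
      (frob_slopes Z ⟨k, j.comp (φ.comp ι)⟩) ?_
    change (j (φ (Y.π i))) ^ s = (j (φ (ι (Z.π k)))) ^ t
    rw [← map_pow, ← map_pow, h, map_pow, map_pow, map_pow]
  have h2 := (slf_eq_iff j _ _ φ (φ.comp ι)).1 h1
  rw [tf_hs (p := p) (ν := ν) j (Z.X.factor k)] at h2
  exact h2

open Classical in
/-- The auxiliary abelian variety of an element of the group. -/
def auxX (Z : RedAV p ν) (e : Emb Z → ℤ) : CMAV :=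
  if h : e ∈ Gen Z then (posA slf_main p ν Z e h).choose else ⟨Empty, fun i => i.elim⟩

theorem auxX_spec (Z : RedAV p ν) (e : Emb Z → ℤ) (he : e ∈ Gen Z) (L : Type) [Field L]
    [NumberField L] [IsCMField L] [IsGalois ℚ L] (j : L →+* ℂ) (h1 : Big (auxX Z e) j)
    (h2 : Big Z.X j) [Fintype (Wt Z.X L)] :
    DD (tw p ν j Z.X) (fun w => e (toEmb j Z w)) ∈
      AddSubgroup.closure {d : ((L ≃ₐ[ℚ] L) → ℤ) → ℤ | IsW p ν j d} := by
  unfold auxX at h1
  rw [dif_pos he] at h1
  exact (posA slf_main p ν Z e he).choose_spec L j h1 h2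

open Classical in
/-- The product of the auxiliary abelian varieties of all small elements. -/
def auxM (Z : RedAV p ν) (M : ℕ) : CMAV :=
  ⟨Σ g : Emb Z → Fin M, (auxX Z fun w => ((g w : ℕ) : ℤ)).I,
    fun x => (auxX Z fun w => ((x.1 w : ℕ) : ℤ)).factor x.2⟩

/-- **The positive direction.** -/
theorem pos_dir (Z : RedAV p ν) (hrel : ∀ e, IsRelation Z e → e ∈ Gen Z)
    (Ω : Type) [Field Ω] [IsAlgClosed Ω] [CharZero Ω]
    (Y : RedAV p ν) (hY : IsPowersOf Z Y) (s m : ℕ) (hs0 : 0 < s)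
    (f : (TM Ω Y) [⋀^Fin (2 * m)]→ₗ[Ω] Ω) (hf : IsTateClass Ω Y s m f) :
    Alg Ω Y (Fin (2 * m)) f := by
  classical
  obtain ⟨L, _, _, _, _, j, hj⟩ := exists_big (((Y.X.prod Z.X).prod (single (kp p))).prod
    (auxM Z (2 * m + 1)))
  have hYj : Big Y.X j := fun i ψ => hj (Sum.inl (Sum.inl (Sum.inl i))) ψ
  have hZj : Big Z.X j := fun i ψ => hj (Sum.inl (Sum.inl (Sum.inr i))) ψ
  have hkp : BigA (kp p) j := fun ψ => hj (Sum.inl (Sum.inr ())) ψ
  have hX : ∀ g : Emb Z → Fin (2 * m + 1), Big (auxX Z fun w => ((g w : ℕ) : ℤ)) j :=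
    fun g i ψ => hj (Sum.inr ⟨g, i⟩) ψ
  let jO : L →+* Ω := ((IsAlgClosed.lift : L →ₐ[ℚ] Ω) : L →+* Ω)
  obtain ⟨e, h1, h2⟩ := Pool.Agent.W67.TA.basis p ν Ω L j jO Y hYj
  refine Pool.Agent.W351.TA.expand p ν Ω L jO Y e h1 h2 _ f fun I hI => ?_
  have hbal := balanced jO Pool.Agent.W366.TA.val hYj e h1 h2 s m hs0 f hf I hI
  choose l hl using fun w => weight_of_powers (j := j) hY w
  have hfin := finite_wt j hZj
  let _ : Fintype (Wt Z.X L) := Fintype.ofFinite _
  have hbij := toEmb_bijective (j := j) hZj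
  -- the exponents
  let en : Emb Z → ℕ := fun u => (Finset.univ.filter fun k : Fin (2 * m) =>
    toEmb j Z (l (I k)) = u).card
  have hen : ∀ u, en u < 2 * m + 1 := by
    intro u
    have h3 : en u ≤ (Finset.univ : Finset (Fin (2 * m))).card := Finset.card_le_card
      (Finset.filter_subset _ _)
    rw [Finset.card_univ, Fintype.card_fin] at h3
    omega
  let g : Emb Z → Fin (2 * m + 1) := fun u => ⟨en u, hen u⟩
  let ez : Emb Z → ℤ := fun u => ((g u : ℕ) : ℤ)
  have hez : ∀ u, ez u = ∑ k : Fin (2 * m), if toEmb j Z (l (I k)) = u then 1 else 0 := by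
    intro u
    change ((Finset.univ.filter fun k : Fin (2 * m) => toEmb j Z (l (I k)) = u).card : ℤ) = _
    rw [Finset.card_filter]
    push_cast
    rfl
  have hcnt : ∀ v : Wt Z.X L, Pool.Agent.TH117.BL.cnt (fun k => some (l (I k))) v = ez (toEmb j Z v) := by
    intro v
    rw [hez]
    unfold Pool.Agent.TH117.BL.cnt
    rw [card_eq_sum]
    refine Finset.sum_congr rfl fun k _ => ?_
    have h3 : some (l (I k)) = some v ↔ toEmb j Z (l (I k)) = toEmb j Z v := by
      rw [Option.some_inj, hbij.1.eq_iff]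
    simp only [h3]
  have hsum : ∀ σ, ∑ k, tw p ν j Z.X (l (I k)) σ = 0 := by
    intro σ
    rw [← hbal σ]
    exact Finset.sum_congr rfl fun k _ => by rw [hl (I k)]
  have hR : IsRelation Z ez := by
    rw [rel_main p ν L j Z hZj]
    refine ⟨?_, fun σ => ?_⟩
    · have h3 : ∑ u, ez u = 2 * m := by
        rw [Finset.sum_congr rfl fun u _ => hez u, Finset.sum_comm]
        simp
      rw [h3]
      exact even_two_mul _
    · have h3 := sum_eq_cnt (tw p ν j Z.X) (fun k => some (l (I k))) σ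
      rw [← Finset.sum_congr rfl fun v _ => by rw [← hcnt v], ← h3]
      exact hsum σ
  have hD := auxX_spec Z ez (hrel ez hR) L j (hX g) hZj
  have hdc : dcnt (fun k => tf p ν j (St j (I k))) ∈
      AddSubgroup.closure {d : ((L ≃ₐ[ℚ] L) → ℤ) → ℤ | IsW p ν j d} := by
    have h3 : (fun k => tf p ν j (St j (I k))) = fun k => ext0 (tw p ν j Z.X) (some (l (I k))) :=
      funext fun k => hl (I k)
    rw [h3, dcnt_eq_DD, funext hcnt]
    exact hD
  have key := posB_main p ν Ω L j jO hkp (Fin (2 * m)) (fun k => St j (I k))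
    (fun k => isHalf_St j (I k)) (by rw [Fintype.card_fin]; exact even_two_mul m) hbal hdc
  exact key Y hYj I fun k => rfl

end

end Pool.Agent.K4H21.TF
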