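import Pool.Agent.K4H21.TF.Stms2
import Pool.Agent.K4H21.TF.RelI
import Pool.Agent.K4H21.TL.Rank

/-!
# Piece I: the rank of the relations
-/

set_option autoImplicit false
set_option linter.unusedSectionVars false
set_option linter.unusedVariables false

namespace Pool.Agent.K4H21.TF

open NumberField Pool.Agent.H204R3.CM Pool.Agent.W547.KB Pool.Agent.W547.LD Module
  Pool.Agent.W495.TA Pool.Agent.W495.TB Pool.Agent.W495.TC Pool.Agent.TH117.BL Pool.Agent.TH117.F5
open scoped TensorProduct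

noncomputable section

namespace Rk

section sums

variable {W : Type} [Fintype W]

theorem sum_ind (w : W) (F : W → ℤ) : ∑ v, ind w v * F v = F w := by
  classical
  unfold ind
  rw [Finset.sum_eq_single w]
  · rw [if_pos rfl, one_mul]
  · intro b _ hb
    rw [if_neg hb, zero_mul]
  · intro h
    exact absurd (Finset.mem_univ w) h

theorem sum_ind' (w : W) : ∑ v, ind w v = 1 := by
  have := sum_ind w (fun _ => (1 : ℤ))
  simpa using this

end sums

variable {p : ℕ} [Fact p.Prime] {ν : PadicAlgCl p ≃+* ℂ}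

theorem prod_ind (Z : RedAV p ν) (w : Emb Z) : ∏ v, eig Z v ^ ind w v = eig Z w := by
  classical
  unfold ind
  rw [Finset.prod_eq_single w]
  · rw [if_pos rfl, zpow_one]
  · intro b _ hb
    rw [if_neg hb, zpow_zero]
  · intro h
    exact absurd (Finset.mem_univ w) h

variable {L : Type} [Field L] [NumberField L] [IsCMField L] [IsGalois ℚ L] (j : L →+* ℂ)
  (Z : RedAV p ν) (hZ : Big Z.X j)

include hZ in
theorem wt_sum [Fintype (Wt Z.X L)] (t : Wt Z.X L) (F : Wt Z.X L → ℤ) :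
    ∑ s, ind (toEmb j Z t) (toEmb j Z s) * F s = F t := by
  classical
  unfold ind
  rw [Finset.sum_eq_single t]
  · rw [if_pos rfl, one_mul]
  · intro b _ hb
    rw [if_neg (fun h => hb ((toEmb_bijective (j := j) hZ).1 h)), zero_mul]
  · intro h
    exact absurd (Finset.mem_univ t) h

include hZ in
theorem same_iff (v v' : Wt Z.X L) :
    SameEig Z (toEmb j Z v) (toEmb j Z v') ↔ tw p ν j Z.X v = tw p ν j Z.X v' := by
  classical
  have hfin : Finite (Wt Z.X L) := finite_wt j hZ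
  let _ : Fintype (Wt Z.X L) := Fintype.ofFinite _
  have hrel := rel_main p ν L j Z hZ (ind (toEmb j Z v) - ind (toEmb j Z v'))
  have hs : ∑ w, (ind (toEmb j Z v) - ind (toEmb j Z v')) w = 0 := by
    simp only [Pi.sub_apply, Finset.sum_sub_distrib]
    rw [sum_ind', sum_ind']
    norm_num
  have hp : ∏ w, eig Z w ^ ((ind (toEmb j Z v) - ind (toEmb j Z v')) w) =
      eig Z (toEmb j Z v) / eig Z (toEmb j Z v') := by
    have h1 : ∀ w, eig Z w ^ ((ind (toEmb j Z v) - ind (toEmb j Z v')) w) =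
        eig Z w ^ ind (toEmb j Z v) w / eig Z w ^ ind (toEmb j Z v') w := fun w => by
      rw [Pi.sub_apply, zpow_sub₀ (eig_ne w)]
    rw [Finset.prod_congr rfl fun w _ => h1 w, Finset.prod_div_distrib, prod_ind, prod_ind]
  have hsum : ∀ σ, ∑ w : Wt Z.X L, (ind (toEmb j Z v) - ind (toEmb j Z v')) (toEmb j Z w) * tw p ν j Z.X w σ =
      tw p ν j Z.X v σ - tw p ν j Z.X v' σ := by
    intro σ
    simp only [Pi.sub_apply, sub_mul, Finset.sum_sub_distrib]
    rw [wt_sum j Z hZ, wt_sum j Z hZ]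
  have h2 : IsRelation Z (ind (toEmb j Z v) - ind (toEmb j Z v')) ↔ SameEig Z (toEmb j Z v) (toEmb j Z v') := by
    unfold IsRelation SameEig
    rw [hp, hs]
    have h0 := eig_ne (toEmb j Z v')
    constructor
    · rintro ⟨m, n, hn, h3, h4⟩
      refine ⟨n, hn, ?_⟩
      have hm : m = 0 := by omega
      rw [hm, zpow_zero, one_pow, div_pow, div_eq_one_iff_eq (pow_ne_zero _ h0)] at h4
      exact h4
    · rintro ⟨n, hn, h4⟩
      refine ⟨0, n, hn, by norm_num, ?_⟩
      rw [zpow_zero, one_pow, div_pow, div_eq_one_iff_eq (pow_ne_zero _ h0)]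
      exact h4
  rw [← h2, hrel, hs]
  constructor
  · rintro ⟨-, h3⟩
    funext σ
    have h4 := h3 σ
    rw [hsum] at h4
    linarith
  · intro h3
    refine ⟨⟨0, by norm_num⟩, fun σ => ?_⟩
    rw [hsum, h3, sub_self]

include hZ in
theorem super_iff (v : Wt Z.X L) : IsSuper Z (toEmb j Z v) ↔ tw p ν j Z.X v = 0 := by
  classical
  have hfin : Finite (Wt Z.X L) := finite_wt j hZ
  let _ : Fintype (Wt Z.X L) := Fintype.ofFinite _
  have hrel := rel_main p ν L j Z hZ (ind (toEmb j Z v) + ind (toEmb j Z v))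
  have hs : ∑ w, (ind (toEmb j Z v) + ind (toEmb j Z v)) w = 2 := by
    simp only [Pi.add_apply, Finset.sum_add_distrib]
    rw [sum_ind']
    norm_num
  have hp : ∏ w, eig Z w ^ ((ind (toEmb j Z v) + ind (toEmb j Z v)) w) = eig Z (toEmb j Z v) ^ 2 := by
    have h1 : ∀ w, eig Z w ^ ((ind (toEmb j Z v) + ind (toEmb j Z v)) w) =
        eig Z w ^ ind (toEmb j Z v) w * eig Z w ^ ind (toEmb j Z v) w := fun w => by
      rw [Pi.add_apply, zpow_add₀ (eig_ne w)]
    rw [Finset.prod_congr rfl fun w _ => h1 w, Finset.prod_mul_distrib, prod_ind, sq]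
  have hsum : ∀ σ, ∑ w : Wt Z.X L, (ind (toEmb j Z v) + ind (toEmb j Z v)) (toEmb j Z w) * tw p ν j Z.X w σ =
      tw p ν j Z.X v σ + tw p ν j Z.X v σ := by
    intro σ
    simp only [Pi.add_apply, add_mul, Finset.sum_add_distrib]
    rw [wt_sum j Z hZ]
  have h2 : IsRelation Z (ind (toEmb j Z v) + ind (toEmb j Z v)) ↔ IsSuper Z (toEmb j Z v) := by
    unfold IsRelation IsSuper
    rw [hp, hs]
    constructor
    · rintro ⟨m, n, hn, h3, h4⟩
      refine ⟨n, hn, ?_⟩
      have hm : m = 1 := by omega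
      rw [hm, zpow_one, ← pow_mul] at h4
      exact h4
    · rintro ⟨n, hn, h4⟩
      refine ⟨1, n, hn, by norm_num, ?_⟩
      rw [zpow_one, ← pow_mul]
      exact h4
  rw [← h2, hrel, hs]
  constructor
  · rintro ⟨-, h3⟩
    funext σ
    have h4 := h3 σ
    rw [hsum] at h4
    rw [Pi.zero_apply]
    linarith
  · intro h3
    refine ⟨⟨1, by norm_num⟩, fun σ => ?_⟩
    rw [hsum, h3]
    simp

/-! ### The angle rank -/

/-- The number `α ^ 2 / q`. -/
def uu (w : Wt Z.X L) : ℂˣ :=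
  Units.mk0 (eig Z (toEmb j Z w) ^ 2 / (p : ℂ) ^ Z.a) (div_ne_zero (pow_ne_zero _ (eig_ne _)) (q_ne Z))

theorem prod_zp {ι : Type} {x : ℂ} (hx : x ≠ 0) (s : Finset ι) (f : ι → ℤ) :
    x ^ (∑ i ∈ s, f i) = ∏ i ∈ s, x ^ f i := by
  classical
  induction s using Finset.induction_on with
  | empty => simp
  | insert a s ha ih => rw [Finset.sum_insert ha, Finset.prod_insert ha, zpow_add₀ hx, ih]

include hZ in
theorem uu_rel [Fintype (Wt Z.X L)] (m : Wt Z.X L → ℤ) :
    (∃ n : ℕ, 0 < n ∧ (∏ w, uu j Z w ^ m w) ^ n = 1) ↔ ∀ σ, ∑ w, m w * tw p ν j Z.X w σ = 0 := by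
  classical
  have hbij := toEmb_bijective (j := j) hZ
  let E : Wt Z.X L ≃ Emb Z := Equiv.ofBijective _ hbij
  let e : Emb Z → ℤ := fun x => 2 * m (E.symm x)
  have he : ∀ w, e (toEmb j Z w) = 2 * m w := fun w => by
    show 2 * m (E.symm (E w)) = _
    rw [E.symm_apply_apply]
  have hrel := rel_main p ν L j Z hZ e
  have hs : ∑ x, e x = 2 * ∑ w, m w := by
    rw [← Equiv.sum_comp E, Finset.mul_sum]
    exact Finset.sum_congr rfl fun w _ => he w
  have hq := q_ne Z
  set q : ℂ := (p : ℂ) ^ Z.a with hqdef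
  have hp : ((∏ w, uu j Z w ^ m w : ℂˣ) : ℂ) * q ^ (∑ w, m w) = ∏ x, eig Z x ^ e x := by
    rw [← Equiv.prod_comp E]
    have h1 : q ^ (∑ w, m w) = ∏ w, q ^ m w := by
      exact prod_zp hq _ _
    rw [h1, Units.coe_prod, ← Finset.prod_mul_distrib]
    refine Finset.prod_congr rfl fun w _ => ?_
    have h2 : e (E w) = 2 * m w := he w
    rw [h2, zpow_mul, Units.val_zpow_eq_zpow_val, ← mul_zpow]
    congr 1
    show eig Z (toEmb j Z w) ^ 2 / q * q = _
    rw [div_mul_cancel₀ _ hq]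
    rfl
  have h2 : IsRelation Z e ↔ ∃ n : ℕ, 0 < n ∧ (∏ w, uu j Z w ^ m w) ^ n = 1 := by
    unfold IsRelation
    rw [hs, ← hp, ← hqdef]
    constructor
    · rintro ⟨m', n, hn, h3, h4⟩
      refine ⟨n, hn, ?_⟩
      have hm : m' = ∑ w, m w := by omega
      rw [hm, mul_pow] at h4
      have h5 : (q ^ (∑ w, m w)) ^ n ≠ 0 := pow_ne_zero _ (zpow_ne_zero _ hq)
      have h6 : ((∏ w, uu j Z w ^ m w : ℂˣ) : ℂ) ^ n = 1 := by
        have h7 : ((∏ w, uu j Z w ^ m w : ℂˣ) : ℂ) ^ n * (q ^ (∑ w, m w)) ^ n = 1 * (q ^ (∑ w, m w)) ^ n := by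
          rw [one_mul]
          exact h4
        exact mul_right_cancel₀ h5 h7
      apply Units.ext
      rw [Units.val_pow_eq_pow_val, h6]
      rfl
    · rintro ⟨n, hn, h4⟩
      refine ⟨∑ w, m w, n, hn, rfl, ?_⟩
      have h6 : ((∏ w, uu j Z w ^ m w : ℂˣ) : ℂ) ^ n = 1 := by
        rw [← Units.val_pow_eq_pow_val, h4]
        rfl
      rw [mul_pow, h6, one_mul]
  rw [← h2, hrel, hs]
  constructor
  · rintro ⟨-, h3⟩ σ
    have h4 := h3 σ
    simp only [he, mul_assoc] at h4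
    rw [← Finset.mul_sum] at h4
    linarith
  · intro h3
    refine ⟨⟨∑ w, m w, by ring⟩, fun σ => ?_⟩
    simp only [he, mul_assoc]
    rw [← Finset.mul_sum, h3, mul_zero]

/-- The functions with rational values. -/
def twQ (w : Wt Z.X L) : (L ≃ₐ[ℚ] L) → ℚ := fun σ => ((tw p ν j Z.X w σ : ℤ) : ℚ)

include hZ in
theorem angle_eq : angleRank Z = finrank ℚ (Submodule.span ℚ (Set.range (twQ j Z))) := by
  classical
  have hfin : Finite (Wt Z.X L) := finite_wt j hZ
  let _ : Fintype (Wt Z.X L) := Fintype.ofFinite _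
  have hq := q_ne Z
  have hset : {u : ℂˣ | ∃ w, (u : ℂ) * (p : ℂ) ^ Z.a = eig Z w ^ 2} = Set.range (uu j Z) := by
    ext u
    constructor
    · rintro ⟨w, hw⟩
      obtain ⟨v, rfl⟩ := (toEmb_bijective (j := j) hZ).2 w
      refine ⟨v, Units.ext ?_⟩
      show eig Z (toEmb j Z v) ^ 2 / (p : ℂ) ^ Z.a = u
      rw [← hw, mul_div_cancel_right₀ _ hq]
    · rintro ⟨v, rfl⟩
      refine ⟨toEmb j Z v, ?_⟩
      show eig Z (toEmb j Z v) ^ 2 / (p : ℂ) ^ Z.a * (p : ℂ) ^ Z.a = _
      rw [div_mul_cancel₀ _ hq]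
  unfold angleRank
  rw [hset]
  let C : Subgroup ℂˣ := Subgroup.closure (Set.range (uu j Z))
  let c : Wt Z.X L → Additive C := fun w => Additive.ofMul ⟨uu j Z w, Subgroup.subset_closure ⟨w, rfl⟩⟩
  let F : (Wt Z.X L → ℤ) →ₗ[ℤ] Additive C := Fintype.linearCombination ℤ c
  have hF : ∀ m, (((F m).toMul : C) : ℂˣ) = ∏ w, uu j Z w ^ m w := by
    intro m
    have h1 : F m = ∑ w, m w • c w := Fintype.linearCombination_apply ℤ c m
    have h2 : (F m).toMul = ∏ w, (c w).toMul ^ m w := by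
      rw [h1]
      rfl
    rw [h2]
    have h3 : ((∏ w, (c w).toMul ^ m w : C) : ℂˣ) = ∏ w, (((c w).toMul ^ m w : C) : ℂˣ) := by
      exact map_prod C.subtype _ _
    rw [h3]
    rfl
  have hF0 : ∀ m (n : ℕ), n • F m = 0 ↔ (∏ w, uu j Z w ^ m w) ^ n = 1 := by
    intro m n
    rw [← hF]
    constructor
    · intro h
      have h1 : ((F m).toMul) ^ n = 1 := h
      have h2 := congrArg (fun x : C => (x : ℂˣ)) h1
      simpa using h2
    · intro h
      have h1 : ((F m).toMul) ^ n = 1 := by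
        apply Subtype.ext
        simpa using h
      exact h1
  refine Pool.Agent.K4H21.TL.finrank_eq_of F ?_ (twQ j Z) ?_ ?_
  · intro x
    have h1 : ∀ u ∈ C, ∃ m : Wt Z.X L → ℤ, ∏ w, uu j Z w ^ m w = u := by
      intro u hu
      induction hu using Subgroup.closure_induction with
      | mem u hu =>
        obtain ⟨v, rfl⟩ := hu
        refine ⟨Pi.single v 1, ?_⟩
        rw [Finset.prod_eq_single v]
        · rw [Pi.single_eq_same, zpow_one]
        · intro b _ hb
          rw [Pi.single_eq_of_ne hb, zpow_zero]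
        · intro h
          exact absurd (Finset.mem_univ v) h
      | one => exact ⟨0, by simp⟩
      | mul u v _ _ hu hv =>
        obtain ⟨m, hm⟩ := hu
        obtain ⟨m', hm'⟩ := hv
        refine ⟨m + m', ?_⟩
        rw [← hm, ← hm', ← Finset.prod_mul_distrib]
        exact Finset.prod_congr rfl fun w _ => by rw [Pi.add_apply, zpow_add]
      | inv u _ hu =>
        obtain ⟨m, hm⟩ := hu
        refine ⟨-m, ?_⟩
        rw [← hm, ← Finset.prod_inv_distrib]
        exact Finset.prod_congr rfl fun w _ => by rw [Pi.neg_apply, zpow_neg]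
    obtain ⟨m, hm⟩ := h1 x.toMul x.toMul.2
    refine ⟨m, ?_⟩
    have h2 : (F m).toMul = x.toMul := Subtype.ext ((hF m).trans hm)
    exact h2
  · intro m hm
    have h1 := (hF0 m 1).1 (by rw [hm, smul_zero])
    have h2 := (uu_rel j Z hZ m).1 ⟨1, one_pos, h1⟩
    funext σ
    rw [Finset.sum_apply, Pi.zero_apply]
    have h3 := h2 σ
    have h4 : ∑ i, (m i • twQ j Z i) σ = ((∑ w, m w * tw p ν j Z.X w σ : ℤ) : ℚ) := by
      push_cast
      refine Finset.sum_congr rfl fun w _ => ?_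
      rw [Pi.smul_apply, zsmul_eq_mul]
      rfl
    rw [h4, h3, Int.cast_zero]
  · intro m hm
    have h2 : ∀ σ, ∑ w, m w * tw p ν j Z.X w σ = 0 := by
      intro σ
      have h3 := congrFun hm σ
      rw [Finset.sum_apply, Pi.zero_apply] at h3
      have h4 : ∑ i, (m i • twQ j Z i) σ = ((∑ w, m w * tw p ν j Z.X w σ : ℤ) : ℚ) := by
        push_cast
        refine Finset.sum_congr rfl fun w _ => ?_
        rw [Pi.smul_apply, zsmul_eq_mul]
        rfl
      rw [h4] at h3
      exact_mod_cast h3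
    obtain ⟨n, hn, h3⟩ := (uu_rel j Z hZ m).2 h2
    refine ⟨n, by exact_mod_cast hn.ne', ?_⟩
    have h4 := (hF0 m n).2 h3
    rw [natCast_zsmul]
    exact h4

/-! ### The rank of the relations -/

/-- the nonzero functions -/
def NN : Set ((L ≃ₐ[ℚ] L) → ℤ) := {f | f ∈ Set.range (tw p ν j Z.X) ∧ f ≠ 0}

/-- half of them -/
def HH : Set (TB p ν j) := {f | f.1 ∈ NN j Z ∧ WellOrderingRel f.1 (-f.1)}

theorem neg_mem_range {f : (L ≃ₐ[ℚ] L) → ℤ} (h : f ∈ Set.range (tw p ν j Z.X)) :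
    -f ∈ Set.range (tw p ν j Z.X) := by
  obtain ⟨w, rfl⟩ := h
  exact ⟨cw Z w, tw_cw w⟩

theorem range_mem_FB {f : (L ≃ₐ[ℚ] L) → ℤ} (h : f ∈ Set.range (tw p ν j Z.X)) : f ∈ FB p ν j := by
  obtain ⟨w, rfl⟩ := h
  have h1 : tw p ν j Z.X w = tf p ν j (hs (Z.X.factor w.1) j w.2) := (tf_hs j (Z.X.factor w.1) w.2).symm
  rw [h1]
  exact mem_FB j _

theorem ne_neg {f : (L ≃ₐ[ℚ] L) → ℤ} (h : f ≠ 0) : f ≠ -f := by
  intro h1
  apply h
  funext σ
  have h2 := congrFun h1 σ
  rw [Pi.neg_apply] at h2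
  rw [Pi.zero_apply]
  omega

theorem tri {f : (L ≃ₐ[ℚ] L) → ℤ} (h : f ≠ 0) : WellOrderingRel f (-f) ∨ WellOrderingRel (-f) f := by
  rcases trichotomous_of WellOrderingRel f (-f) with h1 | h1 | h1
  · exact Or.inl h1
  · exact absurd h1 (ne_neg h)
  · exact Or.inr h1

theorem asy {f : (L ≃ₐ[ℚ] L) → ℤ} (h : WellOrderingRel f (-f)) (h' : WellOrderingRel (-f) f) : False :=
  asymm_of WellOrderingRel h h'

noncomputable instance fintHH : Fintype (HH j Z) := Fintype.ofFinite _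

/-- the linear map -/
def BB : (HH j Z → ℤ) →ₗ[ℤ] ((L ≃ₐ[ℚ] L) → ℤ) :=
  Fintype.linearCombination ℤ fun h : HH j Z => (h.1.1 : (L ≃ₐ[ℚ] L) → ℤ)

theorem BB_apply (b : HH j Z → ℤ) (σ : L ≃ₐ[ℚ] L) : BB j Z b σ = ∑ h, b h * h.1.1 σ := by
  unfold BB
  rw [Fintype.linearCombination_apply, Finset.sum_apply]
  exact Finset.sum_congr rfl fun h _ => by rw [Pi.smul_apply, smul_eq_mul]

open Classical in
/-- the odd function -/
def PP : (HH j Z → ℤ) →ₗ[ℤ] (TB p ν j → ℤ) where
  toFun b := fun f => ∑ h : HH j Z, b h * ((if f = h.1 then 1 else 0) - (if f.1 = -h.1.1 then 1 else 0))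
  map_add' a b := by
    funext f
    rw [Pi.add_apply, ← Finset.sum_add_distrib]
    exact Finset.sum_congr rfl fun h _ => by rw [Pi.add_apply]; ring
  map_smul' c b := by
    funext f
    rw [Pi.smul_apply, smul_eq_mul, RingHom.id_apply, Finset.mul_sum]
    exact Finset.sum_congr rfl fun h _ => by rw [Pi.smul_apply, smul_eq_mul]; ring

open Classical in
theorem PP_apply (b : HH j Z → ℤ) (f : TB p ν j) : PP j Z b f =
    ∑ h : HH j Z, b h * ((if f = h.1 then 1 else 0) - (if f.1 = -h.1.1 then 1 else 0)) := rfl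

theorem HH_excl {f h : TB p ν j} (hf : f ∈ HH j Z) (hh : h ∈ HH j Z) (e : f.1 = -h.1) : False := by
  have h1 := hf.2
  have h2 := hh.2
  rw [e, neg_neg] at h1
  exact asy h2 h1

theorem PP_pos (b : HH j Z → ℤ) (h : HH j Z) : PP j Z b h.1 = b h := by
  classical
  rw [PP_apply, Finset.sum_eq_single h]
  · rw [if_pos rfl, if_neg (fun e => HH_excl j Z h.2 h.2 e), sub_zero, mul_one]
  · intro k _ hk
    rw [if_neg (fun e => hk (Subtype.ext e.symm)), if_neg (fun e => HH_excl j Z h.2 k.2 e), sub_zero, mul_zero]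
  · intro h1
    exact absurd (Finset.mem_univ h) h1

theorem PP_neg (b : HH j Z → ℤ) (h : HH j Z) {f : TB p ν j} (hf : f.1 = -h.1.1) : PP j Z b f = -b h := by
  classical
  rw [PP_apply, Finset.sum_eq_single h]
  · rw [if_neg, if_pos hf]
    · ring
    · rintro rfl
      exact HH_excl j Z h.2 h.2 hf
  · intro k _ hk
    rw [if_neg, if_neg, sub_zero, mul_zero]
    · intro e
      apply hk
      apply Subtype.ext
      apply Subtype.ext
      rw [hf] at e
      exact (neg_injective e).symm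
    · rintro rfl
      exact HH_excl j Z k.2 h.2 hf
  · intro h1
    exact absurd (Finset.mem_univ h) h1

theorem PP_zero (b : HH j Z → ℤ) {f : TB p ν j} (h1 : ∀ h : HH j Z, f ≠ h.1) (h2 : ∀ h : HH j Z, f.1 ≠ -h.1.1) :
    PP j Z b f = 0 := by
  classical
  rw [PP_apply]
  refine Finset.sum_eq_zero fun h _ => ?_
  rw [if_neg (h1 h), if_neg (h2 h), sub_zero, mul_zero]

theorem PP_inj : Function.Injective (PP j Z) := by
  intro a b hab
  funext h
  rw [← PP_pos j Z a h, ← PP_pos j Z b h, hab]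

/-- the negative of an element -/
def nh (h : HH j Z) : TB p ν j := ⟨-h.1.1, range_mem_FB j Z (neg_mem_range j Z h.2.1.1)⟩

theorem PP_sum (b : HH j Z → ℤ) (σ : L ≃ₐ[ℚ] L) : ∑ f : TB p ν j, PP j Z b f * f.1 σ = 2 * BB j Z b σ := by
  classical
  rw [BB_apply, Finset.mul_sum]
  simp only [PP_apply, Finset.sum_mul]
  rw [Finset.sum_comm]
  refine Finset.sum_congr rfl fun h _ => ?_
  have h1 : ∀ f : TB p ν j, (f.1 = -h.1.1) ↔ (f = nh j Z h) := fun f =>
    ⟨fun e => Subtype.ext e, fun e => by rw [e]; rfl⟩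
  have h2 : ∀ f : TB p ν j, b h * ((if f = h.1 then 1 else 0) - (if f.1 = -h.1.1 then 1 else 0)) * f.1 σ =
      (if f = h.1 then b h * f.1 σ else 0) - (if f = nh j Z h then b h * f.1 σ else 0) := by
    intro f
    simp only [h1]
    split_ifs <;> ring
  rw [Finset.sum_congr rfl fun f _ => h2 f, Finset.sum_sub_distrib, Finset.sum_ite_eq', Finset.sum_ite_eq',
    if_pos (Finset.mem_univ _), if_pos (Finset.mem_univ _)]
  show b h * h.1.1 σ - b h * (-h.1.1) σ = _
  rw [Pi.neg_apply]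
  ring

/-- the three cases -/
theorem cases3 (f : TB p ν j) : (∃ h : HH j Z, f = h.1) ∨ (∃ h : HH j Z, f.1 = -h.1.1) ∨ f.1 ∉ NN j Z := by
  by_cases hf : f.1 ∈ NN j Z
  · rcases tri hf.2 with h | h
    · exact Or.inl ⟨⟨f, hf, h⟩, rfl⟩
    · refine Or.inr (Or.inl ⟨⟨⟨-f.1, range_mem_FB j Z (neg_mem_range j Z hf.1)⟩,
        ⟨neg_mem_range j Z hf.1, fun e => hf.2 (neg_eq_zero.1 e)⟩, ?_⟩, ?_⟩)
      · show WellOrderingRel (-f.1) (- -f.1)
        rw [neg_neg]
        exact h
      · show f.1 = - -f.1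
        rw [neg_neg]
  · exact Or.inr (Or.inr hf)

theorem LamT_eq : LamT j Z = (LinearMap.ker (BB j Z)).map (PP j Z) := by
  classical
  ext a
  rw [Submodule.mem_map]
  constructor
  · intro ha
    have h1 : ∀ f, a f ≠ 0 → f.1 ∈ Set.range (tw p ν j Z.X) := ha.1
    have h2 : ∀ f f' : TB p ν j, f'.1 = -f.1 → a f' = -a f := ha.2.1
    have h3 : ∀ σ, ∑ f, a f * f.1 σ = 0 := ha.2.2
    have h0 : ∀ f : TB p ν j, f.1 ∉ NN j Z → a f = 0 := by
      intro f hf
      by_contra hne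
      have h4 := h1 f hne
      have h5 : f.1 = 0 := by
        by_contra h6
        exact hf ⟨h4, h6⟩
      have h6 := h2 f f (by rw [h5, neg_zero])
      apply hne
      omega
    have hP : PP j Z (fun h => a h.1) = a := by
      funext f
      rcases cases3 j Z f with ⟨h, rfl⟩ | ⟨h, hf⟩ | hf
      · exact PP_pos j Z _ h
      · rw [PP_neg j Z _ h hf]
        exact (h2 _ _ hf).symm
      · rw [PP_zero, h0 f hf]
        · rintro h rfl
          exact hf h.2.1
        · intro h e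
          apply hf
          rw [e]
          exact ⟨neg_mem_range j Z h.2.1.1, fun e => h.2.1.2 (neg_eq_zero.1 e)⟩
    refine ⟨fun h => a h.1, ?_, hP⟩
    rw [LinearMap.mem_ker]
    funext σ
    have h4 := PP_sum j Z (fun h => a h.1) σ
    rw [hP, h3] at h4
    rw [Pi.zero_apply]
    omega
  · rintro ⟨b, hb, rfl⟩
    rw [LinearMap.mem_ker] at hb
    refine ⟨fun f hf => ?_, fun f f' hff => ?_, fun σ => ?_⟩
    · rcases cases3 j Z f with ⟨h, rfl⟩ | ⟨h, hf'⟩ | hf'
      · exact h.2.1.1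
      · rw [hf']
        exact neg_mem_range j Z h.2.1.1
      · exfalso
        apply hf
        rw [PP_zero]
        · rintro h rfl
          exact hf' h.2.1
        · intro h e
          apply hf'
          rw [e]
          exact ⟨neg_mem_range j Z h.2.1.1, fun e => h.2.1.2 (neg_eq_zero.1 e)⟩
    · rcases cases3 j Z f with ⟨h, rfl⟩ | ⟨h, hf⟩ | hf
      · rw [PP_pos, PP_neg j Z b h hff]
      · have h4 : f' = h.1 := by
          apply Subtype.ext
          rw [hff, hf, neg_neg]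
        rw [h4, PP_pos, PP_neg j Z b h hf, neg_neg]
      · have hf' : f'.1 ∉ NN j Z := by
          intro h4
          apply hf
          rw [hff] at h4
          refine ⟨?_, fun e => h4.2 (by rw [e, neg_zero])⟩
          have h5 := neg_mem_range j Z h4.1
          rwa [neg_neg] at h5
        have key : ∀ g : TB p ν j, g.1 ∉ NN j Z → PP j Z b g = 0 := by
          intro g hg
          rw [PP_zero]
          · rintro h rfl
            exact hg h.2.1
          · intro h e
            apply hg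
            rw [e]
            exact ⟨neg_mem_range j Z h.2.1.1, fun e => h.2.1.2 (neg_eq_zero.1 e)⟩
        rw [key f hf, key f' hf', neg_zero]
    · rw [PP_sum, hb, Pi.zero_apply, mul_zero]

/-- half of the functions, with rational values -/
def hQ (h : HH j Z) : (L ≃ₐ[ℚ] L) → ℚ := fun σ => ((h.1.1 σ : ℤ) : ℚ)

theorem span_eq : Submodule.span ℚ (Set.range (hQ j Z)) = Submodule.span ℚ (Set.range (twQ j Z)) := by
  apply le_antisymm
  · rw [Submodule.span_le]
    rintro _ ⟨h, rfl⟩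
    obtain ⟨w, hw⟩ := h.2.1.1
    apply Submodule.subset_span
    refine ⟨w, ?_⟩
    funext σ
    show ((tw p ν j Z.X w σ : ℤ) : ℚ) = ((h.1.1 σ : ℤ) : ℚ)
    rw [← hw]
  · rw [Submodule.span_le]
    rintro _ ⟨w, rfl⟩
    rcases cases3 j Z (⟨tw p ν j Z.X w, range_mem_FB j Z ⟨w, rfl⟩⟩ : TB p ν j) with ⟨h, hh⟩ | ⟨h, hh⟩ | hh
    · apply Submodule.subset_span
      refine ⟨h, ?_⟩
      funext σ
      show ((h.1.1 σ : ℤ) : ℚ) = ((tw p ν j Z.X w σ : ℤ) : ℚ)
      rw [← hh]
    · have h1 : twQ j Z w = -hQ j Z h := by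
        funext σ
        show ((tw p ν j Z.X w σ : ℤ) : ℚ) = -((h.1.1 σ : ℤ) : ℚ)
        have h2 : tw p ν j Z.X w = -h.1.1 := hh
        rw [h2, Pi.neg_apply, Int.cast_neg]
      show twQ j Z w ∈ _
      rw [h1]
      exact Submodule.neg_mem _ (Submodule.subset_span ⟨h, rfl⟩)
    · have h1 : twQ j Z w = 0 := by
        have h2 : tw p ν j Z.X w = 0 := by
          by_contra h3
          exact hh ⟨⟨w, rfl⟩, h3⟩
        funext σ
        show ((tw p ν j Z.X w σ : ℤ) : ℚ) = 0
        rw [h2, Pi.zero_apply, Int.cast_zero]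
      show twQ j Z w ∈ _
      rw [h1]
      exact Submodule.zero_mem _

theorem rank_range : finrank ℤ (LinearMap.range (BB j Z)) = finrank ℚ (Submodule.span ℚ (Set.range (twQ j Z))) := by
  rw [← span_eq]
  have hsum : ∀ (m : HH j Z → ℤ) (σ : L ≃ₐ[ℚ] L), (∑ i, m i • hQ j Z i) σ = ((BB j Z m σ : ℤ) : ℚ) := by
    intro m σ
    rw [Finset.sum_apply, BB_apply]
    push_cast
    refine Finset.sum_congr rfl fun h _ => ?_
    rw [Pi.smul_apply, zsmul_eq_mul]
    rfl
  refine Pool.Agent.K4H21.TL.finrank_eq_of (BB j Z).rangeRestrict (LinearMap.surjective_rangeRestrict _)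
    (hQ j Z) ?_ ?_
  · intro m hm
    have h1 : BB j Z m = 0 := congrArg Subtype.val hm
    funext σ
    rw [hsum, h1, Pi.zero_apply, Pi.zero_apply, Int.cast_zero]
  · intro m hm
    refine ⟨1, one_ne_zero, ?_⟩
    rw [one_smul]
    apply Subtype.ext
    funext σ
    have h1 := congrFun hm σ
    rw [hsum, Pi.zero_apply] at h1
    show BB j Z m σ = 0
    exact_mod_cast h1

theorem rank_LamT : finrank ℤ (LamT j Z) + finrank ℚ (Submodule.span ℚ (Set.range (twQ j Z))) =
    Fintype.card (HH j Z) := by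
  rw [LamT_eq, ← rank_range]
  have h1 : finrank ℤ ((LinearMap.ker (BB j Z)).map (PP j Z)) = finrank ℤ (LinearMap.ker (BB j Z)) :=
    (Submodule.equivMapOfInjective (PP j Z) (PP_inj j Z) (LinearMap.ker (BB j Z))).finrank_eq.symm
  have h2 := Submodule.finrank_quotient_add_finrank (LinearMap.ker (BB j Z))
  rw [(BB j Z).quotKerEquivRange.finrank_eq, Module.finrank_fintype_fun_eq_card] at h2
  rw [h1, add_comm]
  exact h2

include hZ in
theorem numEig_eq : numEig Z = 2 * Fintype.card (HH j Z) := by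
  classical
  have hbij := toEmb_bijective (j := j) hZ
  have hfin : Finite (Wt Z.X L) := finite_wt j hZ
  let Cl : ((L ≃ₐ[ℚ] L) → ℤ) → Set (Emb Z) := fun f => {w' | ∃ v, toEmb j Z v = w' ∧ tw p ν j Z.X v = f}
  have hset : {C : Set (Emb Z) | ∃ w, ¬ IsSuper Z w ∧ C = {w' | SameEig Z w w'}} = Cl '' NN j Z := by
    ext C
    constructor
    · rintro ⟨w, hw, rfl⟩
      obtain ⟨v, rfl⟩ := hbij.2 w
      refine ⟨tw p ν j Z.X v, ⟨⟨v, rfl⟩, fun h => hw ((super_iff j Z hZ v).2 h)⟩, ?_⟩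
      ext w'
      constructor
      · rintro ⟨v', rfl, h⟩
        exact (same_iff j Z hZ v v').2 h.symm
      · intro h
        obtain ⟨v', rfl⟩ := hbij.2 w'
        exact ⟨v', rfl, ((same_iff j Z hZ v v').1 h).symm⟩
    · rintro ⟨f, ⟨⟨v, rfl⟩, hf⟩, rfl⟩
      refine ⟨toEmb j Z v, fun h => hf ((super_iff j Z hZ v).1 h), ?_⟩
      ext w'
      constructor
      · rintro ⟨v', rfl, h⟩
        exact (same_iff j Z hZ v v').2 h.symm
      · intro h
        obtain ⟨v', rfl⟩ := hbij.2 w'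
        exact ⟨v', rfl, ((same_iff j Z hZ v v').1 h).symm⟩
  have hinj : Set.InjOn Cl (NN j Z) := by
    rintro f ⟨⟨v, rfl⟩, -⟩ f' - h
    have h1 : toEmb j Z v ∈ Cl (tw p ν j Z.X v) := ⟨v, rfl, rfl⟩
    rw [h] at h1
    obtain ⟨v', h2, h3⟩ := h1
    rw [hbij.1 h2] at h3
    exact h3
  have hN : NN j Z = (fun f : TB p ν j => f.1) '' HH j Z ∪ (fun f : TB p ν j => -f.1) '' HH j Z := by
    ext f
    constructor
    · intro hf
      rcases cases3 j Z (⟨f, range_mem_FB j Z hf.1⟩ : TB p ν j) with ⟨h, hh⟩ | ⟨h, hh⟩ | hh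
      · exact Or.inl ⟨h.1, h.2, by rw [← hh]⟩
      · exact Or.inr ⟨h.1, h.2, hh.symm⟩
      · exact absurd hf hh
    · rintro (⟨h, hh, rfl⟩ | ⟨h, hh, rfl⟩)
      · exact hh.1
      · exact ⟨neg_mem_range j Z hh.1.1, fun e => hh.1.2 (neg_eq_zero.1 e)⟩
  have hdis : Disjoint ((fun f : TB p ν j => f.1) '' HH j Z) ((fun f : TB p ν j => -f.1) '' HH j Z) := by
    rw [Set.disjoint_left]
    rintro _ ⟨f, hf, rfl⟩ ⟨h, hh, e⟩
    exact HH_excl j Z hf hh e.symm
  unfold numEig
  have hinj2 : Function.Injective (fun f : TB p ν j => -f.1) := fun f f' e => Subtype.ext (neg_injective e)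
  rw [hset, hinj.ncard_image, hN, Set.ncard_union_eq hdis (Set.toFinite _) (Set.toFinite _),
    Set.ncard_image_of_injective _ Subtype.val_injective, Set.ncard_image_of_injective _ hinj2,
    ← Nat.card_coe_set_eq, Nat.card_eq_fintype_card]
  ring

end Rk

theorem rk_main : S_rk := by
  intro p _ ν Z L _ _ _ _ j hZ
  rw [Rk.numEig_eq j Z hZ, Rk.angle_eq j Z hZ, Rk.rank_LamT j Z]

end

end Pool.Agent.K4H21.TF
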