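import Mathlib
import Pool.Agent.W366.TA.Val

/-!
# Elements which are fixed by the decomposition group
-/

set_option autoImplicit false

namespace Pool.Agent.K4H21.TF

open NumberField Pool.Agent.H204R3.CM Pool.Agent.W547.KB Pool.Agent.W547.LD Pool.Agent.W495.TA

/-- If a square root of `-d` is fixed by the decomposition group, then `-d` is a square in `ℚ_p`. -/
theorem square_of_fixed (p : ℕ) [Fact p.Prime] (ν : PadicAlgCl p ≃+* ℂ) (L : Type) [Field L]
    [NumberField L] [IsCMField L] [IsGalois ℚ L] (j : L →+* ℂ) (z : L) (d : ℚ)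
    (hz : z * z = -(d : L)) (h : ∀ t ∈ Dec p ν j, t z = z) : IsSquare (-((d : ℚ) : ℚ_[p])) := by
  have hfix : ∀ τ : PadicAlgCl p ≃ₐ[ℚ_[p]] PadicAlgCl p, τ (ν.symm (j z)) = ν.symm (j z) := by
    intro τ
    let ψ : L →+* ℂ := (ν : PadicAlgCl p →+* ℂ).comp
      ((((τ : PadicAlgCl p ≃ₐ[ℚ_[p]] PadicAlgCl p) : PadicAlgCl p →+* PadicAlgCl p)).comp
        ((ν.symm : ℂ →+* PadicAlgCl p).comp j))
    obtain ⟨t, ht⟩ := comp_surjective j ψ
    have ht2 : ∀ x, j (t x) = ν (τ (ν.symm (j x))) := fun x => RingHom.congr_fun ht x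
    have h1 := h t ⟨τ, ht2⟩
    have h2 := ht2 z
    rw [h1] at h2
    apply ν.injective
    rw [← h2, ν.apply_symm_apply]
  have : IsGalois ℚ_[p] (PadicAlgCl p) := by
    unfold PadicAlgCl
    infer_instance
  have h3 := (InfiniteGalois.mem_range_algebraMap_iff_fixed (ν.symm (j z))).mpr hfix
  obtain ⟨c, hc⟩ := h3
  refine ⟨c, ?_⟩
  apply (algebraMap ℚ_[p] (PadicAlgCl p)).injective
  rw [map_mul, hc, ← map_mul, ← map_mul, hz, map_neg, map_neg, map_neg, map_ratCast, map_ratCast,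
    map_ratCast]

end Pool.Agent.K4H21.TF
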