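import Pool.Agent.K4H21.TF.WeilC
import Pool.Agent.K4H21.TF.Utl

/-!
# The weights of split Weil classes: the statement in terms of slopes
-/

set_option autoImplicit false
set_option linter.unusedSectionVars false
set_option linter.unusedVariables false

namespace Pool.Agent.K4H21.TF

open Module NumberField Pool.Agent.W547.KB Pool.Agent.W547.LD
open Pool.Agent.K4H21.DB (signs)

noncomputable section

theorem weil_wt : S_wt := by
  intro p _ ν N y hW X n hn f hf inst c hc I hI
  classical
  let yy : ((ℂ ≃+* ℂ) → ℚ) → ℤ := fun s =>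
    if h : ∃ (A : CMPair) (φ : A.E →+* ℂ), signs A φ = s then
      y (slf p ν h.choose h.choose_spec.choose) else 0
  have hyy : ∀ (A : CMPair) (φ : A.E →+* ℂ), yy (signs A φ) = y (slf p ν A φ) := by
    intro A φ
    have h : ∃ (A' : CMPair) (φ' : A'.E →+* ℂ), signs A' φ' = signs A φ := ⟨A, φ, rfl⟩
    change (if h : ∃ (A' : CMPair) (φ' : A'.E →+* ℂ), signs A' φ' = signs A φ then
      y (slf p ν h.choose h.choose_spec.choose) else 0) = _
    rw [dif_pos h, slf_signs h.choose_spec.choose_spec]
  obtain rfl : inst = (Sigma.instFintype : Fintype (Wt X ℂ)) := Subsingleton.elim _ _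
  have h1 := wt_core hW.pos yy
    (fun A φ => by
      rw [hyy, hyy]
      exact hW.pair A A φ _ fun τ => slf_conj A φ τ)
    (fun A δ d z hd hδ hb => by
      have h2 := hW.weil A δ d z hd hδ hb
      rwa [Finset.sum_congr rfl fun φ _ => (hyy A φ).symm] at h2)
    X hn f hf c hc I hI
  rwa [Finset.sum_congr rfl fun k _ => hyy _ _] at h1

end

end Pool.Agent.K4H21.TF
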