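import Mathlib
import Pool.Agent.K4H21.TF.Defs3
import Pool.Agent.K4H21.TF.CoreT
import Pool.Agent.K4H21.TF.Stms4
import Pool.Agent.K4H21.TF.OneT
import Pool.Agent.K4H21.TF.PosM
import Pool.Agent.K4H21.TF.Chr
import Pool.Agent.K4H21.TF.Neg
import Pool.Agent.K4H21.TF.Op
import Pool.Agent.K4H21.TF.WeilW
import Pool.Agent.K4H21.TF.Ker
import Pool.Agent.K4H21.TF.RkT
import Pool.Agent.K4H21.TF.Spl

/-!
# The main theorems
-/

set_option autoImplicit false
set_option linter.unusedSectionVars false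
set_option linter.unusedVariables false

namespace Pool.Agent.K4H21.TF

open NumberField Pool.Agent.H204R3.CM Pool.Agent.W547.KB Pool.Agent.W547.LD Module
  Pool.Agent.W495.TA Pool.Agent.W495.TB Pool.Agent.W495.TC Pool.Agent.TH117.BL

noncomputable section

variable {p : ℕ} [Fact p.Prime] {ν : PadicAlgCl p ≃+* ℂ}

/-- **The exact criterion.** -/
theorem crit (Ω : Type) [Field Ω] [IsAlgClosed Ω] [CharZero Ω] (Z : RedAV p ν) :
    AllTate Ω Z ↔ ∀ e, IsRelation Z e → e ∈ Gen Z := by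
  constructor
  · intro h e he
    by_contra hg
    obtain ⟨Y, s, m, f, hY, hs, hf, hA⟩ :=
      neg (chr slf_main rel_main) fix weil_wt rel_main p ν Z e he hg Ω
    exact hA (h Y hY s m hs f hf)
  · intro h Y hY s m hs f hf
    exact pos_dir Z h Ω Y hY s m hs f hf

/-- The numerical criterion. -/
theorem num_main : S_num := num_of ker_main rk_main square_of_fixed

theorem num_all (Ω : Type) [Field Ω] [IsAlgClosed Ω] [CharZero Ω] (Z : RedAV p ν) (r : ℕ)
    (W : Fin r → QuadDatum Z)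
    (h1 : ∀ i k, i ≠ k → ∀ φ ψ, ¬ SameEig Z ((W i).θ φ) ((W k).θ ψ))
    (h2 : numEig Z / 2 + ((fun i => (W i).d) '' {i | (W i).Unbalanced}).ncard ≤ angleRank Z + r) :
    AllTate Ω Z := (crit Ω Z).2 (num_main p ν Z r W h1 h2)

theorem numEig_simple (Z : RedAV p ν) (i₀ : Z.X.I) (H : SimpleTimesSuper Z i₀) :
    numEig Z = finrank ℚ (Z.X.factor i₀).E := by
  have h1 : {C : Set (Emb Z) | ∃ w, ¬ IsSuper Z w ∧ C = {w' | SameEig Z w w'}} =
      Set.range (fun φ : (Z.X.factor i₀).E →+* ℂ => {w' : Emb Z | SameEig Z ⟨i₀, φ⟩ w'}) := by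
    ext C
    constructor
    · rintro ⟨⟨i, φ⟩, hw, rfl⟩
      have hi : i = i₀ := by
        by_contra hne
        exact hw (H.other ⟨i, φ⟩ hne)
      subst hi
      exact ⟨φ, rfl⟩
    · rintro ⟨φ, rfl⟩
      exact ⟨⟨i₀, φ⟩, not_super H φ, rfl⟩
  have hinj : Function.Injective
      (fun φ : (Z.X.factor i₀).E →+* ℂ => {w' : Emb Z | SameEig Z ⟨i₀, φ⟩ w'}) := by
    intro φ φ' h
    by_contra hne
    have h2 : (⟨i₀, φ'⟩ : Emb Z) ∈ {w' : Emb Z | SameEig Z ⟨i₀, φ'⟩ w'} := ⟨1, one_pos, rfl⟩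
    have h3 : {w' : Emb Z | SameEig Z ⟨i₀, φ⟩ w'} = {w' : Emb Z | SameEig Z ⟨i₀, φ'⟩ w'} := h
    rw [← h3] at h2
    exact H.inj φ φ' hne h2
  unfold numEig
  rw [h1, ← Set.image_univ, Set.ncard_image_of_injective _ hinj, Set.ncard_univ,
    Nat.card_eq_fintype_card, NumberField.Embeddings.card]

theorem simple_crit (hquad : S_quad) (Ω : Type) [Field Ω] [IsAlgClosed Ω] [CharZero Ω]
    (Z : RedAV p ν) (i₀ : Z.X.I) (H : SimpleTimesSuper Z i₀) :
    AllTate Ω Z ↔ 2 * angleRank Z = numEig Z ∨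
      (2 * (angleRank Z + 1) = numEig Z ∧ ∃ W : QuadDatum Z, ¬ W.Unbalanced) := by
  constructor
  · intro h
    have hall := (crit Ω Z).1 h
    by_cases h1 : 2 * angleRank Z = numEig Z
    · exact Or.inl h1
    · obtain ⟨e₀, φ₀, he₀, hφ₀⟩ := (one_main rk_main p ν Z i₀ H).2 h1
      obtain ⟨C⟩ := core_main p ν Z i₀ H hall e₀ he₀ φ₀ hφ₀
      exact Or.inr ⟨(one_main rk_main p ν Z i₀ H).1 C, hquad p ν Z i₀ H C⟩
  · rintro (h | ⟨h, W, hW⟩)
    · refine num_all Ω Z 0 Fin.elim0 (fun i => i.elim0) ?_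
      have h1 : ((fun i : Fin 0 => (Fin.elim0 i : QuadDatum Z).d) ''
          {i | (Fin.elim0 i : QuadDatum Z).Unbalanced}).ncard = 0 := by
        have h2 : {i : Fin 0 | (Fin.elim0 i : QuadDatum Z).Unbalanced} = ∅ := by
          ext i
          exact i.elim0
        rw [h2, Set.image_empty, Set.ncard_empty]
      rw [h1]
      omega
    · refine num_all Ω Z 1 (fun _ => W) (fun i k hik => absurd (Subsingleton.elim i k) hik) ?_
      have h2 : {i : Fin 1 | ((fun _ : Fin 1 => W) i).Unbalanced} = ∅ := by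
        ext i
        simpa using hW
      rw [h2, Set.image_empty, Set.ncard_empty]
      omega

end

end Pool.Agent.K4H21.TF
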