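import Mathlib
import Pool.Agent.K4H21.TF.MainT
import Pool.Agent.K4H21.TF.Fin12

/-!
# Geometrically simple abelian varieties
-/

set_option autoImplicit false

namespace Pool.Agent.K4H21.TF

open NumberField Pool.Agent.H204R3.CM Pool.Agent.W547.KB Pool.Agent.W547.LD Module
  Pool.Agent.W495.TA Pool.Agent.W495.TB Pool.Agent.W495.TC Pool.Agent.TH117.BL

noncomputable section

variable {p : ℕ} [Fact p.Prime] {ν : PadicAlgCl p ≃+* ℂ}

theorem simple_main (Ω : Type) [Field Ω] [IsAlgClosed Ω] [CharZero Ω]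
    (Z : RedAV p ν) (i₀ : Z.X.I) (H : SimpleTimesSuper Z i₀) :
    AllTate Ω Z ↔ 2 * angleRank Z = numEig Z ∨
      (2 * (angleRank Z + 1) = numEig Z ∧ ∃ W : QuadDatum Z, ¬ W.Unbalanced) :=
  simple_crit quad_main Ω Z i₀ H

theorem twelve (Ω : Type) [Field Ω] [IsAlgClosed Ω] [CharZero Ω]
    (Z : RedAV p ν) (i₀ : Z.X.I) (H : SimpleTimesSuper Z i₀) (h : AllTate Ω Z)
    (h1 : 2 * angleRank Z ≠ numEig Z) : 2 * (angleRank Z + 1) = numEig Z ∧ numEig Z ≤ 12 := by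
  have hall := (crit Ω Z).1 h
  obtain ⟨e₀, φ₀, he₀, hφ₀⟩ := (one_main rk_main p ν Z i₀ H).2 h1
  obtain ⟨C⟩ := core_main p ν Z i₀ H hall e₀ he₀ φ₀ hφ₀
  refine ⟨(one_main rk_main p ν Z i₀ H).1 C, ?_⟩
  rw [numEig_simple Z i₀ H]
  exact fin12 H C

end

end Pool.Agent.K4H21.TF
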