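import Mathlib
import Pool.Agent.K4H21.TF.OneT
import Pool.Agent.K4H21.TF.CoreT
import Pool.Agent.K4H21.TF.RkT
import Pool.Agent.W547.LN.Closure
import Pool.Agent.W547.LD.Split
import Pool.Agent.K4H29.HC.Typ

/-!
# The ordinary case of the classification of the simple abelian varieties
-/

set_option autoImplicit false
set_option linter.unusedSectionVars false
set_option linter.unusedVariables false

namespace Pool.Agent.K4H21.TF

open NumberField Pool.Agent.H204R3.CM Pool.Agent.W547.KB Pool.Agent.W547.LD Module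
  Pool.Agent.W495.TA Pool.Agent.W495.TB Pool.Agent.W495.TC Pool.Agent.TH117.BL
  Pool.Agent.TH117.F5
open Pool.Agent.K4H21.LC (rr rr_spec rr_surj)
open scoped TensorProduct

noncomputable section

namespace OrdT

open OneT

variable {p : ℕ} [Fact p.Prime] {ν : PadicAlgCl p ≃+* ℂ} {L : Type} [Field L] [NumberField L]
  [IsCMField L] [IsGalois ℚ L] {j : L →+* ℂ} {Z : RedAV p ν} {i₀ : Z.X.I}

section rel

variable (other : ∀ w : Emb Z, w.1 ≠ i₀ → IsSuper Z w)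
  (inj : ∀ φ φ' : (Z.X.factor i₀).E →+* ℂ, φ ≠ φ' → ¬ SameEig Z ⟨i₀, φ⟩ ⟨i₀, φ'⟩)

include other in
theorem supp {a : TB p ν j → ℤ} (hZ : Big Z.X j)
    (ha : a ∈ LamT j Z) (f : TB p ν j) (hf : a f ≠ 0) :
    ∃ φ : (Z.X.factor i₀).E →+* ℂ, f = fT hZ ⟨i₀, φ⟩ := by
  obtain ⟨w, hw⟩ := ha.1 f hf
  by_cases h1 : w.1 = i₀
  · obtain ⟨i, ψ⟩ := w
    dsimp only at h1
    subst h1
    refine ⟨j.comp ψ, Subtype.ext ?_⟩
    rw [← hw]
    exact (fT_toEmb hZ ⟨i, ψ⟩).symm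
  · exfalso
    apply hf
    refine odd_zero ha.2.1 f ?_
    rw [← hw]
    exact tw_zero hZ w (other (toEmb j Z w) h1)

include inj in
theorem fT_inj (hZ : Big Z.X j) {φ φ' : (Z.X.factor i₀).E →+* ℂ}
    (h : fT hZ ⟨i₀, φ⟩ = fT hZ ⟨i₀, φ'⟩) : φ = φ' := by
  by_contra hne
  exact inj φ φ' hne (same_of_fT hZ _ _ h)

include inj in
/-- Sums over the functions. -/
theorem sum_fT (hZ : Big Z.X j) (c : TB p ν j → ℤ)
    (hc : ∀ f, c f ≠ 0 → ∃ φ : (Z.X.factor i₀).E →+* ℂ, f = fT hZ ⟨i₀, φ⟩)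
    (g : TB p ν j → ℤ) : ∑ f, c f * g f =
      ∑ φ : (Z.X.factor i₀).E →+* ℂ, c (fT hZ ⟨i₀, φ⟩) * g (fT hZ ⟨i₀, φ⟩) := by
  classical
  have hinj : Function.Injective fun φ : (Z.X.factor i₀).E →+* ℂ => fT hZ ⟨i₀, φ⟩ :=
    fun φ φ' h => fT_inj inj hZ h
  rw [← Finset.sum_image (f := fun f => c f * g f)
    (g := fun φ : (Z.X.factor i₀).E →+* ℂ => fT hZ ⟨i₀, φ⟩) (fun x _ y _ h => hinj h)]
  symm
  refine Finset.sum_subset (Finset.subset_univ _) fun f _ hf => ?_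
  have h1 : c f = 0 := by
    by_contra hne
    obtain ⟨φ, rfl⟩ := hc f hne
    exact hf (Finset.mem_image_of_mem _ (Finset.mem_univ φ))
  rw [h1, zero_mul]

/-- Odd relations between the slope functions. -/
def IsRl (Z : RedAV p ν) (i₀ : Z.X.I) (c : ((Z.X.factor i₀).E →+* ℂ) → ℤ) : Prop :=
  (∀ φ, c (ComplexEmbedding.conjugate φ) = -c φ) ∧
    ∀ τ, ∑ φ, (c φ : ℚ) * (2 * slf p ν (Z.X.factor i₀) φ τ - 1) = 0

include inj in
theorem exists_lam (hZ : Big Z.X j) {c : ((Z.X.factor i₀).E →+* ℂ) → ℤ} (hc : IsRl Z i₀ c) :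
    ∃ a ∈ LamT j Z, ∀ φ, a (fT hZ ⟨i₀, φ⟩) = c φ := by
  classical
  let a0 : TB p ν j → ℤ := fun f => if h : ∃ φ, f = fT hZ ⟨i₀, φ⟩ then c h.choose else 0
  have ha0 : ∀ φ, a0 (fT hZ ⟨i₀, φ⟩) = c φ := by
    intro φ
    have h : ∃ φ', fT hZ ⟨i₀, φ⟩ = fT hZ ⟨i₀, φ'⟩ := ⟨φ, rfl⟩
    have h1 : a0 (fT hZ ⟨i₀, φ⟩) = c h.choose := dif_pos h
    rw [h1, ← fT_inj inj hZ h.choose_spec]
  have ha0' : ∀ f, a0 f ≠ 0 → ∃ φ, f = fT hZ ⟨i₀, φ⟩ := by
    intro f hf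
    by_contra hcon
    exact hf (dif_neg hcon)
  refine ⟨a0, ⟨fun f hf => ?_, fun f f' h => ?_, fun σ => ?_⟩, ha0⟩
  · obtain ⟨φ, rfl⟩ := ha0' f hf
    exact ⟨_, rfl⟩
  · by_cases h1 : ∃ φ, f = fT hZ ⟨i₀, φ⟩
    · obtain ⟨φ, rfl⟩ := h1
      have h2 : f' = fT hZ ⟨i₀, ComplexEmbedding.conjugate φ⟩ := by
        refine Subtype.ext ?_
        rw [h]
        exact (fT_cj hZ ⟨i₀, φ⟩).symm
      rw [h2, ha0, ha0, hc.1]
    · have h2 : ¬ ∃ φ, f' = fT hZ ⟨i₀, φ⟩ := by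
        rintro ⟨φ, hφ⟩
        apply h1
        refine ⟨ComplexEmbedding.conjugate φ, Subtype.ext ?_⟩
        have h3 := fT_cj hZ ⟨i₀, φ⟩
        rw [← hφ, h, neg_neg] at h3
        exact h3.symm
      have e1 : a0 f = 0 := dif_neg h1
      have e2 : a0 f' = 0 := dif_neg h2
      rw [e1, e2, neg_zero]
  · rw [sum_fT inj hZ a0 ha0' (fun f => f.1 σ)]
    obtain ⟨τ, rfl⟩ := rr_surj j σ
    have h1 : ((∑ φ : (Z.X.factor i₀).E →+* ℂ, a0 (fT hZ ⟨i₀, φ⟩) *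
        (fT hZ ⟨i₀, φ⟩).1 (rr j τ) : ℤ) : ℚ) = 0 := by
      push_cast
      have h2 := hc.2 τ
      have h3 : ∀ φ : (Z.X.factor i₀).E →+* ℂ, ((a0 (fT hZ ⟨i₀, φ⟩) : ℤ) : ℚ) *
          (((fT hZ ⟨i₀, φ⟩).1 (rr j τ) : ℤ) : ℚ) = (Nat.card (Dec p ν j) : ℚ) *
            ((c φ : ℚ) * (2 * slf p ν (Z.X.factor i₀) φ τ - 1)) := by
        intro φ
        rw [ha0, fT_slf]
        ring
      rw [Finset.sum_congr rfl fun φ _ => h3 φ, ← Finset.mul_sum, h2, mul_zero]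
    exact_mod_cast h1

include other inj in
theorem isRl_lam (hZ : Big Z.X j) {a : TB p ν j → ℤ} (ha : a ∈ LamT j Z) :
    IsRl Z i₀ fun φ => a (fT hZ ⟨i₀, φ⟩) := by
  classical
  refine ⟨fun φ => ha.2.1 _ _ (fT_cj hZ ⟨i₀, φ⟩), fun τ => ?_⟩
  have h2 := ha.2.2 (rr j τ)
  rw [sum_fT inj hZ a (fun f hf => supp other hZ ha f hf) (fun f => f.1 (rr j τ))] at h2
  have h4 : ((∑ φ : (Z.X.factor i₀).E →+* ℂ, a (fT hZ ⟨i₀, φ⟩) *
        (fT hZ ⟨i₀, φ⟩).1 (rr j τ) : ℤ) : ℚ) = 0 := by rw [h2, Int.cast_zero]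
  push_cast at h4
  have h3 : ∀ φ : (Z.X.factor i₀).E →+* ℂ, ((a (fT hZ ⟨i₀, φ⟩) : ℤ) : ℚ) *
      (((fT hZ ⟨i₀, φ⟩).1 (rr j τ) : ℤ) : ℚ) = (Nat.card (Dec p ν j) : ℚ) *
        ((a (fT hZ ⟨i₀, φ⟩) : ℚ) * (2 * slf p ν (Z.X.factor i₀) φ τ - 1)) := by
    intro φ
    rw [fT_slf]
    ring
  rw [Finset.sum_congr rfl fun φ _ => h3 φ, ← Finset.mul_sum] at h4
  exact (mul_eq_zero.1 h4).resolve_left (dec_ne (p := p) (ν := ν) j)

end rel

/-- Automorphisms of the field of complex numbers commute with the complex conjugation on the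
embeddings of a CM field. -/
theorem comp_conj (A : CMPair) (φ : A.E →+* ℂ) (τ : ℂ ≃+* ℂ) :
    (τ : ℂ →+* ℂ).comp (ComplexEmbedding.conjugate φ) =
      ComplexEmbedding.conjugate ((τ : ℂ →+* ℂ).comp φ) := by
  obtain ⟨L, _, _, _, _, j, hj⟩ := exists_big (single A)
  obtain ⟨ψ, rfl⟩ : ∃ ψ : A.E →+* L, j.comp ψ = φ := hj () φ
  have h1 : ∀ ψ : A.E →+* L, (τ : ℂ →+* ℂ).comp (j.comp ψ) = j.comp (rr j τ • ψ) := fun ψ =>
    RingHom.ext fun x => rr_spec j τ (ψ x)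
  rw [← comp_smul_cc, h1, h1, ← comp_smul_cc, ← mul_smul, ← mul_smul, cc_comm j]

/-- The relations are stable under automorphisms. -/
theorem IsRl.act {c : ((Z.X.factor i₀).E →+* ℂ) → ℤ} (hc : IsRl Z i₀ c) (τ : ℂ ≃+* ℂ) :
    IsRl Z i₀ fun φ => c ((τ : ℂ →+* ℂ).comp φ) := by
  refine ⟨fun φ => ?_, fun σ => ?_⟩
  · change c ((τ : ℂ →+* ℂ).comp (ComplexEmbedding.conjugate φ)) = -c ((τ : ℂ →+* ℂ).comp φ)
    rw [comp_conj, hc.1]
  · have h1 := hc.2 (τ.symm.trans σ)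
    rw [← Equiv.sum_comp (compEquiv (Z.X.factor i₀).E τ)] at h1
    rw [← h1]
    refine Finset.sum_congr rfl fun φ _ => ?_
    change _ = (c ((τ : ℂ →+* ℂ).comp φ) : ℚ) *
      (2 * slf p ν (Z.X.factor i₀) ((τ : ℂ →+* ℂ).comp φ) (τ.symm.trans σ) - 1)
    rw [slf_comp]
    have h2 : τ.trans (τ.symm.trans σ) = σ := RingEquiv.ext fun x => by simp
    rw [h2]

/-- The signs. -/
theorem exists_om (other : ∀ w : Emb Z, w.1 ≠ i₀ → IsSuper Z w)
    (inj : ∀ φ φ' : (Z.X.factor i₀).E →+* ℂ, φ ≠ φ' → ¬ SameEig Z ⟨i₀, φ⟩ ⟨i₀, φ'⟩)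
    (hZ : Big Z.X j) (hr : finrank ℤ (LamT j Z) = 1) :
    ∃ ω : ((Z.X.factor i₀).E →+* ℂ) → ℤ, (∀ φ, ω φ = 1 ∨ ω φ = -1) ∧ IsRl Z i₀ ω ∧
      ∀ τ : ℂ ≃+* ℂ, ∃ x : ℤ, (x = 1 ∨ x = -1) ∧ ∀ φ, ω ((τ : ℂ →+* ℂ).comp φ) = x * ω φ := by
  classical
  let b : Basis Unit ℤ (LamT j Z) := (finrank_eq_one_iff Unit).1 hr |>.some
  set u := b () with hu
  have hgen : ∀ a ∈ LamT j Z, ∃ c : ℤ, a = c • u.1 := by
    intro a ha
    have h1 := b.sum_repr ⟨a, ha⟩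
    rw [Fintype.sum_unique] at h1
    exact ⟨_, (congrArg Subtype.val h1).symm⟩
  have hu0 : u.1 ≠ 0 := fun h => b.ne_zero () (Subtype.ext h)
  let c : ((Z.X.factor i₀).E →+* ℂ) → ℤ := fun φ => u.1 (fT hZ ⟨i₀, φ⟩)
  have hc : IsRl Z i₀ c := isRl_lam other inj hZ u.2
  obtain ⟨f, hf⟩ := Function.ne_iff.1 hu0
  obtain ⟨φ1, rfl⟩ := supp other hZ u.2 f hf
  have hφ1 : c φ1 ≠ 0 := hf
  have hact : ∀ τ : ℂ ≃+* ℂ, ∃ x : ℤ, ∀ φ, c ((τ : ℂ →+* ℂ).comp φ) = x * c φ := by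
    intro τ
    obtain ⟨a, ha, h1⟩ := exists_lam inj hZ (hc.act τ)
    obtain ⟨x, hx⟩ := hgen a ha
    refine ⟨x, fun φ => ?_⟩
    rw [← h1 φ, hx]
    rfl
  have hact' : ∀ τ : ℂ ≃+* ℂ, ∃ x : ℤ, (x = 1 ∨ x = -1) ∧
      ∀ φ, c ((τ : ℂ →+* ℂ).comp φ) = x * c φ := by
    intro τ
    obtain ⟨x, hx⟩ := hact τ
    obtain ⟨y, hy⟩ := hact τ.symm
    refine ⟨x, ?_, hx⟩
    have h1 := hy ((τ : ℂ →+* ℂ).comp φ1)
    have h2 : (τ.symm : ℂ →+* ℂ).comp ((τ : ℂ →+* ℂ).comp φ1) = φ1 :=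
      RingHom.ext fun z => τ.symm_apply_apply _
    rw [h2, hx] at h1
    have h3 : x * y = 1 := by
      apply mul_right_cancel₀ hφ1
      rw [one_mul]
      linarith
    exact Int.isUnit_iff.1 (IsUnit.of_mul_eq_one _ h3)
  have hne : ∀ φ, c φ ≠ 0 ∧ |c φ| = |c φ1| := by
    intro φ
    obtain ⟨σ, rfl⟩ := exists_aut_emb _ φ1 φ
    obtain ⟨x, hx, h⟩ := hact' σ
    rw [h]
    rcases hx with rfl | rfl
    · rw [one_mul]
      exact ⟨hφ1, rfl⟩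
    · rw [neg_one_mul, abs_neg]
      exact ⟨neg_ne_zero.2 hφ1, rfl⟩
  refine ⟨fun φ => Int.sign (c φ), fun φ => ?_, ⟨fun φ => ?_, fun τ => ?_⟩, fun τ => ?_⟩
  · rcases lt_trichotomy (c φ) 0 with h | h | h
    · exact Or.inr (Int.sign_eq_neg_one_of_neg h)
    · exact absurd h (hne φ).1
    · exact Or.inl (Int.sign_eq_one_of_pos h)
  · change Int.sign (c (ComplexEmbedding.conjugate φ)) = -Int.sign (c φ)
    rw [hc.1, Int.sign_neg]
  · have h5 := hc.2 τ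
    have h6 : ∀ φ, ((c φ : ℤ) : ℚ) = ((|c φ1| : ℤ) : ℚ) * ((Int.sign (c φ) : ℤ) : ℚ) := by
      intro φ
      rw [← Int.cast_mul, ← (hne φ).2, mul_comm, Int.sign_mul_abs]
    have h7 : ((|c φ1| : ℤ) : ℚ) *
        ∑ φ, ((Int.sign (c φ) : ℤ) : ℚ) * (2 * slf p ν (Z.X.factor i₀) φ τ - 1) = 0 := by
      rw [Finset.mul_sum, ← h5]
      refine Finset.sum_congr rfl fun φ _ => ?_
      rw [h6 φ, mul_assoc]
    refine (mul_eq_zero.1 h7).resolve_left ?_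
    exact_mod_cast abs_ne_zero.2 hφ1
  · obtain ⟨x, hx, h⟩ := hact' τ
    refine ⟨x, hx, fun φ => ?_⟩
    change Int.sign (c ((τ : ℂ →+* ℂ).comp φ)) = x * Int.sign (c φ)
    rw [h, Int.sign_mul]
    rcases hx with rfl | rfl <;> simp

/-- The imaginary quadratic field. -/
theorem exists_delta (A : CMPair) (hA : BigA A j) (ω : (A.E →+* ℂ) → ℤ)
    (hω : ∀ φ, ω φ = 1 ∨ ω φ = -1) (hodd : ∀ φ, ω (ComplexEmbedding.conjugate φ) = -ω φ)
    (heq : ∀ τ : ℂ ≃+* ℂ, ∃ x : ℤ, (x = 1 ∨ x = -1) ∧ ∀ φ, ω ((τ : ℂ →+* ℂ).comp φ) = x * ω φ) :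
    ∃ (δ : A.E) (d : ℚ) (z : ℂ), 0 < d ∧ δ * δ = -(d : A.E) ∧ z ≠ 0 ∧
      ∀ φ : A.E →+* ℂ, φ δ = (ω φ : ℂ) * z := by
  classical
  have hcomp : ∀ (g : L ≃ₐ[ℚ] L), ∃ x : ℤ, (x = 1 ∨ x = -1) ∧
      ∀ φ : A.E →+* L, ω (j.comp (g • φ)) = x * ω (j.comp φ) := by
    intro g
    obtain ⟨τ, rfl⟩ := rr_surj j g
    obtain ⟨x, hx, h⟩ := heq τ
    refine ⟨x, hx, fun φ => ?_⟩
    rw [← h]
    congr 1
    exact RingHom.ext fun y => (rr_spec j τ (φ y)).symm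
  choose χ hχ hχ2 using hcomp
  obtain ⟨ψ0⟩ : Nonempty (A.E →+* ℂ) := inferInstance
  obtain ⟨φ0, -⟩ := hA ψ0
  have hne : ω (j.comp φ0) ≠ 0 := by
    rcases hω (j.comp φ0) with h | h <;> rw [h] <;> norm_num
  have hmul : ∀ g h, χ (g * h) = χ g * χ h := by
    intro g h
    apply mul_right_cancel₀ hne
    rw [← hχ2, mul_smul, hχ2, hχ2]
    ring
  have hone : χ 1 = 1 := by
    apply mul_right_cancel₀ hne
    rw [← hχ2, one_smul, one_mul]
  let N : Subgroup (L ≃ₐ[ℚ] L) :=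
    { carrier := {g | χ g = 1}
      mul_mem' := fun {g h} hg hh => by
        change χ (g * h) = 1
        rw [hmul, hg, hh, one_mul]
      one_mem' := hone
      inv_mem' := fun {g} hg => by
        change χ g⁻¹ = 1
        have h1 := hmul g g⁻¹
        rw [mul_inv_cancel, hone, show χ g = 1 from hg, one_mul] at h1
        exact h1.symm }
  have hmem : ∀ g, g ∈ N ↔ χ g = 1 := fun g => Iff.rfl
  have hcc : χ (cc L) = -1 := by
    apply mul_right_cancel₀ hne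
    rw [← hχ2, comp_smul_cc, hodd, neg_one_mul]
  have hN : IsImag N := by
    refine ⟨fun h => ?_, fun τ hτ => ?_⟩
    · rw [hmem, hcc] at h
      norm_num at h
    · rw [hmem, hmul, hcc]
      rcases hχ τ with h | h
      · exact absurd h hτ
      · rw [h]
        norm_num
  obtain ⟨x, d, hd, hx, hfix⟩ := Pool.Agent.W547.LD.exists_sqrt j hN
  obtain ⟨hccx, him⟩ := Pool.Agent.W547.LD.cc_sqrt j hd hx
  have hx0 : x ≠ 0 := by
    rintro rfl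
    rw [map_zero] at him
    exact him rfl
  have hact : ∀ g : L ≃ₐ[ℚ] L, g x = (χ g : L) * x := by
    intro g
    rcases hχ g with h | h
    · rw [hfix g h, h, Int.cast_one, one_mul]
    · have h1 : g ∉ N := fun h2 => by
        rw [hmem, h] at h2
        norm_num at h2
      have h2 := hfix _ (hN.2 g h1)
      change cc L (g x) = x at h2
      have h3 : g x = cc L x := by
        have h4 := congrArg (cc L) h2
        rw [← h4]
        change g x = (cc L * cc L) (g x)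
        rw [cc_cc]
        rfl
      rw [h3, hccx, h, Int.cast_neg, Int.cast_one, neg_one_mul]
  have hmem' : x ∈ (RingHom.equivRatAlgHom A.E L φ0).fieldRange := by
    rw [← IsGalois.fixedField_fixingSubgroup (RingHom.equivRatAlgHom A.E L φ0).fieldRange,
      IntermediateField.mem_fixedField_iff]
    intro τ hτ
    rw [IntermediateField.mem_fixingSubgroup_iff] at hτ
    have h1 : τ • φ0 = φ0 := RingHom.ext fun y => hτ _ ⟨y, rfl⟩
    have h2 : χ τ = 1 := by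
      apply mul_right_cancel₀ hne
      rw [← hχ2, h1, one_mul]
    rw [hact, h2, Int.cast_one, one_mul]
  obtain ⟨δ, hδ⟩ := hmem'
  have hδ' : φ0 δ = x := hδ
  refine ⟨δ, d, (ω (j.comp φ0) : ℂ) * j x, by exact_mod_cast hd, ?_, ?_, fun φ => ?_⟩
  · apply φ0.injective
    rw [map_mul, hδ', hx, map_neg, map_ratCast, Rat.cast_natCast]
  · exact mul_ne_zero (by exact_mod_cast hne) ((map_ne_zero j).2 hx0)
  · obtain ⟨φ', rfl⟩ := hA φ
    obtain ⟨g, rfl⟩ := Pool.Agent.W547.LN.exists_smul A φ0 φ'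
    change j (g (φ0 δ)) = _
    have h1 : (ω (j.comp φ0) : ℂ) * (ω (j.comp φ0) : ℂ) = 1 := by
      rcases hω (j.comp φ0) with h | h <;> rw [h] <;> norm_num
    rw [hδ', hact, hχ2, map_mul, map_intCast, Int.cast_mul]
    linear_combination -(χ g : ℂ) * j x * h1

/-- The slope functions in the ordinary case. -/
theorem slf_ord {A : CMPair} {a : ℕ} (ha : 0 < a) (φ : A.E →+* ℂ) {α : ℂ}
    (h : HasSlopes p ν A φ a α)
    (hα : ‖ν.symm α‖ = 1 ∨ ‖ν.symm α‖ = ‖(p : PadicAlgCl p) ^ a‖) (hφ : φ ∈ A.Φ) :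
    slf p ν A φ (RingEquiv.refl ℂ) = 1 := by
  have h1 := (norm_slf_iff A φ a α).1 h (RingEquiv.refl ℂ)
  have h2 : (RingEquiv.refl ℂ) α = α := rfl
  rw [h2] at h1
  have hP := pa_pos (p := p) a
  have hP1 := (pa_lt (p := p) ha).ne
  rcases hα with h3 | h3
  · exfalso
    rw [h3] at h1
    nth_rewrite 1 [← Real.rpow_zero ‖(p : PadicAlgCl p) ^ a‖] at h1
    have h4 := (Real.rpow_right_inj hP hP1).1 h1
    have h5 : slf p ν A φ (RingEquiv.refl ℂ) = 0 := by exact_mod_cast h4.symm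
    unfold slf at h5
    have h6 := card_place_pos (p := p) (ν := ν) A (((RingEquiv.refl ℂ : ℂ ≃+* ℂ) : ℂ →+* ℂ).comp φ)
    have h7 : 0 < Nat.card {φ' : A.E →+* ℂ // SamePlace p ν
        (((RingEquiv.refl ℂ : ℂ ≃+* ℂ) : ℂ →+* ℂ).comp φ) φ' ∧ φ' ∈ A.Φ} :=
      Nat.card_pos_iff.2 ⟨⟨⟨φ, ⟨1, fun x => (ν.apply_symm_apply _).symm⟩, hφ⟩⟩, Subtype.finite⟩
    have h8 : (0 : ℚ) < (Nat.card {φ' : A.E →+* ℂ // SamePlace p ν
        (((RingEquiv.refl ℂ : ℂ ≃+* ℂ) : ℂ →+* ℂ).comp φ) φ' ∧ φ' ∈ A.Φ} : ℚ) /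
        (Nat.card {φ' : A.E →+* ℂ // SamePlace p ν
          (((RingEquiv.refl ℂ : ℂ ≃+* ℂ) : ℂ →+* ℂ).comp φ) φ'} : ℚ) :=
      div_pos (by exact_mod_cast h7) (by exact_mod_cast h6)
    exact h8.ne' h5
  · rw [h3] at h1
    nth_rewrite 1 [← Real.rpow_one ‖(p : PadicAlgCl p) ^ a‖] at h1
    have h4 := (Real.rpow_right_inj hP hP1).1 h1
    exact_mod_cast h4.symm

/-- The multiplicities in the ordinary case. -/
theorem ord_aux (A : CMPair) (ω : (A.E →+* ℂ) → ℤ) (hω : ∀ φ, ω φ = 1 ∨ ω φ = -1)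
    (hodd : ∀ φ, ω (ComplexEmbedding.conjugate φ) = -ω φ)
    (hrel : ∑ φ : A.E →+* ℂ, (ω φ : ℚ) * (2 * slf p ν A φ (RingEquiv.refl ℂ) - 1) = 0)
    (hs1 : ∀ φ, φ ∈ A.Φ → slf p ν A φ (RingEquiv.refl ℂ) = 1) (δ : A.E) (z : ℂ) (hz : z ≠ 0)
    (hval : ∀ φ : A.E →+* ℂ, φ δ = (ω φ : ℂ) * z) (h2 : Module.finrank ℚ A.E ≤ 12) :
    (∀ u : ℂ, {φ ∈ A.Φ | φ δ = u}.encard ≤ 3) ∧
      ∀ u : ℂ, {φ ∈ A.Φ | φ δ = u}.encard = {φ ∈ A.Φ | φ δ = -u}.encard := by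
  classical
  have hc1 : ∀ φ, φ ∈ A.Φ → ComplexEmbedding.conjugate φ ∉ A.Φ := fun φ h => (A.isCMType φ).1 h
  have hc2 : ∀ φ, φ ∉ A.Φ → ComplexEmbedding.conjugate φ ∈ A.Φ := fun φ h => by
    by_contra h3
    exact h ((A.isCMType φ).2 h3)
  have hs0 : ∀ φ, φ ∉ A.Φ → slf p ν A φ (RingEquiv.refl ℂ) = 0 := by
    intro φ h
    have h3 := slf_conj (p := p) (ν := ν) A φ (RingEquiv.refl ℂ)
    rw [hs1 _ (hc2 φ h)] at h3
    linarith
  -- the two sets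
  let FP : Finset (A.E →+* ℂ) := Finset.univ.filter fun φ => φ ∈ A.Φ ∧ ω φ = 1
  let FQ : Finset (A.E →+* ℂ) := Finset.univ.filter fun φ => φ ∈ A.Φ ∧ ω φ = -1
  let h : (A.E →+* ℂ) → ℤ := fun φ => if φ ∈ A.Φ then ω φ else 0
  have hsum : ∑ φ, h φ = 0 := by
    have h3 := hrel
    have h4 : ∀ φ : A.E →+* ℂ, (ω φ : ℚ) * (2 * slf p ν A φ (RingEquiv.refl ℂ) - 1) =
        ((h φ + h (ComplexEmbedding.conjugate φ) : ℤ) : ℚ) := by
      intro φ
      by_cases h5 : φ ∈ A.Φ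
      · have e1 : h φ = ω φ := if_pos h5
        have e2 : h (ComplexEmbedding.conjugate φ) = 0 := if_neg (hc1 φ h5)
        rw [hs1 φ h5, e1, e2, add_zero]
        ring
      · have e1 : h φ = 0 := if_neg h5
        have e2 : h (ComplexEmbedding.conjugate φ) = ω (ComplexEmbedding.conjugate φ) :=
          if_pos (hc2 φ h5)
        rw [hs0 φ h5, e1, e2, zero_add, hodd]
        push_cast
        ring
    rw [Finset.sum_congr rfl fun φ _ => h4 φ] at h3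
    have h5 : ∑ φ : A.E →+* ℂ, (h φ + h (ComplexEmbedding.conjugate φ)) = 0 := by
      exact_mod_cast h3
    have hinv : Function.Involutive
        (fun ψ : A.E →+* ℂ => ComplexEmbedding.conjugate ψ) := fun ψ => TL.cj_cj ψ
    have h6 : ∑ φ : A.E →+* ℂ, h (ComplexEmbedding.conjugate φ) = ∑ φ, h φ :=
      Equiv.sum_comp (hinv.toPerm _) h
    rw [Finset.sum_add_distrib, h6] at h5
    omega
  have hPQ : FP.card = FQ.card := by
    have h3 : ∀ φ : A.E →+* ℂ, h φ = (if φ ∈ A.Φ ∧ ω φ = 1 then 1 else 0) -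
        (if φ ∈ A.Φ ∧ ω φ = -1 then 1 else 0) := by
      intro φ
      change (if φ ∈ A.Φ then ω φ else 0) = _
      by_cases h4 : φ ∈ A.Φ
      · rw [if_pos h4]
        rcases hω φ with h5 | h5
        · rw [if_pos ⟨h4, h5⟩, if_neg (fun h6 => by rw [h5] at h6; norm_num at h6), h5]
          norm_num
        · rw [if_neg (fun h6 => by rw [h5] at h6; norm_num at h6), if_pos ⟨h4, h5⟩, h5]
          norm_num
      · rw [if_neg h4, if_neg (fun h5 => h4 h5.1), if_neg (fun h5 => h4 h5.1), sub_zero]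
    rw [Finset.sum_congr rfl fun φ _ => h3 φ, Finset.sum_sub_distrib, Finset.sum_boole,
      Finset.sum_boole] at hsum
    have h4 : (FP.card : ℤ) - FQ.card = 0 := hsum
    omega
  have hle : FP.card + FQ.card ≤ 6 := by
    have h3 : Disjoint FP FQ := by
      rw [Finset.disjoint_left]
      intro φ h4 h5
      have h6 := (Finset.mem_filter.1 h4).2.2
      rw [(Finset.mem_filter.1 h5).2.2] at h6
      norm_num at h6
    rw [← Finset.card_union_of_disjoint h3]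
    have h4 : FP ∪ FQ ⊆ Finset.univ.filter fun φ => φ ∈ A.Φ := by
      intro φ h5
      rw [Finset.mem_union] at h5
      rcases h5 with h5 | h5
      · exact Finset.mem_filter.2 ⟨Finset.mem_univ _, (Finset.mem_filter.1 h5).2.1⟩
      · exact Finset.mem_filter.2 ⟨Finset.mem_univ _, (Finset.mem_filter.1 h5).2.1⟩
    refine (Finset.card_le_card h4).trans ?_
    have h5 := Pool.Agent.K4H29.HC.card_type A.isCMType
    rw [finrank_fintype_fun_eq_card] at h5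
    rw [← Fintype.card_subtype]
    have h6 : Fintype.card {φ // φ ∈ A.Φ} = Fintype.card A.Φ := Fintype.card_congr (Equiv.refl _)
    omega
  have hset1 : {φ ∈ A.Φ | φ δ = z} = (FP : Set (A.E →+* ℂ)) := by
    ext φ
    rw [Finset.mem_coe, Finset.mem_filter]
    constructor
    · rintro ⟨h3, h4⟩
      refine ⟨Finset.mem_univ _, h3, ?_⟩
      rcases hω φ with h5 | h5
      · exact h5
      · exfalso
        rw [hval, h5] at h4
        apply hz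
        have h6 : (2 : ℂ) * z = 0 := by
          push_cast at h4
          linear_combination -h4
        exact (mul_eq_zero.1 h6).resolve_left two_ne_zero
    · rintro ⟨-, h3, h4⟩
      refine ⟨h3, ?_⟩
      rw [hval, h4, Int.cast_one, one_mul]
  have hset2 : {φ ∈ A.Φ | φ δ = -z} = (FQ : Set (A.E →+* ℂ)) := by
    ext φ
    rw [Finset.mem_coe, Finset.mem_filter]
    constructor
    · rintro ⟨h3, h4⟩
      refine ⟨Finset.mem_univ _, h3, ?_⟩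
      rcases hω φ with h5 | h5
      · exfalso
        rw [hval, h5] at h4
        apply hz
        have h6 : (2 : ℂ) * z = 0 := by
          push_cast at h4
          linear_combination h4
        exact (mul_eq_zero.1 h6).resolve_left two_ne_zero
      · exact h5
    · rintro ⟨-, h3, h4⟩
      refine ⟨h3, ?_⟩
      rw [hval, h4, Int.cast_neg, Int.cast_one, neg_one_mul]
  have hset3 : ∀ u : ℂ, u ≠ z → u ≠ -z → {φ ∈ A.Φ | φ δ = u} = ∅ := by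
    intro u h3 h4
    rw [Set.eq_empty_iff_forall_notMem]
    rintro φ ⟨-, h5⟩
    rw [hval] at h5
    rcases hω φ with h6 | h6
    · rw [h6, Int.cast_one, one_mul] at h5
      exact h3 h5.symm
    · rw [h6, Int.cast_neg, Int.cast_one, neg_one_mul] at h5
      exact h4 h5.symm
  have hmult : ∀ u : ℂ, {φ ∈ A.Φ | φ δ = u}.encard ≤ 3 := by
    intro u
    by_cases h3 : u = z
    · rw [h3, hset1, Set.encard_coe_eq_coe_finsetCard]
      have h4 : FP.card ≤ 3 := by omega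
      exact_mod_cast h4
    · by_cases h4 : u = -z
      · rw [h4, hset2, Set.encard_coe_eq_coe_finsetCard]
        have h5 : FQ.card ≤ 3 := by omega
        exact_mod_cast h5
      · rw [hset3 u h3 h4, Set.encard_empty]
        exact zero_le
  refine ⟨hmult, fun u => ?_⟩
  by_cases h3 : u = z
  · rw [h3, hset1, hset2, Set.encard_coe_eq_coe_finsetCard, Set.encard_coe_eq_coe_finsetCard, hPQ]
  · by_cases h4 : u = -z
    · rw [h4, neg_neg, hset1, hset2, Set.encard_coe_eq_coe_finsetCard,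
        Set.encard_coe_eq_coe_finsetCard, hPQ]
    · rw [hset3 u h3 h4, hset3 (-u) (fun h5 => h4 (by rw [← h5, neg_neg]))
        (fun h5 => h3 (neg_injective h5))]

end OrdT

open OrdT in
/-- **The ordinary case.** -/
theorem ord_main {p : ℕ} [Fact p.Prime] {ν : PadicAlgCl p ≃+* ℂ} (Z : RedAV p ν) (i₀ : Z.X.I)
    (other : ∀ w : Emb Z, w.1 ≠ i₀ → IsSuper Z w)
    (inj : ∀ φ φ' : (Z.X.factor i₀).E →+* ℂ, φ ≠ φ' → ¬ SameEig Z ⟨i₀, φ⟩ ⟨i₀, φ'⟩)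
    (hord : ∀ φ : (Z.X.factor i₀).E →+* ℂ, ‖ν.symm (eig Z ⟨i₀, φ⟩)‖ = 1 ∨
      ‖ν.symm (eig Z ⟨i₀, φ⟩)‖ = ‖(p : PadicAlgCl p) ^ Z.a‖)
    (h1 : 2 * (angleRank Z + 1) = numEig Z)
    (h2 : Module.finrank ℚ (Z.X.factor i₀).E ≤ 12) :
    ∃ W : QuadDatum Z, ¬ W.Unbalanced := by
  obtain ⟨L, _, _, _, _, j, hZ⟩ := exists_big Z.X
  have hr : finrank ℤ (LamT j Z) = 1 := by
    have h3 := rk_main p ν Z L j hZ
    omega
  obtain ⟨ω, hω, hrl, heq⟩ := exists_om other inj hZ hr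
  obtain ⟨δ, d, z, hd, hδ, hz, hval⟩ :=
    exists_delta (Z.X.factor i₀) (hZ i₀) ω hω hrl.1 heq
  obtain ⟨hmult, hbal⟩ := ord_aux (p := p) (ν := ν) (Z.X.factor i₀) ω hω hrl.1
    (hrl.2 (RingEquiv.refl ℂ))
    (fun φ h => slf_ord Z.pos φ (frob_slopes Z ⟨i₀, φ⟩) (hord φ) h) δ z hz hval h2
  refine ⟨⟨Z.X.factor i₀, δ, d, hd, hδ, hmult, fun φ => ⟨i₀, φ⟩,
    fun φ => frob_slopes Z ⟨i₀, φ⟩, inj⟩, ?_⟩
  rintro ⟨-, u, hu⟩
  exact hu (hbal u)

end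

end Pool.Agent.K4H21.TF
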