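import Mathlib
import Pool.Agent.K4H21.TF.MainS
import Pool.Agent.K4H21.TF.CoreIso
import Pool.Agent.K4H21.TF.OrdT

/-!
# Geometrically simple abelian varieties, without a condition on the endomorphism algebra
-/

set_option autoImplicit false

namespace Pool.Agent.K4H21.TF

open NumberField Pool.Agent.H204R3.CM Pool.Agent.W547.KB Pool.Agent.W547.LD Module
  Pool.Agent.W495.TA Pool.Agent.W495.TB Pool.Agent.W495.TC Pool.Agent.TH117.BL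

noncomputable section

variable {p : ℕ} [Fact p.Prime] {ν : PadicAlgCl p ≃+* ℂ}

theorem iso_pos (hone : S_oneI) (hquad : S_quadI) (Ω : Type) [Field Ω] [IsAlgClosed Ω] [CharZero Ω]
    (Z : RedAV p ν) (i₀ : Z.X.I) (H : IsoTimesSuper Z i₀) (h : AllTate Ω Z)
    (h1 : 2 * angleRank Z ≠ numEig Z) :
    2 * (angleRank Z + 1) = numEig Z ∧ numEig Z ≤ 12 ∧ ∃ W : QuadDatum Z, ¬ W.Unbalanced := by
  have hall := (crit Ω Z).1 h
  obtain ⟨e₀, φ₀, he₀, hφ₀⟩ := (hone p ν Z i₀ H).2 h1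
  obtain ⟨C⟩ := coreI_main p ν Z i₀ H hall e₀ he₀ φ₀ hφ₀
  exact ⟨(hone p ν Z i₀ H).1 C, hquad p ν Z i₀ H C⟩

theorem iso_neg (Ω : Type) [Field Ω] [IsAlgClosed Ω] [CharZero Ω]
    (Z : RedAV p ν) (h : 2 * angleRank Z = numEig Z ∨
      (2 * (angleRank Z + 1) = numEig Z ∧ ∃ W : QuadDatum Z, ¬ W.Unbalanced)) : AllTate Ω Z := by
  rcases h with h | ⟨h, W, hW⟩
  · refine num_all Ω Z 0 Fin.elim0 (fun i => i.elim0) ?_
    have h1 : ((fun i : Fin 0 => (Fin.elim0 i : QuadDatum Z).d) ''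
        {i | (Fin.elim0 i : QuadDatum Z).Unbalanced}).ncard = 0 := by
      have h2 : {i : Fin 0 | (Fin.elim0 i : QuadDatum Z).Unbalanced} = ∅ := by
        ext i
        exact i.elim0
      rw [h2, Set.image_empty, Set.ncard_empty]
    rw [h1]
    omega
  · refine num_all Ω Z 1 (fun _ => W) (fun i k hik => absurd (Subsingleton.elim i k) hik) ?_
    have h2 : {i : Fin 1 | ((fun _ : Fin 1 => W) i).Unbalanced} = ∅ := by
      ext i
      simpa using hW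
    rw [h2, Set.image_empty, Set.ncard_empty]
    omega

theorem iso_crit (hone : S_oneI) (hquad : S_quadI) (Ω : Type) [Field Ω] [IsAlgClosed Ω]
    [CharZero Ω] (Z : RedAV p ν) (i₀ : Z.X.I) (H : IsoTimesSuper Z i₀) :
    AllTate Ω Z ↔ 2 * angleRank Z = numEig Z ∨
      (2 * (angleRank Z + 1) = numEig Z ∧ ∃ W : QuadDatum Z, ¬ W.Unbalanced) :=
  ⟨fun h => or_iff_not_imp_left.2 fun h1 =>
    ⟨(iso_pos hone hquad Ω Z i₀ H h h1).1, (iso_pos hone hquad Ω Z i₀ H h h1).2.2⟩, iso_neg Ω Z⟩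

theorem ord_crit (hone : S_oneI) (hquad : S_quadI) (Ω : Type) [Field Ω] [IsAlgClosed Ω]
    [CharZero Ω] (Z : RedAV p ν) (i₀ : Z.X.I) (H : IsoTimesSuper Z i₀)
    (inj : ∀ φ φ' : (Z.X.factor i₀).E →+* ℂ, φ ≠ φ' → ¬ SameEig Z ⟨i₀, φ⟩ ⟨i₀, φ'⟩)
    (hord : ∀ φ : (Z.X.factor i₀).E →+* ℂ, ‖ν.symm (eig Z ⟨i₀, φ⟩)‖ = 1 ∨
      ‖ν.symm (eig Z ⟨i₀, φ⟩)‖ = ‖(p : PadicAlgCl p) ^ Z.a‖) :
    AllTate Ω Z ↔ 2 * angleRank Z = numEig Z ∨
      (2 * (angleRank Z + 1) = numEig Z ∧ numEig Z ≤ 12) := by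
  refine ⟨fun h => or_iff_not_imp_left.2 fun h1 => ?_, fun h => iso_neg Ω Z (h.imp_right fun h1 => ?_)⟩
  · have h2 := iso_pos hone hquad Ω Z i₀ H h h1
    exact ⟨h2.1, h2.2.1⟩
  · refine ⟨h1.1, ord_main Z i₀ H.other inj hord h1.1 ?_⟩
    rw [← numEig_simple Z i₀ ⟨H.ss, H.other, inj⟩]
    exact h1.2

end

end Pool.Agent.K4H21.TF
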