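import Mathlib
import Pool.Agent.K4H21.TF.OneT
import Pool.Agent.K4H21.TF.CoreIso

/-!
# The rank of the relations in the isotypic case
-/

set_option autoImplicit false
set_option linter.unusedSectionVars false
set_option linter.unusedVariables false

namespace Pool.Agent.K4H21.TF

open NumberField Pool.Agent.H204R3.CM Pool.Agent.W547.KB Pool.Agent.W547.LD Module
  Pool.Agent.W495.TA Pool.Agent.W495.TB Pool.Agent.W495.TC Pool.Agent.TH117.BL
  Pool.Agent.TH117.F5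
open Pool.Agent.K4H21.LC (rr rr_spec rr_surj)
open scoped TensorProduct

noncomputable section

namespace OneJ

open OneT (fT fT_toEmb fT_cj fT_super same_of_fT tw_zero odd_zero fT_slf)

variable {p : ℕ} [Fact p.Prime] {ν : PadicAlgCl p ≃+* ℂ} {L : Type} [Field L] [NumberField L]
  [IsCMField L] [IsGalois ℚ L] {j : L →+* ℂ} {Z : RedAV p ν} {i₀ : Z.X.I}

theorem fT_of_slf (hZ : Big Z.X j) (φ φ' : (Z.X.factor i₀).E →+* ℂ)
    (h : slf p ν (Z.X.factor i₀) φ = slf p ν (Z.X.factor i₀) φ') :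
    fT hZ ⟨i₀, φ⟩ = fT hZ ⟨i₀, φ'⟩ := by
  obtain ⟨ψ, rfl⟩ := hZ i₀ φ
  obtain ⟨ψ', rfl⟩ := hZ i₀ φ'
  have h1 := (slf_eq_iff j (Z.X.factor i₀) (Z.X.factor i₀) ψ ψ').1 h
  rw [tf_hs, tf_hs] at h1
  apply Subtype.ext
  exact (fT_toEmb hZ (⟨i₀, ψ⟩ : Wt Z.X L)).trans
    (h1.trans (fT_toEmb hZ (⟨i₀, ψ'⟩ : Wt Z.X L)).symm)

theorem slf_of_fT (hZ : Big Z.X j) (φ φ' : (Z.X.factor i₀).E →+* ℂ)
    (h : fT hZ ⟨i₀, φ⟩ = fT hZ ⟨i₀, φ'⟩) :
    slf p ν (Z.X.factor i₀) φ = slf p ν (Z.X.factor i₀) φ' :=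
  slf_of_sameEig (same_of_fT hZ _ _ h)

theorem supp {a : TB p ν j → ℤ} (hZ : Big Z.X j) (hS : IsoTimesSuper Z i₀)
    (ha : a ∈ LamT j Z) (f : TB p ν j) (hf : a f ≠ 0) :
    ∃ φ : (Z.X.factor i₀).E →+* ℂ, f = fT hZ ⟨i₀, φ⟩ := by
  obtain ⟨w, hw⟩ := ha.1 f hf
  by_cases h1 : w.1 = i₀
  · obtain ⟨i, ψ⟩ := w
    dsimp only at h1
    subst h1
    refine ⟨j.comp ψ, Subtype.ext ?_⟩
    rw [← hw]
    exact (fT_toEmb hZ ⟨i, ψ⟩).symm
  · exfalso
    apply hf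
    refine odd_zero ha.2.1 f ?_
    rw [← hw]
    exact tw_zero hZ w (hS.other (toEmb j Z w) h1)

/-- Sums over the embeddings are sums over the functions. -/
theorem sum_fT (hZ : Big Z.X j) (φ0 : (Z.X.factor i₀).E →+* ℂ) (F : TB p ν j → ℚ)
    (hF : ∀ f, F f ≠ 0 → ∃ φ : (Z.X.factor i₀).E →+* ℂ, f = fT hZ ⟨i₀, φ⟩) :
    ∑ φ : (Z.X.factor i₀).E →+* ℂ, F (fT hZ ⟨i₀, φ⟩) =
      CI.mf (p := p) (ν := ν) (Z.X.factor i₀) (slf p ν (Z.X.factor i₀) φ0) * ∑ f, F f := by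
  classical
  rw [Finset.sum_comp F fun φ : (Z.X.factor i₀).E →+* ℂ => fT hZ ⟨i₀, φ⟩]
  have h1 : ∀ f ∈ Finset.univ.image (fun φ : (Z.X.factor i₀).E →+* ℂ => fT hZ ⟨i₀, φ⟩),
      (Finset.univ.filter fun φ : (Z.X.factor i₀).E →+* ℂ => fT hZ ⟨i₀, φ⟩ = f).card • F f =
        CI.mf (p := p) (ν := ν) (Z.X.factor i₀) (slf p ν (Z.X.factor i₀) φ0) * F f := by
    intro f hf
    obtain ⟨φ, -, rfl⟩ := Finset.mem_image.1 hf
    rw [nsmul_eq_mul]
    congr 1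
    rw [CI.mf_const (Z.X.factor i₀) φ0 φ]
    unfold CI.mf
    rw [Finset.card_filter, Nat.cast_sum]
    refine Finset.sum_congr rfl fun φ' _ => ?_
    by_cases h : slf p ν (Z.X.factor i₀) φ' = slf p ν (Z.X.factor i₀) φ
    · rw [if_pos h, if_pos (fT_of_slf hZ φ' φ h)]
      rfl
    · rw [if_neg h, if_neg fun h' => h (slf_of_fT hZ φ' φ h')]
      rfl
  rw [Finset.sum_congr rfl h1, ← Finset.mul_sum]
  congr 1
  refine Finset.sum_subset (Finset.subset_univ _) fun f _ hf => ?_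
  by_contra hne
  obtain ⟨φ, rfl⟩ := hF f hne
  exact hf (Finset.mem_image_of_mem _ (Finset.mem_univ φ))

/-- The transform of a function on the functions. -/
theorem tr_fT (hZ : Big Z.X j) (φ0 : (Z.X.factor i₀).E →+* ℂ) (a : TB p ν j → ℤ)
    (ha : ∀ f, a f ≠ 0 → ∃ φ : (Z.X.factor i₀).E →+* ℂ, f = fT hZ ⟨i₀, φ⟩) (τ : ℂ ≃+* ℂ) :
    (Nat.card (Dec p ν j) : ℚ) * ∑ φ : (Z.X.factor i₀).E →+* ℂ, (a (fT hZ ⟨i₀, φ⟩) : ℚ) *
      (2 * slf p ν (Z.X.factor i₀) φ τ - 1) =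
      CI.mf (p := p) (ν := ν) (Z.X.factor i₀) (slf p ν (Z.X.factor i₀) φ0) *
        ((∑ f, a f * f.1 (rr j τ) : ℤ) : ℚ) := by
  rw [Finset.mul_sum, Int.cast_sum, ← sum_fT hZ φ0 (fun f => ((a f * f.1 (rr j τ) : ℤ) : ℚ))
    (fun f hf => ha f fun h => hf (by rw [h, zero_mul, Int.cast_zero]))]
  refine Finset.sum_congr rfl fun φ _ => ?_
  rw [Int.cast_mul, fT_slf]
  ring

/-- A relation for an odd relation between the functions. -/
theorem rel_of_lam (hZ : Big Z.X j) (hS : IsoTimesSuper Z i₀)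
    (hns : ∀ φ, slf p ν (Z.X.factor i₀) (ComplexEmbedding.conjugate φ) ≠
      slf p ν (Z.X.factor i₀) φ) {a : TB p ν j → ℤ} (ha : a ∈ LamT j Z) :
    ∃ e : Emb Z → ℤ, (∀ φ, di Z i₀ e φ = a (fT hZ ⟨i₀, φ⟩)) ∧ IsRelation Z e := by
  obtain ⟨φ0⟩ : Nonempty ((Z.X.factor i₀).E →+* ℂ) := inferInstance
  refine CI.exists_rel hS (fun φ => a (fT hZ ⟨i₀, φ⟩)) (fun φ φ' h => by rw [fT_of_slf hZ φ φ' h])
    (fun φ => ha.2.1 _ _ (fT_cj hZ ⟨i₀, φ⟩)) hns fun τ => ?_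
  have h1 := tr_fT hZ φ0 a (fun f hf => supp hZ hS ha f hf) τ
  rw [ha.2.2, Int.cast_zero, mul_zero] at h1
  exact (mul_eq_zero.1 h1).resolve_left (dec_ne j)

end OneJ

open OneJ in
open OneT (fT fT_toEmb fT_cj fT_super same_of_fT tw_zero odd_zero fT_slf) in
/-- Piece N2. -/
theorem one_mainJ (hrk : S_rk) : S_oneI := by
  intro p _ ν Z i₀ hS
  classical
  obtain ⟨L, _, _, _, _, j, hZ⟩ := exists_big Z.X
  have hr := hrk p ν Z L j hZ
  refine ⟨fun C => ?_, fun hne => ?_⟩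
  · obtain ⟨φs⟩ : Nonempty ((Z.X.factor i₀).E →+* ℂ) := inferInstance
    have hconj : ∀ φ, C.ω (ComplexEmbedding.conjugate φ) = -C.ω φ := by
      intro φ
      have h1 := C.equiv cxc φ
      rw [cxc_comp] at h1
      rw [h1, if_neg]
      intro h3
      have h4 : starRingEnd ℂ C.z = C.z := h3
      rw [conj_sqrt' C.pos C.zsq] at h4
      exact zz_ne' C.pos C.zsq h4
    have hns : ∀ φ, slf p ν (Z.X.factor i₀) (ComplexEmbedding.conjugate φ) ≠
        slf p ν (Z.X.factor i₀) φ := by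
      intro φ h
      have h1 := C.fib _ _ h
      rw [hconj] at h1
      rcases C.val φ with h2 | h2 <;> omega
    -- the element
    let a0 : TB p ν j → ℤ := fun f => if h : ∃ φ, f = fT hZ ⟨i₀, φ⟩ then C.ω h.choose else 0
    have ha0 : ∀ φ, a0 (fT hZ ⟨i₀, φ⟩) = C.ω φ := by
      intro φ
      have h : ∃ φ', fT hZ ⟨i₀, φ⟩ = fT hZ ⟨i₀, φ'⟩ := ⟨φ, rfl⟩
      have h1 : a0 (fT hZ ⟨i₀, φ⟩) = C.ω h.choose := dif_pos h
      rw [h1]
      exact (C.fib _ _ (slf_of_fT hZ _ _ h.choose_spec)).symm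
    have ha0' : ∀ f, a0 f ≠ 0 → ∃ φ, f = fT hZ ⟨i₀, φ⟩ := by
      intro f hf
      by_contra hcon
      exact hf (dif_neg hcon)
    have hmem : a0 ∈ LamT j Z := by
      refine ⟨fun f hf => ?_, fun f f' h => ?_, fun σ => ?_⟩
      · obtain ⟨φ, rfl⟩ := ha0' f hf
        exact ⟨_, rfl⟩
      · by_cases h1 : ∃ φ, f = fT hZ ⟨i₀, φ⟩
        · obtain ⟨φ, rfl⟩ := h1
          have h2 : f' = fT hZ ⟨i₀, ComplexEmbedding.conjugate φ⟩ := by
            refine Subtype.ext ?_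
            rw [h]
            exact (fT_cj hZ ⟨i₀, φ⟩).symm
          rw [h2, ha0, ha0, hconj]
        · have h2 : ¬ ∃ φ, f' = fT hZ ⟨i₀, φ⟩ := by
            rintro ⟨φ, hφ⟩
            apply h1
            refine ⟨ComplexEmbedding.conjugate φ, Subtype.ext ?_⟩
            have h3 := fT_cj hZ ⟨i₀, φ⟩
            rw [← hφ, h, neg_neg] at h3
            exact h3.symm
          have e1 : a0 f = 0 := dif_neg h1
          have e2 : a0 f' = 0 := dif_neg h2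
          rw [e1, e2, neg_zero]
      · obtain ⟨τ, rfl⟩ := rr_surj j σ
        have h1 := tr_fT hZ φs a0 ha0' τ
        have h2 : ∑ φ : (Z.X.factor i₀).E →+* ℂ, (a0 (fT hZ ⟨i₀, φ⟩) : ℚ) *
            (2 * slf p ν (Z.X.factor i₀) φ τ - 1) = 0 := by
          rw [← C.rel τ]
          exact Finset.sum_congr rfl fun φ _ => by rw [ha0]
        rw [h2, mul_zero] at h1
        have h3 := (mul_eq_zero.1 h1.symm).resolve_left (CI.mf_pos (Z.X.factor i₀) φs)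
        exact_mod_cast h3
    have hle : finrank ℤ (LamT j Z) ≤ 1 := by
      let ev : LamT j Z →ₗ[ℤ] ℤ := (LinearMap.proj (fT hZ ⟨i₀, φs⟩)).comp (LamT j Z).subtype
      have hev : Function.Injective ev := by
        rw [← LinearMap.ker_eq_bot, LinearMap.ker_eq_bot']
        intro a ha
        have ha' : a.1 (fT hZ ⟨i₀, φs⟩) = 0 := ha
        obtain ⟨e, he, hrel⟩ := rel_of_lam hZ hS hns a.2
        obtain ⟨k, hk⟩ := C.all e hrel
        have h2 : ∀ φ, a.1 (fT hZ ⟨i₀, φ⟩) = k * C.ω φ := fun φ => by rw [← hk φ, he]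
        have h3 : k = 0 := by
          have h4 := h2 φs
          rw [ha'] at h4
          rcases C.val φs with h5 | h5 <;> rw [h5] at h4 <;> omega
        refine Subtype.ext (funext fun f => ?_)
        by_contra hf
        obtain ⟨φ, rfl⟩ := supp hZ hS a.2 f hf
        apply hf
        change a.1 (fT hZ ⟨i₀, φ⟩) = 0
        rw [h2 φ, h3, zero_mul]
      have h1 := LinearMap.finrank_le_finrank_of_injective hev
      rwa [finrank_self] at h1
    have hpos : 0 < finrank ℤ (LamT j Z) := by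
      rw [Module.finrank_pos_iff_exists_ne_zero]
      refine ⟨⟨a0, hmem⟩, fun h => ?_⟩
      have h1 : a0 (fT hZ ⟨i₀, φs⟩) = 0 := congrFun (congrArg Subtype.val h) _
      rw [ha0] at h1
      rcases C.val φs with h5 | h5 <;> omega
    omega
  · have h1 : finrank ℤ (LamT j Z) ≠ 0 := by
      intro h
      rw [h, zero_add] at hr
      exact hne hr
    obtain ⟨a, ha⟩ : ∃ a : LamT j Z, a ≠ 0 :=
      Module.finrank_pos_iff_exists_ne_zero.1 (Nat.pos_of_ne_zero h1)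
    obtain ⟨f, hf⟩ : ∃ f, a.1 f ≠ 0 := by
      by_contra hcon
      push Not at hcon
      exact ha (Subtype.ext (funext hcon))
    obtain ⟨φ, rfl⟩ := supp hZ hS a.2 f hf
    have hns0 : slf p ν (Z.X.factor i₀) (ComplexEmbedding.conjugate φ) ≠
        slf p ν (Z.X.factor i₀) φ := by
      intro h
      have h7 : a.1 (fT hZ ⟨i₀, ComplexEmbedding.conjugate φ⟩) = -a.1 (fT hZ ⟨i₀, φ⟩) :=
        a.2.2.1 _ _ (fT_cj hZ ⟨i₀, φ⟩)
      rw [fT_of_slf hZ _ _ h] at h7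
      omega
    have hns : ∀ φ', slf p ν (Z.X.factor i₀) (ComplexEmbedding.conjugate φ') ≠
        slf p ν (Z.X.factor i₀) φ' := by
      intro φ' h
      apply hns0
      obtain ⟨τ, rfl⟩ := exists_aut_emb _ φ' φ
      rw [slf_conj_eq] at h ⊢
      funext σ
      have h3 := congrFun h (τ.trans σ)
      rw [slf_comp]
      exact h3
    obtain ⟨e, he, hrel⟩ := rel_of_lam hZ hS hns a.2
    exact ⟨e, φ, hrel, by rw [he]; exact hf⟩

end

end Pool.Agent.K4H21.TF
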