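import Mathlib
import Pool.Agent.K4H21.TF.Stms5
import Pool.Agent.K4H21.TF.QuadT

/-!
# The imaginary quadratic field: the isotypic case
-/

set_option autoImplicit false
set_option linter.unusedSectionVars false
set_option linter.unusedVariables false

namespace Pool.Agent.K4H21.TF

open NumberField Pool.Agent.H204R3.CM Pool.Agent.W547.KB Pool.Agent.W547.LD Module
  Pool.Agent.W495.TA Pool.Agent.W495.TB Pool.Agent.W495.TC Pool.Agent.TH117.BL

noncomputable section

namespace QuadI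

open Classical in
/-- The combinatorial part: the classes have one element. -/
theorem comb {S V : Type} [Fintype S] (s : S → V → ℚ) (c : S ≃ S) (o : S → ℤ)
    (hval : ∀ x, o x = 1 ∨ o x = -1) (hfib : ∀ x y, s x = s y → o x = o y)
    (hoc : ∀ x, o (c x) = -o x) (hsc : ∀ x v, s (c x) v = 1 - s x v)
    (hrel : ∀ v, ∑ x, (o x : ℚ) * (2 * s x v - 1) = 0) (hcard : Fintype.card S ≤ 12) (m : ℕ)
    (hm : ∀ x, (Finset.univ.filter fun y => s y = s x).card = m) (hodd : Odd m) :
    Function.Injective s := by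
  intro a b hab
  by_contra hne
  have hm3 : 3 ≤ m := by
    have h1 : ({a, b} : Finset S) ⊆ Finset.univ.filter fun y => s y = s a := by
      intro x hx
      rw [Finset.mem_insert, Finset.mem_singleton] at hx
      rw [Finset.mem_filter]
      rcases hx with rfl | rfl
      · exact ⟨Finset.mem_univ _, rfl⟩
      · exact ⟨Finset.mem_univ _, hab.symm⟩
    have h2 := Finset.card_le_card h1
    rw [Finset.card_pair hne, hm] at h2
    obtain ⟨k, hk⟩ := hodd
    omega
  have hm0 : (m : ℚ) ≠ 0 := by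
    have : 0 < m := by omega
    exact_mod_cast this.ne'
  let T : Finset S := Finset.univ.filter fun x => o x = 1
  have hT : ∀ x, x ∈ T ↔ o x = 1 := fun x => by
    change x ∈ Finset.univ.filter (fun x => o x = 1) ↔ _
    rw [Finset.mem_filter]
    exact ⟨fun h => h.2, fun h => ⟨Finset.mem_univ _, h⟩⟩
  have hTc : ∀ x, x ∈ Finset.univ.filter (fun x => ¬ o x = 1) ↔ c x ∈ T := by
    intro x
    rw [Finset.mem_filter, hT, hoc]
    rcases hval x with h | h
    · rw [h]
      norm_num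
    · rw [h]
      norm_num
  -- the cardinality of `T`
  have hTcard : T.card ≤ 6 := by
    have h1 : (Finset.univ.filter (fun x => ¬ o x = 1)).card = T.card :=
      Finset.card_equiv c hTc
    have h2 := Finset.card_filter_add_card_filter_not (s := (Finset.univ : Finset S))
      (fun x => o x = 1)
    rw [Finset.card_univ, h1] at h2
    change T.card + T.card = _ at h2
    omega
  -- the sum over `T`
  have hTsum : ∀ v, ∑ x ∈ T, (2 * s x v - 1) = 0 := by
    intro v
    have h1 := hrel v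
    rw [← Finset.sum_filter_add_sum_filter_not Finset.univ (fun x => o x = 1)] at h1
    have h2 : ∑ x ∈ Finset.univ.filter (fun x => ¬ o x = 1), (o x : ℚ) * (2 * s x v - 1) =
        ∑ x ∈ T, (2 * s x v - 1) := by
      refine Finset.sum_equiv c hTc fun x hx => ?_
      rw [Finset.mem_filter] at hx
      have h3 := (hval x).resolve_left hx.2
      rw [h3, hsc]
      push_cast
      ring
    have h3 : ∑ x ∈ Finset.univ.filter (fun x => o x = 1), (o x : ℚ) * (2 * s x v - 1) =
        ∑ x ∈ T, (2 * s x v - 1) := by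
      refine Finset.sum_congr rfl fun x hx => ?_
      rw [(hT x).1 hx]
      push_cast
      ring
    rw [h2, h3] at h1
    linarith
  obtain ⟨a, ha⟩ : ∃ a, a ∈ T := by
    rcases hval a with h | h
    · exact ⟨a, (hT _).2 h⟩
    · refine ⟨c a, (hT _).2 ?_⟩
      rw [hoc, h, neg_neg]
  have hF : ∀ x ∈ T, (Finset.univ.filter fun y => s y = s x) ⊆ T := by
    intro x hx y hy
    rw [Finset.mem_filter] at hy
    rw [hT] at hx ⊢
    rw [hfib y x hy.2, hx]
  have hFsum : ∀ x v, ∑ y ∈ Finset.univ.filter (fun y => s y = s x), (2 * s y v - 1) =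
      m * (2 * s x v - 1) := by
    intro x v
    rw [← hm x, ← nsmul_eq_mul, ← Finset.sum_const]
    refine Finset.sum_congr rfl fun y hy => ?_
    rw [Finset.mem_filter] at hy
    rw [hy.2]
  by_cases hTF : T ⊆ Finset.univ.filter fun y => s y = s a
  · have h1 : T = Finset.univ.filter fun y => s y = s a := Finset.Subset.antisymm hTF (hF a ha)
    have h2 : s (c a) = s a := by
      funext v
      have h3 := hTsum v
      rw [h1, hFsum] at h3
      have h4 := (mul_eq_zero.1 h3).resolve_left hm0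
      rw [hsc]
      linarith
    have h3 := hfib _ _ h2
    rw [hoc, (hT a).1 ha] at h3
    norm_num at h3
  · obtain ⟨b, hb, hb'⟩ := Finset.not_subset.1 hTF
    have hab' : s b ≠ s a := fun h => hb' (by
      rw [Finset.mem_filter]
      exact ⟨Finset.mem_univ _, h⟩)
    have hdisj : Disjoint (Finset.univ.filter fun y => s y = s a)
        (Finset.univ.filter fun y => s y = s b) := by
      rw [Finset.disjoint_left]
      intro y h1 h2
      rw [Finset.mem_filter] at h1 h2
      exact hab' (h2.2.symm.trans h1.2)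
    have h1 : (Finset.univ.filter fun y => s y = s a) ∪
        (Finset.univ.filter fun y => s y = s b) = T := by
      refine Finset.eq_of_subset_of_card_le (Finset.union_subset (hF a ha) (hF b hb)) ?_
      rw [Finset.card_union_of_disjoint hdisj, hm, hm]
      omega
    have h2 : s (c a) = s b := by
      funext v
      have h3 := hTsum v
      rw [← h1, Finset.sum_union hdisj, hFsum, hFsum, ← mul_add] at h3
      have h4 := (mul_eq_zero.1 h3).resolve_left hm0
      rw [hsc]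
      linarith
    have h3 := hfib _ _ h2
    rw [hoc, (hT a).1 ha, (hT b).1 hb] at h3
    norm_num at h3

open Classical in
/-- Double counting. -/
theorem transfer {S R V : Type} [Fintype S] [Fintype R] (s : S → V → ℚ) (r : R → V → ℚ)
    (g : S → ℚ) (h : R → ℚ) (hgh : ∀ x y, s x = r y → g x = h y) (m n : ℕ)
    (hm : ∀ x, (Finset.univ.filter fun y => s x = r y).card = m)
    (hn : ∀ y, (Finset.univ.filter fun x => s x = r y).card = n) (hn0 : n ≠ 0)
    (hg : ∑ x, g x = 0) : ∑ y, h y = 0 := by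
  have h1 : ∑ x, ∑ y, (if s x = r y then g x else 0) = (m : ℚ) * ∑ x, g x := by
    rw [Finset.mul_sum]
    refine Finset.sum_congr rfl fun x _ => ?_
    rw [← Finset.sum_filter, Finset.sum_const, hm, nsmul_eq_mul]
  have h2 : ∑ x, ∑ y, (if s x = r y then g x else 0) = (n : ℚ) * ∑ y, h y := by
    rw [Finset.sum_comm, Finset.mul_sum]
    refine Finset.sum_congr rfl fun y _ => ?_
    rw [← Finset.sum_filter, ← hn y, ← nsmul_eq_mul, ← Finset.sum_const]
    refine Finset.sum_congr rfl fun x hx => ?_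
    rw [Finset.mem_filter] at hx
    exact hgh x y hx.2
  rw [h2, hg, mul_zero] at h1
  exact (mul_eq_zero.1 h1).resolve_left (by exact_mod_cast hn0)

variable {p : ℕ} [Fact p.Prime] {ν : PadicAlgCl p ≃+* ℂ}

/-- Composition with an automorphism. -/
def compE (E : Type) [Field E] (τ : ℂ ≃+* ℂ) : (E →+* ℂ) ≃ (E →+* ℂ) where
  toFun φ := (τ : ℂ →+* ℂ).comp φ
  invFun φ := (τ.symm : ℂ →+* ℂ).comp φ
  left_inv φ := RingHom.ext fun x => τ.symm_apply_apply _
  right_inv φ := RingHom.ext fun x => τ.apply_symm_apply _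

theorem slf_ci (A B : CMPair) (ψ : A.E →+* ℂ) (φ : B.E →+* ℂ) (τ : ℂ ≃+* ℂ) :
    slf p ν A ((τ : ℂ →+* ℂ).comp ψ) = slf p ν B ((τ : ℂ →+* ℂ).comp φ) ↔
      slf p ν A ψ = slf p ν B φ := by
  constructor
  · intro h
    funext σ
    have h1 := congrFun h (τ.symm.trans σ)
    rw [slf_comp, slf_comp] at h1
    have h2 : τ.trans (τ.symm.trans σ) = σ := RingEquiv.ext fun x => by
      simp
    rwa [h2] at h1
  · intro h
    funext σ
    rw [slf_comp, slf_comp, h]

open Classical in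
theorem card_fib (A B : CMPair) (φ : B.E →+* ℂ) (τ : ℂ ≃+* ℂ) :
    (Finset.univ.filter fun ψ : A.E →+* ℂ =>
      slf p ν A ψ = slf p ν B ((τ : ℂ →+* ℂ).comp φ)).card =
    (Finset.univ.filter fun ψ : A.E →+* ℂ => slf p ν A ψ = slf p ν B φ).card := by
  symm
  refine Finset.card_equiv (compE A.E τ) fun ψ => ?_
  rw [Finset.mem_filter, Finset.mem_filter]
  exact and_congr (iff_of_true (Finset.mem_univ _) (Finset.mem_univ _))
    (slf_ci A B ψ φ τ).symm

theorem slf_conj1 (A : CMPair) (φ : A.E →+* ℂ) (τ : ℂ ≃+* ℂ) :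
    slf p ν A (ComplexEmbedding.conjugate φ) τ = 1 - slf p ν A φ τ := by
  have h := slf_conj (p := p) (ν := ν) A φ τ
  linarith

/-- The complex conjugation. -/
def conjE : ℂ ≃+* ℂ := starRingAut (R := ℂ)

end QuadI

open Quad QuadI

open Classical in
theorem quadI : S_quadI := by
  intro p _ ν Z i₀ S C
  obtain ⟨φ0, hodd⟩ := C.odd
  -- slopes
  have hθ : ∀ ψ, slf p ν (Z.X.factor (C.θ ψ).1) (C.θ ψ).2 = slf p ν C.A ψ := fun ψ =>
    slf_of_norm Z.pos (frob_slopes Z (C.θ ψ)) (C.slopes ψ)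
  have hoddc : Odd (Finset.univ.filter fun ψ : C.A.E →+* ℂ =>
      slf p ν C.A ψ = slf p ν (Z.X.factor i₀) φ0).card := by
    rw [Nat.card_eq_fintype_card, Fintype.card_subtype] at hodd
    exact hodd
  obtain ⟨ψ0, hψ0⟩ := Finset.card_pos.1 hoddc.pos
  rw [Finset.mem_filter] at hψ0
  have hs0 : slf p ν C.A ψ0 = slf p ν (Z.X.factor i₀) φ0 := hψ0.2
  have hshift : ∀ τ : ℂ ≃+* ℂ, slf p ν C.A ((τ : ℂ →+* ℂ).comp ψ0) =
      slf p ν (Z.X.factor i₀) ((τ : ℂ →+* ℂ).comp φ0) := fun τ => (slf_ci _ _ _ _ τ).2 hs0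
  choose t ht using fun ψ => exists_aut_emb C.A ψ0 ψ
  let f : (C.A.E →+* ℂ) → ((Z.X.factor i₀).E →+* ℂ) := fun ψ => (t ψ : ℂ →+* ℂ).comp φ0
  have hf : ∀ ψ, slf p ν C.A ψ = slf p ν (Z.X.factor i₀) (f ψ) := by
    intro ψ
    change _ = slf p ν (Z.X.factor i₀) ((t ψ : ℂ →+* ℂ).comp φ0)
    rw [← hshift, ht]
  have hback : ∀ φ, ∃ ψ, slf p ν C.A ψ = slf p ν (Z.X.factor i₀) φ := by
    intro φ
    obtain ⟨s, hs⟩ := exists_aut_emb (Z.X.factor i₀) φ0 φ
    exact ⟨(s : ℂ →+* ℂ).comp ψ0, by rw [hshift, hs]⟩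
  have hψz : (ψ0 C.δ) * (ψ0 C.δ) = -(C.d : ℂ) := by
    rw [← map_mul, C.sq, map_neg, map_ratCast]
  have hzz : ∀ τ : ℂ ≃+* ℂ, τ C.z = C.z ↔ τ (ψ0 C.δ) = ψ0 C.δ := by
    intro τ
    rcases pm_of C.sq C.zsq ψ0 with h | h
    · rw [h]
    · rw [h, map_neg, neg_inj]
  have hω0 : C.ω φ0 ≠ 0 := by
    rcases C.val φ0 with h | h <;> rw [h] <;> norm_num
  have hcard : Fintype.card (C.A.E →+* ℂ) ≤ 12 := card_emb_le C.A C.sq C.zsq C.mult
  -- the conjugation changes the sign
  have hωc : ∀ φ, C.ω (ComplexEmbedding.conjugate φ) = -C.ω φ := by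
    intro φ
    have h1 := C.equiv conjE φ
    have h2 : (conjE : ℂ →+* ℂ).comp φ = ComplexEmbedding.conjugate φ := RingHom.ext fun _ => rfl
    have h3 : conjE C.z ≠ C.z := by
      have h4 : conjE C.z = -C.z := conj_z C.pos C.zsq
      rw [h4]
      intro h5
      have h6 : C.z = 0 := self_eq_neg.1 h5.symm
      have h7 := C.zsq
      rw [h6, mul_zero] at h7
      have h8 : (C.d : ℂ) ≠ 0 := by exact_mod_cast C.pos.ne'
      exact h8 (neg_eq_zero.1 h7.symm)
    rw [h2, if_neg h3] at h1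
    exact h1
  -- the fibres
  have hm : ∀ φ : (Z.X.factor i₀).E →+* ℂ, (Finset.univ.filter fun ψ : C.A.E →+* ℂ =>
      slf p ν C.A ψ = slf p ν (Z.X.factor i₀) φ).card = (Finset.univ.filter fun ψ : C.A.E →+* ℂ =>
      slf p ν C.A ψ = slf p ν (Z.X.factor i₀) φ0).card := by
    intro φ
    obtain ⟨s, rfl⟩ := exists_aut_emb (Z.X.factor i₀) φ0 φ
    exact card_fib _ _ _ _
  have hn : ∀ ψ : C.A.E →+* ℂ, (Finset.univ.filter fun φ : (Z.X.factor i₀).E →+* ℂ =>
      slf p ν (Z.X.factor i₀) φ = slf p ν C.A ψ).card =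
      (Finset.univ.filter fun φ : (Z.X.factor i₀).E →+* ℂ =>
      slf p ν (Z.X.factor i₀) φ = slf p ν C.A ψ0).card := by
    intro ψ
    obtain ⟨s, rfl⟩ := exists_aut_emb C.A ψ0 ψ
    exact card_fib _ _ _ _
  -- the relation
  have hrel : ∀ σ, ∑ ψ : C.A.E →+* ℂ, (C.ω (f ψ) : ℚ) * (2 * slf p ν C.A ψ σ - 1) = 0 := by
    intro σ
    refine transfer (S := (Z.X.factor i₀).E →+* ℂ) (R := C.A.E →+* ℂ)
      (slf p ν (Z.X.factor i₀)) (slf p ν C.A)
      (fun φ => (C.ω φ : ℚ) * (2 * slf p ν (Z.X.factor i₀) φ σ - 1)) _ ?_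
      (Finset.univ.filter fun ψ : C.A.E →+* ℂ =>
        slf p ν C.A ψ = slf p ν (Z.X.factor i₀) φ0).card
      (Finset.univ.filter fun φ : (Z.X.factor i₀).E →+* ℂ =>
        slf p ν (Z.X.factor i₀) φ = slf p ν C.A ψ0).card ?_ hn ?_ (C.rel σ)
    · intro φ ψ h
      have h1 : C.ω φ = C.ω (f ψ) := C.fib _ _ (by rw [h, hf])
      change (C.ω φ : ℚ) * (2 * slf p ν (Z.X.factor i₀) φ σ - 1) = _
      rw [h1, h]
    · intro φ
      rw [← hm φ]
      congr 1
      ext ψ
      rw [Finset.mem_filter, Finset.mem_filter]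
      exact and_congr Iff.rfl eq_comm
    · have h1 : φ0 ∈ Finset.univ.filter fun φ : (Z.X.factor i₀).E →+* ℂ =>
          slf p ν (Z.X.factor i₀) φ = slf p ν C.A ψ0 := by
        rw [Finset.mem_filter]
        exact ⟨Finset.mem_univ _, hs0.symm⟩
      exact (Finset.card_pos.2 ⟨_, h1⟩).ne'
  -- injectivity
  have hinj : Function.Injective (slf p ν C.A) := by
    refine comb (slf p ν C.A) (cje C.A.E) (fun ψ => C.ω (f ψ)) (fun ψ => C.val _) ?_ ?_ ?_ hrel
      hcard _ ?_ hoddc
    · intro ψ ψ' h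
      exact C.fib _ _ (by rw [← hf, ← hf, h])
    · intro ψ
      change C.ω (f (ComplexEmbedding.conjugate ψ)) = -C.ω (f ψ)
      rw [← hωc]
      refine C.fib _ _ ?_
      funext σ
      rw [← hf, slf_conj1, slf_conj1, ← hf]
    · intro ψ σ
      exact slf_conj1 _ _ _
    · intro ψ
      rw [← hm (f ψ), ← hf]
  constructor
  · -- the number of eigenvalues
    have h1 : {K : Set (Emb Z) | ∃ w, ¬ IsSuper Z w ∧ K = {w' | SameEig Z w w'}} ⊆
        ((Finset.univ.image fun ψ : C.A.E →+* ℂ =>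
          {w' : Emb Z | slf p ν C.A ψ = slf p ν (Z.X.factor w'.1) w'.2} :
          Finset (Set (Emb Z))) : Set (Set (Emb Z))) := by
      rintro K ⟨w, hw, rfl⟩
      have h2 : w.1 = i₀ := by
        by_contra h3
        exact hw (S.other w h3)
      obtain ⟨i, φ⟩ := w
      change i = i₀ at h2
      subst h2
      obtain ⟨ψ, hψ⟩ := hback φ
      rw [Finset.mem_coe, Finset.mem_image]
      refine ⟨ψ, Finset.mem_univ _, ?_⟩
      ext w'
      rw [Set.mem_setOf_eq, Set.mem_setOf_eq, hψ]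
      exact ⟨fun h => same_of_slf (Z := Z) ⟨i, φ⟩ w' h, fun h => slf_of_same (Z := Z) ⟨i, φ⟩ w' h⟩
    have h2 := Set.ncard_le_ncard h1 (Finset.finite_toSet _)
    rw [Set.ncard_coe_finset] at h2
    unfold numEig
    exact h2.trans (Finset.card_image_le.trans (by rw [Finset.card_univ]; exact hcard))
  · let W : QuadDatum Z := ⟨C.A, C.δ, C.d, C.pos, C.sq, C.mult, C.θ, C.slopes, fun ψ ψ' hne h =>
      hne (hinj (by
        rw [← hθ, ← hθ]
        exact slf_of_same _ _ h))⟩
    refine ⟨W, ?_⟩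
    rintro ⟨hs, u, hu⟩
    apply hu
    change {φ ∈ C.A.Φ | φ C.δ = u}.encard = {φ ∈ C.A.Φ | φ C.δ = -u}.encard
    change IsSquare (-((C.d : ℚ) : ℚ_[p])) at hs
    rw [encard_mset, encard_mset]
    have h2 : (mset C.A C.δ (ψ0 C.δ)).card = (mset C.A C.δ (-(ψ0 C.δ))).card := by
      refine mult_eq' (p := p) (ν := ν) C.A C.pos C.sq hψz hs (ε := (C.ω φ0 : ℚ))
        (by exact_mod_cast hω0) ?_
      rw [← hrel (RingEquiv.refl ℂ)]
      refine Finset.sum_congr rfl fun ψ _ => ?_
      have h3 : t ψ C.z = C.z ↔ ψ C.δ = ψ0 C.δ := by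
        rw [hzz]
        have h4 : t ψ (ψ0 C.δ) = ψ C.δ := RingHom.congr_fun (ht ψ) C.δ
        rw [h4]
      have h4 : C.ω (f ψ) = if ψ C.δ = ψ0 C.δ then C.ω φ0 else -C.ω φ0 := by
        change C.ω ((t ψ : ℂ →+* ℂ).comp φ0) = _
        rw [C.equiv]
        simp only [h3]
      rw [h4]
      split_ifs <;> push_cast <;> rfl
    by_cases hu1 : u = ψ0 C.δ
    · rw [hu1, h2]
    · by_cases hu2 : u = -(ψ0 C.δ)
      · rw [hu2, neg_neg, h2]
      · have h3 : ∀ u : ℂ, u ≠ ψ0 C.δ → u ≠ -(ψ0 C.δ) → mset C.A C.δ u = ∅ := by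
          intro u h4 h5
          refine Finset.eq_empty_of_forall_notMem fun φ hφ => ?_
          unfold mset at hφ
          rw [Finset.mem_filter] at hφ
          rcases pm_of C.sq hψz φ with h6 | h6
          · exact h4 (hφ.2.2.symm.trans h6)
          · exact h5 (hφ.2.2.symm.trans h6)
        rw [h3 u hu1 hu2, h3 (-u) (fun h => hu2 (by rw [← h, neg_neg]))
          (fun h => hu1 (neg_injective h))]

end

end Pool.Agent.K4H21.TF
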