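import Mathlib
import Pool.Agent.K4H29.HC.Neg
import Pool.Agent.K4H34.DB.Dec2
import Pool.Agent.K4H21.DB.Cs

/-!
# The simple factors of the abelian varieties of CM type have complex multiplication
(the types of the factors need not be primitive)
-/

set_option autoImplicit false
set_option linter.unusedSectionVars false
set_option linter.unusedVariables false

namespace Pool.Agent.K4H21.TF

open Module NumberField Pool.Agent.Y90 Pool.Agent.R915 Pool.Agent.K4H29.HC
open Pool.Agent.W547.KB (CMPair CMAV Wt)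
open Pool.Agent.K4H21.DB (toAV)

noncomputable section

/-- The algebra of endomorphisms. -/
def endA (Y : AV) : Subalgebra ℚ (Module.End ℚ Y.H) where
  carrier := {d | IsHom Y Y d}
  mul_mem' := fun {a b} ha hb => IsHom.comp' (f := b) (g := a) ha hb
  one_mem' := isHom_id Y
  add_mem' := fun {a b} ha hb => isHom_add ha hb
  zero_mem' := isHom_zero Y Y
  algebraMap_mem' := fun q => by
    have h := isHom_smul q (isHom_id Y)
    exact h

/-- A simple abelian variety with a nonzero homomorphism to an abelian variety of CM type has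
complex multiplication. -/
theorem cm_of_hom (A : CMPair) (hP : ∃ E, IsPolarization (perC A) E) {Y : AV} (hs : IsSimple Y)
    {f : Y.H →ₗ[ℚ] A.E} (hf : IsHom Y (avP A hP) f) (h0 : f ≠ 0) : HasCMult Y := by
  classical
  obtain ⟨y, hy⟩ := hs.1
  have hfy : f y ≠ 0 := fun h => h0 (simple_hom_zero (Y := avP A hP) hs hf hy h)
  -- each homomorphism is a multiple of `f`
  have key : ∀ g : Y.H →ₗ[ℚ] A.E, IsHom Y (avP A hP) g → ∀ v, g v = (g y / f y) * f v := by
    intro g hg
    have h1 : IsHom Y (avP A hP) ((mulE A (g y / f y)).comp f) :=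
      IsHom.comp' (X := Y) (Y := avP A hP) (W := avP A hP) (isHom_mulE _) hf
    have h2 : IsHom Y (avP A hP) (g - (mulE A (g y / f y)).comp f) :=
      isHom_sub (X := Y) (Y := avP A hP) hg h1
    have h3 := simple_hom_zero (X := Y) (Y := avP A hP) hs h2 hy (by
      change g y - (g y / f y) * f y = 0
      rw [div_mul_cancel₀ _ hfy, sub_self])
    intro v
    have h4 : g v - (g y / f y) * f v = 0 := LinearMap.congr_fun h3 v
    exact sub_eq_zero.1 h4
  have hinj : Function.Injective f := by
    rw [injective_iff_map_eq_zero]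
    intro v hv
    by_contra hne
    exact h0 (simple_hom_zero (X := Y) (Y := avP A hP) hs hf hne hv)
  -- a surjective homomorphism in the other direction
  obtain ⟨r, hr, hrs⟩ : ∃ r : A.E →ₗ[ℚ] Y.H, IsHom (avP A hP) Y r ∧ Function.Surjective r := by
    obtain ⟨p⟩ := exists_polD Y
    obtain ⟨q⟩ := exists_polD (avP A hP)
    obtain ⟨g, hg, hadj⟩ := exists_adj p q hf
    refine ⟨g, hg, ?_⟩
    have h1 : Function.Injective (g.comp f : Y.H →ₗ[ℚ] Y.H) := by
      rw [injective_iff_map_eq_zero]
      intro v hv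
      have h2 := adj_inj p q hf hg hadj (x := v) hv
      exact hinj (h2.trans (map_zero f).symm)
    have h2 : Function.Surjective (g.comp f : Y.H →ₗ[ℚ] Y.H) := LinearMap.injective_iff_surjective.1 h1
    intro v
    obtain ⟨u, hu⟩ := h2 v
    exact ⟨f u, hu⟩
  have hcomp : ∀ d : Y.H →ₗ[ℚ] Y.H, IsHom Y Y d → IsHom Y (avP A hP) (f.comp d) := fun d hd =>
    IsHom.comp' (X := Y) (Y := Y) (W := avP A hP) hf hd
  refine ⟨endA Y, ?_, ?_, fun a ha => ha⟩
  · intro a ha b hb
    apply LinearMap.ext
    intro v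
    apply hinj
    change f (a (b v)) = f (b (a v))
    have h1 : ∀ v, f (a v) = _ := key (f.comp a) (hcomp a ha)
    have h2 : ∀ v, f (b v) = _ := key (f.comp b) (hcomp b hb)
    rw [h1, h2, h2, h1]
    ring
  · let E : endA Y →ₗ[ℚ] Y.H :=
      { toFun := fun d => d.1 y
        map_add' := fun _ _ => rfl
        map_smul' := fun _ _ => rfl }
    refine LinearEquiv.finrank_eq (LinearEquiv.ofBijective E ⟨?_, ?_⟩)
    · rw [injective_iff_map_eq_zero]
      intro d hd
      exact Subtype.ext (simple_hom_zero hs d.2 hy hd)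
    · intro v
      obtain ⟨x, rfl⟩ := hrs v
      have h1 : IsHom Y Y (r.comp ((mulE A (x / f y)).comp f)) :=
        IsHom.comp' (X := Y) (Y := avP A hP) (W := Y) hr
          (IsHom.comp' (X := Y) (Y := avP A hP) (W := avP A hP) (isHom_mulE _) hf)
      refine ⟨⟨_, h1⟩, ?_⟩
      change r ((x / f y) * f y) = r x
      rw [div_mul_cancel₀ _ hfy]

/-- The factors can be polarized. -/
theorem pol_factor (X : CMAV) (q : X.I) : ∃ E, IsPolarization (perC (X.factor q)) E := by
  classical
  refine pol_of_factor (X := toAV X) (LinearMap.single ℚ (fun i => (X.factor i).E) q)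
    (LinearMap.single ℂ (fun i => (X.factor i).Φ → ℂ) q) ?_ fun a => ?_
  · intro a b h
    exact Pi.single_injective q h
  · funext l
    change (Pi.single q (perC (X.factor q) a) : ∀ i, (X.factor i).Φ → ℂ) l =
      fun φ => φ.1 ((Pi.single q a : X.H1) l)
    by_cases hl : l = q
    · subst hl
      rw [Pi.single_eq_same, Pi.single_eq_same]
      rfl
    · rw [Pi.single_eq_of_ne hl, Pi.single_eq_of_ne hl]
      funext φ
      exact (map_zero φ.1).symm

/-- **The simple factors have complex multiplication.** -/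
theorem cm_factor (X : CMAV) (Y : AV) (hY : IsFactor Y (toAV X)) : HasCMult Y := by
  obtain ⟨hs, g, hg, ginj⟩ := hY
  obtain ⟨y, hy⟩ := hs.1
  have h2 : g y ≠ 0 := fun h => hy (ginj (h.trans (map_zero g).symm))
  obtain ⟨q, hq⟩ : ∃ q, (g y : X.H1) q ≠ 0 := by
    by_contra hcon
    push Not at hcon
    exact h2 (funext hcon)
  obtain ⟨Ψ, hΨ⟩ := hg
  let f : Y.H →ₗ[ℚ] (X.factor q).E :=
    (LinearMap.proj (R := ℚ) (φ := fun i => (X.factor i).E) q).comp g
  have hf : IsHom Y (avP (X.factor q) (pol_factor X q)) f := by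
    refine ⟨(LinearMap.proj (R := ℂ) (φ := fun i => (X.factor i).Φ → ℂ) q).comp Ψ, fun v => ?_⟩
    change (Ψ (Y.per v)) q = perC (X.factor q) (g v q)
    rw [hΨ]
    rfl
  refine cm_of_hom _ _ hs hf ?_
  intro h
  exact hq (LinearMap.congr_fun h y)

end

end Pool.Agent.K4H21.TF
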