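import Pool.Agent.K4H21.TF.CmFac
import Pool.Agent.K4H21.LC.Cls2
import Pool.Agent.K4H21.LC.Eig

/-!
# The weights of split Weil classes
-/

set_option autoImplicit false
set_option linter.unusedSectionVars false
set_option linter.unusedVariables false

namespace Pool.Agent.K4H21.TF

open Module NumberField Pool.Agent.R915 Pool.Agent.K4H29.HC Pool.Agent.K4H21.DB Pool.Agent.K4H21.LC
open Pool.Agent.Y90 (AV IsHom IsPolarization)
open Pool.Agent.W547.KB (CMPair CMAV Wt ev)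
open Pool.Agent.W547.LD (IsSplitWeilClass)
open Pool.Agent.W547.LN (SameType)

noncomputable section

/-- The additive extension of a function. -/
def lam (yy : ((ℂ ≃+* ℂ) → ℚ) → ℤ) : (((ℂ ≃+* ℂ) → ℚ) →₀ ℤ) →+ ℤ :=
  Finsupp.liftAddHom fun s => AddMonoidHom.mulRight (yy s)

theorem lam_single (yy : ((ℂ ≃+* ℂ) → ℚ) → ℤ) (s : (ℂ ≃+* ℂ) → ℚ) :
    lam yy (Finsupp.single s 1) = yy s := by
  unfold lam
  rw [Finsupp.liftAddHom_apply_single]
  simp

theorem lam_mI (yy : ((ℂ ≃+* ℂ) → ℚ) → ℤ) {X : CMAV} {κ : Type} [Fintype κ] [DecidableEq κ]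
    (I : κ → Wt X ℂ) : lam yy (mI I) = ∑ k, yy (signs (X.factor (I k).1) (I k).2) := by
  unfold mI
  rw [map_sum]
  exact Finset.sum_congr rfl fun k _ => lam_single yy _

theorem ex_int {N : ℕ} (hN : 0 < N) (z : ℤ) : ex ((z : ℚ) / N) = 1 ↔ (N : ℤ) ∣ z := by
  have hN' : (N : ℚ) ≠ 0 := by exact_mod_cast hN.ne'
  rw [ex_eq_one, AddCircle.coe_eq_zero_iff]
  constructor
  · rintro ⟨n, hn⟩
    refine ⟨n, ?_⟩
    have h1 : (n : ℚ) = z / N := by simpa using hn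
    rw [eq_div_iff hN'] at h1
    have h2 : n * (N : ℤ) = z := by exact_mod_cast h1
    rw [← h2, mul_comm]
  · rintro ⟨n, rfl⟩
    refine ⟨n, ?_⟩
    push_cast
    field_simp
    simp

theorem wt_core {N : ℕ} (hN : 0 < N) (yy : ((ℂ ≃+* ℂ) → ℚ) → ℤ)
    (hconj : ∀ (A : CMPair) (φ : A.E →+* ℂ),
      (N : ℤ) ∣ yy (signs A φ) + yy (signs A (ComplexEmbedding.conjugate φ)))
    (hweil : ∀ (A : CMPair) (δ : A.E) (d : ℚ) (z : ℂ), 0 < d → δ * δ = -(d : A.E) →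
      (∀ u : ℂ, {φ ∈ A.Φ | φ δ = u}.encard ≤ 3) →
      (N : ℤ) ∣ ∑ φ ∈ Finset.univ.filter (fun φ : A.E →+* ℂ => φ δ = z), yy (signs A φ))
    (X : CMAV) {n : ℕ} (hn : n = 4 ∨ n = 6) (f : X.H1 [⋀^Fin n]→ₗ[ℚ] ℚ)
    (hf : IsSplitWeilClass X n f) (c : (Fin n → Wt X ℂ) → ℂ)
    (hc : ∀ v : Fin n → X.H1, ((f v : ℚ) : ℂ) = ∑ I, c I * ∏ k, ev (v k) (I k))
    (I : Fin n → Wt X ℂ) (hI : c I ≠ 0) :
    (N : ℤ) ∣ ∑ k, yy (signs (X.factor (I k).1) (I k).2) := by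
  classical
  obtain ⟨X0, hfac, hall0, -, J, R, hJ, hR, hRJ, hJR⟩ := Pool.Agent.K4H34.DB.dec (toAV X)
  have hJR' : ∀ v, J (R v) = v := hJR (cm_factor X)
  obtain ⟨ι, _, P, hP, hne, hall⟩ := exists_types (toAV X)
  have hprim : ∀ i, Primitive (P i) := fun i => (hP i).1
  have hpol : ∀ i, ∃ E, IsPolarization (perC (P i)) E := fun i => by
    obtain ⟨-, emb, Ψ, hinj, hΨ⟩ := hP i
    exact pol_of_factor emb Ψ hinj hΨ
  let T : ((ℂ ≃+* ℂ) → ℚ) → ℂ := fun s => ex ((yy s : ℚ) / N)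
  let t : ∀ i, ((P i).E →+* ℂ) → ℂ := fun i φ => T (signs (P i) φ)
  have hT : Tor 3 P t :=
    { conj := fun i φ => by
        change ex _ * ex _ = 1
        rw [← ex_add, ← add_div, ← Int.cast_add, ex_int hN]
        exact hconj (P i) φ
      det := fun i δ d z hd hδ hb => by
        change ∏ φ ∈ Finset.univ.filter (fun φ : (P i).E →+* ℂ => φ δ = z),
          ex ((yy (signs (P i) φ) : ℚ) / N) = 1
        rw [← ex_sum, ← Finset.sum_div, ← Int.cast_sum, ex_int hN]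
        exact hweil (P i) δ d z hd hδ hb }
  choose cf hcf using fun i => exists_cf (P i).E (t i)
  have hA : Alg (toAV X) (Fin n) f := Alg.weil (X := toAV X) hn f
    (weil_of_split (Pool.Agent.K4H34.DB.exists_pol X) hf)
  have hFix : Fix (cc cf) (Op hpol hprim (fun i => finBasis ℚ (P i).E) (toAV X)) f :=
    fix_alg hpol hprim hne t cf hcf hT hA
  let f0 : (toAV X0).H [⋀^Fin n]→ₗ[ℚ] ℚ := AlternatingMap.compLinearMap f J
  have hFix0 : Fix (cc cf) (Op hpol hprim (fun i => finBasis ℚ (P i).E) (toAV X0)) f0 :=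
    fix_comp J (fun r v => Op_natural hpol hprim hJ r v) hFix
  obtain ⟨L, _, _, _, _, j, hj⟩ := exists_cmL X0
  obtain ⟨-, c0, -, hc0, -, -⟩ := exists_coef (X0 := X0) j hj (κ := Fin n) f0
  let S : Set (((ℂ ≃+* ℂ) → ℚ) →₀ ℤ) := {m | (N : ℤ) ∣ lam yy m}
  have hS : ∀ I0, c0 I0 ≠ 0 → mI I0 ∈ S := by
    intro I0 hI0
    have h1 := coeff_fix hpol hprim hne X0 (fun i => (hfac i).1)
      (fun i => hall _ (hfac i)) T cf (fun i ψ => hcf i ψ) (κ := Fin n) f0 c0 hc0 hFix0 I0 hI0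
    change (N : ℤ) ∣ lam yy (mI I0)
    rw [lam_mI, ← ex_int hN, Int.cast_sum, Finset.sum_div, ex_sum]
    exact h1
  have hW0 := wedge_of_coef (X0 := X0) (κ := Fin n) (S := S) f0 c0 hS hc0
  have hW := wedges_pull (Y := toAV X) (Z := toAV X0) hR hW0
  have hW' : (fun v : Fin n → (toAV X).H => ((f v : ℚ) : ℂ)) ∈ Wedges (toAV X) (Fin n) S := by
    convert hW using 1
    funext v
    change _ = ((f fun k => J (R (v k)) : ℚ) : ℂ)
    simp only [hJR']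
  obtain ⟨c', h1, h2⟩ := coefIn_wedge (X0 := X) (fun A u Ψ hΨ φ => hom_expand X A u Ψ hΨ φ) hW'
  have h3 : c = c' := coeff_unique X c c' fun v => (hc v).symm.trans (h2 v)
  have h4 : mI I ∈ S := h1 I (h3 ▸ hI)
  rw [← lam_mI]
  exact h4

end

end Pool.Agent.K4H21.TF
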